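import Mathlib

/-!
# Orthogonal Lie algebras in dimensions four and six
-/

set_option linter.unusedSectionVars false

namespace Pool.Agent.H926

open Module LinearMap

variable {W : Type*} [AddCommGroup W] [Module ℂ W]

/-- The operator given by a bivector. -/
noncomputable def wdL (S : W →ₗ[ℂ] W →ₗ[ℂ] ℂ) : W →ₗ[ℂ] W →ₗ[ℂ] End ℂ W :=
  LinearMap.mk₂ ℂ (fun u v => (S u).smulRight v - (S v).smulRight u)
    (fun u u' v => by
      refine LinearMap.ext fun x => ?_
      simp only [map_add, LinearMap.sub_apply, LinearMap.smulRight_apply, LinearMap.add_apply,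
        add_smul, smul_add]
      abel)
    (fun c u v => by
      refine LinearMap.ext fun x => ?_
      simp only [map_smul, LinearMap.sub_apply, LinearMap.smulRight_apply, LinearMap.smul_apply,
        smul_sub, smul_assoc, smul_comm c])
    (fun u v v' => by
      refine LinearMap.ext fun x => ?_
      simp only [map_add, LinearMap.sub_apply, LinearMap.smulRight_apply, LinearMap.add_apply,
        add_smul, smul_add]
      abel)
    (fun c u v => by
      refine LinearMap.ext fun x => ?_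
      simp only [map_smul, LinearMap.sub_apply, LinearMap.smulRight_apply, LinearMap.smul_apply,
        smul_sub, smul_assoc, smul_comm c])

/-- The operator given by two vectors. -/
noncomputable abbrev wd (S : W →ₗ[ℂ] W →ₗ[ℂ] ℂ) (u v : W) : End ℂ W := wdL S u v

variable {S : W →ₗ[ℂ] W →ₗ[ℂ] ℂ}

theorem wd_apply (u v x : W) : wd S u v x = S u x • v - S v x • u := rfl

theorem wd_self (u : W) : wd S u u = 0 := by
  refine LinearMap.ext fun x => ?_
  rw [wd_apply, sub_self, LinearMap.zero_apply]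

theorem wd_swap (u v : W) : wd S u v = -wd S v u := by
  refine LinearMap.ext fun x => ?_
  rw [wd_apply, LinearMap.neg_apply, wd_apply, neg_sub]

theorem wd_add_left (u u' v : W) : wd S (u + u') v = wd S u v + wd S u' v := by
  change wdL S (u + u') v = _
  rw [map_add]
  rfl

theorem wd_add_right (u v v' : W) : wd S u (v + v') = wd S u v + wd S u v' :=
  map_add (wdL S u) v v'

theorem wd_smul_left (c : ℂ) (u v : W) : wd S (c • u) v = c • wd S u v := by
  change wdL S (c • u) v = _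
  rw [map_smul]
  rfl

theorem wd_smul_right (c : ℂ) (u v : W) : wd S u (c • v) = c • wd S u v :=
  map_smul (wdL S u) c v

theorem wd_neg_left (u v : W) : wd S (-u) v = -wd S u v := by
  change wdL S (-u) v = _
  rw [map_neg]
  rfl

theorem wd_neg_right (u v : W) : wd S u (-v) = -wd S u v := map_neg (wdL S u) v

/-- Bracket with a bivector. -/
theorem wd_br {g : End ℂ W} (hg : ∀ x y, S (g x) y = -S x (g y)) (u v : W) :
    g * wd S u v - wd S u v * g = wd S (g u) v + wd S u (g v) := by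
  refine LinearMap.ext fun x => ?_
  rw [LinearMap.sub_apply, Module.End.mul_apply, Module.End.mul_apply, LinearMap.add_apply,
    wd_apply, wd_apply, wd_apply, wd_apply, map_sub, map_smul, map_smul, hg, hg]
  simp only [neg_smul]
  abel

/-- All bivectors from those of a basis. -/
theorem wd_all {ι : Type*} (b : Basis ι ℂ W) {G : Submodule ℂ (End ℂ W)}
    (h : ∀ i j, wd S (b i) (b j) ∈ G) (u v : W) : wd S u v ∈ G := by
  have h1 : ∀ i, ∀ v, wd S (b i) v ∈ G := by
    intro i v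
    have hv : v ∈ Submodule.span ℂ (Set.range b) := by
      rw [b.span_eq]
      trivial
    induction hv using Submodule.span_induction with
    | mem x hx =>
      obtain ⟨j, rfl⟩ := hx
      exact h i j
    | zero =>
      rw [wd, map_zero]
      exact G.zero_mem
    | add x y _ _ hx hy =>
      rw [wd_add_right]
      exact G.add_mem hx hy
    | smul c x _ hx =>
      rw [wd_smul_right]
      exact G.smul_mem _ hx
  have hu : u ∈ Submodule.span ℂ (Set.range b) := by
    rw [b.span_eq]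
    trivial
  induction hu using Submodule.span_induction with
  | mem x hx =>
    obtain ⟨j, rfl⟩ := hx
    exact h1 j v
  | zero =>
    rw [wd, map_zero, LinearMap.zero_apply]
    exact G.zero_mem
  | add x y _ _ hx hy =>
    rw [wd_add_left]
    exact G.add_mem hx hy
  | smul c x _ hx =>
    rw [wd_smul_left]
    exact G.smul_mem _ hx

/-- A triple. -/
structure Trp (D N M : End ℂ W) : Prop where
  nn : N * N = 0
  mm : M * M = 0
  sub : N * M - M * N = D
  add : N * M + M * N = 1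

section trp

variable {D N M : End ℂ W} (t : Trp D N M)

include t

theorem Trp.nmn : N * M * N = N := by
  have h1 : N * (N * M + M * N) = N := by rw [t.add, mul_one]
  rw [mul_add, ← mul_assoc, t.nn, zero_mul, zero_add, ← mul_assoc] at h1
  exact h1

theorem Trp.mnm : M * N * M = M := by
  have h1 : (N * M + M * N) * M = M := by rw [t.add, one_mul]
  rw [add_mul, mul_assoc, t.mm, mul_zero, zero_add] at h1
  exact h1

theorem Trp.dn : D * N = N := by
  rw [← t.sub, sub_mul, t.nmn, mul_assoc, t.nn, mul_zero, sub_zero]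

theorem Trp.nd : N * D = -N := by
  rw [← t.sub, mul_sub, ← mul_assoc, t.nn, zero_mul, ← mul_assoc, t.nmn, zero_sub]

theorem Trp.dm : D * M = -M := by
  rw [← t.sub, sub_mul, mul_assoc, t.mm, mul_zero, t.mnm, zero_sub]

theorem Trp.md : M * D = M := by
  rw [← t.sub, mul_sub, ← mul_assoc, t.mnm, ← mul_assoc, t.mm, zero_mul, sub_zero]

theorem Trp.dd : D * D = 1 := by
  nth_rewrite 2 [← t.sub]
  rw [mul_sub, ← mul_assoc, t.dn, ← mul_assoc, t.dm, neg_mul, sub_neg_eq_add, t.add]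

end trp

/-- Skew operators. -/
def Skw (S : W →ₗ[ℂ] W →ₗ[ℂ] ℂ) (X : End ℂ W) : Prop := ∀ x y, S (X x) y = -S x (X y)

theorem Skw.br {X Y : End ℂ W} (hX : Skw S X) (hY : Skw S Y) : Skw S (X * Y - Y * X) := by
  intro x y
  rw [LinearMap.sub_apply, LinearMap.sub_apply, Module.End.mul_apply, Module.End.mul_apply,
    Module.End.mul_apply, Module.End.mul_apply, map_sub, map_sub, LinearMap.sub_apply, hX, hY, hY,
    hX, neg_neg, neg_neg]
  ring

theorem Skw.iso {X : End ℂ W} (hX : Skw S X) {x y : W} {c : ℂ} (hc : c ≠ 0) (hx : X x = c • x)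
    (hy : X y = c • y) : S x y = 0 := by
  have h1 := hX x y
  rw [hx, hy, map_smul, map_smul, LinearMap.smul_apply, smul_eq_mul] at h1
  have h2 : (2 * c) * S x y = 0 := by linear_combination h1
  exact (mul_eq_zero.1 h2).resolve_left (mul_ne_zero two_ne_zero hc)

/-- **Dimension four.** -/
theorem so4 (hW : finrank ℂ W = 4) (sym : ∀ x y, S x y = S y x)
    (nd : ∀ x, (∀ y, S x y = 0) → x = 0) {D₀ N₀ M₀ D₁ N₁ M₁ : End ℂ W} (t₀ : Trp D₀ N₀ M₀)
    (t₁ : Trp D₁ N₁ M₁) (sN₀ : Skw S N₀) (sM₀ : Skw S M₀) (sN₁ : Skw S N₁) (sM₁ : Skw S M₁)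
    (c1 : N₀ * N₁ = N₁ * N₀) (c2 : N₀ * M₁ = M₁ * N₀) (c3 : M₀ * N₁ = N₁ * M₀)
    (c4 : M₀ * M₁ = M₁ * M₀) {G : Submodule ℂ (End ℂ W)} (m1 : D₀ ∈ G) (m2 : N₀ ∈ G) (m3 : M₀ ∈ G)
    (m4 : D₁ ∈ G) (m5 : N₁ ∈ G) (m6 : M₁ ∈ G) (u v : W) : wd S u v ∈ G := by
  have hfd : FiniteDimensional ℂ W := FiniteDimensional.of_finrank_pos (by omega)
  have sD₀ : Skw S D₀ := by
    rw [← t₀.sub]
    exact sN₀.br sM₀
  have sD₁ : Skw S D₁ := by
    rw [← t₁.sub]
    exact sN₁.br sM₁
  have hne : N₀ * N₁ ≠ 0 := by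
    intro h0
    have k1 : N₁ = 0 := by
      have h1 : (M₀ * N₀ + N₀ * M₀) * N₁ = 0 := by
        rw [add_mul, mul_assoc, h0, mul_zero, mul_assoc, c3, ← mul_assoc, h0, zero_mul, add_zero]
      rw [add_comm, t₀.add, one_mul] at h1
      exact h1
    have h2 := t₁.add
    rw [k1, zero_mul, mul_zero, add_zero] at h2
    have h3 : (0 : End ℂ W) = 1 := h2
    have h4 : Subsingleton W := by
      refine ⟨fun a b => ?_⟩
      have ha := LinearMap.congr_fun h3 a
      have hb := LinearMap.congr_fun h3 b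
      rw [LinearMap.zero_apply, Module.End.one_apply] at ha hb
      rw [← ha, ← hb]
    rw [Module.finrank_zero_of_subsingleton] at hW
    omega
  obtain ⟨x, hx⟩ : ∃ x, (N₀ * N₁) x ≠ 0 := by
    by_contra hcon
    push Not at hcon
    exact hne (LinearMap.ext hcon)
  obtain ⟨w, hw⟩ : ∃ w, w = (N₀ * N₁) x := ⟨_, rfl⟩
  rw [← hw] at hx
  have n0w : N₀ w = 0 := by
    rw [hw, ← Module.End.mul_apply, ← mul_assoc, t₀.nn, zero_mul, LinearMap.zero_apply]
  have n1w : N₁ w = 0 := by
    rw [hw, ← Module.End.mul_apply, c1, ← mul_assoc, t₁.nn, zero_mul, LinearMap.zero_apply]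
  have nm0 : ∀ y, N₀ (M₀ y) = y - M₀ (N₀ y) := by
    intro y
    have h1 := LinearMap.congr_fun t₀.add y
    rw [LinearMap.add_apply, Module.End.mul_apply, Module.End.mul_apply, Module.End.one_apply] at h1
    exact eq_sub_of_add_eq h1
  have nm1 : ∀ y, N₁ (M₁ y) = y - M₁ (N₁ y) := by
    intro y
    have h1 := LinearMap.congr_fun t₁.add y
    rw [LinearMap.add_apply, Module.End.mul_apply, Module.End.mul_apply, Module.End.one_apply] at h1
    exact eq_sub_of_add_eq h1
  have C2 : ∀ y, N₀ (M₁ y) = M₁ (N₀ y) := fun y => LinearMap.congr_fun c2 y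
  have C3 : ∀ y, N₁ (M₀ y) = M₀ (N₁ y) := fun y => (LinearMap.congr_fun c3 y).symm
  have C4 : ∀ y, M₁ (M₀ y) = M₀ (M₁ y) := fun y => (LinearMap.congr_fun c4 y).symm
  have MM0 : ∀ y, M₀ (M₀ y) = 0 := fun y => LinearMap.congr_fun t₀.mm y
  have MM1 : ∀ y, M₁ (M₁ y) = 0 := fun y => LinearMap.congr_fun t₁.mm y
  have dd0 : ∀ y, D₀ y = N₀ (M₀ y) - M₀ (N₀ y) := fun y => (LinearMap.congr_fun t₀.sub y).symm
  have dd1 : ∀ y, D₁ y = N₁ (M₁ y) - M₁ (N₁ y) := fun y => (LinearMap.congr_fun t₁.sub y).symm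
  obtain ⟨e, he⟩ : ∃ e : Fin 4 → W, e = ![w, M₁ w, M₀ w, M₀ (M₁ w)] := ⟨_, rfl⟩
  have he0 : e 0 = w := by rw [he]; rfl
  have he1 : e 1 = M₁ w := by rw [he]; rfl
  have he2 : e 2 = M₀ w := by rw [he]; rfl
  have he3 : e 3 = M₀ (M₁ w) := by rw [he]; rfl
  have N0e0 : N₀ (e 0) = 0 := by rw [he0, n0w]
  have N0e1 : N₀ (e 1) = 0 := by rw [he1, C2, n0w, map_zero]
  have N0e2 : N₀ (e 2) = e 0 := by rw [he2, nm0, n0w, map_zero, sub_zero, he0]
  have N0e3 : N₀ (e 3) = e 1 := by rw [he3, nm0, C2, n0w, map_zero, map_zero, sub_zero, he1]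
  have N1e0 : N₁ (e 0) = 0 := by rw [he0, n1w]
  have N1e1 : N₁ (e 1) = e 0 := by rw [he1, nm1, n1w, map_zero, sub_zero, he0]
  have N1e2 : N₁ (e 2) = 0 := by rw [he2, C3, n1w, map_zero]
  have N1e3 : N₁ (e 3) = e 2 := by rw [he3, C3, nm1, n1w, map_zero, sub_zero, he2]
  have M0e0 : M₀ (e 0) = e 2 := by rw [he0, he2]
  have M0e1 : M₀ (e 1) = e 3 := by rw [he1, he3]
  have M0e2 : M₀ (e 2) = 0 := by rw [he2, MM0]
  have M0e3 : M₀ (e 3) = 0 := by rw [he3, MM0]
  have M1e0 : M₁ (e 0) = e 1 := by rw [he0, he1]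
  have M1e1 : M₁ (e 1) = 0 := by rw [he1, MM1]
  have M1e2 : M₁ (e 2) = e 3 := by rw [he2, he3, C4]
  have M1e3 : M₁ (e 3) = 0 := by rw [he3, C4, MM1, map_zero]
  have D0e0 : D₀ (e 0) = (1 : ℂ) • e 0 := by
    rw [dd0, N0e0, M0e0, N0e2, map_zero, sub_zero, one_smul]
  have D0e1 : D₀ (e 1) = (1 : ℂ) • e 1 := by
    rw [dd0, N0e1, M0e1, N0e3, map_zero, sub_zero, one_smul]
  have D0e2 : D₀ (e 2) = (-1 : ℂ) • e 2 := by
    rw [dd0, N0e2, M0e2, M0e0, map_zero, zero_sub, neg_smul, one_smul]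
  have D0e3 : D₀ (e 3) = (-1 : ℂ) • e 3 := by
    rw [dd0, N0e3, M0e3, M0e1, map_zero, zero_sub, neg_smul, one_smul]
  have D1e0 : D₁ (e 0) = (1 : ℂ) • e 0 := by
    rw [dd1, N1e0, M1e0, N1e1, map_zero, sub_zero, one_smul]
  have D1e1 : D₁ (e 1) = (-1 : ℂ) • e 1 := by
    rw [dd1, N1e1, M1e1, M1e0, map_zero, zero_sub, neg_smul, one_smul]
  have D1e2 : D₁ (e 2) = (1 : ℂ) • e 2 := by
    rw [dd1, N1e2, M1e2, N1e3, map_zero, sub_zero, one_smul]
  have D1e3 : D₁ (e 3) = (-1 : ℂ) • e 3 := by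
    rw [dd1, N1e3, M1e3, M1e2, map_zero, zero_sub, neg_smul, one_smul]
  have h1n : (1 : ℂ) ≠ 0 := one_ne_zero
  have h2n : (-1 : ℂ) ≠ 0 := neg_ne_zero.2 one_ne_zero
  have S00 := sD₀.iso h1n D0e0 D0e0
  have S01 := sD₀.iso h1n D0e0 D0e1
  have S11 := sD₀.iso h1n D0e1 D0e1
  have S02 := sD₁.iso h1n D1e0 D1e2
  have S22 := sD₀.iso h2n D0e2 D0e2
  have S23 := sD₀.iso h2n D0e2 D0e3
  have S33 := sD₀.iso h2n D0e3 D0e3
  have S13 := sD₁.iso h2n D1e1 D1e3
  obtain ⟨s, hs⟩ : ∃ s, s = S (e 0) (e 3) := ⟨_, rfl⟩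
  have S03 := hs.symm
  have S12 : S (e 1) (e 2) = -s := by rw [← M1e0, sM₁, M1e2, hs]
  have S10 : S (e 1) (e 0) = 0 := by rw [sym, S01]
  have S20 : S (e 2) (e 0) = 0 := by rw [sym, S02]
  have S30 : S (e 3) (e 0) = s := by rw [sym, S03]
  have S21 : S (e 2) (e 1) = -s := by rw [sym, S12]
  have S31 : S (e 3) (e 1) = 0 := by rw [sym, S13]
  have S32 : S (e 3) (e 2) = 0 := by rw [sym, S23]
  -- the basis
  have hli : LinearIndependent ℂ e := by
    rw [Fintype.linearIndependent_iff]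
    intro g hg
    rw [Fin.sum_univ_four] at hg
    have a3 : g 3 = 0 := by
      have h1 := congrArg (fun y => N₀ (N₁ y)) hg
      simp only [map_add, map_smul, N1e0, N1e1, N1e2, N1e3, N0e0, N0e2, smul_zero, zero_add,
        map_zero] at h1
      exact (smul_eq_zero.1 h1).resolve_right (by rw [he0]; exact hx)
    have a2 : g 2 = 0 := by
      have h1 := congrArg (fun y => N₀ y) hg
      simp only [map_add, map_smul, N0e0, N0e1, N0e2, N0e3, smul_zero, zero_add,
        map_zero, a3, zero_smul, add_zero] at h1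
      exact (smul_eq_zero.1 h1).resolve_right (by rw [he0]; exact hx)
    have a1 : g 1 = 0 := by
      have h1 := congrArg (fun y => N₁ y) hg
      simp only [map_add, map_smul, N1e0, N1e1, N1e2, N1e3, smul_zero, zero_add,
        map_zero, a3, zero_smul, add_zero] at h1
      exact (smul_eq_zero.1 h1).resolve_right (by rw [he0]; exact hx)
    have a0 : g 0 = 0 := by
      rw [a1, a2, a3, zero_smul, zero_smul, zero_smul, add_zero, add_zero, add_zero] at hg
      exact (smul_eq_zero.1 hg).resolve_right (by rw [he0]; exact hx)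
    intro i
    fin_cases i
    · exact a0
    · exact a1
    · exact a2
    · exact a3
  let b : Basis (Fin 4) ℂ W := basisOfLinearIndependentOfCardEqFinrank hli (by
    rw [hW, Fintype.card_fin])
  have hb : ∀ i, b i = e i := fun i => by
    rw [coe_basisOfLinearIndependentOfCardEqFinrank]
  have ext4 : ∀ X Y : End ℂ W, X (e 0) = Y (e 0) → X (e 1) = Y (e 1) → X (e 2) = Y (e 2) →
      X (e 3) = Y (e 3) → X = Y := by
    intro X Y h0 h1 h2 h3
    refine b.ext fun i => ?_
    rw [hb]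
    fin_cases i
    · exact h0
    · exact h1
    · exact h2
    · exact h3
  have w01 : wd S (e 0) (e 1) = s • N₀ := by
    refine ext4 _ _ ?_ ?_ ?_ ?_ <;>
      simp [wd_apply, LinearMap.smul_apply, S00, S01, S02, S03, S10, S11, S12, S13, N0e0, N0e1,
        N0e2, N0e3]
  have w23 : wd S (e 2) (e 3) = -s • M₀ := by
    refine ext4 _ _ ?_ ?_ ?_ ?_ <;>
      simp [wd_apply, LinearMap.smul_apply, S20, S21, S22, S23, S30, S31, S32, S33, M0e0, M0e1,
        M0e2, M0e3]
  have w02 : wd S (e 0) (e 2) = s • N₁ := by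
    refine ext4 _ _ ?_ ?_ ?_ ?_ <;>
      simp [wd_apply, LinearMap.smul_apply, S00, S01, S02, S03, S20, S21, S22, S23, N1e0, N1e1,
        N1e2, N1e3]
  have w13 : wd S (e 1) (e 3) = -s • M₁ := by
    refine ext4 _ _ ?_ ?_ ?_ ?_ <;>
      simp [wd_apply, LinearMap.smul_apply, S10, S11, S12, S13, S30, S31, S32, S33, M1e0, M1e1,
        M1e2, M1e3]
  have w03 : wd S (e 0) (e 3) = (-s / 2) • (D₀ + D₁) := by
    refine ext4 _ _ ?_ ?_ ?_ ?_
    · rw [wd_apply, LinearMap.smul_apply, LinearMap.add_apply, S00, S30, D0e0, D1e0]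
      module
    · rw [wd_apply, LinearMap.smul_apply, LinearMap.add_apply, S01, S31, D0e1, D1e1]
      module
    · rw [wd_apply, LinearMap.smul_apply, LinearMap.add_apply, S02, S32, D0e2, D1e2]
      module
    · rw [wd_apply, LinearMap.smul_apply, LinearMap.add_apply, S03, S33, D0e3, D1e3]
      module
  have w12 : wd S (e 1) (e 2) = (s / 2) • (D₀ - D₁) := by
    refine ext4 _ _ ?_ ?_ ?_ ?_
    · rw [wd_apply, LinearMap.smul_apply, LinearMap.sub_apply, S10, S20, D0e0, D1e0]
      module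
    · rw [wd_apply, LinearMap.smul_apply, LinearMap.sub_apply, S11, S21, D0e1, D1e1]
      module
    · rw [wd_apply, LinearMap.smul_apply, LinearMap.sub_apply, S12, S22, D0e2, D1e2]
      module
    · rw [wd_apply, LinearMap.smul_apply, LinearMap.sub_apply, S13, S23, D0e3, D1e3]
      module
  have g01 : wd S (e 0) (e 1) ∈ G := by rw [w01]; exact G.smul_mem _ m2
  have g23 : wd S (e 2) (e 3) ∈ G := by rw [w23]; exact G.smul_mem _ m3
  have g02 : wd S (e 0) (e 2) ∈ G := by rw [w02]; exact G.smul_mem _ m5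
  have g13 : wd S (e 1) (e 3) ∈ G := by rw [w13]; exact G.smul_mem _ m6
  have g03 : wd S (e 0) (e 3) ∈ G := by rw [w03]; exact G.smul_mem _ (G.add_mem m1 m4)
  have g12 : wd S (e 1) (e 2) ∈ G := by rw [w12]; exact G.smul_mem _ (G.sub_mem m1 m4)
  have gsw : ∀ i j, wd S (e i) (e j) ∈ G → wd S (e j) (e i) ∈ G := by
    intro i j hij
    rw [wd_swap]
    exact G.neg_mem hij
  have gss : ∀ i, wd S (e i) (e i) ∈ G := by
    intro i
    rw [wd_self]
    exact G.zero_mem
  refine wd_all b (fun i j => ?_) u v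
  rw [hb, hb]
  fin_cases i <;> fin_cases j <;>
    first
    | exact gss _
    | exact g01
    | exact g02
    | exact g03
    | exact g12
    | exact g13
    | exact g23
    | exact gsw _ _ g01
    | exact gsw _ _ g02
    | exact gsw _ _ g03
    | exact gsw _ _ g12
    | exact gsw _ _ g13
    | exact gsw _ _ g23

end Pool.Agent.H926
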