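import Mathlib
import Pool.Agent.H926.So4
import Pool.Graph.R_seed8.Y91.JP.Abs

/-!
# Orthogonal Lie algebras in dimension six
-/

set_option linter.unusedSectionVars false

namespace Pool.Agent.H926

open Module LinearMap Pool.Agent.W548.Odd Pool.Agent.Y91.JP

variable {W : Type*} [AddCommGroup W] [Module ℂ W]

/-- A hyperbolic basis adapted to an involution. -/
structure HB {m : ℕ} (S : W →ₗ[ℂ] W →ₗ[ℂ] ℂ) (D : End ℂ W) (e f : Fin m → W) : Prop where
  De : ∀ i, D (e i) = e i
  Df : ∀ i, D (f i) = -f i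
  ee : ∀ i j, S (e i) (e j) = 0
  ff : ∀ i j, S (f i) (f j) = 0
  ef : ∀ i j, S (e i) (f j) = if i = j then 1 else 0
  exp : ∀ x, D x = x → x = ∑ i, S x (f i) • e i
  exp' : ∀ x, D x = -x → x = ∑ i, S (e i) x • f i

variable {S : W →ₗ[ℂ] W →ₗ[ℂ] ℂ}

theorem HB.swap {m : ℕ} {D : End ℂ W} {e f : Fin m → W} (h : HB S D e f)
    (sym : ∀ x y, S x y = S y x) : HB S (-D) f e where
  De i := by rw [LinearMap.neg_apply, h.Df, neg_neg]
  Df i := by rw [LinearMap.neg_apply, h.De]
  ee := h.ff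
  ff := h.ee
  ef i j := by
    rw [sym, h.ef]
    by_cases hij : i = j
    · rw [if_pos hij, if_pos hij.symm]
    · rw [if_neg hij, if_neg (Ne.symm hij)]
  exp x hx := by
    simp only [sym x]
    refine h.exp' x ?_
    rw [LinearMap.neg_apply] at hx
    rw [← neg_neg (D x), hx]
  exp' x hx := by
    simp only [fun i => sym (f i) x]
    refine h.exp x ?_
    rw [LinearMap.neg_apply, neg_inj] at hx
    exact hx

theorem exists_hb [FiniteDimensional ℂ W] {m : ℕ} (hW : finrank ℂ W = 2 * m)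
    (nd : ∀ x, (∀ y, S x y = 0) → x = 0) {D : End ℂ W} (hD2 : D * D = 1) (hD : Skw S D) :
    ∃ e f : Fin m → W, HB S D e f := by
  have DD : ∀ x, D (D x) = x := fun x => LinearMap.congr_fun hD2 x
  let P : Submodule ℂ W := LinearMap.ker (D - 1)
  let Q : Submodule ℂ W := LinearMap.ker (D + 1)
  have hP : ∀ x, x ∈ P ↔ D x = x := fun x => by
    rw [LinearMap.mem_ker, LinearMap.sub_apply, Module.End.one_apply, sub_eq_zero]
  have hQ : ∀ x, x ∈ Q ↔ D x = -x := fun x => by
    rw [LinearMap.mem_ker, LinearMap.add_apply, Module.End.one_apply, add_eq_zero_iff_eq_neg]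
  have iP : ∀ x y, D x = x → D y = y → S x y = 0 := fun x y hx hy =>
    hD.iso one_ne_zero (by rw [hx, one_smul]) (by rw [hy, one_smul])
  have iQ : ∀ x y, D x = -x → D y = -y → S x y = 0 := fun x y hx hy =>
    hD.iso (neg_ne_zero.2 one_ne_zero) (by rw [hx, neg_smul, one_smul])
      (by rw [hy, neg_smul, one_smul])
  have dec : ∀ x : W, ∃ y ∈ P, ∃ z ∈ Q, x = y + z := by
    intro x
    refine ⟨(1 / 2 : ℂ) • (x + D x), ?_, (1 / 2 : ℂ) • (x - D x), ?_, ?_⟩
    · rw [hP, map_smul, map_add, DD, add_comm]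
    · rw [hQ, map_smul, map_sub, DD, ← smul_neg, neg_sub]
    · module
  let Φ : P →ₗ[ℂ] Dual ℂ Q := S.domRestrict₁₂ P Q
  have hΦ : ∀ (x : P) (y : Q), Φ x y = S x y := fun _ _ => rfl
  have iΦ : Function.Injective Φ := by
    rw [injective_iff_map_eq_zero]
    intro x hx
    apply Subtype.ext
    refine nd _ fun y => ?_
    obtain ⟨a, ha, b, hb, rfl⟩ := dec y
    rw [map_add, iP _ _ ((hP _).1 x.2) ((hP _).1 ha), zero_add]
    exact LinearMap.congr_fun hx ⟨b, hb⟩
  let Ψ : Q →ₗ[ℂ] Dual ℂ P := S.domRestrict₁₂ Q P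
  have hΨ : ∀ (x : Q) (y : P), Ψ x y = S x y := fun _ _ => rfl
  have iΨ : Function.Injective Ψ := by
    rw [injective_iff_map_eq_zero]
    intro x hx
    apply Subtype.ext
    refine nd _ fun y => ?_
    obtain ⟨a, ha, b, hb, rfl⟩ := dec y
    rw [map_add, iQ _ _ ((hQ _).1 x.2) ((hQ _).1 hb), add_zero]
    exact LinearMap.congr_fun hx ⟨a, ha⟩
  have d1 : finrank ℂ P ≤ finrank ℂ Q := by
    have h1 := LinearMap.finrank_le_finrank_of_injective iΦ
    rwa [Subspace.dual_finrank_eq] at h1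
  have d2 : finrank ℂ Q ≤ finrank ℂ P := by
    have h1 := LinearMap.finrank_le_finrank_of_injective iΨ
    rwa [Subspace.dual_finrank_eq] at h1
  have hinf : P ⊓ Q = ⊥ := by
    rw [Submodule.eq_bot_iff]
    rintro x ⟨hx, hy⟩
    replace hx := (hP x).1 hx
    replace hy := (hQ x).1 hy
    rw [hx] at hy
    have h1 : (2 : ℂ) • x = 0 := by
      rw [two_smul]
      nth_rewrite 1 [hy]
      exact neg_add_cancel x
    exact (smul_eq_zero.1 h1).resolve_left two_ne_zero
  have hsup : P ⊔ Q = ⊤ := by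
    rw [Submodule.eq_top_iff']
    intro x
    obtain ⟨a, ha, b, hb, rfl⟩ := dec x
    exact Submodule.add_mem_sup ha hb
  have d3 := Submodule.finrank_sup_add_finrank_inf_eq P Q
  rw [hinf, hsup, finrank_top, finrank_bot, hW] at d3
  have dQ : finrank ℂ Q = m := by omega
  have dP : finrank ℂ P = finrank ℂ (Dual ℂ Q) := by
    rw [Subspace.dual_finrank_eq]
    omega
  let bQ : Basis (Fin m) ℂ Q := finBasisOfFinrankEq ℂ Q dQ
  let Φe : P ≃ₗ[ℂ] Dual ℂ Q := LinearEquiv.ofInjectiveOfFinrankEq Φ iΦ dP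
  let bP : Basis (Fin m) ℂ P := bQ.dualBasis.map Φe.symm
  have hbP : ∀ i (y : Q), S (bP i : W) (y : W) = bQ.coord i y := by
    intro i y
    have h1 : Φe (bP i) = bQ.coord i := by
      rw [Basis.map_apply, LinearEquiv.apply_symm_apply, Basis.coe_dualBasis]
    exact LinearMap.congr_fun h1 y
  have hef : ∀ i j, S (bP i : W) (bQ j : W) = if i = j then 1 else 0 := by
    intro i j
    rw [hbP, Basis.coord_apply, Basis.repr_self, Finsupp.single_apply]
    by_cases hij : i = j
    · rw [if_pos hij, if_pos hij.symm]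
    · rw [if_neg hij, if_neg (Ne.symm hij)]
  refine ⟨fun i => (bP i : W), fun i => (bQ i : W), fun i => (hP _).1 (bP i).2,
    fun i => (hQ _).1 (bQ i).2, fun i j => iP _ _ ((hP _).1 (bP i).2) ((hP _).1 (bP j).2),
    fun i j => iQ _ _ ((hQ _).1 (bQ i).2) ((hQ _).1 (bQ j).2), hef, fun x hx => ?_,
    fun x hx => ?_⟩
  · obtain ⟨x', hx'⟩ : ∃ x' : P, x' = ⟨x, (hP _).2 hx⟩ := ⟨_, rfl⟩
    have h1 := bP.sum_repr x'
    have h2 : ∀ j, S x (bQ j : W) = bP.repr x' j := by
      intro j
      have h3 : x = ((∑ i, bP.repr x' i • bP i : P) : W) := by rw [h1, hx']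
      conv_lhs => rw [h3]
      rw [Submodule.coe_sum, map_sum, LinearMap.sum_apply]
      rw [Finset.sum_eq_single j]
      · rw [Submodule.coe_smul, map_smul, LinearMap.smul_apply, hef, if_pos rfl, smul_eq_mul,
          mul_one]
      · intro i _ hi
        rw [Submodule.coe_smul, map_smul, LinearMap.smul_apply, hef, if_neg hi, smul_zero]
      · intro h4
        exact absurd (Finset.mem_univ _) h4
    simp only [h2]
    have h3 := congrArg Subtype.val h1
    rw [Submodule.coe_sum] at h3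
    rw [hx'] at h3 ⊢
    exact h3.symm
  · obtain ⟨x', hx'⟩ : ∃ x' : Q, x' = ⟨x, (hQ _).2 hx⟩ := ⟨_, rfl⟩
    have h1 := bQ.sum_repr x'
    have h2 : ∀ j, S (bP j : W) x = bQ.repr x' j := by
      intro j
      have h3 := hbP j x'
      rw [hx'] at h3 ⊢
      exact h3
    simp only [h2]
    have h3 := congrArg Subtype.val h1
    rw [Submodule.coe_sum] at h3
    rw [hx'] at h3 ⊢
    exact h3.symm

/-- The generators of the upper part. -/
noncomputable def Uo (S : W →ₗ[ℂ] W →ₗ[ℂ] ℂ) (e : Fin 3 → W) (a : W) : End ℂ W :=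
  S (e 0) a • wd S (e 1) (e 2) + S (e 1) a • wd S (e 2) (e 0) + S (e 2) a • wd S (e 0) (e 1)

theorem Uo_add (e : Fin 3 → W) (a b : W) : Uo S e (a + b) = Uo S e a + Uo S e b := by
  unfold Uo
  simp only [map_add, add_smul]
  abel

theorem Uo_smul (e : Fin 3 → W) (c : ℂ) (a : W) : Uo S e (c • a) = c • Uo S e a := by
  unfold Uo
  simp only [map_smul, smul_add, smul_assoc]

/-- The upper half. -/
theorem HB.exp3 {D : End ℂ W} {e f : Fin 3 → W} (h : HB S D e f) (x : W) (hx : D x = x) :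
    x = S x (f 0) • e 0 + S x (f 1) • e 1 + S x (f 2) • e 2 := by
  have h1 := h.exp x hx
  rwa [Fin.sum_univ_three] at h1

theorem HB.exp3' {D : End ℂ W} {e f : Fin 3 → W} (h : HB S D e f) (x : W) (hx : D x = -x) :
    x = S (e 0) x • f 0 + S (e 1) x • f 1 + S (e 2) x • f 2 := by
  have h1 := h.exp' x hx
  rwa [Fin.sum_univ_three] at h1

theorem so6_half (sym : ∀ x y, S x y = S y x) {G : Submodule ℂ (End ℂ W)}
    (hbr : ∀ y ∈ G, ∀ z ∈ G, y * z - z * y ∈ G) (hsk : ∀ g ∈ G, Skw S g) {D : End ℂ W}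
    (hD2 : D * D = 1) {e f : Fin 3 → W} (h : HB S D e f) (hirr : Irr G (-D)) {u : End ℂ W}
    (hu : u ∈ Kp G D) (hu0 : u ≠ 0) (i j : Fin 3) : wd S (e i) (e j) ∈ G := by
  have DD : ∀ x, D (D x) = x := fun x => LinearMap.congr_fun hD2 x
  have ef : ∀ i j, S (e i) (f j) = if i = j then 1 else 0 := h.ef
  have hfe : ∀ i j, S (f i) (e j) = if j = i then 1 else 0 := fun i j => by rw [sym, h.ef]
  have dec : ∀ x : W, ∃ y, D y = y ∧ ∃ z, D z = -z ∧ x = y + z := by
    intro x
    refine ⟨(1 / 2 : ℂ) • (x + D x), ?_, (1 / 2 : ℂ) • (x - D x), ?_, ?_⟩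
    · rw [map_smul, map_add, DD, add_comm]
    · rw [map_smul, map_sub, DD, ← smul_neg, neg_sub]
    · module
  have ext6 : ∀ X Y : End ℂ W, (∀ i, X (e i) = Y (e i)) → (∀ i, X (f i) = Y (f i)) → X = Y := by
    intro X Y h1 h2
    refine LinearMap.ext fun x => ?_
    obtain ⟨y, hy, z, hz, rfl⟩ := dec x
    rw [h.exp3 y hy, h.exp3' z hz]
    simp only [map_add, map_smul, h1, h2]
  -- the stable subspace
  let A : Submodule ℂ W :=
    { carrier := {a | D a = -a ∧ Uo S e a ∈ G}
      add_mem' := by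
        rintro a b ⟨h1, h2⟩ ⟨h3, h4⟩
        refine ⟨by rw [map_add, h1, h3]; abel, ?_⟩
        rw [Uo_add]
        exact G.add_mem h2 h4
      zero_mem' := by
        refine ⟨by rw [map_zero, neg_zero], ?_⟩
        unfold Uo
        simp only [map_zero, zero_smul, add_zero]
        exact G.zero_mem
      smul_mem' := by
        rintro c a ⟨h1, h2⟩
        refine ⟨by rw [map_smul, h1, smul_neg], ?_⟩
        rw [Uo_smul]
        exact G.smul_mem _ h2 }
  have huG : u ∈ G := hu.1
  have hDu : ∀ x, D (u x) = u x := fun x => LinearMap.congr_fun hu.2.1 x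
  have huD : ∀ x, u (D x) = -u x := fun x => LinearMap.congr_fun hu.2.2 x
  have hue : ∀ i, u (e i) = 0 := by
    intro i
    have h1 := huD (e i)
    rw [h.De] at h1
    have h2 : (2 : ℂ) • u (e i) = 0 := by
      rw [two_smul]
      nth_rewrite 1 [h1]
      exact neg_add_cancel _
    exact (smul_eq_zero.1 h2).resolve_left two_ne_zero
  have hua : ∀ i j, S (u (f i)) (f j) = -S (u (f j)) (f i) := by
    intro i j
    rw [hsk u huG, sym]
  have hus : ∀ i, S (u (f i)) (f i) = 0 := by
    intro i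
    have h1 := hua i i
    have h2 : (2 : ℂ) * S (u (f i)) (f i) = 0 := by linear_combination h1
    exact (mul_eq_zero.1 h2).resolve_left two_ne_zero
  obtain ⟨a, ha⟩ : ∃ a, a = S (u (f 1)) (f 2) • f 0 + S (u (f 2)) (f 0) • f 1 +
    S (u (f 0)) (f 1) • f 2 := ⟨_, rfl⟩
  have hDa : D a = -a := by
    rw [ha]
    simp only [map_add, map_smul, h.Df, smul_neg, neg_add]
  have a0 : S (e 0) a = S (u (f 1)) (f 2) := by
    rw [ha]
    simp only [map_add, map_smul, smul_eq_mul, ef]
    simp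
  have a1 : S (e 1) a = S (u (f 2)) (f 0) := by
    rw [ha]
    simp only [map_add, map_smul, smul_eq_mul, ef]
    simp
  have a2 : S (e 2) a = S (u (f 0)) (f 1) := by
    rw [ha]
    simp only [map_add, map_smul, smul_eq_mul, ef]
    simp
  have hexp : ∀ i, u (f i) = S (u (f i)) (f 0) • e 0 + S (u (f i)) (f 1) • e 1 +
      S (u (f i)) (f 2) • e 2 := fun i => h.exp3 _ (hDu _)
  have huU : u = Uo S e a := by
    refine ext6 _ _ (fun i => ?_) fun i => ?_
    · rw [hue]
      unfold Uo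
      simp only [LinearMap.add_apply, LinearMap.smul_apply, wd_apply, h.ee, zero_smul, sub_zero,
        smul_zero, add_zero]
    · unfold Uo
      rw [a0, a1, a2]
      simp only [LinearMap.add_apply, LinearMap.smul_apply, wd_apply, ef]
      rw [hexp i]
      fin_cases i
      · simp [hus, hua 2 0]
        rw [hua 0 2]
        module
      · simp [hus]
        rw [hua 1 0]
        module
      · simp [hus]
        rw [hua 2 1]
        module
  have haA : a ∈ A := ⟨hDa, huU ▸ huG⟩
  have ha0 : a ≠ 0 := by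
    intro h0
    apply hu0
    rw [huU, h0]
    unfold Uo
    simp only [map_zero, zero_smul, add_zero]
  -- stability
  have hst : ∀ x ∈ Kp G (-D), ∀ y ∈ Kp G (- -D), ∀ w ∈ A, x (y w) ∈ A := by
    rintro x hx y hy w ⟨hw1, hw2⟩
    have hxG : x ∈ G := hx.1
    have hyG : y ∈ G := hy.1
    have hDx : D * x = -x := by
      have h1 := hx.2.1
      rw [neg_mul] at h1
      rw [← neg_neg (D * x), h1]
    have hxD : x * D = x := by
      have h1 := hx.2.2
      rw [mul_neg, neg_inj] at h1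
      exact h1
    have hDy : D * y = y := by
      have h1 := hy.2.1
      rwa [neg_neg] at h1
    have hyD : y * D = -y := by
      have h1 := hy.2.2
      rwa [neg_neg] at h1
    obtain ⟨g, hg⟩ : ∃ g, g = x * y - y * x := ⟨_, rfl⟩
    have hgG : g ∈ G := hg ▸ hbr x hxG y hyG
    have hgs : Skw S g := hsk g hgG
    have hgD : D * g = g * D := by
      rw [hg, mul_sub, sub_mul, ← mul_assoc, hDx, ← mul_assoc, hDy, mul_assoc x, hyD, mul_assoc y,
        hxD]
      noncomm_ring
    have hxw : x w = 0 := by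
      have h1 := LinearMap.congr_fun hxD w
      rw [Module.End.mul_apply, hw1, map_neg] at h1
      have h2 : (2 : ℂ) • x w = 0 := by
        rw [two_smul]
        nth_rewrite 1 [← h1]
        exact neg_add_cancel _
      exact (smul_eq_zero.1 h2).resolve_left two_ne_zero
    have hgw : g w = x (y w) := by
      rw [hg, LinearMap.sub_apply, Module.End.mul_apply, Module.End.mul_apply, hxw, map_zero,
        sub_zero]
    have hDgw : D (g w) = -g w := by
      have h1 := LinearMap.congr_fun hgD w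
      rw [Module.End.mul_apply, Module.End.mul_apply, hw1, map_neg] at h1
      exact h1
    have hDge : ∀ i, D (g (e i)) = g (e i) := by
      intro i
      have h1 := LinearMap.congr_fun hgD (e i)
      rw [Module.End.mul_apply, Module.End.mul_apply, h.De] at h1
      exact h1
    rw [← hgw]
    refine ⟨hDgw, ?_⟩
    obtain ⟨c, hc⟩ : ∃ c : Fin 3 → Fin 3 → ℂ, ∀ i j, c i j = S (g (e i)) (f j) :=
      ⟨_, fun _ _ => rfl⟩
    have hge : ∀ i, g (e i) = c i 0 • e 0 + c i 1 • e 1 + c i 2 • e 2 := by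
      intro i
      rw [hc, hc, hc]
      exact h.exp3 _ (hDge i)
    have hew : ∀ i, S (e i) (g w) = -(c i 0 * S (e 0) w + c i 1 * S (e 1) w +
        c i 2 * S (e 2) w) := by
      intro i
      have h1 := hgs (e i) w
      rw [hge] at h1
      simp only [map_add, map_smul, LinearMap.add_apply, LinearMap.smul_apply, smul_eq_mul] at h1
      rw [h1, neg_neg]
    have key : Uo S e (g w) = (g * Uo S e w - Uo S e w * g) -
        (c 0 0 + c 1 1 + c 2 2) • Uo S e w := by
      have b0 := wd_br hgs (e 1) (e 2)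
      have b1 := wd_br hgs (e 2) (e 0)
      have b2 := wd_br hgs (e 0) (e 1)
      rw [hge, hge] at b0 b1 b2
      simp only [wd_add_left, wd_add_right, wd_smul_left, wd_smul_right, wd_self, smul_zero,
        add_zero, zero_add] at b0 b1 b2
      have e1 : g * Uo S e w - Uo S e w * g =
          S (e 0) w • (g * wd S (e 1) (e 2) - wd S (e 1) (e 2) * g) +
          S (e 1) w • (g * wd S (e 2) (e 0) - wd S (e 2) (e 0) * g) +
          S (e 2) w • (g * wd S (e 0) (e 1) - wd S (e 0) (e 1) * g) := by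
        unfold Uo
        simp only [mul_add, add_mul, mul_smul_comm, smul_mul_assoc, smul_sub]
        abel
      rw [e1, b0, b1, b2]
      unfold Uo
      rw [hew, hew, hew, wd_swap (e 0) (e 2), wd_swap (e 1) (e 0), wd_swap (e 2) (e 1)]
      module
    rw [key]
    exact G.sub_mem (hbr g hgG _ hw2) (G.smul_mem _ hw2)
  have hA := hirr A (fun w hw => by rw [LinearMap.neg_apply, hw.1, neg_neg]) hst
  have hall : ∀ v, D v = -v → Uo S e v ∈ G := by
    rcases hA with h1 | h1
    · exfalso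
      rw [h1, Submodule.mem_bot] at haA
      exact ha0 haA
    · intro v hv
      exact (h1 v (by rw [LinearMap.neg_apply, hv, neg_neg])).2
  have w0 : wd S (e 1) (e 2) ∈ G := by
    have h1 := hall (f 0) (h.Df 0)
    unfold Uo at h1
    simpa [ef] using h1
  have w1 : wd S (e 2) (e 0) ∈ G := by
    have h1 := hall (f 1) (h.Df 1)
    unfold Uo at h1
    simpa [ef] using h1
  have w2 : wd S (e 0) (e 1) ∈ G := by
    have h1 := hall (f 2) (h.Df 2)
    unfold Uo at h1
    simpa [ef] using h1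
  have gsw : ∀ i j, wd S (e i) (e j) ∈ G → wd S (e j) (e i) ∈ G := by
    intro i j hij
    rw [wd_swap]
    exact G.neg_mem hij
  have gss : ∀ i, wd S (e i) (e i) ∈ G := by
    intro i
    rw [wd_self]
    exact G.zero_mem
  fin_cases i <;> fin_cases j <;>
    first
    | exact gss _
    | exact w0
    | exact w1
    | exact w2
    | exact gsw _ _ w0
    | exact gsw _ _ w1
    | exact gsw _ _ w2

/-- **Dimension six.** -/
theorem so6 [FiniteDimensional ℂ W] (hW : finrank ℂ W = 6) (sym : ∀ x y, S x y = S y x)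
    (nd : ∀ x, (∀ y, S x y = 0) → x = 0) {G : Submodule ℂ (End ℂ W)}
    (hbr : ∀ y ∈ G, ∀ z ∈ G, y * z - z * y ∈ G) (hsk : ∀ g ∈ G, Skw S g) {D : End ℂ W}
    (hD : D ∈ G) (hD2 : D * D = 1) (hirr : Irr G D) (hirr' : Irr G (-D)) {u u' : End ℂ W}
    (hu : u ∈ Kp G D) (hu0 : u ≠ 0) (hu' : u' ∈ Kp G (-D)) (hu'0 : u' ≠ 0) (x y : W) :
    wd S x y ∈ G := by
  obtain ⟨e, f, h⟩ := exists_hb (m := 3) hW nd hD2 (hsk D hD)
  have DD : ∀ x, D (D x) = x := fun x => LinearMap.congr_fun hD2 x
  have w1 := so6_half sym hbr hsk hD2 h hirr' hu hu0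
  have w2 := so6_half sym hbr hsk (D := -D) (by rw [neg_mul_neg, hD2]) (h.swap sym)
    (by rw [neg_neg]; exact hirr) hu' hu'0
  have hfe : ∀ i j, S (f i) (e j) = if j = i then 1 else 0 := fun i j => by rw [sym, h.ef]
  -- mixed products
  have hsw : ∀ i j, Skw S (wd S (e i) (e j)) := fun i j => hsk _ (w1 i j)
  have w3 : ∀ i j, i ≠ j → wd S (e i) (f j) ∈ G := by
    intro i j hij
    obtain ⟨k, hki, hkj⟩ : ∃ k : Fin 3, k ≠ i ∧ k ≠ j := by
      fin_cases i <;> fin_cases j <;> first | exact absurd rfl hij | skip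
      · exact ⟨2, by decide, by decide⟩
      · exact ⟨1, by decide, by decide⟩
      · exact ⟨2, by decide, by decide⟩
      · exact ⟨0, by decide, by decide⟩
      · exact ⟨1, by decide, by decide⟩
      · exact ⟨0, by decide, by decide⟩
    have h1 := hbr _ (w1 k i) _ (w2 k j)
    rw [wd_br (hsw k i), wd_apply, wd_apply, h.ef, h.ef, h.ef, h.ef, if_pos rfl, if_neg hij,
      if_neg (Ne.symm hki), if_neg hkj, one_smul] at h1
    simp only [zero_smul, sub_zero] at h1
    have h2 : wd S (f k) (0 : W) = 0 := by rw [wd, map_zero]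
    rw [h2, add_zero] at h1
    exact h1
  have w4 : ∀ i j, i ≠ j → wd S (e i) (f i) + wd S (e j) (f j) ∈ G := by
    intro i j hij
    have h1 := hbr _ (w1 i j) _ (w2 i j)
    rw [wd_br (hsw i j), wd_apply, wd_apply, h.ef, h.ef, h.ef, h.ef, if_pos rfl, if_pos rfl,
      if_neg hij, if_neg (Ne.symm hij), one_smul, one_smul, zero_smul, zero_smul, zero_sub,
      sub_zero, wd_neg_right, wd_swap (f i) (e i), neg_neg, add_comm] at h1
    exact h1
  have w5 : ∀ i, wd S (e i) (f i) ∈ G := by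
    intro i
    obtain ⟨j, k, hij, hik, hjk⟩ : ∃ j k : Fin 3, i ≠ j ∧ i ≠ k ∧ j ≠ k := by
      fin_cases i
      · exact ⟨1, 2, by decide, by decide, by decide⟩
      · exact ⟨0, 2, by decide, by decide, by decide⟩
      · exact ⟨0, 1, by decide, by decide, by decide⟩
    have h1 := G.sub_mem (G.add_mem (w4 i j hij) (w4 i k hik)) (w4 j k hjk)
    have h2 : wd S (e i) (f i) = (1 / 2 : ℂ) • ((wd S (e i) (f i) + wd S (e j) (f j)) +
        (wd S (e i) (f i) + wd S (e k) (f k)) - (wd S (e j) (f j) + wd S (e k) (f k))) := by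
      module
    rw [h2]
    exact G.smul_mem _ h1
  have w6 : ∀ i j, wd S (e i) (f j) ∈ G := by
    intro i j
    by_cases hij : i = j
    · rw [hij]
      exact w5 j
    · exact w3 i j hij
  -- general vectors
  have dec : ∀ x : W, ∃ y, D y = y ∧ ∃ z, D z = -z ∧ x = y + z := by
    intro x
    refine ⟨(1 / 2 : ℂ) • (x + D x), ?_, (1 / 2 : ℂ) • (x - D x), ?_, ?_⟩
    · rw [map_smul, map_add, DD, add_comm]
    · rw [map_smul, map_sub, DD, ← smul_neg, neg_sub]
    · module
  have key : ∀ (P : Submodule ℂ W), (∀ i, e i ∈ P) → (∀ i, f i ∈ P) → P = ⊤ := by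
    intro P h1 h2
    rw [Submodule.eq_top_iff']
    intro x
    obtain ⟨y, hy, z, hz, rfl⟩ := dec x
    rw [h.exp3 y hy, h.exp3' z hz]
    exact P.add_mem (P.add_mem (P.add_mem (P.smul_mem _ (h1 _)) (P.smul_mem _ (h1 _)))
      (P.smul_mem _ (h1 _))) (P.add_mem (P.add_mem (P.smul_mem _ (h2 _)) (P.smul_mem _ (h2 _)))
      (P.smul_mem _ (h2 _)))
  have k1 : ∀ (u : W), (∀ i, wd S u (e i) ∈ G) → (∀ i, wd S u (f i) ∈ G) → ∀ v, wd S u v ∈ G := by
    intro u h1 h2 v
    have h3 : v ∈ G.comap (wdL S u) := by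
      rw [key (G.comap (wdL S u)) h1 h2]
      trivial
    exact h3
  have k2 : ∀ (v : W), (∀ i, wd S (e i) v ∈ G) → (∀ i, wd S (f i) v ∈ G) → ∀ u, wd S u v ∈ G := by
    intro v h1 h2 u
    have h3 : u ∈ G.comap ((wdL S).flip v) := by
      rw [key (G.comap ((wdL S).flip v)) h1 h2]
      trivial
    exact h3
  refine k2 y (fun i => k1 _ (w1 i) (w6 i) y) (fun i => k1 _ (fun j => ?_) (w2 i) y) x
  rw [wd_swap]
  exact G.neg_mem (w6 j i)

end Pool.Agent.H926
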