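import Mathlib
import Pool.Agent.H926.So6
import Pool.Graph.R_seed8.Y91.JP.Sharp
import Pool.Graph.R_seed8.Y91.JP.Sq2
import Pool.Graph.R_pool_sql_team_seeded_1acbe0a2.Y91.P.Ten3

/-!
# Irreducible orthogonal Lie algebras generated by involutions, in dimensions four and six
-/

set_option linter.unusedSectionVars false

namespace Pool.Agent.H926

open Module LinearMap Pool.Agent.W548.Odd Pool.Agent.Y91.JP Pool.Agent.Y91.P

variable {W : Type*} [AddCommGroup W] [Module ℂ W]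

/-- A symmetric form adapted to an anti-involution. -/
structure SyF (st : End ℂ W →ₗ[ℂ] End ℂ W) (S : W →ₗ[ℂ] W →ₗ[ℂ] ℂ) : Prop where
  adj : ∀ x v w, S (x v) w = S v (st x w)
  sym : ∀ v w, S v w = S w v
  nd : ∀ v, (∀ w, S v w = 0) → v = 0

variable {G : Submodule ℂ (End ℂ W)} {S : W →ₗ[ℂ] W →ₗ[ℂ] ℂ}

theorem dec_inv {D : End ℂ W} (hD2 : D * D = 1) (x : W) :
    ∃ y, D y = y ∧ ∃ z, D z = -z ∧ x = y + z := by
  have DD : ∀ x, D (D x) = x := fun x => LinearMap.congr_fun hD2 x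
  refine ⟨(1 / 2 : ℂ) • (x + D x), ?_, (1 / 2 : ℂ) • (x - D x), ?_, ?_⟩
  · rw [map_smul, map_add, DD, add_comm]
  · rw [map_smul, map_sub, DD, ← smul_neg, neg_sub]
  · module

theorem kp_zero {D u : End ℂ W} (hu : u ∈ Kp G D) {x : W} (hx : D x = x) : u x = 0 := by
  have h1 : u (D x) = -u x := LinearMap.congr_fun hu.2.2 x
  rw [hx] at h1
  have h2 : (2 : ℂ) • u x = 0 := by
    rw [two_smul]
    nth_rewrite 1 [h1]
    exact neg_add_cancel _
  exact (smul_eq_zero.1 h2).resolve_left two_ne_zero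

theorem kp_range {D u : End ℂ W} (hu : u ∈ Kp G D) (x : W) : D (u x) = u x :=
  LinearMap.congr_fun hu.2.1 x

theorem skw_alt {u : End ℂ W} (sym : ∀ x y, S x y = S y x) (hu : Skw S u) (x y : W) :
    S (u x) y = -S (u y) x := by
  rw [hu, sym]

theorem skw_self {u : End ℂ W} (sym : ∀ x y, S x y = S y x) (hu : Skw S u) (x : W) :
    S (u x) x = 0 := by
  have h1 := skw_alt sym hu x x
  have h2 : (2 : ℂ) * S (u x) x = 0 := by linear_combination h1
  exact (mul_eq_zero.1 h2).resolve_left two_ne_zero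

/-- Upper operators in dimension six. -/
theorem up_eq3 (sym : ∀ x y, S x y = S y x) {D : End ℂ W} (hD2 : D * D = 1) {e f : Fin 3 → W}
    (h : HB S D e f) {u : End ℂ W} (hu : u ∈ Kp G D) (hsu : Skw S u) :
    ∃ a, D a = -a ∧ u = Uo S e a := by
  have ef : ∀ i j, S (e i) (f j) = if i = j then 1 else 0 := h.ef
  have ext6 : ∀ X Y : End ℂ W, (∀ i, X (e i) = Y (e i)) → (∀ i, X (f i) = Y (f i)) → X = Y := by
    intro X Y h1 h2
    refine LinearMap.ext fun x => ?_
    obtain ⟨y, hy, z, hz, rfl⟩ := dec_inv hD2 x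
    rw [h.exp3 y hy, h.exp3' z hz]
    simp only [map_add, map_smul, h1, h2]
  have hua : ∀ i j, S (u (f i)) (f j) = -S (u (f j)) (f i) := fun i j => skw_alt sym hsu _ _
  have hus : ∀ i, S (u (f i)) (f i) = 0 := fun i => skw_self sym hsu _
  obtain ⟨a, ha⟩ : ∃ a, a = S (u (f 1)) (f 2) • f 0 + S (u (f 2)) (f 0) • f 1 +
    S (u (f 0)) (f 1) • f 2 := ⟨_, rfl⟩
  have a0 : S (e 0) a = S (u (f 1)) (f 2) := by
    rw [ha]
    simp only [map_add, map_smul, smul_eq_mul, ef]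
    simp
  have a1 : S (e 1) a = S (u (f 2)) (f 0) := by
    rw [ha]
    simp only [map_add, map_smul, smul_eq_mul, ef]
    simp
  have a2 : S (e 2) a = S (u (f 0)) (f 1) := by
    rw [ha]
    simp only [map_add, map_smul, smul_eq_mul, ef]
    simp
  have hexp : ∀ i, u (f i) = S (u (f i)) (f 0) • e 0 + S (u (f i)) (f 1) • e 1 +
      S (u (f i)) (f 2) • e 2 := fun i => h.exp3 _ (kp_range hu _)
  refine ⟨a, ?_, ext6 _ _ (fun i => ?_) fun i => ?_⟩
  · rw [ha]
    simp only [map_add, map_smul, h.Df, smul_neg, neg_add]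
  · rw [kp_zero hu (h.De i)]
    unfold Uo
    simp only [LinearMap.add_apply, LinearMap.smul_apply, wd_apply, h.ee, zero_smul, sub_zero,
      smul_zero, add_zero]
  · unfold Uo
    rw [a0, a1, a2]
    simp only [LinearMap.add_apply, LinearMap.smul_apply, wd_apply, ef]
    rw [hexp i]
    fin_cases i
    · simp [hus]
      rw [hua 0 2]
      module
    · simp [hus]
      rw [hua 1 0]
      module
    · simp [hus]
      rw [hua 2 1]
      module

theorem rk_le_two [FiniteDimensional ℂ W] (sym : ∀ x y, S x y = S y x) {D : End ℂ W}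
    (hD2 : D * D = 1) {e f : Fin 3 → W} (h : HB S D e f) {u : End ℂ W} (hu : u ∈ Kp G D)
    (hsu : Skw S u) : rk u ≤ 2 := by
  obtain ⟨a, ha, rfl⟩ := up_eq3 sym hD2 h hu hsu
  by_cases ha0 : a = 0
  · have h1 : Uo S e a = 0 := by
      rw [ha0]
      unfold Uo
      simp only [map_zero, zero_smul, add_zero]
    rw [h1]
    unfold rk
    rw [LinearMap.range_zero, finrank_bot]
    omega
  have hUa : Uo S e a a = 0 := by
    unfold Uo
    simp only [LinearMap.add_apply, LinearMap.smul_apply, wd_apply]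
    module
  obtain ⟨k, hk⟩ : ∃ k, S (e k) a ≠ 0 := by
    by_contra hcon
    push Not at hcon
    apply ha0
    rw [h.exp3' a ha, hcon, hcon, hcon]
    simp
  obtain ⟨P, hP⟩ : ∃ P : Submodule ℂ W, P = Submodule.span ℂ (Set.range e) := ⟨_, rfl⟩
  have h1 : LinearMap.range (Uo S e a) < P := by
    refine lt_of_le_of_ne ?_ ?_
    · rintro _ ⟨x, rfl⟩
      rw [h.exp _ (kp_range hu x), hP]
      exact Submodule.sum_mem _ fun i _ => Submodule.smul_mem _ _ (Submodule.subset_span ⟨i, rfl⟩)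
    · intro h0
      have h2 : e k ∈ P := by
        rw [hP]
        exact Submodule.subset_span ⟨k, rfl⟩
      rw [← h0] at h2
      obtain ⟨x, hx⟩ := h2
      apply hk
      rw [← hx, hsu, hUa, map_zero, neg_zero]
  have h2 : finrank ℂ P ≤ 3 := by
    rw [hP]
    have h3 := finrank_range_le_card (R := ℂ) e
    rw [Fintype.card_fin] at h3
    exact h3
  have h3 := Submodule.finrank_lt_finrank_of_lt h1
  unfold rk
  omega

variable [FiniteDimensional ℂ W] {st : End ℂ W →ₗ[ℂ] End ℂ W} (h : Setup G st) (hs : Scal G)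
  (hS : SyF st S)

include h hS in
theorem SyF.skw {g : End ℂ W} (hg : g ∈ G) : Skw S g := by
  intro x y
  rw [hS.adj, h.skew g hg, LinearMap.neg_apply, map_neg]

include h hs in
theorem exists_invol_cen {I : Submodule ℂ (End ℂ W)} (hI : IsIdl G I) (hGI : ¬ G ≤ I) :
    ∃ D ∈ G, D * D = 1 ∧ D ∈ cen G I := by
  by_contra hcon
  push Not at hcon
  apply hGI
  refine h.gen I (fun D hD hD2 => ?_) fun y hy z hz => hI.br y (hI.le hy) z hz
  exact (invol_dich h hs hI hD hD2).resolve_right (hcon D hD hD2)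

include h hs hS in
theorem wl6_gn (hW : finrank ℂ W = 6) {D : End ℂ W} (hD : D ∈ G) (hD2 : D * D = 1) :
    G ≤ gn G D := by
  by_contra hcon
  have hsk : ∀ {g}, g ∈ G → Skw S g := fun hg => hS.skw h hg
  have hntr : Nontrivial W := Module.nontrivial_of_finrank_pos (R := ℂ) (by omega)
  have hne : ∀ {E : End ℂ W}, E * E = 1 → E ≠ 0 := by
    intro E hE h0
    rw [h0, mul_zero] at hE
    exact zero_ne_one hE
  obtain ⟨D', hD', hD'2, hc⟩ := exists_invol_cen h hs (gn_idl h hD) hcon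
  obtain ⟨e, he, he0⟩ := exists_kp_ne h hs hD hD2 (hne hD2)
  obtain ⟨f, hf, hefe, -⟩ := kp_partner h hD hD2 he
  obtain ⟨e', he', he'0⟩ := exists_kp_ne h hs hD' hD'2 (hne hD'2)
  obtain ⟨f', hf', hefe', -⟩ := kp_partner h hD' hD'2 he'
  have hf2 := mem_Kn.1 hf'
  have hC := cen_idl h (gn_idl h hD)
  have key := rk_dvd h hs hD hD2 he hf hefe (idl_of_pos hC hc he'.1 he'.2.1 he'.2.2)
    (idl_of_neg hC hc hf2.1 hf2.2.1 hf2.2.2) hefe'
  obtain ⟨a, b, hab⟩ := exists_hb (m := 3) hW hS.nd hD2 (hsk hD)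
  obtain ⟨a', b', hab'⟩ := exists_hb (m := 3) hW hS.nd hD'2 (hsk hD')
  have r1 := rk_le_two hS.sym hD2 hab he (hsk he.1)
  have r2 := rk_le_two hS.sym hD'2 hab' he' (hsk he'.1)
  have p1 := rk_pos_of_ne he0
  have p2 := rk_pos_of_ne he'0
  rw [hW] at key
  obtain ⟨r, hr⟩ : ∃ r, r = rk e := ⟨_, rfl⟩
  obtain ⟨r', hr'⟩ : ∃ r', r' = rk e' := ⟨_, rfl⟩
  rw [← hr, ← hr'] at key
  rw [← hr] at r1 p1
  rw [← hr'] at r2 p2
  interval_cases r <;> interval_cases r' <;> omega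

include h hs hS in
/-- **The six-dimensional case.** -/
theorem wl6 (hW : finrank ℂ W = 6) {D : End ℂ W} (hD : D ∈ G) (hD2 : D * D = 1) (x y : W) :
    wd S x y ∈ G := by
  have hntr : Nontrivial W := Module.nontrivial_of_finrank_pos (R := ℂ) (by omega)
  have hne : ∀ {E : End ℂ W}, E * E = 1 → E ≠ 0 := by
    intro E hE h0
    rw [h0, mul_zero] at hE
    exact zero_ne_one hE
  have hD' : -D ∈ G := G.neg_mem hD
  have hD'2 : -D * -D = 1 := by rw [neg_mul_neg, hD2]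
  have hgn := wl6_gn h hs hS hW hD hD2
  have hgn' := wl6_gn h hs hS hW hD' hD'2
  obtain ⟨e, he, he0⟩ := exists_kp_ne h hs hD hD2 (hne hD2)
  obtain ⟨e', he', he'0⟩ := exists_kp_ne h hs hD' hD'2 (hne hD'2)
  exact so6 hW hS.sym hS.nd h.br (fun g hg => hS.skw h hg) hD hD2
    (fun _ hW1 hW => irr_plus h hs hD hD2 hgn he he0 hW1 hW)
    (fun _ hW1 hW => irr_plus h hs hD' hD'2 hgn' he' he'0 hW1 hW) he he0 he' he'0 x y

omit [FiniteDimensional ℂ W] in
/-- Upper operators in dimension four. -/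
theorem up_eq2 (sym : ∀ x y, S x y = S y x) {D : End ℂ W} (hD2 : D * D = 1) {e f : Fin 2 → W}
    (h : HB S D e f) {u : End ℂ W} (hu : u ∈ Kp G D) (hsu : Skw S u) :
    ∃ c : ℂ, u = c • wd S (e 0) (e 1) := by
  have ef : ∀ i j, S (e i) (f j) = if i = j then 1 else 0 := h.ef
  have hE : ∀ x, D x = x → x = S x (f 0) • e 0 + S x (f 1) • e 1 := by
    intro x hx
    have h1 := h.exp x hx
    rwa [Fin.sum_univ_two] at h1
  have hE' : ∀ x, D x = -x → x = S (e 0) x • f 0 + S (e 1) x • f 1 := by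
    intro x hx
    have h1 := h.exp' x hx
    rwa [Fin.sum_univ_two] at h1
  refine ⟨S (u (f 0)) (f 1), LinearMap.ext fun x => ?_⟩
  obtain ⟨y, hy, z, hz, rfl⟩ := dec_inv hD2 x
  have k0 : u (f 0) = S (u (f 0)) (f 1) • e 1 := by
    have h1 := hE _ (kp_range hu (f 0))
    rw [skw_self sym hsu, zero_smul, zero_add] at h1
    exact h1
  have k1 : u (f 1) = -(S (u (f 0)) (f 1) • e 0) := by
    have h1 := hE _ (kp_range hu (f 1))
    rw [skw_self sym hsu, zero_smul, add_zero, skw_alt sym hsu, neg_smul] at h1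
    exact h1
  have w0 : wd S (e 0) (e 1) (f 0) = e 1 := by
    rw [wd_apply, ef, ef]
    simp
  have w1 : wd S (e 0) (e 1) (f 1) = -e 0 := by
    rw [wd_apply, ef, ef]
    simp
  have w2 : wd S (e 0) (e 1) y = 0 := by
    rw [hE y hy]
    simp [wd_apply, h.ee]
  rw [LinearMap.smul_apply, map_add, map_add, kp_zero hu hy, w2, zero_add, zero_add]
  rw [hE' z hz]
  simp only [map_add, map_smul]
  rw [w0, w1]
  nth_rewrite 1 [k0]
  rw [k1]
  module

include h hs hS in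
/-- The triple of an involution. -/
theorem wl4_trp (hW : finrank ℂ W = 4) {D : End ℂ W} (hD : D ∈ G) (hD2 : D * D = 1) :
    ∃ N ∈ G, ∃ M ∈ G, Trp D N M ∧ (∀ u ∈ Kp G D, ∃ c : ℂ, u = c • N) ∧
      ∀ u ∈ Kp G (-D), ∃ c : ℂ, u = c • M := by
  have hsk : ∀ {g}, g ∈ G → Skw S g := fun hg => hS.skw h hg
  have hntr : Nontrivial W := Module.nontrivial_of_finrank_pos (R := ℂ) (by omega)
  have hne : ∀ {E : End ℂ W}, E * E = 1 → E ≠ 0 := by
    intro E hE h0
    rw [h0, mul_zero] at hE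
    exact zero_ne_one hE
  have hD' : -D ∈ G := G.neg_mem hD
  have hD'2 : -D * -D = 1 := by rw [neg_mul_neg, hD2]
  obtain ⟨u, hu, hu0⟩ := exists_kp_ne h hs hD hD2 (hne hD2)
  obtain ⟨u', hu', hu'0⟩ := exists_kp_ne h hs hD' hD'2 (hne hD'2)
  obtain ⟨e, f, hb⟩ := exists_hb (m := 2) hW hS.nd hD2 (hsk hD)
  have hb' := hb.swap hS.sym
  obtain ⟨c, hc⟩ := up_eq2 hS.sym hD2 hb hu (hsk hu.1)
  obtain ⟨c', hc'⟩ := up_eq2 hS.sym hD'2 hb' hu' (hsk hu'.1)
  have hc0 : c ≠ 0 := by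
    intro h0
    rw [h0, zero_smul] at hc
    exact hu0 hc
  have hc'0 : c' ≠ 0 := by
    intro h0
    rw [h0, zero_smul] at hc'
    exact hu'0 hc'
  have g1 : wd S (e 0) (e 1) ∈ G := by
    have h1 := hu.1
    rw [hc] at h1
    exact (Submodule.smul_mem_iff _ hc0).1 h1
  have g2 : wd S (f 0) (f 1) ∈ G := by
    have h1 := hu'.1
    rw [hc'] at h1
    exact (Submodule.smul_mem_iff _ hc'0).1 h1
  obtain ⟨N, hN⟩ : ∃ N, N = wd S (e 0) (e 1) := ⟨_, rfl⟩
  obtain ⟨M, hM⟩ : ∃ M, M = -wd S (f 0) (f 1) := ⟨_, rfl⟩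
  have ef : ∀ i j, S (e i) (f j) = if i = j then 1 else 0 := hb.ef
  have fe : ∀ i j, S (f i) (e j) = if i = j then 1 else 0 := hb'.ef
  have N0 : ∀ i, N (e i) = 0 := fun i => by rw [hN, wd_apply, hb.ee, hb.ee]; simp
  have M0 : ∀ i, M (f i) = 0 := fun i => by
    rw [hM, LinearMap.neg_apply, wd_apply, hb.ff, hb.ff]
    simp
  have N1 : N (f 0) = e 1 := by rw [hN, wd_apply, ef, ef]; simp
  have N2 : N (f 1) = -e 0 := by rw [hN, wd_apply, ef, ef]; simp
  have M1 : M (e 0) = -f 1 := by rw [hM, LinearMap.neg_apply, wd_apply, fe, fe]; simp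
  have M2 : M (e 1) = f 0 := by rw [hM, LinearMap.neg_apply, wd_apply, fe, fe]; simp
  have hE : ∀ x, D x = x → x = S x (f 0) • e 0 + S x (f 1) • e 1 := by
    intro x hx
    have h1 := hb.exp x hx
    rwa [Fin.sum_univ_two] at h1
  have hE' : ∀ x, D x = -x → x = S (e 0) x • f 0 + S (e 1) x • f 1 := by
    intro x hx
    have h1 := hb.exp' x hx
    rwa [Fin.sum_univ_two] at h1
  have ext4 : ∀ X Y : End ℂ W, X (e 0) = Y (e 0) → X (e 1) = Y (e 1) → X (f 0) = Y (f 0) →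
      X (f 1) = Y (f 1) → X = Y := by
    intro X Y h1 h2 h3 h4
    refine LinearMap.ext fun x => ?_
    obtain ⟨y, hy, z, hz, rfl⟩ := dec_inv hD2 x
    rw [hE y hy, hE' z hz]
    simp only [map_add, map_smul, h1, h2, h3, h4]
  refine ⟨N, hN ▸ g1, M, hM ▸ G.neg_mem g2, ⟨?_, ?_, ?_, ?_⟩, fun v hv => ?_, fun v hv => ?_⟩
  · refine ext4 _ _ ?_ ?_ ?_ ?_ <;>
      simp [Module.End.mul_apply, N0, N1, N2]
  · refine ext4 _ _ ?_ ?_ ?_ ?_ <;>
      simp [Module.End.mul_apply, M0, M1, M2]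
  · refine ext4 _ _ ?_ ?_ ?_ ?_ <;>
      simp [Module.End.mul_apply, LinearMap.sub_apply, N0, N1, N2, M0, M1, M2, hb.De, hb.Df]
  · refine ext4 _ _ ?_ ?_ ?_ ?_ <;>
      simp [Module.End.mul_apply, LinearMap.add_apply, N0, N1, N2, M0, M1, M2]
  · obtain ⟨c, hc⟩ := up_eq2 hS.sym hD2 hb hv (hsk hv.1)
    exact ⟨c, by rw [hc, hN]⟩
  · obtain ⟨c, hc⟩ := up_eq2 hS.sym hD'2 hb' hv (hsk hv.1)
    exact ⟨-c, by rw [hc, hM, smul_neg, neg_smul, neg_neg]⟩

include h hs hS in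
theorem wl4_gn (hW : finrank ℂ W = 4) {D : End ℂ W} (hD : D ∈ G) (hD2 : D * D = 1) :
    ¬ G ≤ gn G D := by
  intro hgn
  have hntr : Nontrivial W := Module.nontrivial_of_finrank_pos (R := ℂ) (by omega)
  have hne : D ≠ 0 := by
    intro h0
    rw [h0, mul_zero] at hD2
    exact zero_ne_one hD2
  obtain ⟨u, hu, hu0⟩ := exists_kp_ne h hs hD hD2 hne
  obtain ⟨N, hN, M, hM, t, c1, c2⟩ := wl4_trp h hs hS hW hD hD2
  obtain ⟨e, f, hb⟩ := exists_hb (m := 2) hW hS.nd hD2 (hS.skw h hD)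
  have ef : ∀ i j, S (e i) (f j) = if i = j then 1 else 0 := hb.ef
  have hNM : ∀ w, D w = w → N (M w) = w := by
    intro w hw
    have h1 := LinearMap.congr_fun t.sub w
    have h2 := LinearMap.congr_fun t.add w
    rw [LinearMap.sub_apply, Module.End.mul_apply, Module.End.mul_apply, hw] at h1
    rw [LinearMap.add_apply, Module.End.mul_apply, Module.End.mul_apply, Module.End.one_apply] at h2
    have h3 : (2 : ℂ) • N (M w) = (2 : ℂ) • w := by
      have h4 : (2 : ℂ) • N (M w) = (N (M w) - M (N w)) + (N (M w) + M (N w)) := by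
        rw [two_smul]
        abel
      rw [h4, h1, h2, two_smul]
    exact smul_right_injective _ (two_ne_zero (α := ℂ)) h3
  rcases irr_plus h hs hD hD2 hgn hu hu0 (W := Submodule.span ℂ {e 0}) (fun w hw => by
      obtain ⟨c, rfl⟩ := Submodule.mem_span_singleton.1 hw
      rw [map_smul, hb.De]) (fun x hx y hy w hw => by
      obtain ⟨a, rfl⟩ := c1 x hx
      obtain ⟨b, rfl⟩ := c2 y hy
      obtain ⟨c, rfl⟩ := Submodule.mem_span_singleton.1 hw
      rw [LinearMap.smul_apply, LinearMap.smul_apply, map_smul, map_smul, map_smul,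
        hNM _ (hb.De 0)]
      exact Submodule.smul_mem _ _ (Submodule.smul_mem _ _ (Submodule.smul_mem _ _
        (Submodule.mem_span_singleton_self _)))) with h1 | h1
  · rw [Submodule.span_singleton_eq_bot] at h1
    have h2 := ef 0 0
    rw [h1, map_zero, LinearMap.zero_apply, if_pos rfl] at h2
    exact zero_ne_one h2
  · obtain ⟨c, hc⟩ := Submodule.mem_span_singleton.1 (h1 (e 1) (hb.De 1))
    have h2 := ef 1 1
    rw [← hc, map_smul, LinearMap.smul_apply, ef, if_neg (by decide), smul_zero, if_pos rfl] at h2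
    exact zero_ne_one h2

include h hs hS in
/-- **The four-dimensional case.** -/
theorem wl4 (hW : finrank ℂ W = 4) {D : End ℂ W} (hD : D ∈ G) (hD2 : D * D = 1) (x y : W) :
    wd S x y ∈ G := by
  have hsk : ∀ {g}, g ∈ G → Skw S g := fun hg => hS.skw h hg
  obtain ⟨D', hD', hD'2, hc⟩ := exists_invol_cen h hs (gn_idl h hD) (wl4_gn h hs hS hW hD hD2)
  obtain ⟨N, hN, M, hM, t, -, -⟩ := wl4_trp h hs hS hW hD hD2
  obtain ⟨N', hN', M', hM', t', -, -⟩ := wl4_trp h hs hS hW hD' hD'2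
  have hC := cen_idl h (gn_idl h hD)
  have mN : N ∈ gn G D := idl_of_pos (gn_idl h hD) mem_gn hN t.dn t.nd
  have mM : M ∈ gn G D := idl_of_neg (gn_idl h hD) mem_gn hM t.dm t.md
  have mN' : N' ∈ cen G (gn G D) := idl_of_pos hC hc hN' t'.dn t'.nd
  have mM' : M' ∈ cen G (gn G D) := idl_of_neg hC hc hM' t'.dm t'.md
  exact so4 hW hS.sym hS.nd t t' (hsk hN) (hsk hM) (hsk hN') (hsk hM') (mN'.2 _ mN).symm
    (mM'.2 _ mN).symm (mN'.2 _ mM).symm (mM'.2 _ mM).symm hD hN hM hD' hN' hM' x y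

end Pool.Agent.H926
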