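import Mathlib
import Pool.Agent.H926.Wlv
import Pool.Graph.R_seed8.Y91.JP.Piece

/-!
# Twisting the anti-involution
-/

set_option linter.unusedSectionVars false

namespace Pool.Agent.H926

open Module LinearMap Pool.Agent.W548.Odd Pool.Agent.Y91.JP Pool.Agent.Y91.P

variable {V : Type*} [AddCommGroup V] [Module ℂ V]

/-- The twisted anti-involution. -/
def stJ (st : End ℂ V →ₗ[ℂ] End ℂ V) (J Ji : End ℂ V) : End ℂ V →ₗ[ℂ] End ℂ V where
  toFun x := Ji * st x * J
  map_add' x y := by rw [map_add, mul_add, add_mul]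
  map_smul' c x := by rw [map_smul, mul_smul_comm, smul_mul_assoc, RingHom.id_apply]

theorem stJ_apply (st : End ℂ V →ₗ[ℂ] End ℂ V) (J Ji x : End ℂ V) :
    stJ st J Ji x = Ji * st x * J := rfl

variable [FiniteDimensional ℂ V] {G : Submodule ℂ (End ℂ V)} {st : End ℂ V →ₗ[ℂ] End ℂ V}
  {J Ji : End ℂ V}

theorem rk_conj {a b : End ℂ V} (h1 : a * b = 1) (h2 : b * a = 1) (x : End ℂ V) :
    rk (a * x * b) = rk x := by
  apply le_antisymm
  · exact (rk_mul_le_left _ _).trans (rk_mul_le_right _ _)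
  · have h3 : x = b * (a * x * b) * a := by
      calc x = (b * a) * x * (b * a) := by rw [h2, one_mul, mul_one]
        _ = _ := by noncomm_ring
    conv_lhs => rw [h3]
    exact (rk_mul_le_left _ _).trans (rk_mul_le_right _ _)

/-- The twisted setup. -/
theorem setupJ (h : Setup G st) (h1 : J * Ji = 1) (h2 : Ji * J = 1)
    (hc : ∀ y ∈ G, J * y = y * J) : Setup G (stJ st J Ji) where
  br := h.br
  st_mul a b := by
    rw [stJ_apply, stJ_apply, stJ_apply, h.st_mul]
    calc Ji * (st b * st a) * J = Ji * st b * (1 : End ℂ V) * st a * J := by noncomm_ring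
      _ = Ji * st b * (J * Ji) * st a * J := by rw [h1]
      _ = _ := by noncomm_ring
  st_rk a := by rw [stJ_apply, rk_conj h2 h1, h.st_rk]
  skew y hy := by
    rw [stJ_apply, h.skew y hy, mul_assoc, neg_mul, ← hc y hy, mul_neg, ← mul_assoc, h2, one_mul]
  nondeg := h.nondeg
  gen := h.gen
  cr := h.cr

/-- The symmetric form. -/
theorem syfJ {ω : V →ₗ[ℂ] V →ₗ[ℂ] ℂ} (hω : AltF st ω) (hm : ∀ a b, st (a * b) = st b * st a)
    (h1 : J * Ji = 1) (h2 : Ji * J = 1) (hJ : st J = -J) (hJi : st Ji = -Ji) :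
    SyF (stJ st J Ji) (ω.comp J) := by
  obtain ⟨a1, a2, a3⟩ := id hω
  have e1 : ∀ v, J (Ji v) = v := fun v => LinearMap.congr_fun h1 v
  have e2 : ∀ v, Ji (J v) = v := fun v => LinearMap.congr_fun h2 v
  refine ⟨fun x v w => ?_, fun v w => ?_, fun v hv => ?_⟩
  · change ω (J (x v)) w = ω (J v) ((Ji * st x * J) w)
    have h3 : J (x v) = (J * x * Ji) (J v) := by
      rw [Module.End.mul_apply, Module.End.mul_apply, e2]
    rw [h3, a1, hm, hm, hJ, hJi]
    congr 1
    have h4 : -Ji * (st x * -J) = Ji * st x * J := by noncomm_ring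
    rw [h4]
  · change ω (J v) w = ω (J w) v
    rw [a1, hJ, a2, LinearMap.neg_apply, map_neg, LinearMap.neg_apply, neg_neg]
  · have h3 : J v = 0 := by
      refine a3 _ fun w => ?_
      rw [a2, neg_eq_zero]
      exact hv w
    rw [← e2 v, h3, map_zero]

/-- The restriction of a symmetric form to a summand. -/
theorem corSyF {M : Submodule ℂ V} {p : V →ₗ[ℂ] M} {S : V →ₗ[ℂ] V →ₗ[ℂ] ℂ} (c : Cor G st M p)
    (h : Setup G st) (hS : SyF st S) : SyF (st' st M p) (S.domRestrict₁₂ M M) := by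
  obtain ⟨h1, h2, h3⟩ := hS
  have hpr : ∀ x y, S (pr M p x) y = S x (pr M p y) := by
    intro x y
    rw [h1, c.st]
  refine ⟨?_, ?_, ?_⟩
  · intro a v w
    have e1 : ((a v : M) : V) = ex M p a v := by rw [ex_apply, c.hp]
    have e2 : ((st' st M p a w : M) : V) = st (ex M p a) w := by
      rw [← c.ex_st' h, ex_apply, c.hp]
    change S (a v : V) (w : V) = S (v : V) ((st' st M p a w : M) : V)
    rw [e1, e2, h1]
  · intro v w
    exact h2 _ _
  · intro v hv
    apply Subtype.ext
    refine h3 _ fun w => ?_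
    have h4 := hv (p w)
    change S (v : V) (pr M p w) = 0 at h4
    rw [← hpr, pr_of_mem c.hp v.2] at h4
    exact h4

end Pool.Agent.H926
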