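import Mathlib
import Pool.Graph.R_seed8.Y90.Clo
import Pool.Graph.R_seed8.H204R3.SP.Lie

/-!
# Alternating forms on two copies of the standard representation of the orthogonal Lie algebra

The values on the vectors of a basis.
-/

set_option linter.unusedSectionVars false

namespace Pool.Agent.H926

open Module Equiv Pool.Agent.H204R3.SP

noncomputable section

variable {K : Type*} [Field K] [CharZero K] {V : Type*} [AddCommGroup V] [Module K V] {n : ℕ}

/-- The infinitesimal rotations, acting on two copies of the standard representation. -/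
def Rop (e : Basis (Bool × Fin n) K V) (i j : Fin n) : Module.End K V :=
  e.constr K fun p => if p.2 = j then e (p.1, i) else if p.2 = i then -e (p.1, j) else 0

section rop

variable (e : Basis (Bool × Fin n) K V) {i j : Fin n}

theorem Rop_j (c : Bool) : Rop e i j (e (c, j)) = e (c, i) := by
  unfold Rop
  rw [Basis.constr_basis, if_pos rfl]

theorem Rop_i (c : Bool) (h : i ≠ j) : Rop e i j (e (c, i)) = -e (c, j) := by
  unfold Rop
  rw [Basis.constr_basis, if_neg h, if_pos rfl]

theorem Rop_o (c : Bool) {l : Fin n} (hi : l ≠ i) (hj : l ≠ j) : Rop e i j (e (c, l)) = 0 := by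
  unfold Rop
  rw [Basis.constr_basis, if_neg hj, if_neg hi]

end rop

variable (e : Basis (Bool × Fin n) K V) {κ : Type*} [Fintype κ] [DecidableEq κ]
  (φ : V [⋀^κ]→ₗ[K] K)

/-- The values on the basis. -/
def Fv (l : κ → Bool × Fin n) : K := φ fun k => e (l k)

/-- The permutation of the indices. -/
def pm (s : Perm (Fin n)) (l : κ → Bool × Fin n) : κ → Bool × Fin n := fun k => ((l k).1, s (l k).2)

variable {e φ}

theorem Fv_inj {l : κ → Bool × Fin n} (h : Fv e φ l ≠ 0) : Function.Injective l := by
  intro k k' hk
  by_contra hne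
  exact h (φ.map_eq_zero_of_eq _ (congrArg e hk) hne)

theorem Fv_perm (l : κ → Bool × Fin n) (s : Perm κ) :
    Fv e φ (fun k => l (s k)) = (Perm.sign s : ℤ) * Fv e φ l := by
  have h1 := φ.map_perm (fun k => e (l k)) s
  rw [Units.smul_def, zsmul_eq_mul] at h1
  exact h1

variable (hinv : ∀ i j : Fin n, i ≠ j → Kills (Rop e i j) φ.toMultilinearMap)

theorem upd_eq (l : κ → Bool × Fin n) (k : κ) (p : Bool × Fin n) :
    Function.update (fun k => e (l k)) k (e p) = fun k' => e (Function.update l k p k') := by
  funext k'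
  by_cases h : k' = k
  · subst h
    rw [Function.update_self, Function.update_self]
  · rw [Function.update_of_ne h, Function.update_of_ne h]

include hinv

theorem Fv_zero {l : κ → Bool × Fin n} (hl : Function.Injective l) {i j : Fin n} (hij : i ≠ j)
    {k₀ : κ} {c : Bool} (hk : l k₀ = (c, i)) (hj : ∀ k, l k ≠ (c, j))
    (hp : (∃ k, l k = (!c, i)) ↔ ∃ k, l k = (!c, j)) : Fv e φ l = 0 := by
  obtain ⟨u, hu⟩ : ∃ u, u = Function.update l k₀ (c, j) := ⟨_, rfl⟩
  have h1 := hinv i j hij fun k => e (u k)
  have h2 : ∀ k, k ≠ k₀ → u k = l k := fun k hk' => by rw [hu, Function.update_of_ne hk']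
  have h3 : u k₀ = (c, j) := by rw [hu, Function.update_self]
  rw [Finset.sum_eq_single k₀] at h1
  · have h4 : Function.update (fun k => e (u k)) k₀ (Rop e i j (e (u k₀))) = fun k => e (l k) := by
      rw [h3, Rop_j, upd_eq]
      funext k
      congr 1
      by_cases h : k = k₀
      · subst h
        rw [Function.update_self, hk]
      · rw [Function.update_of_ne h, h2 k h]
    have h5 : φ (Function.update (fun k => e (u k)) k₀ (Rop e i j (e (u k₀)))) = 0 := h1
    rw [h4] at h5
    exact h5
  · intro k _ hk'
    have h4 := h2 k hk'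
    obtain ⟨⟨c', m⟩, hlk⟩ : ∃ p, l k = p := ⟨_, rfl⟩
    have h6 : ∀ (q : Bool × Fin n) (k' : κ), k' ≠ k → u k' = q →
        φ (Function.update (fun k => e (u k)) k (e q)) = 0 := by
      intro q k' hkk' hq
      refine φ.map_eq_zero_of_eq _ (i := k) (j := k') ?_ hkk'.symm
      rw [Function.update_self, Function.update_of_ne hkk', hq]
    change φ (Function.update (fun k => e (u k)) k (Rop e i j (e (u k)))) = 0
    rw [h4, hlk]
    by_cases hmj : m = j
    · subst hmj
      have hc' : c' = !c := by
        by_contra hcon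
        have : c' = c := by
          cases c <;> cases c' <;> simp_all
        exact hj k (by rw [hlk, this])
      subst hc'
      rw [Rop_j]
      obtain ⟨k', hk''⟩ := hp.2 ⟨k, hlk⟩
      have h7 : k' ≠ k₀ := by
        rintro rfl
        rw [hk] at hk''
        have := congrArg Prod.fst hk''
        cases c <;> simp at this
      refine h6 _ k' ?_ (by rw [h2 k' h7, hk''])
      rintro rfl
      rw [hlk] at hk''
      exact hij (congrArg Prod.snd hk'').symm
    · by_cases hmi : m = i
      · subst hmi
        have hc' : c' = !c := by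
          by_contra hcon
          have : c' = c := by
            cases c <;> cases c' <;> simp_all
          exact hk' (hl (by rw [hlk, hk, this]))
        subst hc'
        rw [Rop_i _ _ hij]
        obtain ⟨k', hk''⟩ := hp.1 ⟨k, hlk⟩
        have h7 : k' ≠ k₀ := by
          rintro rfl
          rw [hk] at hk''
          have := congrArg Prod.fst hk''
          cases c <;> simp at this
        have h8 := h6 (!c, j) k' (by
          rintro rfl
          rw [hlk] at hk''
          exact hij (congrArg Prod.snd hk'')) (by rw [h2 k' h7, hk''])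
        rw [← neg_one_smul K, φ.map_update_smul, h8, smul_zero]
      · rw [Rop_o e _ hmi hmj]
        exact φ.map_coord_zero k (Function.update_self _ _ _)
  · intro h
    exact absurd (Finset.mem_univ _) h

/-- The pairs of indices are all even or all odd. -/
theorem Fv_types {l : κ → Bool × Fin n} (hF : Fv e φ l ≠ 0) :
    (∀ i, (∃ k, l k = (false, i)) ↔ ∃ k, l k = (true, i)) ∨
      ∀ i, (∃ k, l k = (false, i)) ↔ ¬∃ k, l k = (true, i) := by
  have hl := Fv_inj hF
  by_contra hcon
  rw [not_or] at hcon
  obtain ⟨h1, h2⟩ := hcon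
  rw [not_forall] at h1 h2
  obtain ⟨j, hj⟩ := h1
  obtain ⟨i, hi⟩ := h2
  have hij : i ≠ j := by
    rintro rfl
    tauto
  -- exactly one of the two at `j`
  obtain ⟨c, ⟨k₁, hk₁⟩, hc⟩ : ∃ c : Bool, (∃ k, l k = (c, j)) ∧ ¬∃ k, l k = (!c, j) := by
    by_cases h : ∃ k, l k = (false, j)
    · exact ⟨false, h, fun h' => hj ⟨fun _ => h', fun _ => h⟩⟩
    · refine ⟨true, ?_, h⟩
      by_contra h'
      exact hj ⟨fun h'' => absurd h'' h, fun h'' => absurd h'' h'⟩
  by_cases h : ∃ k, l k = (false, i)
  · -- both at `i`
    have h' : ∃ k, l k = (true, i) := by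
      by_contra h'
      exact hi ⟨fun _ => h', fun _ => h⟩
    have hb : ∀ c : Bool, ∃ k, l k = (c, i) := fun c => by
      cases c
      · exact h
      · exact h'
    obtain ⟨k₀, hk₀⟩ := hb (!c)
    refine hF (Fv_zero hinv hl hij hk₀ (fun k hk => hc ⟨k, hk⟩) ?_)
    rw [Bool.not_not]
    exact ⟨fun _ => ⟨k₁, hk₁⟩, fun _ => hb c⟩
  · have h' : ¬∃ k, l k = (true, i) := by
      intro h'
      exact hi ⟨fun h'' => absurd h'' h, fun h'' => absurd h' h''⟩
    have hb : ∀ c : Bool, ¬∃ k, l k = (c, i) := fun c => by
      cases c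
      · exact h
      · exact h'
    exact hF (Fv_zero hinv hl hij.symm hk₁ (fun k hk => hb c ⟨k, hk⟩)
      ⟨fun h'' => absurd h'' hc, fun h'' => absurd h'' (hb _)⟩)

/-- Two terms. -/
theorem Fv_two {l : κ → Bool × Fin n} {i j : Fin n} (hij : i ≠ j)
    {k₀ m₀ : κ} (hne : k₀ ≠ m₀)
    (ho : ∀ k, k ≠ k₀ → k ≠ m₀ → (l k).2 ≠ i ∧ (l k).2 ≠ j) :
    φ (Function.update (fun k => e (l k)) k₀ (Rop e i j (e (l k₀)))) +
      φ (Function.update (fun k => e (l k)) m₀ (Rop e i j (e (l m₀)))) = 0 := by
  have h1 := hinv i j hij fun k => e (l k)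
  have h2 : ∑ k, φ (Function.update (fun k => e (l k)) k (Rop e i j (e (l k)))) =
      ∑ k ∈ ({k₀, m₀} : Finset κ),
        φ (Function.update (fun k => e (l k)) k (Rop e i j (e (l k)))) := by
    symm
    refine Finset.sum_subset (Finset.subset_univ _) fun k _ hk => ?_
    rw [Finset.mem_insert, Finset.mem_singleton, not_or] at hk
    obtain ⟨h3, h4⟩ := ho k hk.1 hk.2
    have h5 : Rop e i j (e (l k)) = 0 := by
      have h6 := Rop_o e (l k).1 h3 h4
      exact h6
    rw [h5]
    exact φ.map_coord_zero k (Function.update_self _ _ _)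
  rw [Finset.sum_pair hne] at h2
  rw [← h2]
  exact h1

omit hinv in
theorem pm_pm (s t : Perm (Fin n)) (l : κ → Bool × Fin n) : pm s (pm t l) = pm (s * t) l := rfl

omit hinv in
theorem pm_one (l : κ → Bool × Fin n) : pm 1 l = l := rfl

omit hinv in
theorem pm_inj {s : Perm (Fin n)} {l : κ → Bool × Fin n} (hl : Function.Injective l) :
    Function.Injective (pm s l) := by
  intro k k' h
  apply hl
  have h1 := congrArg Prod.fst h
  have h2 := congrArg Prod.snd h
  exact Prod.ext h1 (s.injective h2)

omit hinv in
theorem pm_ex (s : Perm (Fin n)) (l : κ → Bool × Fin n) (c : Bool) (i : Fin n) :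
    (∃ k, pm s l k = (c, i)) ↔ ∃ k, l k = (c, s.symm i) := by
  constructor
  · rintro ⟨k, hk⟩
    have h1 : (l k).1 = c := congrArg Prod.fst hk
    have h2 : s (l k).2 = i := congrArg Prod.snd hk
    exact ⟨k, Prod.ext h1 (by rw [← h2, Equiv.symm_apply_apply])⟩
  · rintro ⟨k, hk⟩
    refine ⟨k, ?_⟩
    unfold pm
    rw [hk, Equiv.apply_symm_apply]

/-- The even case: exchanging two indices. -/
theorem Fv_swap_even {l : κ → Bool × Fin n} (hl : Function.Injective l)
    (he : ∀ i, (∃ k, l k = (false, i)) ↔ ∃ k, l k = (true, i)) {i j : Fin n} (hij : i ≠ j) :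
    Fv e φ (pm (swap i j) l) = Fv e φ l := by
  have hb : ∀ (i : Fin n) (c c' : Bool), (∃ k, l k = (c, i)) → ∃ k, l k = (c', i) := by
    intro i c c' h
    cases c <;> cases c'
    · exact h
    · exact (he i).1 h
    · exact (he i).2 h
    · exact h
  -- one pair is present
  have key : ∀ i j : Fin n, i ≠ j → (∃ k, l k = (false, i)) → (¬∃ k, l k = (false, j)) →
      Fv e φ (pm (swap i j) l) = Fv e φ l := by
    intro i j hij h h'
    obtain ⟨k₀, hk₀⟩ := h
    obtain ⟨m₀, hm₀⟩ := hb i false true ⟨k₀, hk₀⟩
    have hne : k₀ ≠ m₀ := by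
      rintro rfl
      rw [hk₀] at hm₀
      simp at hm₀
    obtain ⟨u, hu⟩ : ∃ u, u = Function.update l m₀ (true, j) := ⟨_, rfl⟩
    have hu2 : ∀ k, k ≠ m₀ → u k = l k := fun k hk' => by rw [hu, Function.update_of_ne hk']
    have hum : u m₀ = (true, j) := by rw [hu, Function.update_self]
    have huk : u k₀ = (false, i) := by rw [hu2 k₀ hne, hk₀]
    have hlo : ∀ k, k ≠ k₀ → k ≠ m₀ → (l k).2 ≠ i ∧ (l k).2 ≠ j := by
      intro k h1 h2
      constructor
      · intro h3
        rcases hc : (l k).1 with _ | _
        · exact h1 (hl (by rw [hk₀]; exact Prod.ext hc h3))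
        · exact h2 (hl (by rw [hm₀]; exact Prod.ext hc h3))
      · intro h3
        exact h' (hb j (l k).1 false ⟨k, Prod.ext rfl h3⟩)
    have hui : Function.Injective u := by
      intro k k' hkk
      by_cases h1 : k = m₀
      · by_cases h2 : k' = m₀
        · rw [h1, h2]
        · exfalso
          rw [h1, hum, hu2 k' h2] at hkk
          exact h' (hb j true false ⟨k', hkk.symm⟩)
      · by_cases h2 : k' = m₀
        · exfalso
          rw [h2, hum, hu2 k h1] at hkk
          exact h' (hb j true false ⟨k, hkk⟩)
        · rw [hu2 k h1, hu2 k' h2] at hkk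
          exact hl hkk
    have h1 := Fv_two hinv (l := u) hij hne (fun k h1 h2 => by
      rw [hu2 k h2]
      exact hlo k h1 h2)
    rw [huk, hum, Rop_i _ _ hij, Rop_j, ← neg_one_smul K, φ.map_update_smul, upd_eq, upd_eq] at h1
    have e1 : Function.update u m₀ (true, i) = l := by
      funext k
      by_cases h2 : k = m₀
      · rw [h2, Function.update_self, hm₀]
      · rw [Function.update_of_ne h2, hu2 k h2]
    have e2 : Function.update u k₀ (false, j) = pm (swap i j) l := by
      funext k
      by_cases h2 : k = k₀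
      · rw [h2, Function.update_self]
        unfold pm
        rw [hk₀, swap_apply_left]
      · rw [Function.update_of_ne h2]
        by_cases h3 : k = m₀
        · rw [h3, hum]
          unfold pm
          rw [hm₀, swap_apply_left]
        · rw [hu2 k h3]
          obtain ⟨h4, h5⟩ := hlo k h2 h3
          unfold pm
          rw [swap_apply_of_ne_of_ne h4 h5]
    rw [e1, e2] at h1
    change (-1 : K) • Fv e φ (pm (swap i j) l) + Fv e φ l = 0 at h1
    rw [neg_one_smul] at h1
    linear_combination -h1
  by_cases h : ∃ k, l k = (false, i)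
  · by_cases h' : ∃ k, l k = (false, j)
    · -- both pairs are present
      obtain ⟨k₀, hk₀⟩ := h
      obtain ⟨m₀, hm₀⟩ := hb i false true ⟨k₀, hk₀⟩
      obtain ⟨k₁, hk₁⟩ := h'
      obtain ⟨m₁, hm₁⟩ := hb j false true ⟨k₁, hk₁⟩
      have e1 : pm (swap i j) l = fun k => l ((swap k₀ k₁ * swap m₀ m₁) k) := by
        have d1 : k₀ ≠ m₀ := by
          rintro rfl
          rw [hk₀] at hm₀
          simp at hm₀
        have d2 : k₀ ≠ m₁ := by
          rintro rfl
          rw [hk₀] at hm₁
          simp at hm₁
        have d3 : k₁ ≠ m₀ := by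
          rintro rfl
          rw [hk₁] at hm₀
          simp at hm₀
        have d4 : k₁ ≠ m₁ := by
          rintro rfl
          rw [hk₁] at hm₁
          simp at hm₁
        funext k
        rw [Perm.mul_apply]
        by_cases h1 : k = k₀
        · rw [h1, swap_apply_of_ne_of_ne d1 d2, swap_apply_left]
          unfold pm
          rw [hk₀, hk₁, swap_apply_left]
        · by_cases h2 : k = k₁
          · rw [h2, swap_apply_of_ne_of_ne d3 d4, swap_apply_right]
            unfold pm
            rw [hk₀, hk₁, swap_apply_right]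
          · by_cases h3 : k = m₀
            · rw [h3, swap_apply_left, swap_apply_of_ne_of_ne d2.symm d4.symm]
              unfold pm
              rw [hm₀, hm₁, swap_apply_left]
            · by_cases h4 : k = m₁
              · rw [h4, swap_apply_right, swap_apply_of_ne_of_ne d1.symm d3.symm]
                unfold pm
                rw [hm₀, hm₁, swap_apply_right]
              · rw [swap_apply_of_ne_of_ne h3 h4, swap_apply_of_ne_of_ne h1 h2]
                unfold pm
                rw [swap_apply_of_ne_of_ne]
                · intro h5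
                  rcases hc : (l k).1 with _ | _
                  · exact h1 (hl (by rw [hk₀]; exact Prod.ext hc h5))
                  · exact h3 (hl (by rw [hm₀]; exact Prod.ext hc h5))
                · intro h5
                  rcases hc : (l k).1 with _ | _
                  · exact h2 (hl (by rw [hk₁]; exact Prod.ext hc h5))
                  · exact h4 (hl (by rw [hm₁]; exact Prod.ext hc h5))
      rw [e1, Fv_perm, Perm.sign_mul, Perm.sign_swap (by
        rintro rfl
        rw [hk₀] at hk₁
        exact hij (congrArg Prod.snd hk₁)), Perm.sign_swap (by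
        rintro rfl
        rw [hm₀] at hm₁
        exact hij (congrArg Prod.snd hm₁))]
      simp
    · exact key i j hij h h'
  · by_cases h' : ∃ k, l k = (false, j)
    · rw [swap_comm]
      exact key j i hij.symm h' h
    · have e1 : pm (swap i j) l = l := by
        funext k
        unfold pm
        rw [swap_apply_of_ne_of_ne]
        · intro h1
          exact h (hb i (l k).1 false ⟨k, Prod.ext rfl h1⟩)
        · intro h1
          exact h' (hb j (l k).1 false ⟨k, Prod.ext rfl h1⟩)
      rw [e1]

/-- The odd case: exchanging two indices. -/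
theorem Fv_swap_odd {l : κ → Bool × Fin n} (hl : Function.Injective l)
    (ho : ∀ i, (∃ k, l k = (false, i)) ↔ ¬∃ k, l k = (true, i)) {i j : Fin n} (hij : i ≠ j) :
    Fv e φ (pm (swap i j) l) = -Fv e φ l := by
  have hb : ∀ i : Fin n, ∃ (c : Bool) (k : κ), l k = (c, i) ∧ ∀ k', l k' ≠ (!c, i) := by
    intro i
    by_cases h : ∃ k, l k = (false, i)
    · obtain ⟨k, hk⟩ := h
      exact ⟨false, k, hk, fun k' hk' => (ho i).1 ⟨k, hk⟩ ⟨k', hk'⟩⟩
    · have h1 : ∃ k, l k = (true, i) := by
        by_contra h1
        exact h ((ho i).2 h1)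
      obtain ⟨k, hk⟩ := h1
      exact ⟨true, k, hk, fun k' hk' => h ⟨k', hk'⟩⟩
  obtain ⟨c, k₀, hk₀, hc⟩ := hb i
  obtain ⟨c', m₀, hm₀, hc'⟩ := hb j
  have hlo : ∀ k, k ≠ k₀ → k ≠ m₀ → (l k).2 ≠ i ∧ (l k).2 ≠ j := by
    intro k h1 h2
    constructor
    · intro h3
      by_cases h4 : (l k).1 = c
      · exact h1 (hl (by rw [hk₀]; exact Prod.ext h4 h3))
      · exact hc k (Prod.ext (by cases c <;> cases h5 : (l k).1 <;> simp_all) h3)
    · intro h3
      by_cases h4 : (l k).1 = c'
      · exact h2 (hl (by rw [hm₀]; exact Prod.ext h4 h3))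
      · exact hc' k (Prod.ext (by cases c' <;> cases h5 : (l k).1 <;> simp_all) h3)
  have hne : k₀ ≠ m₀ := by
    rintro rfl
    rw [hk₀] at hm₀
    exact hij (congrArg Prod.snd hm₀)
  by_cases hcc : c = c'
  · -- the same copy
    subst hcc
    have e1 : pm (swap i j) l = fun k => l (swap k₀ m₀ k) := by
      funext k
      by_cases h1 : k = k₀
      · rw [h1, swap_apply_left]
        unfold pm
        rw [hk₀, hm₀, swap_apply_left]
      · by_cases h2 : k = m₀
        · rw [h2, swap_apply_right]
          unfold pm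
          rw [hk₀, hm₀, swap_apply_right]
        · rw [swap_apply_of_ne_of_ne h1 h2]
          obtain ⟨h3, h4⟩ := hlo k h1 h2
          unfold pm
          rw [swap_apply_of_ne_of_ne h3 h4]
    rw [e1, Fv_perm, Perm.sign_swap hne]
    simp
  · have hcc' : c' = !c := by cases c <;> cases c' <;> simp_all
    subst hcc'
    obtain ⟨u, hu⟩ : ∃ u, u = Function.update l m₀ (!c, i) := ⟨_, rfl⟩
    have hu2 : ∀ k, k ≠ m₀ → u k = l k := fun k hk' => by rw [hu, Function.update_of_ne hk']
    have hum : u m₀ = (!c, i) := by rw [hu, Function.update_self]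
    have huk : u k₀ = (c, i) := by rw [hu2 k₀ hne, hk₀]
    have hui : Function.Injective u := by
      intro k k' hkk
      by_cases h1 : k = m₀
      · by_cases h2 : k' = m₀
        · rw [h1, h2]
        · exfalso
          rw [h1, hum, hu2 k' h2] at hkk
          exact hc k' hkk.symm
      · by_cases h2 : k' = m₀
        · exfalso
          rw [h2, hum, hu2 k h1] at hkk
          exact hc k hkk
        · rw [hu2 k h1, hu2 k' h2] at hkk
          exact hl hkk
    have h1 := Fv_two hinv (l := u) hij hne (fun k h1 h2 => by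
      rw [hu2 k h2]
      exact hlo k h1 h2)
    rw [huk, hum, Rop_i _ _ hij, Rop_i _ _ hij, ← neg_one_smul K, ← neg_one_smul K (e (!c, j)),
      φ.map_update_smul, φ.map_update_smul, upd_eq, upd_eq] at h1
    have e1 : Function.update u m₀ (!c, j) = l := by
      funext k
      by_cases h2 : k = m₀
      · rw [h2, Function.update_self, hm₀]
      · rw [Function.update_of_ne h2, hu2 k h2]
    have e2 : Function.update u k₀ (c, j) = pm (swap i j) l := by
      funext k
      by_cases h2 : k = k₀
      · rw [h2, Function.update_self]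
        unfold pm
        rw [hk₀, swap_apply_left]
      · rw [Function.update_of_ne h2]
        by_cases h3 : k = m₀
        · rw [h3, hum]
          unfold pm
          rw [hm₀, swap_apply_right]
        · rw [hu2 k h3]
          obtain ⟨h4, h5⟩ := hlo k h2 h3
          unfold pm
          rw [swap_apply_of_ne_of_ne h4 h5]
    rw [e1, e2] at h1
    change (-1 : K) • Fv e φ (pm (swap i j) l) + (-1 : K) • Fv e φ l = 0 at h1
    rw [neg_one_smul, neg_one_smul] at h1
    linear_combination -h1

theorem Fv_pm_even (s : Perm (Fin n)) : ∀ {l : κ → Bool × Fin n}, Function.Injective l →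
    (∀ i, (∃ k, l k = (false, i)) ↔ ∃ k, l k = (true, i)) → Fv e φ (pm s l) = Fv e φ l := by
  induction s using Perm.swap_induction_on with
  | one =>
    intro l _ _
    rw [pm_one]
  | swap_mul s i j hij ih =>
    intro l hl he
    rw [← pm_pm, Fv_swap_even hinv (pm_inj hl) (fun i => by rw [pm_ex, pm_ex]; exact he _) hij,
      ih hl he]

theorem Fv_pm_odd (s : Perm (Fin n)) : ∀ {l : κ → Bool × Fin n}, Function.Injective l →
    (∀ i, (∃ k, l k = (false, i)) ↔ ¬∃ k, l k = (true, i)) →
      Fv e φ (pm s l) = (Perm.sign s : ℤ) * Fv e φ l := by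
  induction s using Perm.swap_induction_on with
  | one =>
    intro l _ _
    rw [pm_one]
    simp
  | swap_mul s i j hij ih =>
    intro l hl he
    rw [← pm_pm, Fv_swap_odd hinv (pm_inj hl) (fun i => by rw [pm_ex, pm_ex]; exact he _) hij,
      ih hl he, Perm.sign_mul, Perm.sign_swap hij]
    simp

end

end Pool.Agent.H926
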