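import Mathlib
import Pool.Agent.H926.SO1

/-!
# Alternating forms on two copies of the standard representation of the orthogonal Lie algebra

The forms are combinations of Gram determinants and determinants.
-/

set_option linter.unusedSectionVars false

namespace Pool.Agent.H926

open Module Equiv Pool.Agent.H204R3.SP Pool.Agent.Y90

noncomputable section

variable {K : Type*} [Field K] [CharZero K] {V : Type*} [AddCommGroup V] [Module K V] {n : ℕ}

/-- The projection to a copy. -/
def Pc (e : Basis (Bool × Fin n) K V) (c : Bool) : V →ₗ[K] V :=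
  e.constr K fun p => if p.1 = c then e p else 0

theorem Pc_same (e : Basis (Bool × Fin n) K V) (c : Bool) (i : Fin n) :
    Pc e c (e (c, i)) = e (c, i) := by
  unfold Pc
  rw [Basis.constr_basis, if_pos rfl]

theorem Pc_other (e : Basis (Bool × Fin n) K V) {c : Bool} {p : Bool × Fin n} (h : p.1 ≠ c) :
    Pc e c (e p) = 0 := by
  unfold Pc
  rw [Basis.constr_basis, if_neg h]

theorem Pc_add (e : Basis (Bool × Fin n) K V) (v : V) : Pc e false v + Pc e true v = v := by
  have h : Pc e false + Pc e true = LinearMap.id := by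
    refine e.ext fun p => ?_
    rw [LinearMap.add_apply, LinearMap.id_apply]
    obtain ⟨c, i⟩ := p
    cases c
    · rw [Pc_same, Pc_other e (by simp), add_zero]
    · rw [Pc_same, Pc_other e (by simp), zero_add]
  exact LinearMap.congr_fun h v

/-- The copies of the variables. -/
def cop {a b : ℕ} : Fin a ⊕ Fin b → Bool := Sum.elim (fun _ => false) (fun _ => true)

/-- The labels of a family of indices. -/
def lab {a b : ℕ} (f : Fin a ⊕ Fin b → Fin n) : Fin a ⊕ Fin b → Bool × Fin n :=
  fun k => (cop k, f k)

/-- The restriction of the form to the copies. -/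
def psi (e : Basis (Bool × Fin n) K V) {a b : ℕ} (φ : V [⋀^Fin a ⊕ Fin b]→ₗ[K] K) :
    MultilinearMap K (fun _ : Fin a ⊕ Fin b => V) K :=
  φ.toMultilinearMap.compLinearMap fun k => Pc e (cop k)

theorem psi_apply (e : Basis (Bool × Fin n) K V) {a b : ℕ} (φ : V [⋀^Fin a ⊕ Fin b]→ₗ[K] K)
    (v : Fin a ⊕ Fin b → V) : psi e φ v = φ (fun k => Pc e (cop k) (v k)) := rfl

theorem psi_lab (e : Basis (Bool × Fin n) K V) {a b : ℕ} (φ : V [⋀^Fin a ⊕ Fin b]→ₗ[K] K)
    (f : Fin a ⊕ Fin b → Fin n) : psi e φ (fun k => e (lab f k)) = Fv e φ (lab f) := by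
  rw [psi_apply]
  unfold Fv
  congr 1
  funext k
  exact Pc_same e _ _

theorem psi_mis (e : Basis (Bool × Fin n) K V) {a b : ℕ} (φ : V [⋀^Fin a ⊕ Fin b]→ₗ[K] K)
    {l : Fin a ⊕ Fin b → Bool × Fin n} {k : Fin a ⊕ Fin b} (hk : (l k).1 ≠ cop k) :
    psi e φ (fun k => e (l k)) = 0 := by
  rw [psi_apply]
  exact φ.map_coord_zero k (Pc_other e hk)

theorem exists_perm {a : ℕ} {x y : Fin a → Fin n} (hx : Function.Injective x)
    (hy : Function.Injective y) : ∃ s : Perm (Fin n), ∀ i, s (x i) = y i := by
  classical
  let e : {z // z ∈ Set.range x} ≃ {z // z ∈ Set.range y} :=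
    (Equiv.ofInjective x hx).symm.trans (Equiv.ofInjective y hy)
  refine ⟨e.extendSubtype, fun i => ?_⟩
  have h1 := e.extendSubtype_apply_of_mem (x i) ⟨i, rfl⟩
  rw [h1]
  have h2 : (Equiv.ofInjective x hx).symm ⟨x i, ⟨i, rfl⟩⟩ = i := by
    rw [Equiv.symm_apply_eq]
    rfl
  change ((Equiv.ofInjective y hy ((Equiv.ofInjective x hx).symm ⟨x i, ⟨i, rfl⟩⟩)) : Fin n) = y i
  rw [h2]
  rfl

theorem lab_inj {a b : ℕ} {f : Fin a ⊕ Fin b → Fin n} :
    Function.Injective (lab f) ↔ (Function.Injective fun i => f (Sum.inl i)) ∧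
      Function.Injective fun i => f (Sum.inr i) := by
  constructor
  · intro h
    constructor
    · intro i i' hi
      have h1 : lab f (Sum.inl i) = lab f (Sum.inl i') := Prod.ext rfl hi
      exact Sum.inl_injective (h h1)
    · intro i i' hi
      have h1 : lab f (Sum.inr i) = lab f (Sum.inr i') := Prod.ext rfl hi
      exact Sum.inr_injective (h h1)
  · rintro ⟨h1, h2⟩ (k | k) (k' | k') h
    · exact congrArg Sum.inl (h1 (congrArg Prod.snd h))
    · exact absurd (congrArg Prod.fst h) (by simp [lab, cop])
    · exact absurd (congrArg Prod.fst h) (by simp [lab, cop])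
    · exact congrArg Sum.inr (h2 (congrArg Prod.snd h))

theorem lab_f {a b : ℕ} {f : Fin a ⊕ Fin b → Fin n} (i : Fin n) :
    (∃ k, lab f k = (false, i)) ↔ ∃ k, f (Sum.inl k) = i := by
  constructor
  · rintro ⟨k | k, hk⟩
    · exact ⟨k, congrArg Prod.snd hk⟩
    · exact absurd (congrArg Prod.fst hk) (by simp [lab, cop])
  · rintro ⟨k, rfl⟩
    exact ⟨Sum.inl k, rfl⟩

theorem lab_t {a b : ℕ} {f : Fin a ⊕ Fin b → Fin n} (i : Fin n) :
    (∃ k, lab f k = (true, i)) ↔ ∃ k, f (Sum.inr k) = i := by
  constructor
  · rintro ⟨k | k, hk⟩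
    · exact absurd (congrArg Prod.fst hk) (by simp [lab, cop])
    · exact ⟨k, congrArg Prod.snd hk⟩
  · rintro ⟨k, rfl⟩
    exact ⟨Sum.inr k, rfl⟩

/-- The even type. -/
def Ev {a b : ℕ} (f : Fin a ⊕ Fin b → Fin n) : Prop :=
  Function.Injective (lab f) ∧ ∀ i, (∃ k, lab f k = (false, i)) ↔ ∃ k, lab f k = (true, i)

theorem Ev.card {a b : ℕ} {f : Fin a ⊕ Fin b → Fin n} (h : Ev f) : a = b := by
  obtain ⟨h1, h2⟩ := lab_inj.1 h.1
  have h3 : Set.range (fun i => f (Sum.inl i)) = Set.range fun i => f (Sum.inr i) := by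
    ext i
    have h4 := h.2 i
    rw [lab_f, lab_t] at h4
    exact h4
  have h4 := Set.card_range_of_injective h1
  have h5 := Set.card_range_of_injective h2
  rw [Fintype.card_fin] at h4 h5
  exact h4.symm.trans ((Fintype.card_congr (Equiv.setCongr h3)).trans h5)

section gram

variable {N : ∀ (κ : Type) [Finite κ], Submodule K (MultilinearMap K (fun _ : κ => V) K)}
  (hN : Clo N)

include hN

/-- The Gram determinants. -/
theorem gram_mem {g : V →ₗ[K] V →ₗ[K] K} (hg : bil2 g ∈ N (Fin 2)) (a : ℕ) :
    ∃ A ∈ N (Fin a ⊕ Fin a), ∀ v, A v =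
      Matrix.det (Matrix.of fun i j : Fin a => g (v (Sum.inl i)) (v (Sum.inr j))) := by
  have h1 : ∀ s : Perm (Fin a), ∃ A ∈ N (Fin a ⊕ Fin a), ∀ v, A v =
      ∏ i, g (v (Sum.inl (s i))) (v (Sum.inr i)) := by
    intro s
    let E : (Σ _ : Fin a, Fin 2) ≃ Fin a ⊕ Fin a :=
      { toFun := fun p => if p.2 = 0 then Sum.inl (s p.1) else Sum.inr p.1
        invFun := Sum.elim (fun i => ⟨s.symm i, 0⟩) (fun i => ⟨i, 1⟩)
        left_inv := by
          rintro ⟨i, j⟩
          fin_cases j <;> simp
        right_inv := by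
          rintro (i | i) <;> simp }
    obtain ⟨A, hA, hA'⟩ := hN.exists_fam (fun _ : Fin a => Fin 2) (fun _ => bil2 g)
      (fun _ => hg) E
    refine ⟨A, hA, fun v => ?_⟩
    rw [hA']
    rfl
  choose A hA hA' using h1
  refine ⟨∑ s : Perm (Fin a), ((Perm.sign s : ℤ) : K) • A s,
    Submodule.sum_mem _ fun s _ => Submodule.smul_mem _ _ (hA s), fun v => ?_⟩
  rw [_root_.sum_apply, Matrix.det_apply]
  refine Finset.sum_congr rfl fun s _ => ?_
  rw [_root_.smul_apply, hA', Units.smul_def, zsmul_eq_mul, smul_eq_mul]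
  rfl

end gram

theorem det_delta {a : ℕ} (s : Perm (Fin a)) :
    Matrix.det (Matrix.of fun i j : Fin a => if i = s j then (1 : K) else 0) =
      (Perm.sign s : ℤ) := by
  have h1 : (Matrix.of fun i j : Fin a => if i = s j then (1 : K) else 0) =
      (1 : Matrix (Fin a) (Fin a) K).submatrix id s := by
    ext i j
    rw [Matrix.submatrix_apply, Matrix.one_apply]
    rfl
  rw [h1, Matrix.det_permute', Matrix.det_one, mul_one]

theorem det_delta' {a : ℕ} (s : Perm (Fin a)) :
    Matrix.det (Matrix.of fun i j : Fin a => if s i = j then (1 : K) else 0) =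
      (Perm.sign s : ℤ) := by
  have h1 : (Matrix.of fun i j : Fin a => if s i = j then (1 : K) else 0) =
      (1 : Matrix (Fin a) (Fin a) K).submatrix s id := by
    ext i j
    rw [Matrix.submatrix_apply, Matrix.one_apply]
    rfl
  rw [h1, Matrix.det_permute, Matrix.det_one, mul_one]

section even

variable {N : ∀ (κ : Type) [Finite κ], Submodule K (MultilinearMap K (fun _ : κ => V) K)}
  (hN : Clo N) {e : Basis (Bool × Fin n) K V} {a b : ℕ} {φ : V [⋀^Fin a ⊕ Fin b]→ₗ[K] K}
  (hinv : ∀ i j : Fin n, i ≠ j → Kills (Rop e i j) φ.toMultilinearMap)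

include hN hinv

open scoped Classical in
/-- The even part. -/
theorem exists_even {g : V →ₗ[K] V →ₗ[K] K}
    (hge : ∀ p q : Bool × Fin n, g (e p) (e q) =
      if p.1 = false ∧ q.1 = true ∧ p.2 = q.2 then 1 else 0) (hg : bil2 g ∈ N (Fin 2)) :
    ∃ A ∈ N (Fin a ⊕ Fin b),
      (∀ (l : Fin a ⊕ Fin b → Bool × Fin n) (k : Fin a ⊕ Fin b), (l k).1 ≠ cop k →
        A (fun k => e (l k)) = 0) ∧
      ∀ f : Fin a ⊕ Fin b → Fin n, A (fun k => e (lab f k)) =
        if Ev f then Fv e φ (lab f) else 0 := by
  by_cases hex : ∃ f : Fin a ⊕ Fin b → Fin n, Ev f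
  · obtain ⟨f₁, hf₁⟩ := hex
    obtain rfl := hf₁.card
    obtain ⟨x, hx⟩ : ∃ x : Fin a → Fin n, x = fun i => f₁ (Sum.inl i) := ⟨_, rfl⟩
    have hxi : Function.Injective x := hx ▸ (lab_inj.1 hf₁.1).1
    obtain ⟨f₀, hf₀⟩ : ∃ f₀ : Fin a ⊕ Fin a → Fin n, f₀ = Sum.elim x x := ⟨_, rfl⟩
    have hf₀i : Function.Injective (lab f₀) := by
      rw [lab_inj, hf₀]
      exact ⟨hxi, hxi⟩
    have hf₀e : ∀ i, (∃ k, lab f₀ k = (false, i)) ↔ ∃ k, lab f₀ k = (true, i) := by
      intro i
      rw [lab_f, lab_t, hf₀]
      rfl
    obtain ⟨A, hA, hA'⟩ := gram_mem hN hg a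
    have hAe : ∀ l : Fin a ⊕ Fin a → Bool × Fin n, A (fun k => e (l k)) =
        Matrix.det (Matrix.of fun i j : Fin a =>
          if (l (Sum.inl i)).1 = false ∧ (l (Sum.inr j)).1 = true ∧
            (l (Sum.inl i)).2 = (l (Sum.inr j)).2 then (1 : K) else 0) := by
      intro l
      rw [hA']
      congr 1
      ext i j
      exact hge _ _
    refine ⟨Fv e φ (lab f₀) • A, Submodule.smul_mem _ _ hA, fun l k hk => ?_, fun f => ?_⟩
    · rw [_root_.smul_apply, hAe]
      rcases k with k | k
      · have h1 : (l (Sum.inl k)).1 ≠ false := hk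
        rw [Matrix.det_eq_zero_of_row_eq_zero k, smul_zero]
        intro j
        exact if_neg fun h2 => h1 h2.1
      · have h1 : (l (Sum.inr k)).1 ≠ true := hk
        rw [Matrix.det_eq_zero_of_column_eq_zero k, smul_zero]
        intro j
        exact if_neg fun h2 => h1 h2.2.1
    · rw [_root_.smul_apply, hAe]
      have h0 : (Matrix.of fun i j : Fin a =>
          if (lab f (Sum.inl i)).1 = false ∧ (lab f (Sum.inr j)).1 = true ∧
            (lab f (Sum.inl i)).2 = (lab f (Sum.inr j)).2 then (1 : K) else 0) =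
          Matrix.of fun i j : Fin a => if f (Sum.inl i) = f (Sum.inr j) then (1 : K) else 0 := by
        ext i j
        simp only [Matrix.of_apply]
        congr 1
        simp [lab, cop]
      rw [h0]
      by_cases hE : Ev f
      · rw [if_pos hE]
        obtain ⟨h1, h2⟩ := lab_inj.1 hE.1
        -- the permutation
        have h3 : ∀ j, ∃ i, f (Sum.inl i) = f (Sum.inr j) := fun j => by
          have h4 := (hE.2 (f (Sum.inr j))).2 ((lab_t _).2 ⟨j, rfl⟩)
          exact (lab_f _).1 h4
        choose p hp using h3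
        have hpi : Function.Injective p := by
          intro j j' hj
          apply h2
          change f (Sum.inr j) = f (Sum.inr j')
          rw [← hp j, ← hp j', hj]
        obtain ⟨s, hs⟩ : ∃ s : Perm (Fin a), ∀ j, s j = p j :=
          ⟨Equiv.ofBijective p (Finite.injective_iff_bijective.1 hpi), fun _ => rfl⟩
        have h4 : (Matrix.of fun i j : Fin a =>
            if f (Sum.inl i) = f (Sum.inr j) then (1 : K) else 0) =
            Matrix.of fun i j : Fin a => if i = s j then (1 : K) else 0 := by
          ext i j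
          simp only [Matrix.of_apply]
          congr 1
          rw [← hp j, hs]
          exact propext ⟨fun h => h1 h, fun h => by rw [h]⟩
        rw [h4, det_delta]
        obtain ⟨t, ht⟩ := exists_perm hxi h1
        have h5 : lab f = fun k => pm t (lab f₀) ((Equiv.sumCongr (1 : Perm (Fin a)) s) k) := by
          funext k
          rcases k with k | k
          · refine Prod.ext rfl ?_
            change f (Sum.inl k) = t (f₀ (Sum.inl k))
            rw [hf₀, Sum.elim_inl, ht]
          · refine Prod.ext rfl ?_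
            change f (Sum.inr k) = t (f₀ (Sum.inr (s k)))
            rw [hf₀, Sum.elim_inr, ht, ← hp k, hs]
        have h6 := Fv_perm (e := e) (φ := φ) (pm t (lab f₀))
          (Equiv.sumCongr (1 : Perm (Fin a)) s)
        have h7 : Perm.sign (Equiv.sumCongr (1 : Perm (Fin a)) s) = Perm.sign s := by
          have h8 := Perm.sign_sumCongr (1 : Perm (Fin a)) s
          rw [Perm.sign_one, one_mul] at h8
          exact h8
        rw [h7, Fv_pm_even hinv t hf₀i hf₀e] at h6
        rw [h5, h6, smul_eq_mul, mul_comm]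
      · rw [if_neg hE]
        have h1 : Matrix.det (Matrix.of fun i j : Fin a =>
            if f (Sum.inl i) = f (Sum.inr j) then (1 : K) else 0) = 0 := by
          by_cases hi : Function.Injective fun i => f (Sum.inl i)
          · by_cases hi' : Function.Injective fun i => f (Sum.inr i)
            · -- the images are different
              by_contra hdet
              apply hE
              have h2 : ∀ i, ∃ j, f (Sum.inl i) = f (Sum.inr j) := by
                intro i
                by_contra hcon
                push Not at hcon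
                exact hdet (Matrix.det_eq_zero_of_row_eq_zero i fun j => if_neg (hcon j))
              have h3 : ∀ j, ∃ i, f (Sum.inl i) = f (Sum.inr j) := by
                intro j
                by_contra hcon
                push Not at hcon
                exact hdet (Matrix.det_eq_zero_of_column_eq_zero j fun i => if_neg (hcon i))
              refine ⟨lab_inj.2 ⟨hi, hi'⟩, fun i => ?_⟩
              rw [lab_f, lab_t]
              constructor
              · rintro ⟨k, rfl⟩
                obtain ⟨j, hj⟩ := h2 k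
                exact ⟨j, hj.symm⟩
              · rintro ⟨k, rfl⟩
                exact h3 k
            · rw [Function.Injective] at hi'
              push Not at hi'
              obtain ⟨j, j', hj, hne⟩ := hi'
              refine Matrix.det_zero_of_column_eq hne fun i => ?_
              simp only [Matrix.of_apply]
              rw [show f (Sum.inr j) = f (Sum.inr j') from hj]
          · rw [Function.Injective] at hi
            push Not at hi
            obtain ⟨j, j', hj, hne⟩ := hi
            refine Matrix.det_zero_of_row_eq hne ?_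
            funext i
            simp only [Matrix.of_apply]
            rw [show f (Sum.inl j) = f (Sum.inl j') from hj]
        rw [h1, smul_zero]
  · refine ⟨0, Submodule.zero_mem _, fun l k _ => rfl, fun f => ?_⟩
    rw [if_neg fun h => hex ⟨f, h⟩]
    rfl

open scoped Classical in
/-- The odd part. -/
theorem exists_odd
    (hodd : (∀ (c : Fin n → Bool) (B : MultilinearMap K (fun _ : Fin n => V) K),
      (∀ v, B v = Matrix.det (Matrix.of fun k j : Fin n => e.repr (v k) (c k, j))) →
        B ∈ N (Fin n)) ∨
      ∀ f : Fin a ⊕ Fin b → Fin n, Function.Bijective f → Fv e φ (lab f) = 0) :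
    ∃ B ∈ N (Fin a ⊕ Fin b),
      (∀ (l : Fin a ⊕ Fin b → Bool × Fin n) (k : Fin a ⊕ Fin b), (l k).1 ≠ cop k →
        B (fun k => e (l k)) = 0) ∧
      ∀ f : Fin a ⊕ Fin b → Fin n, B (fun k => e (lab f k)) =
        if Function.Bijective f then Fv e φ (lab f) else 0 := by
  rcases hodd with hodd | hodd
  · by_cases hab : a + b = n
    · obtain ⟨e₀, he₀⟩ : ∃ e₀ : Fin a ⊕ Fin b ≃ Fin n, e₀ = e₀ :=
        ⟨finSumFinEquiv.trans (finCongr hab), rfl⟩
      obtain ⟨c, hc⟩ : ∃ c : Fin n → Bool, c = fun k => cop (e₀.symm k) := ⟨_, rfl⟩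
      obtain ⟨B₀, hB₀⟩ : ∃ B₀ : MultilinearMap K (fun _ : Fin n => V) K,
          ∀ v, B₀ v = Matrix.det (Matrix.of fun k j : Fin n => e.repr (v k) (c k, j)) := by
        refine ⟨(Matrix.detRowAlternating (n := Fin n) (R := K)).toMultilinearMap.compLinearMap
          fun k => LinearMap.pi fun j => e.coord (c k, j), fun v => ?_⟩
        rw [MultilinearMap.compLinearMap_apply]
        rfl
      have hB₀N := hodd c B₀ hB₀
      obtain ⟨B, hB⟩ : ∃ B, B = B₀.domDomCongr e₀.symm := ⟨_, rfl⟩
      have hBN : B ∈ N (Fin a ⊕ Fin b) := hN.reindex e₀.symm hB₀N B fun v => by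
        rw [hB, MultilinearMap.domDomCongr_apply]
      have hBe : ∀ l : Fin a ⊕ Fin b → Bool × Fin n, B (fun k => e (l k)) =
          Matrix.det (Matrix.of fun k j : Fin n =>
            if l (e₀.symm k) = (c k, j) then (1 : K) else 0) := by
        intro l
        rw [hB, MultilinearMap.domDomCongr_apply, hB₀]
        congr 1
        ext k j
        simp only [Matrix.of_apply]
        rw [Basis.repr_self, Finsupp.single_apply]
      have hFe : Function.Bijective e₀ := e₀.bijective
      have hFi : Function.Injective (lab (⇑e₀) : Fin a ⊕ Fin b → Bool × Fin n) := by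
        intro k k' h
        exact e₀.injective (congrArg Prod.snd h)
      have hFo : ∀ i, (∃ k, lab (⇑e₀) k = (false, i)) ↔ ¬∃ k, lab (⇑e₀) k = (true, i) := by
        intro i
        rw [lab_f, lab_t]
        constructor
        · rintro ⟨k, rfl⟩ ⟨k', hk'⟩
          have h1 := e₀.injective hk'
          simp at h1
        · intro h
          obtain ⟨k | k, hk⟩ := e₀.surjective i
          · exact ⟨k, hk⟩
          · exact absurd ⟨k, hk⟩ h
      refine ⟨Fv e φ (lab e₀) • B, Submodule.smul_mem _ _ hBN, fun l k hk => ?_, fun f => ?_⟩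
      · rw [_root_.smul_apply, hBe, Matrix.det_eq_zero_of_row_eq_zero (e₀ k), smul_zero]
        intro j
        refine if_neg fun h => hk ?_
        rw [Equiv.symm_apply_apply] at h
        rw [h, hc]
        simp
      · rw [_root_.smul_apply, hBe]
        have h0 : (Matrix.of fun k j : Fin n =>
            if lab f (e₀.symm k) = (c k, j) then (1 : K) else 0) =
            Matrix.of fun k j : Fin n => if f (e₀.symm k) = j then (1 : K) else 0 := by
          ext k j
          simp only [Matrix.of_apply]
          congr 1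
          rw [hc]
          exact propext ⟨fun h => congrArg Prod.snd h, fun h => Prod.ext rfl h⟩
        rw [h0]
        by_cases hf : Function.Bijective f
        · rw [if_pos hf]
          obtain ⟨s, hs⟩ : ∃ s : Perm (Fin n), ∀ k, s k = f (e₀.symm k) :=
            ⟨e₀.symm.trans (Equiv.ofBijective f hf), fun _ => rfl⟩
          have h1 : (Matrix.of fun k j : Fin n => if f (e₀.symm k) = j then (1 : K) else 0) =
              Matrix.of fun k j : Fin n => if s k = j then (1 : K) else 0 := by
            ext k j
            simp only [Matrix.of_apply]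
            rw [hs]
          rw [h1, det_delta']
          have h2 : lab f = pm s (lab e₀) := by
            funext k
            refine Prod.ext rfl ?_
            change f k = s (e₀ k)
            rw [hs, Equiv.symm_apply_apply]
          rw [h2, Fv_pm_odd hinv s hFi hFo, smul_eq_mul, mul_comm]
        · rw [if_neg hf]
          have h1 : ¬Function.Injective fun k => f (e₀.symm k) := by
            intro h2
            apply hf
            have h3 := Finite.injective_iff_bijective.1 h2
            have h4 : f = (fun k => f (e₀.symm k)) ∘ e₀ := by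
              funext k
              simp
            rw [h4]
            exact h3.comp e₀.bijective
          rw [Function.Injective] at h1
          push Not at h1
          obtain ⟨k, k', hk, hne⟩ := h1
          rw [Matrix.det_zero_of_row_eq hne, smul_zero]
          funext j
          simp only [Matrix.of_apply]
          rw [hk]
    · refine ⟨0, Submodule.zero_mem _, fun l k _ => rfl, fun f => ?_⟩
      rw [if_neg fun h => hab ?_]
      · rfl
      · have h1 := Fintype.card_of_bijective h
        rw [Fintype.card_sum, Fintype.card_fin, Fintype.card_fin, Fintype.card_fin] at h1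
        exact h1
  · refine ⟨0, Submodule.zero_mem _, fun l k _ => rfl, fun f => ?_⟩
    split_ifs with h
    · rw [hodd f h]
      rfl
    · rfl

/-- The restrictions to the copies. -/
theorem psi_mem {g : V →ₗ[K] V →ₗ[K] K}
    (hge : ∀ p q : Bool × Fin n, g (e p) (e q) =
      if p.1 = false ∧ q.1 = true ∧ p.2 = q.2 then 1 else 0) (hg : bil2 g ∈ N (Fin 2))
    (hodd : (∀ (c : Fin n → Bool) (B : MultilinearMap K (fun _ : Fin n => V) K),
      (∀ v, B v = Matrix.det (Matrix.of fun k j : Fin n => e.repr (v k) (c k, j))) →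
        B ∈ N (Fin n)) ∨
      ∀ f : Fin a ⊕ Fin b → Fin n, Function.Bijective f → Fv e φ (lab f) = 0) :
    psi e φ ∈ N (Fin a ⊕ Fin b) := by
  classical
  rcases isEmpty_or_nonempty (Fin a ⊕ Fin b) with he | hne
  · exact hN.unit _ _
  obtain ⟨A, hA, hA1, hA2⟩ := exists_even hN hinv hge hg
  obtain ⟨B, hB, hB1, hB2⟩ := exists_odd hN hinv hodd
  have h : psi e φ = A + B := by
    refine Basis.ext_multilinear (fun _ => e) fun l => ?_
    by_cases hl : ∀ k, (l k).1 = cop k
    · obtain ⟨f, hf⟩ : ∃ f : Fin a ⊕ Fin b → Fin n, f = fun k => (l k).2 := ⟨_, rfl⟩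
      have h1 : l = lab f := by
        funext k
        refine Prod.ext (hl k) ?_
        rw [hf]
        rfl
      rw [h1, _root_.add_apply, psi_lab, hA2, hB2]
      by_cases h2 : Ev f
      · have h3 : ¬Function.Bijective f := by
          intro h3
          have h4 : ∀ k : Fin a ⊕ Fin b, False := by
            rintro (k | k)
            · obtain ⟨m, hm⟩ := (lab_t _).1 ((h2.2 (f (Sum.inl k))).1 ((lab_f _).2 ⟨k, rfl⟩))
              have h5 := h3.1 hm
              simp at h5
            · obtain ⟨m, hm⟩ := (lab_f _).1 ((h2.2 (f (Sum.inr k))).2 ((lab_t _).2 ⟨k, rfl⟩))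
              have h5 := h3.1 hm
              simp at h5
          exact h4 hne.some
        rw [if_pos h2, if_neg h3, add_zero]
      · rw [if_neg h2, zero_add]
        by_cases h3 : Function.Bijective f
        · rw [if_pos h3]
        · rw [if_neg h3]
          by_contra h4
          have h5 := Fv_inj h4
          rcases Fv_types hinv h4 with h6 | h6
          · exact h2 ⟨h5, h6⟩
          · apply h3
            constructor
            · rintro (k | k) (k' | k') hk
              · exact congrArg Sum.inl ((lab_inj.1 h5).1 hk)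
              · exfalso
                exact (h6 (f (Sum.inl k))).1 ((lab_f _).2 ⟨k, rfl⟩)
                  ((lab_t _).2 ⟨k', hk.symm⟩)
              · exfalso
                exact (h6 (f (Sum.inl k'))).1 ((lab_f _).2 ⟨k', rfl⟩)
                  ((lab_t _).2 ⟨k, hk⟩)
              · exact congrArg Sum.inr ((lab_inj.1 h5).2 hk)
            · intro i
              by_cases h7 : ∃ k, lab f k = (true, i)
              · obtain ⟨k, hk⟩ := h7
                exact ⟨k, congrArg Prod.snd hk⟩
              · obtain ⟨k, hk⟩ := (h6 i).2 h7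
                exact ⟨k, congrArg Prod.snd hk⟩
    · push Not at hl
      obtain ⟨k, hk⟩ := hl
      rw [_root_.add_apply, psi_mis e φ hk, hA1 l k hk, hB1 l k hk, add_zero]
  rw [h]
  exact Submodule.add_mem _ hA hB

end even

theorem kills_congr {κ κ' : Type*} [Fintype κ] [DecidableEq κ] [Fintype κ'] [DecidableEq κ']
    {X : Module.End K V} {φ : MultilinearMap K (fun _ : κ => V) K} (h : Kills X φ) (E : κ ≃ κ') :
    Kills X (φ.domDomCongr E) := by
  intro v
  rw [← h (fun k => v (E k)), ← E.sum_comp]
  refine Finset.sum_congr rfl fun k _ => ?_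
  rw [MultilinearMap.domDomCongr_apply]
  congr 1
  funext k'
  by_cases hk : k' = k
  · subst hk
    rw [Function.update_self, Function.update_self]
  · rw [Function.update_of_ne hk, Function.update_of_ne fun h => hk (E.injective h)]

/-- **Alternating forms which are invariant under the orthogonal Lie algebra.** -/
theorem so_mem {N : ∀ (κ : Type) [Finite κ], Submodule K (MultilinearMap K (fun _ : κ => V) K)}
    (hN : Clo N) {e : Basis (Bool × Fin n) K V} {κ : Type} [Fintype κ] [DecidableEq κ]
    {φ : V [⋀^κ]→ₗ[K] K} (hinv : ∀ i j : Fin n, i ≠ j → Kills (Rop e i j) φ.toMultilinearMap)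
    {g : V →ₗ[K] V →ₗ[K] K}
    (hge : ∀ p q : Bool × Fin n, g (e p) (e q) =
      if p.1 = false ∧ q.1 = true ∧ p.2 = q.2 then 1 else 0) (hg : bil2 g ∈ N (Fin 2))
    (hodd : (∀ (c : Fin n → Bool) (B : MultilinearMap K (fun _ : Fin n => V) K),
      (∀ v, B v = Matrix.det (Matrix.of fun k j : Fin n => e.repr (v k) (c k, j))) →
        B ∈ N (Fin n)) ∨
      ∀ (c : κ → Bool) (f : κ → Fin n), Function.Bijective f →
        φ (fun k => e (c k, f k)) = 0) :
    φ.toMultilinearMap ∈ N κ := by
  classical
  obtain ⟨ψ, hψ⟩ : ∃ ψ : Finset κ → MultilinearMap K (fun _ : κ => V) K,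
      ∀ s v, ψ s v = φ (s.piecewise (fun k => Pc e false (v k)) fun k => Pc e true (v k)) := by
    refine ⟨fun s => φ.toMultilinearMap.compLinearMap
      fun k => if k ∈ s then Pc e false else Pc e true, fun s v => ?_⟩
    rw [MultilinearMap.compLinearMap_apply]
    change φ _ = φ _
    congr 1
    funext k
    by_cases hk : k ∈ s
    · rw [if_pos hk, Finset.piecewise_eq_of_mem _ _ _ hk]
    · rw [if_neg hk, Finset.piecewise_eq_of_notMem _ _ _ hk]
  have h1 : φ.toMultilinearMap = ∑ s : Finset κ, ψ s := by
    refine MultilinearMap.ext fun v => ?_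
    rw [_root_.sum_apply]
    have h2 := φ.toMultilinearMap.map_add_univ (fun k => Pc e false (v k)) fun k => Pc e true (v k)
    have h3 : ((fun k => Pc e false (v k)) + fun k => Pc e true (v k)) = v := by
      funext k
      exact Pc_add e (v k)
    rw [h3] at h2
    rw [h2]
    refine Finset.sum_congr rfl fun s _ => ?_
    rw [hψ]
    rfl
  rw [h1]
  refine Submodule.sum_mem _ fun s _ => ?_
  obtain ⟨a, b, E, hE⟩ : ∃ (a b : ℕ) (E : κ ≃ Fin a ⊕ Fin b),
      ∀ k, (k ∈ s → cop (E k) = false) ∧ (k ∉ s → cop (E k) = true) := by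
    refine ⟨_, _, (Equiv.sumCompl (fun k => k ∈ s)).symm.trans
      (Equiv.sumCongr (Fintype.equivFin _) (Fintype.equivFin _)), fun k => ⟨fun hk => ?_,
        fun hk => ?_⟩⟩
    · rw [Equiv.trans_apply, Equiv.sumCompl_symm_apply_of_pos hk]
      rfl
    · rw [Equiv.trans_apply, Equiv.sumCompl_symm_apply_of_neg hk]
      rfl
  obtain ⟨φ', hφ'⟩ : ∃ φ' : V [⋀^Fin a ⊕ Fin b]→ₗ[K] K, φ' = φ.domDomCongr E := ⟨_, rfl⟩
  have hφv : ∀ w, φ' w = φ (fun k => w (E k)) := fun w => by
    rw [hφ', AlternatingMap.domDomCongr_apply]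
    rfl
  have hinv' : ∀ i j : Fin n, i ≠ j → Kills (Rop e i j) φ'.toMultilinearMap := by
    intro i j hij
    have h2 := kills_congr (hinv i j hij) E
    have h3 : φ'.toMultilinearMap = φ.toMultilinearMap.domDomCongr E := by
      rw [hφ']
      rfl
    rw [h3]
    exact h2
  have h2 := psi_mem hN hinv' hge hg (by
    rcases hodd with h3 | h3
    · exact Or.inl h3
    · right
      intro f hf
      unfold Fv
      rw [hφv]
      exact h3 (fun k => cop (E k)) (fun k => f (E k)) (hf.comp E.bijective))
  refine hN.reindex E.symm h2 _ fun v => ?_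
  rw [hψ, psi_apply, hφv]
  congr 1
  funext k
  rw [Equiv.symm_apply_apply]
  by_cases hk : k ∈ s
  · rw [Finset.piecewise_eq_of_mem _ _ _ hk, (hE k).1 hk]
  · rw [Finset.piecewise_eq_of_notMem _ _ _ hk, (hE k).2 hk]

end

end Pool.Agent.H926
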