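import Mathlib
import Pool.Agent.H926.SO2

/-!
# Symplectic spaces which are the double of a space with a symmetric form
-/

set_option linter.unusedSectionVars false

namespace Pool.Agent.H926

open Module Equiv Pool.Agent.H204R3.SP Pool.Agent.Y90

noncomputable section

variable {V : Type*} [AddCommGroup V] [Module ℂ V] [FiniteDimensional ℂ V]

/-- The symplectic space is the sum of the isotropic images of the projectors `p` and `1 - p`, which
are exchanged by `T` and `T'`, and the form `E (T x) y` is symmetric on the image of `p`. -/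
structure Dbl (E : V →ₗ[ℂ] V →ₗ[ℂ] ℂ) (p T T' : Module.End ℂ V) : Prop where
  pp : p * p = p
  pT : p * T = 0
  Tp : T * p = T
  pT' : p * T' = T'
  T'p : T' * p = 0
  TT : T' * T = p
  TT' : T * T' = 1 - p
  anti : ∀ x y, E x y = -E y x
  nd : ∀ x, (∀ y, E x y = 0) → x = 0
  iso : ∀ x y, E (p x) (p y) = 0
  iso' : ∀ x y, E (x - p x) (y - p y) = 0
  sym : ∀ x y, E (T x) (p y) = E (T y) (p x)

/-- The elements of the orthogonal Lie algebra. -/
def wed (E : V →ₗ[ℂ] V →ₗ[ℂ] ℂ) (p T T' : Module.End ℂ V) (u v : V) : Module.End ℂ V :=
  ((E (T u)).comp p).smulRight (p v) - ((E (T v)).comp p).smulRight (p u) +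
    (((E (T u)).comp T').smulRight (T v) - ((E (T v)).comp T').smulRight (T u))

theorem wed_apply (E : V →ₗ[ℂ] V →ₗ[ℂ] ℂ) (p T T' : Module.End ℂ V) (u v x : V) :
    wed E p T T' u v x = E (T u) (p x) • p v - E (T v) (p x) • p u +
      (E (T u) (T' x) • T v - E (T v) (T' x) • T u) := rfl

namespace Dbl

variable {E : V →ₗ[ℂ] V →ₗ[ℂ] ℂ} {p T T' : Module.End ℂ V} (h : Dbl E p T T')
include h

theorem pp_ (x : V) : p (p x) = p x := LinearMap.congr_fun h.pp x
theorem pT_ (x : V) : p (T x) = 0 := LinearMap.congr_fun h.pT x
theorem Tp_ (x : V) : T (p x) = T x := LinearMap.congr_fun h.Tp x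
theorem pT'_ (x : V) : p (T' x) = T' x := LinearMap.congr_fun h.pT' x
theorem T'p_ (x : V) : T' (p x) = 0 := LinearMap.congr_fun h.T'p x
theorem TT_ (x : V) : T' (T x) = p x := LinearMap.congr_fun h.TT x
theorem TT'_ (x : V) : T (T' x) = x - p x := LinearMap.congr_fun h.TT' x

/-- An orthonormal basis. -/
theorem exists_on : ∃ w : Fin (finrank ℂ (LinearMap.range p)) → V, (∀ i, p (w i) = w i) ∧
    (∀ i j, E (T (w i)) (w j) = if i = j then 1 else 0) ∧
    ∀ x, p x = x → x ∈ Submodule.span ℂ (Set.range w) := by
  obtain ⟨W, hW⟩ : ∃ W, W = LinearMap.range p := ⟨_, rfl⟩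
  have hpW : ∀ x : W, p x = x := by
    rintro ⟨x, hx⟩
    rw [hW] at hx
    obtain ⟨y, rfl⟩ := hx
    exact h.pp_ y
  let B : LinearMap.BilinForm ℂ W := (E.comp (T.comp W.subtype)).compl₂ W.subtype
  have hB : ∀ x y : W, B x y = E (T x) y := fun _ _ => rfl
  have hsym : LinearMap.IsSymm B := ⟨fun x y => by
    have h1 := h.sym x y
    rw [hpW, hpW] at h1
    exact h1⟩
  obtain ⟨v, hv⟩ := LinearMap.BilinForm.exists_orthogonal_basis hsym
  have hnd : B.SeparatingLeft := by
    intro x hx
    have h1 : T (x : V) = 0 := by
      refine h.nd _ fun y => ?_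
      have h2 : y = p y + (y - p y) := by abel
      have h3 : E (T (x : V)) (p y) = 0 := hx ⟨p y, hW ▸ ⟨y, rfl⟩⟩
      have h4 := h.iso' (T (x : V)) y
      rw [h.pT_, sub_zero] at h4
      rw [h2, map_add, h3, h4, add_zero]
    have h2 : (x : V) = 0 := by
      rw [← hpW, ← h.TT_, h1, map_zero]
    exact Subtype.ext h2
  have hd := hv.not_isOrtho_basis_self_of_separatingLeft hnd
  have hr : ∀ i, ∃ r : ℂ, r * r = B (v i) (v i) := fun i => by
    obtain ⟨r, hr⟩ := IsAlgClosed.exists_eq_mul_self (B (v i) (v i))
    exact ⟨r, hr.symm⟩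
  choose r hr using hr
  have hr0 : ∀ i, r i ≠ 0 := by
    intro i h0
    apply hd i
    change B (v i) (v i) = 0
    rw [← hr, h0, mul_zero]
  subst hW
  refine ⟨fun i => (r i)⁻¹ • (v i : V), fun i => ?_, fun i j => ?_, fun x hx => ?_⟩
  · rw [map_smul, hpW]
  · rw [map_smul, map_smul, map_smul, LinearMap.smul_apply]
    have h1 : E (T (v i : V)) (v j : V) = B (v i) (v j) := rfl
    rw [h1]
    by_cases hij : i = j
    · subst hij
      rw [if_pos rfl, ← hr, smul_eq_mul, smul_eq_mul]
      field_simp [hr0 i]
    · have h2 : B (v i) (v j) = 0 := hv hij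
      rw [h2, if_neg hij, smul_zero, smul_zero]
  · have h1 := v.mem_span ⟨x, ⟨x, hx⟩⟩
    have h2 : ∀ y : LinearMap.range p, y ∈ Submodule.span ℂ (Set.range v) →
        (y : V) ∈ Submodule.span ℂ (Set.range fun i => (r i)⁻¹ • (v i : V)) := by
      intro y hy
      induction hy using Submodule.span_induction with
      | mem y hy =>
        obtain ⟨i, rfl⟩ := hy
        have h3 : (v i : V) = r i • ((r i)⁻¹ • (v i : V)) := by
          rw [smul_smul, mul_inv_cancel₀ (hr0 i), one_smul]
        rw [h3]
        exact Submodule.smul_mem _ _ (Submodule.subset_span ⟨i, rfl⟩)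
      | zero => exact Submodule.zero_mem _
      | add a b _ _ ha hb => exact Submodule.add_mem _ ha hb
      | smul c a _ ha => exact Submodule.smul_mem _ _ ha
    exact h2 _ h1

/-- The adapted basis. -/
theorem exists_basis : ∃ (w : Fin (finrank ℂ (LinearMap.range p)) → V)
    (e : Basis (Bool × Fin (finrank ℂ (LinearMap.range p))) ℂ V), (∀ i, p (w i) = w i) ∧
    (∀ i j, E (T (w i)) (w j) = if i = j then 1 else 0) ∧ (∀ i, e (false, i) = w i) ∧
    ∀ i, e (true, i) = T (w i) := by
  obtain ⟨w, h1, h2, h3⟩ := h.exists_on
  obtain ⟨f, hf⟩ : ∃ f : Bool × Fin (finrank ℂ (LinearMap.range p)) → V,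
      f = fun q => if q.1 then T (w q.2) else w q.2 := ⟨_, rfl⟩
  have hft : ∀ i, f (true, i) = T (w i) := fun i => by rw [hf]; rfl
  have hff : ∀ i, f (false, i) = w i := fun i => by rw [hf]; rfl
  have hli : LinearIndependent ℂ f := by
    rw [Fintype.linearIndependent_iff]
    intro g hg
    rw [Fintype.sum_prod_type, Fintype.sum_bool] at hg
    simp only [hft, hff] at hg
    have hT'w : ∀ i, T' (w i) = 0 := fun i => by rw [← h1, h.T'p_]
    have h4 : ∀ j, g (false, j) = 0 := by
      intro j
      have h5 := congrArg (fun x => E (T (w j)) (p x)) hg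
      simp only [map_add, map_sum, map_smul, h.pT_, h1, smul_zero, Finset.sum_const_zero, zero_add,
        map_zero, smul_eq_mul, h2] at h5
      simpa using h5
    have h4' : ∀ j, g (true, j) = 0 := by
      intro j
      have h5 := congrArg (fun x => E (T (w j)) (T' x)) hg
      simp only [map_add, map_sum, map_smul, h.TT_, hT'w, h1, smul_zero, Finset.sum_const_zero,
        add_zero, map_zero, smul_eq_mul, h2] at h5
      simpa using h5
    rintro ⟨c, i⟩
    cases c
    · exact h4 i
    · exact h4' i
  have hsp : ⊤ ≤ Submodule.span ℂ (Set.range f) := by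
    have hw : ∀ x ∈ Submodule.span ℂ (Set.range w), x ∈ Submodule.span ℂ (Set.range f) ∧
        T x ∈ Submodule.span ℂ (Set.range f) := by
      intro x hx
      induction hx using Submodule.span_induction with
      | mem x hx =>
        obtain ⟨i, rfl⟩ := hx
        exact ⟨Submodule.subset_span ⟨(false, i), hff i⟩,
          Submodule.subset_span ⟨(true, i), hft i⟩⟩
      | zero =>
        rw [map_zero]
        exact ⟨Submodule.zero_mem _, Submodule.zero_mem _⟩
      | add a b _ _ ha hb =>
        rw [map_add]
        exact ⟨Submodule.add_mem _ ha.1 hb.1, Submodule.add_mem _ ha.2 hb.2⟩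
      | smul c a _ ha =>
        rw [map_smul]
        exact ⟨Submodule.smul_mem _ _ ha.1, Submodule.smul_mem _ _ ha.2⟩
    intro x _
    have h4 : x = p x + T (T' x) := by
      rw [h.TT'_]
      abel
    rw [h4]
    exact Submodule.add_mem _ (hw _ (h3 _ (h.pp_ x))).1 (hw _ (h3 _ (h.pT'_ x))).2
  refine ⟨w, Basis.mk hli hsp, h1, h2, fun i => ?_, fun i => ?_⟩
  · rw [Basis.mk_apply, hff]
  · rw [Basis.mk_apply, hft]

/-- **Invariant alternating forms on the double.** -/
theorem mem {N : ∀ (κ : Type) [Finite κ], Submodule ℂ (MultilinearMap ℂ (fun _ : κ => V) ℂ)}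
    (hN : Clo N) (hE : ∀ g : V →ₗ[ℂ] V →ₗ[ℂ] ℂ, (∀ x y, g x y - g y x = -E x y) →
      bil2 g ∈ N (Fin 2)) {κ : Type} [Fintype κ] [DecidableEq κ] {φ : V [⋀^κ]→ₗ[ℂ] ℂ}
    (hinv : ∀ u v, Kills (wed E p T T' u v) φ.toMultilinearMap)
    (hodd : (∀ (n : ℕ) (_ : n = finrank ℂ (LinearMap.range p)) (w : Fin n → V) (c : Fin n → Bool)
      (B : MultilinearMap ℂ (fun _ : Fin n => V) ℂ),
      (∀ v, B v = Matrix.det (Matrix.of fun k j : Fin n =>
        E (T (w j)) (if c k then T' (v k) else p (v k)))) → B ∈ N (Fin n)) ∨
      (0 < finrank ℂ (LinearMap.range p) ∧ Kills ((2 : ℂ) • p - 1) φ.toMultilinearMap ∧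
        Kills T φ.toMultilinearMap)) :
    φ.toMultilinearMap ∈ N κ := by
  obtain ⟨w, e, h1, h2, h3, h4⟩ := h.exists_basis
  have hT'w : ∀ i, T' (w i) = 0 := fun i => by rw [← h1, h.T'p_]
  have hR : ∀ i j, i ≠ j → Rop e i j = wed E p T T' (w j) (w i) := by
    intro i j hij
    refine e.ext fun q => ?_
    obtain ⟨c, l⟩ := q
    rw [wed_apply]
    cases c
    · rw [h3, h1, h1, h1, h2, h2, hT'w, map_zero, map_zero, zero_smul, zero_smul, sub_zero,
        add_zero]
      by_cases hl : l = j
      · rw [hl, ← h3, Rop_j, h3, if_pos rfl, if_neg hij, one_smul, zero_smul, sub_zero]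
      · by_cases hl' : l = i
        · rw [hl', ← h3, Rop_i _ _ hij, h3, if_neg hij.symm, if_pos rfl, one_smul, zero_smul,
            zero_sub]
        · rw [← h3, Rop_o e _ hl' hl, if_neg (Ne.symm hl), if_neg (Ne.symm hl'), zero_smul,
            zero_smul, sub_zero]
    · rw [h4, h.pT_, map_zero, map_zero, zero_smul, zero_smul, sub_zero, zero_add, h.TT_, h1, h2,
        h2]
      by_cases hl : l = j
      · rw [hl, ← h4, Rop_j, h4, if_pos rfl, if_neg hij, one_smul, zero_smul, sub_zero]
      · by_cases hl' : l = i
        · rw [hl', ← h4, Rop_i _ _ hij, h4, if_neg hij.symm, if_pos rfl, one_smul, zero_smul,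
            zero_sub]
        · rw [← h4, Rop_o e _ hl' hl, if_neg (Ne.symm hl), if_neg (Ne.symm hl'), zero_smul,
            zero_smul, sub_zero]
  obtain ⟨g, hg⟩ : ∃ g : V →ₗ[ℂ] V →ₗ[ℂ] ℂ, ∀ x y, g x y = E (T x) (T' y) :=
    ⟨(E.comp T).compl₂ T', fun _ _ => rfl⟩
  have hgE : ∀ x y, g x y = -E (p x) (y - p y) := by
    intro x y
    rw [hg, ← h.pT'_ y, h.sym, h.TT'_, h.anti]
  have hgN := hE g (fun x y => by
    rw [hgE, hgE]
    have e1 := h.iso x y
    have e2 := h.iso' x y
    have e3 := h.anti (p y) (x - p x)
    have e4 : E x y = E (p x) (p y) + E (p x) (y - p y) + E (x - p x) (p y) +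
        E (x - p x) (y - p y) := by
      simp only [map_sub, LinearMap.sub_apply]
      ring
    rw [e4, e1, e2, e3]
    ring)
  have hge : ∀ q q' : Bool × Fin (finrank ℂ (LinearMap.range p)), g (e q) (e q') =
      if q.1 = false ∧ q'.1 = true ∧ q.2 = q'.2 then 1 else 0 := by
    rintro ⟨c, i⟩ ⟨c', j⟩
    rw [hg]
    cases c <;> cases c'
    · rw [h3, h3, hT'w, map_zero]
      simp
    · rw [h3, h4, h.TT_, h1, h2]
      simp
    · rw [h4, h3, hT'w, map_zero]
      simp
    · rw [h4, ← h.Tp_, h.pT_, map_zero, map_zero, LinearMap.zero_apply]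
      simp
  have hinv' : ∀ i j : Fin (finrank ℂ (LinearMap.range p)), i ≠ j →
      Kills (Rop e i j) φ.toMultilinearMap := fun i j hij => by
    rw [hR i j hij]
    exact hinv _ _
  refine so_mem hN (e := e) hinv' hge hgN ?_
  rcases hodd with h5 | ⟨hn, h5, h6⟩
  · left
    intro c B hB
    refine h5 _ rfl w c B fun v => ?_
    rw [hB]
    congr 1
    ext k j
    simp only [Matrix.of_apply]
    have h7 : ∀ (c : Bool) (x : V), e.repr x (c, j) =
        E (T (w j)) (if c then T' x else p x) := by
      intro c x
      obtain ⟨L₁, hL₁⟩ : ∃ L₁ : V →ₗ[ℂ] ℂ, L₁ = e.coord (c, j) := ⟨_, rfl⟩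
      obtain ⟨L₂, hL₂⟩ : ∃ L₂ : V →ₗ[ℂ] ℂ, L₂ = (E (T (w j))).comp (if c then T' else p) :=
        ⟨_, rfl⟩
      have h8 : L₁ = L₂ := by
        refine e.ext fun q => ?_
        obtain ⟨c', i⟩ := q
        rw [hL₁, hL₂, Basis.coord_apply, Basis.repr_self, Finsupp.single_apply,
          LinearMap.comp_apply]
        cases c <;> cases c'
        · rw [h3]
          simp only [Bool.false_eq_true, if_false, h1, h2, Prod.mk.injEq, true_and]
          congr 1
          exact propext eq_comm
        · rw [h4]
          simp only [Bool.false_eq_true, if_false, h.pT_, map_zero, Prod.mk.injEq]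
          simp
        · rw [h3]
          simp only [if_true, hT'w, map_zero, Prod.mk.injEq]
          simp
        · rw [h4]
          simp only [if_true, h.TT_, h1, h2, Prod.mk.injEq, true_and]
          congr 1
          exact propext eq_comm
      have h9 := LinearMap.congr_fun h8 x
      rw [hL₁, hL₂] at h9
      cases c
      · exact h9
      · exact h9
    exact h7 _ _
  · right
    intro c f hf
    have hcard := Fintype.card_of_bijective hf
    rw [Fintype.card_fin] at hcard
    by_cases hc : ∃ k, c k = true
    · -- lowering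
      obtain ⟨k₁, hk₁⟩ := hc
      obtain ⟨c', hc'⟩ : ∃ c', c' = Function.update c k₁ false := ⟨_, rfl⟩
      have h7 := h6 fun k => e (c' k, f k)
      have hTt : ∀ i, T (e (true, i)) = 0 := fun i => by rw [h4, ← h.Tp_, h.pT_, map_zero]
      have hTf : ∀ i, T (e (false, i)) = e (true, i) := fun i => by rw [h3, h4]
      have h8 : ∀ k, φ (Function.update (fun k => e (c' k, f k)) k (T (e (c' k, f k)))) =
          if c' k = false then φ (fun k => e (c k, f k)) else 0 := by
        intro k
        by_cases hk : c' k = false
        · rw [if_pos hk, hk, hTf]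
          by_cases hkk : k = k₁
          · subst hkk
            congr 1
            funext k'
            by_cases hk' : k' = k
            · subst hk'
              rw [Function.update_self, hk₁]
            · rw [Function.update_of_ne hk', hc', Function.update_of_ne hk']
          · have hck : c k = false := by
              rw [hc', Function.update_of_ne hkk] at hk
              exact hk
            have e1 : Function.update (fun k => e (c' k, f k)) k (e (true, f k)) =
                fun k' => e (pm (swap (f k) (f k₁))
                  (fun k' => ((fun k => (c k, f k)) ((swap k k₁) k') :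
                    Bool × Fin (finrank ℂ (LinearMap.range p)))) k') := by
              funext k'
              by_cases hk' : k' = k
              · subst hk'
                rw [Function.update_self]
                change e (true, f k') =
                  e (c (swap k' k₁ k'), swap (f k') (f k₁) (f (swap k' k₁ k')))
                rw [swap_apply_left, swap_apply_right, hk₁]
              · rw [Function.update_of_ne hk']
                by_cases hk'' : k' = k₁
                · subst hk''
                  change e (c' k', f k') =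
                    e (c (swap k k' k'), swap (f k) (f k') (f (swap k k' k')))
                  rw [swap_apply_right, swap_apply_left, hck, hc', Function.update_self]
                · change e (c' k', f k') =
                    e (c (swap k k₁ k'), swap (f k) (f k₁) (f (swap k k₁ k')))
                  rw [swap_apply_of_ne_of_ne hk' hk'', hc', Function.update_of_ne hk'',
                    swap_apply_of_ne_of_ne (fun h0 => hk' (hf.1 h0)) fun h0 => hk'' (hf.1 h0)]
            rw [e1]
            have hl : Function.Injective fun k => ((c k, f k) :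
                Bool × Fin (finrank ℂ (LinearMap.range p))) := by
              intro a b hab
              exact hf.1 (congrArg Prod.snd hab)
            have hl' : Function.Injective fun k' => ((fun k => ((c k, f k) :
                Bool × Fin (finrank ℂ (LinearMap.range p)))) ((swap k k₁) k')) := by
              intro a b hab
              exact (swap k k₁).injective (hl hab)
            have ho : ∀ i, (∃ k', ((fun k => ((c k, f k) :
                Bool × Fin (finrank ℂ (LinearMap.range p)))) ((swap k k₁) k')) = (false, i)) ↔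
                ¬∃ k', ((fun k => ((c k, f k) :
                  Bool × Fin (finrank ℂ (LinearMap.range p)))) ((swap k k₁) k')) = (true, i) := by
              intro i
              constructor
              · rintro ⟨a, ha⟩ ⟨b, hb⟩
                have h9 : f ((swap k k₁) a) = f ((swap k k₁) b) :=
                  (congrArg Prod.snd ha).trans (congrArg Prod.snd hb).symm
                have h10 := hf.1 h9
                have h11 := (congrArg Prod.fst ha).symm.trans
                  ((congrArg c h10).trans (congrArg Prod.fst hb))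
                exact Bool.false_ne_true h11
              · intro h9
                obtain ⟨b, hb⟩ := hf.2 i
                refine ⟨(swap k k₁) b, ?_⟩
                rw [swap_apply_self]
                cases h10 : c b
                · exact Prod.ext h10 hb
                · exact absurd ⟨(swap k k₁) b, by
                    rw [swap_apply_self]
                    exact Prod.ext h10 hb⟩ h9
            have h9 := Fv_swap_odd (e := e) (φ := φ) hinv' hl' ho
              (i := f k) (j := f k₁) (fun h0 => hkk (hf.1 h0))
            have h10 := Fv_perm (e := e) (φ := φ) (fun k => (c k, f k)) (swap k k₁)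
            rw [Perm.sign_swap hkk] at h10
            rw [h10] at h9
            change Fv e φ _ = Fv e φ _
            rw [h9]
            simp
        · have hk' : c' k = true := by simpa using hk
          rw [if_neg hk, hk', hTt]
          exact φ.map_coord_zero k (Function.update_self _ _ _)
      have h9 : ∑ k, φ (Function.update (fun k => e (c' k, f k)) k (T (e (c' k, f k)))) = 0 := h7
      rw [Finset.sum_congr rfl fun k _ => h8 k, ← Finset.sum_filter, Finset.sum_const,
        nsmul_eq_mul] at h9
      refine (mul_eq_zero.1 h9).resolve_left (Nat.cast_ne_zero.2 ?_)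
      refine Finset.card_ne_zero_of_mem (a := k₁) ?_
      rw [Finset.mem_filter]
      exact ⟨Finset.mem_univ _, by rw [hc', Function.update_self]⟩
    · -- the weight
      push Not at hc
      have hc' : ∀ k, c k = false := fun k => by simpa using hc k
      have h7 := h5 fun k => e (c k, f k)
      have h8 : ∀ k, φ (Function.update (fun k => e (c k, f k)) k
          (((2 : ℂ) • p - 1) (e (c k, f k)))) = φ fun k => e (c k, f k) := by
        intro k
        congr 1
        rw [hc', h3, LinearMap.sub_apply, LinearMap.smul_apply, h1, Module.End.one_apply,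
          two_smul, add_sub_cancel_right]
        funext k'
        by_cases hk' : k' = k
        · subst hk'
          rw [Function.update_self, hc', h3]
        · rw [Function.update_of_ne hk']
      have h9 : ∑ k, φ (Function.update (fun k => e (c k, f k)) k
          (((2 : ℂ) • p - 1) (e (c k, f k)))) = 0 := h7
      rw [Finset.sum_congr rfl fun k _ => h8 k, Finset.sum_const, Finset.card_univ, hcard,
        nsmul_eq_mul] at h9
      exact (mul_eq_zero.1 h9).resolve_left (Nat.cast_ne_zero.2 (by omega))

end Dbl

end

end Pool.Agent.H926
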