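import Mathlib
import Pool.Agent.H926.Cnj
import Pool.Agent.H926.Dbl
import Pool.Graph.R_pool_sql_team_seeded_1acbe0a2.Y474.P.Mum

/-!
# Three commuting triples in dimension eight
-/

set_option linter.unusedSectionVars false

namespace Pool.Agent.H926

open Module LinearMap Pool.Agent.W548.Odd Pool.Agent.Y91.JP Pool.Agent.Y91.P

noncomputable section

variable {V : Type*} [AddCommGroup V] [Module ℂ V] [FiniteDimensional ℂ V]
  {G : Submodule ℂ (End ℂ V)} {st : End ℂ V →ₗ[ℂ] End ℂ V} (h : Setup G st) (hs : Scal G)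

/-- The projectors of an involution of trace zero. -/
theorem half_idem {D : End ℂ V} (hD2 : D * D = 1) :
    ((1 / 2 : ℂ) • (1 + D)) * ((1 / 2 : ℂ) • (1 + D)) = (1 / 2 : ℂ) • (1 + D) := by
  have e2 : (1 + D) * (1 + D) = (2 : ℂ) • (1 + D) := by
    rw [two_smul, mul_add, add_mul, add_mul, one_mul, mul_one, hD2, one_mul]
    abel
  rw [smul_mul_smul_comm, e2, smul_smul]
  norm_num

theorem rk_half {D : End ℂ V} (hD2 : D * D = 1) (htr : trace ℂ V D = 0) {m : ℕ}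
    (hV : finrank ℂ V = 2 * m) : rk ((1 / 2 : ℂ) • (1 + D)) = m := by
  have h1 := trace_idem (half_idem hD2)
  rw [map_smul, map_add, LinearMap.trace_one, htr, add_zero, hV, smul_eq_mul] at h1
  push_cast at h1
  have h2 : (rk ((1 / 2 : ℂ) • (1 + D)) : ℂ) = m := by
    rw [← h1]
    ring
  exact_mod_cast h2

/-- A partner pair of maximal rank. -/
theorem half_eq {D e f : End ℂ V} (hD2 : D * D = 1) (htr : trace ℂ V D = 0) {m : ℕ}
    (hV : finrank ℂ V = 2 * m) (h1 : D * e = e) (h2 : f * D = f) (h3 : e * f * e = e)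
    (hr : rk e = m) : e * f = (1 / 2 : ℂ) • (1 + D) := by
  obtain ⟨p, hp⟩ : ∃ p, p = (1 / 2 : ℂ) • (1 + D) := ⟨_, rfl⟩
  have hpp : p * p = p := by rw [hp, half_idem hD2]
  have hpe : p * (e * f) = e * f := by
    rw [hp, smul_mul_assoc, add_mul, one_mul, ← mul_assoc, h1, ← two_smul ℂ (e * f), smul_smul]
    norm_num
  have hep : (e * f) * p = e * f := by
    rw [hp, mul_smul_comm, mul_add, mul_one, mul_assoc, h2, ← two_smul ℂ (e * f), smul_smul]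
    norm_num
  have hef : e * f * (e * f) = e * f := by rw [← mul_assoc, h3]
  have hre : rk (e * f) = m := by
    rw [← hr]
    apply le_antisymm (rk_mul_le_left _ _)
    conv_lhs => rw [← h3]
    exact rk_mul_le_left _ _
  have hx : (p - e * f) * (p - e * f) = p - e * f := by
    rw [sub_mul, mul_sub, mul_sub, hpp, hpe, hep, hef, sub_self, sub_zero]
  have ht := trace_idem hx
  rw [map_sub, trace_idem hpp, trace_idem hef, hre] at ht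
  have hrp : rk p = m := by rw [hp]; exact rk_half hD2 htr hV
  rw [hrp, sub_self] at ht
  have h0 : rk (p - e * f) = 0 := by exact_mod_cast ht.symm
  have h4 := rk_eq_zero h0
  rw [← hp]
  exact (sub_eq_zero.1 h4).symm

/-- The triple of a partner pair of maximal rank. -/
theorem trp_of_rk {D e f : End ℂ V} (hD2 : D * D = 1) (htr : trace ℂ V D = 0) {m : ℕ}
    (hV : finrank ℂ V = 2 * m) (he1 : D * e = e) (he2 : e * D = -e) (hf1 : D * f = -f)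
    (hf2 : f * D = f) (h3 : e * f * e = e) (h4 : f * e * f = f) (hr : rk e = m) :
    Trp D e f := by
  have e1 := half_eq hD2 htr hV he1 hf2 h3 hr
  have hrf : rk f = m := by
    rw [← hr]
    apply le_antisymm
    · conv_lhs => rw [← h4]
      exact (rk_mul_le_left _ _).trans (rk_mul_le_right _ _)
    · conv_lhs => rw [← h3]
      exact (rk_mul_le_left _ _).trans (rk_mul_le_right _ _)
  have e2 := half_eq (D := -D) (e := f) (f := e) (by rw [neg_mul_neg, hD2])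
    (by rw [map_neg, htr, neg_zero]) hV (by rw [neg_mul, hf1, neg_neg])
    (by rw [mul_neg, he2, neg_neg]) h4 hrf
  refine ⟨sq_zero_of_up he1 he2, sq_zero_of_dn hf1 hf2, ?_, ?_⟩
  · rw [e1, e2]
    module
  · rw [e1, e2]
    module

/-- The image of a triple. -/
theorem Trp.map' {D N M : End ℂ V} (t : Trp D N M) (s : End ℂ V ≃+* End ℂ V) :
    Trp (s D) (s N) (s M) where
  nn := by rw [← map_mul, t.nn, map_zero]
  mm := by rw [← map_mul, t.mm, map_zero]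
  sub := by rw [← map_mul, ← map_mul, ← map_sub, t.sub]
  add := by rw [← map_mul, ← map_mul, ← map_add, t.add, map_one]

include h hs in
/-- **Three commuting triples.** -/
theorem three_trp {ω : V →ₗ[ℂ] V →ₗ[ℂ] ℂ} (hω : AltF st ω) (htr : TrSt st)
    (h8 : finrank ℂ V = 8) {S : Set (End ℂ V)} (hS : ∀ D ∈ S, D ∈ G ∧ D * D = 1)
    (hgen : ∀ L : Submodule ℂ (End ℂ V), S ⊆ L → (∀ y ∈ L, ∀ z ∈ L, y * z - z * y ∈ L) → G ≤ L)
    {D₀ : End ℂ V} (hD₀S : D₀ ∈ S)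
    (hconj : ∀ D ∈ S, ∃ (s : End ℂ V ≃+* End ℂ V) (τ : ℂ ≃+* ℂ), Tr G st D₀ D s τ ∧
      ∀ x, rk (s x) = rk x) (hngn : ¬G ≤ gn G D₀) :
    ∃ N ∈ G, ∃ M ∈ G, Trp D₀ N M ∧ ∃ D₁ ∈ G, ∃ N₁ ∈ G, ∃ M₁ ∈ G, Trp D₁ N₁ M₁ ∧
      ∃ D₂ ∈ G, ∃ N₂ ∈ G, ∃ M₂ ∈ G, Trp D₂ N₂ M₂ ∧
        (N * N₁ = N₁ * N ∧ N * M₁ = M₁ * N ∧ M * N₁ = N₁ * M ∧ M * M₁ = M₁ * M) ∧
        (N * N₂ = N₂ * N ∧ N * M₂ = M₂ * N ∧ M * N₂ = N₂ * M ∧ M * M₂ = M₂ * M) ∧
        (N₁ * N₂ = N₂ * N₁ ∧ N₁ * M₂ = M₂ * N₁ ∧ M₁ * N₂ = N₂ * M₁ ∧ M₁ * M₂ = M₂ * M₁) := by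
  obtain ⟨hD₀, hD₀2⟩ := hS D₀ hD₀S
  have hntr : Nontrivial V := Module.nontrivial_of_finrank_pos (R := ℂ) (by omega)
  have h10 : (1 : End ℂ V) ≠ 0 := one_ne_zero
  have hne0 : ∀ {E : End ℂ V}, E * E = 1 → E ≠ 0 := by
    intro E hE h0
    rw [h0, mul_zero] at hE
    exact zero_ne_one hE
  have h1 : st 1 = 1 := st_one h hD₀ hD₀2
  have hI0 := gn_idl h hD₀
  have hC0 := cen_idl h hI0
  -- the second involution
  obtain ⟨D₁, hD₁S, hD₁n⟩ : ∃ D₁ ∈ S, D₁ ∉ gn G D₀ := by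
    by_contra hcon
    push Not at hcon
    exact hngn (hgen _ hcon fun y hy z hz => hI0.br y (hI0.le hy) z hz)
  obtain ⟨hD₁, hD₁2⟩ := hS D₁ hD₁S
  have hD₁c : D₁ ∈ cen G (gn G D₀) := (invol_dich h hs hI0 hD₁ hD₁2).resolve_left hD₁n
  obtain ⟨s₁, τ₁, T₁, hr₁⟩ := hconj D₁ hD₁S
  -- the pair
  obtain ⟨e, he, he0⟩ := exists_kp_ne h hs hD₀ hD₀2 (hne0 hD₀2)
  obtain ⟨f, hf, hefe, hfef⟩ := kp_partner h hD₀ hD₀2 he
  have hf2 := mem_Kn.1 hf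
  have trm : ∀ {D : End ℂ V}, D ∈ G → trace ℂ V D = 0 := fun hD => trace_inv h htr hD
  have f1 : D₁ * s₁ e = s₁ e := by rw [← T₁.map, ← map_mul, he.2.1]
  have f2 : s₁ e * D₁ = -s₁ e := by rw [← T₁.map, ← map_mul, he.2.2, map_neg]
  have f3 : D₁ * s₁ f = -s₁ f := by rw [← T₁.map, ← map_mul, hf2.2.1, map_neg]
  have f4 : s₁ f * D₁ = s₁ f := by rw [← T₁.map, ← map_mul, hf2.2.2]
  have g1 : s₁ e ∈ cen G (gn G D₀) := idl_of_pos hC0 hD₁c (T₁.mem _ he.1) f1 f2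
  have g2 : s₁ f ∈ cen G (gn G D₀) := idl_of_neg hC0 hD₁c (T₁.mem _ hf2.1) f3 f4
  have key := rk_dvd h hs hD₀ hD₀2 he hf hefe g1 g2 (by rw [← map_mul, ← map_mul, hefe])
  have hr4 : rk e = 4 := by
    have h2 : rk e ≤ 4 := by
      have h3 : rk ((1 / 2 : ℂ) • (1 + D₀)) = 4 :=
        rk_half hD₀2 (trm hD₀) (by rw [h8])
      rw [← h3]
      have h4 : e = ((1 / 2 : ℂ) • (1 + D₀)) * e := by
        rw [smul_mul_assoc, add_mul, one_mul, he.2.1, ← two_smul ℂ e, smul_smul]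
        norm_num
      rw [h4]
      exact rk_mul_le_left _ _
    have h3 := rk_pos_of_ne he0
    rw [hr₁, h8] at key
    obtain ⟨r, hr⟩ : ∃ r, r = rk e := ⟨_, rfl⟩
    rw [← hr] at key h2 h3 ⊢
    interval_cases r <;> omega
  have t : Trp D₀ e f := trp_of_rk hD₀2 (trm hD₀) (m := 4) (by rw [h8]) he.2.1 he.2.2 hf2.2.1
    hf2.2.2 hefe hfef hr4
  have t₁ : Trp D₁ (s₁ e) (s₁ f) := by
    have h2 := t.map' s₁
    rwa [T₁.map] at h2
  have m1 : e ∈ gn G D₀ := idl_of_pos hI0 mem_gn he.1 he.2.1 he.2.2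
  have m2 : f ∈ gn G D₀ := idl_of_neg hI0 mem_gn hf2.1 hf2.2.1 hf2.2.2
  -- the state
  obtain ⟨d, hd, E, M⟩ := idl_mu h hs hD₀ hD₀2 hI0
  obtain ⟨y, z, ε, N⟩ := exists_sg M (fun x hx => st_adjoin h h1 hI0.le hx) h.st_mul
    (st_st hω) 0 h10
  have M' := T₁.mu h hD₀ M
  have Q' := (Ste.start h hD₀ M N).step h h1 hD₁c M' (T₁.sg h hD₀ N)
  obtain ⟨I, hI⟩ : ∃ I, I = gn G D₀ ⊔ gn G D₁ := ⟨_, rfl⟩
  rw [← hI] at Q'
  have hGI : ¬G ≤ I := by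
    intro hGI
    obtain ⟨h2, -⟩ := Q'.last h hs h1 hω hGI
    rw [h8] at h2
    have h3 : d < 3 := by
      by_contra hcon
      have h4 : 3 ^ (1 + 1) ≤ d ^ (1 + 1) := Nat.pow_le_pow_left (by omega) _
      omega
    interval_cases d <;> omega
  obtain ⟨D₂, hD₂S, hD₂n⟩ : ∃ D₂ ∈ S, D₂ ∉ I := by
    by_contra hcon
    push Not at hcon
    exact hGI (hgen _ hcon fun y hy z hz => Q'.idl.br y (Q'.idl.le hy) z hz)
  obtain ⟨hD₂, hD₂2⟩ := hS D₂ hD₂S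
  have hD₂c : D₂ ∈ cen G I := (invol_dich h hs Q'.idl hD₂ hD₂2).resolve_left hD₂n
  obtain ⟨s₂, τ₂, T₂, -⟩ := hconj D₂ hD₂S
  have hCI := cen_idl h Q'.idl
  have t₂ : Trp D₂ (s₂ e) (s₂ f) := by
    have h2 := t.map' s₂
    rwa [T₂.map] at h2
  have k1 : s₂ e ∈ cen G I := idl_of_pos hCI hD₂c (T₂.mem _ he.1) t₂.dn t₂.nd
  have k2 : s₂ f ∈ cen G I := idl_of_neg hCI hD₂c (T₂.mem _ hf2.1) t₂.dm t₂.md
  have hI1 := gn_idl h hD₁
  have m3 : s₁ e ∈ gn G D₁ := idl_of_pos hI1 mem_gn (T₁.mem _ he.1) f1 f2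
  have m4 : s₁ f ∈ gn G D₁ := idl_of_neg hI1 mem_gn (T₁.mem _ hf2.1) f3 f4
  have i0 : ∀ x ∈ gn G D₀, x ∈ I := fun x hx => by rw [hI]; exact Submodule.mem_sup_left hx
  have i1 : ∀ x ∈ gn G D₁, x ∈ I := fun x hx => by rw [hI]; exact Submodule.mem_sup_right hx
  exact ⟨e, he.1, f, hf2.1, t, D₁, hD₁, s₁ e, T₁.mem _ he.1, s₁ f, T₁.mem _ hf2.1, t₁, D₂, hD₂,
    s₂ e, T₂.mem _ he.1, s₂ f, T₂.mem _ hf2.1, t₂,
    ⟨(g1.2 _ m1).symm, (g2.2 _ m1).symm, (g1.2 _ m2).symm, (g2.2 _ m2).symm⟩,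
    ⟨(k1.2 _ (i0 _ m1)).symm, (k2.2 _ (i0 _ m1)).symm, (k1.2 _ (i0 _ m2)).symm,
      (k2.2 _ (i0 _ m2)).symm⟩,
    ⟨(k1.2 _ (i1 _ m3)).symm, (k2.2 _ (i1 _ m3)).symm, (k1.2 _ (i1 _ m4)).symm,
      (k2.2 _ (i1 _ m4)).symm⟩⟩

end

end Pool.Agent.H926
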