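import Mathlib
import Pool.Agent.H926.Mum

/-!
# Three commuting triples in dimension eight: the orthogonal Lie algebra
-/

set_option linter.unusedSectionVars false

namespace Pool.Agent.H926

open Module LinearMap Pool.Agent.W548.Odd Pool.Agent.Y91.JP Pool.Agent.Y91.P

noncomputable section

variable {V : Type*} [AddCommGroup V] [Module ℂ V] [FiniteDimensional ℂ V]
  {G : Submodule ℂ (End ℂ V)}

theorem Trp.nm {D N M : End ℂ V} (t : Trp D N M) : N * M = (1 / 2 : ℂ) • (1 + D) := by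
  have h1 : (2 : ℂ) • (N * M) = 1 + D := by
    rw [← t.add, ← t.sub, two_smul]
    abel
  rw [← h1, smul_smul]
  norm_num

theorem Trp.mn {D N M : End ℂ V} (t : Trp D N M) : M * N = 1 - (1 / 2 : ℂ) • (1 + D) := by
  rw [← t.nm, ← t.add, add_sub_cancel_left]

/-- The double of a triple. -/
theorem dbl_of_trp {E : V →ₗ[ℂ] V →ₗ[ℂ] ℂ} (anti : ∀ x y, E x y = -E y x)
    (nd : ∀ x, (∀ y, E x y = 0) → x = 0) {D N M : End ℂ V} (t : Trp D N M) (sN : Skw E N)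
    (sM : Skw E M) : Dbl E ((1 / 2 : ℂ) • (1 + D)) M N := by
  have sD : Skw E D := by
    rw [← t.sub]
    exact sN.br sM
  have hM : ∀ x, M x - ((1 / 2 : ℂ) • (1 + D)) (M x) = M x := by
    intro x
    have h1 : ((1 / 2 : ℂ) • (1 + D)) * M = 0 := by
      rw [smul_mul_assoc, add_mul, one_mul, t.dm, add_neg_cancel, smul_zero]
    have h2 := LinearMap.congr_fun h1 x
    rw [Module.End.mul_apply] at h2
    rw [h2, LinearMap.zero_apply, sub_zero]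
  have iso' : ∀ x y, E (x - ((1 / 2 : ℂ) • (1 + D)) x) (y - ((1 / 2 : ℂ) • (1 + D)) y) = 0 := by
    intro x y
    have h1 : ∀ x, D (x - ((1 / 2 : ℂ) • (1 + D)) x) =
        (-1 : ℂ) • (x - ((1 / 2 : ℂ) • (1 + D)) x) := by
      intro x
      have h2 : D * (1 - (1 / 2 : ℂ) • (1 + D)) = (-1 : ℂ) • (1 - (1 / 2 : ℂ) • (1 + D)) := by
        rw [mul_sub, mul_one, mul_smul_comm, mul_add, mul_one, t.dd]
        module
      exact LinearMap.congr_fun h2 x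
    exact sD.iso (neg_ne_zero.2 one_ne_zero) (h1 x) (h1 y)
  refine ⟨half_idem t.dd, ?_, ?_, ?_, ?_, t.nm, t.mn, anti, nd, fun x y => ?_, iso',
    fun x y => ?_⟩
  · rw [smul_mul_assoc, add_mul, one_mul, t.dm, add_neg_cancel, smul_zero]
  · rw [mul_smul_comm, mul_add, mul_one, t.md, ← two_smul ℂ M, smul_smul]
    norm_num
  · rw [smul_mul_assoc, add_mul, one_mul, t.dn, ← two_smul ℂ N, smul_smul]
    norm_num
  · rw [mul_smul_comm, mul_add, mul_one, t.nd, add_neg_cancel, smul_zero]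
  · have h1 : ∀ x, D (((1 / 2 : ℂ) • (1 + D)) x) = (1 : ℂ) • (((1 / 2 : ℂ) • (1 + D)) x) := by
      intro x
      have h2 : D * ((1 / 2 : ℂ) • (1 + D)) = (1 : ℂ) • ((1 / 2 : ℂ) • (1 + D)) := by
        rw [mul_smul_comm, mul_add, mul_one, t.dd]
        module
      exact LinearMap.congr_fun h2 x
    exact sD.iso one_ne_zero (h1 x) (h1 y)
  · have hMp : ∀ y, M (((1 / 2 : ℂ) • (1 + D)) y) = M y := by
      intro y
      have h2 : M * ((1 / 2 : ℂ) • (1 + D)) = M := by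
        rw [mul_smul_comm, mul_add, mul_one, t.md, ← two_smul ℂ M, smul_smul]
        norm_num
      exact LinearMap.congr_fun h2 y
    rw [sM, hMp, anti, neg_neg]
    have h3 := iso' (M y) x
    rw [hM] at h3
    rw [map_sub, sub_eq_zero] at h3
    exact h3

/-- Operators which commute with the double structure are determined by their restriction. -/
theorem wed_of_res {E : V →ₗ[ℂ] V →ₗ[ℂ] ℂ} {p T T' : End ℂ V} (d : Dbl E p T T') {y : End ℂ V}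
    (hT : y * T = T * y) {u v : V}
    (hy : ∀ w, p w = w → y w = E (T u) w • p v - E (T v) w • p u) : y = wed E p T T' u v := by
  refine LinearMap.ext fun x => ?_
  have h3 : x = p x + T (T' x) := by
    rw [d.TT'_]
    abel
  have h4 := LinearMap.congr_fun hT (T' x)
  rw [Module.End.mul_apply, Module.End.mul_apply, hy _ (d.pT'_ x), map_sub, map_smul, map_smul,
    d.Tp_, d.Tp_] at h4
  conv_lhs => rw [h3]
  rw [map_add, hy _ (d.pp_ x), h4, wed_apply]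

/-- **The orthogonal Lie algebra of three triples.** -/
theorem three_wed {E : V →ₗ[ℂ] V →ₗ[ℂ] ℂ} (anti : ∀ x y, E x y = -E y x)
    (nd : ∀ x, (∀ y, E x y = 0) → x = 0) (hsk : ∀ g ∈ G, Skw E g) (h8 : finrank ℂ V = 8)
    {D₀ N₀ M₀ D₁ N₁ M₁ D₂ N₂ M₂ : End ℂ V} (t₀ : Trp D₀ N₀ M₀) (t₁ : Trp D₁ N₁ M₁)
    (t₂ : Trp D₂ N₂ M₂) (htr : LinearMap.trace ℂ V D₂ = 0) (l1 : D₀ ∈ G) (l2 : N₀ ∈ G)
    (l3 : M₀ ∈ G) (l4 : D₁ ∈ G) (l5 : N₁ ∈ G) (l6 : M₁ ∈ G) (l8 : N₂ ∈ G) (l9 : M₂ ∈ G)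
    (c1 : N₀ * N₁ = N₁ * N₀ ∧ N₀ * M₁ = M₁ * N₀ ∧ M₀ * N₁ = N₁ * M₀ ∧ M₀ * M₁ = M₁ * M₀)
    (c2 : N₀ * N₂ = N₂ * N₀ ∧ N₀ * M₂ = M₂ * N₀ ∧ M₀ * N₂ = N₂ * M₀ ∧ M₀ * M₂ = M₂ * M₀)
    (c3 : N₁ * N₂ = N₂ * N₁ ∧ N₁ * M₂ = M₂ * N₁ ∧ M₁ * N₂ = N₂ * M₁ ∧ M₁ * M₂ = M₂ * M₁)
    (u v : V) : wed E ((1 / 2 : ℂ) • (1 + D₂)) M₂ N₂ u v ∈ G := by
  have d := dbl_of_trp anti nd t₂ (hsk _ l8) (hsk _ l9)
  obtain ⟨p, hp⟩ : ∃ p, p = (1 / 2 : ℂ) • (1 + D₂) := ⟨_, rfl⟩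
  rw [← hp] at d ⊢
  let π : V →ₗ[ℂ] LinearMap.range p := p.rangeRestrict
  have hπ : ∀ x : LinearMap.range p, π x = x := by
    rintro ⟨_, x, rfl⟩
    apply Subtype.ext
    exact d.pp_ x
  have hpr : pr (LinearMap.range p) π = p := rfl
  have hpx : ∀ x : LinearMap.range p, p x = x := by
    rintro ⟨_, x, rfl⟩
    exact d.pp_ x
  -- the centralizer
  let C : Submodule ℂ (End ℂ V) :=
    { carrier := {y | y ∈ G ∧ y * N₂ = N₂ * y ∧ y * M₂ = M₂ * y}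
      add_mem' := by
        rintro a b ⟨a1, a2, a3⟩ ⟨b1, b2, b3⟩
        exact ⟨G.add_mem a1 b1, by rw [add_mul, mul_add, a2, b2], by rw [add_mul, mul_add, a3, b3]⟩
      zero_mem' := ⟨G.zero_mem, by rw [zero_mul, mul_zero], by rw [zero_mul, mul_zero]⟩
      smul_mem' := by
        rintro c a ⟨a1, a2, a3⟩
        exact ⟨G.smul_mem _ a1, by rw [smul_mul_assoc, mul_smul_comm, a2],
          by rw [smul_mul_assoc, mul_smul_comm, a3]⟩ }
  have hCp : ∀ y ∈ C, p * y = y * p := by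
    rintro y ⟨-, h1, h2⟩
    rw [hp, ← t₂.nm, mul_assoc, ← h2, ← mul_assoc, ← h1, mul_assoc]
  obtain ⟨R, hR⟩ : ∃ R, R = rs (LinearMap.range p) π := ⟨_, rfl⟩
  have hRm : ∀ x, ∀ y ∈ C, R (x * y) = R x * R y := by
    intro x y hy
    rw [hR]
    exact rs_mul hπ (by rw [hpr]; exact hCp y hy)
  have hR1 : R 1 = 1 := by
    rw [hR]
    exact rs_one hπ
  have hRv : ∀ y ∈ C, ∀ x : LinearMap.range p, ((R y x : LinearMap.range p) : V) = y x := by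
    intro y hy x
    rw [hR, rs_apply]
    have h1 := LinearMap.congr_fun (hCp y hy) (x : V)
    rw [Module.End.mul_apply, Module.End.mul_apply, hpx] at h1
    exact h1
  have cb : ∀ {a b x : End ℂ V}, a * x = x * a → b * x = x * b →
      (a * b - b * a) * x = x * (a * b - b * a) := by
    intro a b x h1 h2
    calc (a * b - b * a) * x = a * (b * x) - b * (a * x) := by noncomm_ring
      _ = a * (x * b) - b * (x * a) := by rw [h1, h2]
      _ = (a * x) * b - (b * x) * a := by noncomm_ring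
      _ = (x * a) * b - (x * b) * a := by rw [h1, h2]
      _ = x * (a * b - b * a) := by noncomm_ring
  have kN₀ : N₀ ∈ C := ⟨l2, c2.1, c2.2.1⟩
  have kM₀ : M₀ ∈ C := ⟨l3, c2.2.2.1, c2.2.2.2⟩
  have kN₁ : N₁ ∈ C := ⟨l5, c3.1, c3.2.1⟩
  have kM₁ : M₁ ∈ C := ⟨l6, c3.2.2.1, c3.2.2.2⟩
  have kD₀ : D₀ ∈ C := ⟨l1, by rw [← t₀.sub]; exact cb c2.1 c2.2.2.1,
    by rw [← t₀.sub]; exact cb c2.2.1 c2.2.2.2⟩
  have kD₁ : D₁ ∈ C := ⟨l4, by rw [← t₁.sub]; exact cb c3.1 c3.2.2.1,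
    by rw [← t₁.sub]; exact cb c3.2.1 c3.2.2.2⟩
  have tr0 : Trp (R D₀) (R N₀) (R M₀) := by
    refine ⟨?_, ?_, ?_, ?_⟩
    · rw [← hRm _ _ kN₀, t₀.nn, map_zero]
    · rw [← hRm _ _ kM₀, t₀.mm, map_zero]
    · rw [← hRm _ _ kM₀, ← hRm _ _ kN₀, ← map_sub, t₀.sub]
    · rw [← hRm _ _ kM₀, ← hRm _ _ kN₀, ← map_add, t₀.add, hR1]
  have tr1 : Trp (R D₁) (R N₁) (R M₁) := by
    refine ⟨?_, ?_, ?_, ?_⟩
    · rw [← hRm _ _ kN₁, t₁.nn, map_zero]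
    · rw [← hRm _ _ kM₁, t₁.mm, map_zero]
    · rw [← hRm _ _ kM₁, ← hRm _ _ kN₁, ← map_sub, t₁.sub]
    · rw [← hRm _ _ kM₁, ← hRm _ _ kN₁, ← map_add, t₁.add, hR1]
  let S : LinearMap.range p →ₗ[ℂ] LinearMap.range p →ₗ[ℂ] ℂ :=
    (E.comp M₂).domRestrict₁₂ (LinearMap.range p) (LinearMap.range p)
  have hS : ∀ x y : LinearMap.range p, S x y = E (M₂ (x : V)) y := fun _ _ => rfl
  have sym : ∀ x y, S x y = S y x := by
    intro x y
    rw [hS, hS]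
    have h1 := d.sym (x : V) (y : V)
    rwa [hpx, hpx] at h1
  have snd : ∀ x, (∀ y, S x y = 0) → x = 0 := by
    intro x hx
    have h1 : M₂ (x : V) = 0 := by
      refine d.nd _ fun y => ?_
      have h2 : y = p y + (y - p y) := by abel
      have h3 : E (M₂ (x : V)) (p y) = 0 := hx ⟨p y, ⟨y, rfl⟩⟩
      have h4 := d.iso' (M₂ (x : V)) y
      rw [d.pT_, sub_zero] at h4
      rw [h2, map_add, h3, h4, add_zero]
    apply Subtype.ext
    have h2 := d.TT_ (x : V)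
    rw [h1, map_zero, hpx] at h2
    exact h2.symm
  have ssk : ∀ y ∈ C, Skw S (R y) := by
    intro y hy x x'
    rw [hS, hS, hRv y hy, hRv y hy]
    have h1 := LinearMap.congr_fun hy.2.2 (x : V)
    rw [Module.End.mul_apply, Module.End.mul_apply] at h1
    rw [← h1]
    exact hsk y hy.1 _ _
  have hfr : finrank ℂ (LinearMap.range p) = 4 := by
    have h1 := rk_half t₂.dd htr (m := 4) (by rw [h8])
    rw [← hp] at h1
    exact h1
  have key := so4 (S := S) hfr sym snd tr0 tr1 (ssk _ kN₀) (ssk _ kM₀) (ssk _ kN₁) (ssk _ kM₁)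
    (by rw [← hRm _ _ kN₁, ← hRm _ _ kN₀, c1.1]) (by rw [← hRm _ _ kM₁, ← hRm _ _ kN₀, c1.2.1])
    (by rw [← hRm _ _ kN₁, ← hRm _ _ kM₀, c1.2.2.1])
    (by rw [← hRm _ _ kM₁, ← hRm _ _ kM₀, c1.2.2.2])
    (G := C.map R) ⟨_, kD₀, rfl⟩ ⟨_, kN₀, rfl⟩ ⟨_, kM₀, rfl⟩ ⟨_, kD₁, rfl⟩ ⟨_, kN₁, rfl⟩
    ⟨_, kM₁, rfl⟩ (π u) (π v)
  obtain ⟨y, hy, hyR⟩ := key
  have h1 : y = wed E p M₂ N₂ u v := by
    refine wed_of_res d hy.2.2 fun w hw => ?_
    have h2 := hRv y hy ⟨w, ⟨w, hw⟩⟩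
    rw [hyR] at h2
    rw [← h2, wd_apply]
    change E (M₂ (p u)) w • p v - E (M₂ (p v)) w • p u = _
    rw [d.Tp_, d.Tp_]
  rw [← h1]
  exact hy.1

end

end Pool.Agent.H926
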