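import Mathlib
import Pool.Agent.H926.SO2
import Pool.Graph.R_pool_sql_team_seeded_1acbe0a2.Y4.P.Top4
import Pool.Graph.R_pool_sql_team_seeded_1acbe0a2.Y275.P.Final3

/-!
# Pull-backs, and products of abelian varieties with independent Hodge Lie algebras
-/

set_option linter.unusedSectionVars false

namespace Pool.Agent.H926

open Matrix Module Pool.Agent.Y90 Pool.Agent.W437.HC Pool.Agent.W437.HD
  Pool.Agent.TH504.CB
open Pool.Agent.W548.Odd hiding cv
open Pool.Agent.H204R3.SP (Kills bil2)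
open Pool.Agent.W437.HP (cK cK_mul cK_one)
open Pool.Agent.Y4.P (NZ clo_NZ WeilRing RC_of)

noncomputable section

variable {G a : ℕ} {Z : Matrix (Fin G) (Fin G) ℂ} {Z' : Matrix (Fin a) (Fin a) ℂ}
  {E : Matrix (Fin G ⊕ Fin G) (Fin a ⊕ Fin a) ℚ} {F : Matrix (Fin a ⊕ Fin a) (Fin G ⊕ Fin G) ℚ}

/-- Pull-backs of the elements of the complex span of the ring. -/
theorem rc_pull (h : PM Z) (h' : PM Z') (hf : Fac Z Z' E F) {κ : Type}
    {g : (κ → Fin a ⊕ Fin a → ℚ) → ℂ} (hg : g ∈ Pool.Agent.Y4.P.RC (perOne Z') κ) :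
    (fun v : κ → Fin G ⊕ Fin G → ℚ => g fun k => F *ᵥ v k) ∈
      Pool.Agent.Y4.P.RC (perOne Z) κ := by
  obtain ⟨Ψ, hΨ⟩ := h.cht.hom h'.cht (R := F) (by rw [DJ_JR, DJ_JR]; exact hf.fd)
  unfold Pool.Agent.Y4.P.RC at hg
  induction hg using Submodule.span_induction with
  | mem g hg =>
    obtain ⟨r, hr, rfl⟩ := hg
    exact RC_of (Y275.P.pull hr (Matrix.mulVecLin F) Ψ hΨ)
  | zero => exact Submodule.zero_mem _
  | add x y _ _ hx hy => exact Submodule.add_mem _ hx hy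
  | smul c x _ hx => exact Submodule.smul_mem _ c hx

theorem ml_cv (F : Matrix (Fin a ⊕ Fin a) (Fin G ⊕ Fin G) ℚ) (v : Fin G ⊕ Fin G → ℚ) :
    ml F (cv v) = cv (F *ᵥ v) := by
  funext i
  simp [ml_apply, cv, mulVec, dotProduct, cK]

/-- Pull-backs of forms. -/
theorem nz_pull (h : PM Z) (h' : PM Z') (hf : Fac Z Z' E F) {κ : Type} [Finite κ]
    {ψ : MultilinearMap ℂ (fun _ : κ => Fin a ⊕ Fin a → ℂ) ℂ} (hψ : ψ ∈ NZ Z' κ) :
    ψ.compLinearMap (fun _ => ml F) ∈ NZ Z κ := by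
  intro i1 i2
  have h1 := rc_pull h h' hf (hψ i1 i2)
  have h2 : altQ (ψ.compLinearMap (fun _ => ml F)) =
      fun v : κ → Fin G ⊕ Fin G → ℚ => altQ ψ fun k => F *ᵥ v k := by
    funext v
    unfold altQ
    refine Finset.sum_congr rfl fun σ _ => ?_
    rw [MultilinearMap.compLinearMap_apply]
    simp only [ml_cv]
  rw [h2]
  exact h1

theorem kills_add {V : Type*} [AddCommGroup V] [Module ℂ V] {κ : Type*} [Fintype κ]
    [DecidableEq κ] {X Y : Module.End ℂ V} {φ : MultilinearMap ℂ (fun _ : κ => V) ℂ}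
    (hX : Kills X φ) (hY : Kills Y φ) : Kills (X + Y) φ := by
  intro v
  have h1 : ∀ k, φ (Function.update v k ((X + Y) (v k))) =
      φ (Function.update v k (X (v k))) + φ (Function.update v k (Y (v k))) := fun k => by
    rw [LinearMap.add_apply, φ.map_update_add]
  rw [Finset.sum_congr rfl fun k _ => h1 k, Finset.sum_add_distrib, hX v, hY v, add_zero]

theorem kills_smul {V : Type*} [AddCommGroup V] [Module ℂ V] {κ : Type*} [Fintype κ]
    [DecidableEq κ] {X : Module.End ℂ V} {φ : MultilinearMap ℂ (fun _ : κ => V) ℂ} (c : ℂ)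
    (hX : Kills X φ) : Kills (c • X) φ := by
  intro v
  have h1 : ∀ k, φ (Function.update v k ((c • X) (v k))) =
      c • φ (Function.update v k (X (v k))) := fun k => by
    rw [LinearMap.smul_apply, φ.map_update_smul]
  rw [Finset.sum_congr rfl fun k _ => h1 k, ← Finset.smul_sum, hX v, smul_zero]

theorem kills_zero {V : Type*} [AddCommGroup V] [Module ℂ V] {κ : Type*} [Fintype κ]
    [DecidableEq κ] (φ : MultilinearMap ℂ (fun _ : κ => V) ℂ) : Kills (0 : Module.End ℂ V) φ := by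
  intro v
  refine Finset.sum_eq_zero fun k _ => ?_
  exact φ.map_coord_zero k (Function.update_self _ _ _)

/-- All forms killed by the Lie algebra belong to the system. -/
def AllF (Z : Matrix (Fin G) (Fin G) ℂ) : Prop :=
  ∀ (κ : Type) [Fintype κ] [DecidableEq κ]
    (ψ : MultilinearMap ℂ (fun _ : κ => Fin G ⊕ Fin G → ℂ) ℂ),
    (∀ X ∈ LZ Z, Kills (ph (Fin G ⊕ Fin G) X) ψ) → ψ ∈ NZ Z κ

/-- All alternating forms killed by the Lie algebra belong to the system. -/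
def AltFo (Z : Matrix (Fin G) (Fin G) ℂ) : Prop :=
  ∀ (κ : Type) [Fintype κ] [DecidableEq κ] (ψ : (Fin G ⊕ Fin G → ℂ) [⋀^κ]→ₗ[ℂ] ℂ),
    (∀ X ∈ LZ Z, Kills (ph (Fin G ⊕ Fin G) X) ψ.toMultilinearMap) → ψ.toMultilinearMap ∈ NZ Z κ

section kunneth

variable {a₁ a₂ : ℕ} {Z₁ : Matrix (Fin a₁) (Fin a₁) ℂ} {Z₂ : Matrix (Fin a₂) (Fin a₂) ℂ}
  {E₁ : Matrix (Fin G ⊕ Fin G) (Fin a₁ ⊕ Fin a₁) ℚ}
  {F₁ : Matrix (Fin a₁ ⊕ Fin a₁) (Fin G ⊕ Fin G) ℚ}
  {E₂ : Matrix (Fin G ⊕ Fin G) (Fin a₂ ⊕ Fin a₂) ℚ}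
  {F₂ : Matrix (Fin a₂ ⊕ Fin a₂) (Fin G ⊕ Fin G) ℚ}

/-- A decomposition of a period matrix. -/
structure Dec (Z : Matrix (Fin G) (Fin G) ℂ) (Z₁ : Matrix (Fin a₁) (Fin a₁) ℂ)
    (Z₂ : Matrix (Fin a₂) (Fin a₂) ℂ) (E₁ : Matrix (Fin G ⊕ Fin G) (Fin a₁ ⊕ Fin a₁) ℚ)
    (F₁ : Matrix (Fin a₁ ⊕ Fin a₁) (Fin G ⊕ Fin G) ℚ)
    (E₂ : Matrix (Fin G ⊕ Fin G) (Fin a₂ ⊕ Fin a₂) ℚ)
    (F₂ : Matrix (Fin a₂ ⊕ Fin a₂) (Fin G ⊕ Fin G) ℚ) : Prop where
  f₁ : Fac Z Z₁ E₁ F₁
  f₂ : Fac Z Z₂ E₂ F₂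
  z12 : F₁ * E₂ = 0
  z21 : F₂ * E₁ = 0
  sum : E₁ * F₁ + E₂ * F₂ = 1

variable (d : Dec Z Z₁ Z₂ E₁ F₁ E₂ F₂)
include d

theorem Dec.c12 : cK ℂ F₁ * cK ℂ E₂ = 0 := by
  rw [← cK_mul, d.z12]
  ext i j
  simp [cK]

theorem Dec.c21 : cK ℂ F₂ * cK ℂ E₁ = 0 := by
  rw [← cK_mul, d.z21]
  ext i j
  simp [cK]

theorem Dec.csum : cK ℂ E₁ * cK ℂ F₁ + cK ℂ E₂ * cK ℂ F₂ = 1 := by
  rw [← cK_mul, ← cK_mul]
  have h1 : cK ℂ (E₁ * F₁) + cK ℂ (E₂ * F₂) = cK ℂ (E₁ * F₁ + E₂ * F₂) := by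
    ext i j
    simp [cK]
  rw [h1, d.sum, cK_one]

/-- The elements of the Lie algebra are block matrices. -/
theorem Dec.blocks {X : Matrix (Fin G ⊕ Fin G) (Fin G ⊕ Fin G) ℂ} (hX : X ∈ LZ Z) :
    X = cK ℂ E₁ * (cK ℂ F₁ * X * cK ℂ E₁) * cK ℂ F₁ +
      cK ℂ E₂ * (cK ℂ F₂ * X * cK ℂ E₂) * cK ℂ F₂ := by
  rw [← (d.f₁.comp hX).2.1, ← (d.f₂.comp hX).2.1, Matrix.mul_assoc, Matrix.mul_assoc X,
    ← Matrix.mul_add, d.csum, Matrix.mul_one]

/-- The second factor acts separately if the first does. -/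
theorem Dec.sep2 (hsp : ∀ X ∈ LZ Z₁, cK ℂ E₁ * X * cK ℂ F₁ ∈ LZ Z) :
    ∀ X ∈ LZ Z₂, cK ℂ E₂ * X * cK ℂ F₂ ∈ LZ Z := by
  intro X hX
  obtain ⟨Y, hY, rfl⟩ := d.f₂.lift hX
  have h1 := d.blocks hY
  have h2 := hsp _ (d.f₁.comp hY).1
  have h3 : cK ℂ E₂ * (cK ℂ F₂ * Y * cK ℂ E₂) * cK ℂ F₂ =
      Y - cK ℂ E₁ * (cK ℂ F₁ * Y * cK ℂ E₁) * cK ℂ F₁ := by
    rw [eq_sub_iff_add_eq, add_comm]
    exact h1.symm
  rw [h3]
  exact Submodule.sub_mem _ hY h2

/-- **Products with independent Lie algebras.** -/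
theorem Dec.kunneth (h : PM Z) (h₁ : PM Z₁) (h₂ : PM Z₂)
    (hsp : ∀ X ∈ LZ Z₁, cK ℂ E₁ * X * cK ℂ F₁ ∈ LZ Z) (hA : AltFo Z₁) (hT : AllF Z₂) :
    AltFo Z := by
  classical
  intro κ _ _ φ hφ
  obtain ⟨P₁, hP₁⟩ : ∃ P₁, P₁ = (ml E₁).comp (ml F₁) := ⟨_, rfl⟩
  obtain ⟨P₂, hP₂⟩ : ∃ P₂, P₂ = (ml E₂).comp (ml F₂) := ⟨_, rfl⟩
  have hFE₁ : ∀ v, ml F₁ (ml E₁ v) = v := fun v => by
    rw [ml_apply, ml_apply, mulVec_mulVec, d.f₁.fe', one_mulVec]
  have hFE₂ : ∀ v, ml F₂ (ml E₂ v) = v := fun v => by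
    rw [ml_apply, ml_apply, mulVec_mulVec, d.f₂.fe', one_mulVec]
  have hFE₁₂ : ∀ v, ml F₁ (ml E₂ v) = 0 := fun v => by
    rw [ml_apply, ml_apply, mulVec_mulVec, d.c12, zero_mulVec]
  have hFE₂₁ : ∀ v, ml F₂ (ml E₁ v) = 0 := fun v => by
    rw [ml_apply, ml_apply, mulVec_mulVec, d.c21, zero_mulVec]
  have hPP : ∀ v, P₁ v + P₂ v = v := fun v => by
    rw [hP₁, hP₂]
    change ml E₁ (ml F₁ v) + ml E₂ (ml F₂ v) = v
    rw [ml_apply, ml_apply, ml_apply, ml_apply, mulVec_mulVec, mulVec_mulVec, ← add_mulVec,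
      d.csum, one_mulVec]
  have hPP₁ : ∀ v, P₁ (P₁ v) = P₁ v := fun v => by
    rw [hP₁]
    change ml E₁ (ml F₁ (ml E₁ (ml F₁ v))) = ml E₁ (ml F₁ v)
    rw [hFE₁]
  have hPP₂ : ∀ v, P₂ (P₂ v) = P₂ v := fun v => by
    rw [hP₂]
    change ml E₂ (ml F₂ (ml E₂ (ml F₂ v))) = ml E₂ (ml F₂ v)
    rw [hFE₂]
  -- decomposition of the form
  obtain ⟨ψ, hψ⟩ : ∃ ψ : Finset κ → MultilinearMap ℂ (fun _ : κ => Fin G ⊕ Fin G → ℂ) ℂ,
      ∀ s v, ψ s v = φ (s.piecewise (fun k => P₁ (v k)) fun k => P₂ (v k)) := by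
    refine ⟨fun s => φ.toMultilinearMap.compLinearMap
      fun k => if k ∈ s then P₁ else P₂, fun s v => ?_⟩
    rw [MultilinearMap.compLinearMap_apply]
    change φ _ = φ _
    congr 1
    funext k
    by_cases hk : k ∈ s
    · rw [if_pos hk, Finset.piecewise_eq_of_mem _ _ _ hk]
    · rw [if_neg hk, Finset.piecewise_eq_of_notMem _ _ _ hk]
  have h1 : φ.toMultilinearMap = ∑ s : Finset κ, ψ s := by
    refine MultilinearMap.ext fun v => ?_
    rw [_root_.sum_apply]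
    have h2 := φ.toMultilinearMap.map_add_univ (fun k => P₁ (v k)) fun k => P₂ (v k)
    have h3 : ((fun k => P₁ (v k)) + fun k => P₂ (v k)) = v := by
      funext k
      exact hPP (v k)
    rw [h3] at h2
    rw [h2]
    refine Finset.sum_congr rfl fun s _ => ?_
    rw [hψ]
    rfl
  rw [h1]
  refine Submodule.sum_mem _ fun s _ => ?_
  -- the variables of the two kinds
  obtain ⟨α, β, _, _, _, _, ε, hε1, hε2⟩ : ∃ (α β : Type) (_ : Fintype α) (_ : DecidableEq α)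
      (_ : Fintype β) (_ : DecidableEq β) (ε : κ ≃ α ⊕ β),
      (∀ x : α, ε.symm (Sum.inl x) ∈ s) ∧ ∀ y : β, ε.symm (Sum.inr y) ∉ s :=
    ⟨{k // k ∈ s}, {k // k ∉ s}, inferInstance, inferInstance, inferInstance, inferInstance,
      (Equiv.sumCompl (fun k => k ∈ s)).symm, fun x => x.2, fun y => y.2⟩
  obtain ⟨Φ, hΦ⟩ : ∃ Φ : MultilinearMap ℂ (fun _ : β => Fin G ⊕ Fin G → ℂ)
      (MultilinearMap ℂ (fun _ : α => Fin G ⊕ Fin G → ℂ) ℂ),
      ∀ y x, Φ y x = φ fun k => Sum.elim (fun i => P₁ (x i)) (fun j => P₂ (y j)) (ε k) := by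
    refine ⟨MultilinearMap.currySum ((φ.toMultilinearMap.compLinearMap
      fun k => Sum.elim (fun _ => P₁) (fun _ => P₂) (ε k)).domDomCongr
        (ε.trans (Equiv.sumComm α β))), fun y x => ?_⟩
    rw [MultilinearMap.currySum_apply, MultilinearMap.domDomCongr_apply,
      MultilinearMap.compLinearMap_apply]
    change φ _ = φ _
    congr 1
    funext k
    rcases hk : ε k with i | j
    · simp [hk]
    · simp [hk]
  have hψΦ : ∀ v, ψ s v = Φ (fun j => v (ε.symm (Sum.inr j))) (fun i => v (ε.symm (Sum.inl i))) := by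
    intro v
    rw [hψ, hΦ]
    congr 1
    funext k
    rcases hk : ε k with i | j
    · have h3 : ε.symm (Sum.inl i) = k := by rw [← hk, Equiv.symm_apply_apply]
      have h4 : k ∈ s := h3 ▸ hε1 i
      rw [Finset.piecewise_eq_of_mem _ _ _ h4, Sum.elim_inl, h3]
    · have h3 : ε.symm (Sum.inr j) = k := by rw [← hk, Equiv.symm_apply_apply]
      have h4 : k ∉ s := h3 ▸ hε2 j
      rw [Finset.piecewise_eq_of_notMem _ _ _ h4, Sum.elim_inr, h3]
  have hE₁P : ∀ x, P₁ (ml E₁ x) = ml E₁ x := fun x => by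
    rw [hP₁]
    change ml E₁ (ml F₁ (ml E₁ x)) = ml E₁ x
    rw [hFE₁]
  have hE₂P : ∀ x, P₂ (ml E₂ x) = ml E₂ x := fun x => by
    rw [hP₂]
    change ml E₂ (ml F₂ (ml E₂ x)) = ml E₂ x
    rw [hFE₂]
  have hP₁F : ∀ x, P₁ x = ml E₁ (ml F₁ x) := fun x => by rw [hP₁]; rfl
  have hP₂F : ∀ x, P₂ x = ml E₂ (ml F₂ x) := fun x => by rw [hP₂]; rfl
  -- the forms in the first variables
  have hΦ1 : ∀ y, Φ y ∈ NZ Z α := by
    intro y
    let ψy : (Fin a₁ ⊕ Fin a₁ → ℂ) [⋀^α]→ₗ[ℂ] ℂ :=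
      { (Φ y).compLinearMap (fun _ => ml E₁) with
        map_eq_zero_of_eq' := by
          intro x i i' hx hne
          change Φ y (fun i => ml E₁ (x i)) = 0
          rw [hΦ]
          refine φ.map_eq_zero_of_eq _ (i := ε.symm (Sum.inl i)) (j := ε.symm (Sum.inl i')) ?_ ?_
          · rw [Equiv.apply_symm_apply, Equiv.apply_symm_apply, Sum.elim_inl, Sum.elim_inl, hx]
          · intro h3
            exact hne (Sum.inl_injective (ε.symm.injective h3)) }
    have hψy : ∀ x, ψy x = Φ y (fun i => ml E₁ (x i)) := fun x => rfl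
    have h3 : ψy.toMultilinearMap ∈ NZ Z₁ α := by
      refine hA α ψy fun X hX x => ?_
      have h4 := hφ _ (hsp X hX) fun k =>
        Sum.elim (fun i => P₁ (ml E₁ (x i))) (fun j => P₂ (y j)) (ε k)
      rw [← ε.symm.sum_comp, Fintype.sum_sum_type] at h4
      have h5 : ∀ j : β, φ.toMultilinearMap (Function.update (fun k =>
          Sum.elim (fun i => P₁ (ml E₁ (x i))) (fun j => P₂ (y j)) (ε k)) (ε.symm (Sum.inr j))
            (ph (Fin G ⊕ Fin G) (cK ℂ E₁ * X * cK ℂ F₁)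
              (Sum.elim (fun i => P₁ (ml E₁ (x i))) (fun j => P₂ (y j))
                (ε (ε.symm (Sum.inr j)))))) = 0 := by
        intro j
        refine φ.toMultilinearMap.map_coord_zero (ε.symm (Sum.inr j)) ?_
        rw [Function.update_self, Equiv.apply_symm_apply, Sum.elim_inr, ph_apply', hP₂F,
          ← mulVec_mulVec]
        have h6 : cK ℂ F₁ *ᵥ ml E₂ (ml F₂ (y j)) = 0 := hFE₁₂ _
        rw [h6, mulVec_zero]
      rw [Finset.sum_congr rfl fun j _ => h5 j, Finset.sum_const_zero, add_zero] at h4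
      rw [← h4]
      refine Finset.sum_congr rfl fun i _ => ?_
      change ψy _ = φ _
      rw [hψy, hΦ]
      congr 1
      funext k
      rw [Equiv.apply_symm_apply, Sum.elim_inl]
      by_cases hk : k = ε.symm (Sum.inl i)
      · subst hk
        rw [Function.update_self, Equiv.apply_symm_apply, Sum.elim_inl, Function.update_self,
          ph_apply', hE₁P, ph_apply', hE₁P, ← mulVec_mulVec, ← mulVec_mulVec]
        have h6 : cK ℂ F₁ *ᵥ ml E₁ (x i) = x i := hFE₁ _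
        rw [h6]
        rfl
      · rw [Function.update_of_ne hk]
        rcases hk' : ε k with i' | j
        · rw [Sum.elim_inl, Sum.elim_inl]
          have h6 : i' ≠ i := by
            rintro rfl
            apply hk
            rw [← hk', Equiv.symm_apply_apply]
          rw [Function.update_of_ne h6]
        · rfl
    have h4 := nz_pull h h₁ d.f₁ h3
    have h5 : ψy.toMultilinearMap.compLinearMap (fun _ => ml F₁) = Φ y := by
      refine MultilinearMap.ext fun x => ?_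
      rw [MultilinearMap.compLinearMap_apply]
      change ψy _ = _
      rw [hψy, hΦ, hΦ]
      congr 1
      funext k
      congr 1
      funext i
      rw [← hP₁F, hPP₁]
    rw [h5] at h4
    exact h4
  -- coordinates
  let S : Submodule ℂ (MultilinearMap ℂ (fun _ : α => Fin G ⊕ Fin G → ℂ) ℂ) := NZ Z α
  let bS := finBasis ℂ S
  obtain ⟨b, hb⟩ : ∃ b : Fin (finrank ℂ S) → MultilinearMap ℂ (fun _ : β => Fin G ⊕ Fin G → ℂ) ℂ,
      ∀ r y, b r y = bS.repr ⟨Φ y, hΦ1 y⟩ r :=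
    ⟨fun r => (bS.coord r).compMultilinearMap (Φ.codRestrict S hΦ1), fun r y => rfl⟩
  have hbΦ : ∀ y x, Φ y x = ∑ r, b r y * (bS r : MultilinearMap ℂ _ ℂ) x := by
    intro y x
    have h3 := congrArg Subtype.val (bS.sum_repr ⟨Φ y, hΦ1 y⟩)
    have h4 := congrArg (fun F : MultilinearMap ℂ (fun _ : α => Fin G ⊕ Fin G → ℂ) ℂ => F x) h3
    simp only at h4
    rw [← h4, AddSubmonoidClass.coe_finsetSum, _root_.sum_apply]
    refine Finset.sum_congr rfl fun r _ => ?_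
    rw [hb]
    rfl
  have hbN : ∀ r, b r ∈ NZ Z β := by
    intro r
    have h3 : (b r).compLinearMap (fun _ => ml E₂) ∈ NZ Z₂ β := by
      refine hT β _ fun X hX y => ?_
      have h4 : ∑ j, Φ (Function.update (fun j => ml E₂ (y j)) j
          (ml E₂ (ph (Fin a₂ ⊕ Fin a₂) X (y j)))) = 0 := by
        refine MultilinearMap.ext fun x => ?_
        rw [_root_.sum_apply]
        have h5 := hφ _ (d.sep2 hsp X hX) fun k =>
          Sum.elim (fun i => P₁ (x i)) (fun j => P₂ (ml E₂ (y j))) (ε k)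
        rw [← ε.symm.sum_comp, Fintype.sum_sum_type] at h5
        have h6 : ∀ i : α, φ.toMultilinearMap (Function.update (fun k =>
            Sum.elim (fun i => P₁ (x i)) (fun j => P₂ (ml E₂ (y j))) (ε k)) (ε.symm (Sum.inl i))
              (ph (Fin G ⊕ Fin G) (cK ℂ E₂ * X * cK ℂ F₂)
                (Sum.elim (fun i => P₁ (x i)) (fun j => P₂ (ml E₂ (y j)))
                  (ε (ε.symm (Sum.inl i)))))) = 0 := by
          intro i
          refine φ.toMultilinearMap.map_coord_zero (ε.symm (Sum.inl i)) ?_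
          rw [Function.update_self, Equiv.apply_symm_apply, Sum.elim_inl, ph_apply', hP₁F,
            ← mulVec_mulVec]
          have h6 : cK ℂ F₂ *ᵥ ml E₁ (ml F₁ (x i)) = 0 := hFE₂₁ _
          rw [h6, mulVec_zero]
        rw [Finset.sum_congr rfl fun j _ => h6 j, Finset.sum_const_zero, zero_add] at h5
        rw [_root_.zero_apply, ← h5]
        refine Finset.sum_congr rfl fun j _ => ?_
        change _ = φ _
        rw [hΦ]
        congr 1
        funext k
        rw [Equiv.apply_symm_apply, Sum.elim_inr]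
        by_cases hk : k = ε.symm (Sum.inr j)
        · subst hk
          rw [Function.update_self, Equiv.apply_symm_apply, Sum.elim_inr, Function.update_self,
            ph_apply', hE₂P, ph_apply', hE₂P, ← mulVec_mulVec, ← mulVec_mulVec]
          have h6 : cK ℂ F₂ *ᵥ ml E₂ (y j) = y j := hFE₂ _
          rw [h6]
          rfl
        · rw [Function.update_of_ne hk]
          rcases hk' : ε k with i | j'
          · rfl
          · rw [Sum.elim_inr, Sum.elim_inr]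
            have h6 : j' ≠ j := by
              rintro rfl
              apply hk
              rw [← hk', Equiv.symm_apply_apply]
            rw [Function.update_of_ne h6]
      have h5 : ∑ j, (⟨Φ (Function.update (fun j => ml E₂ (y j)) j
          (ml E₂ (ph (Fin a₂ ⊕ Fin a₂) X (y j)))), hΦ1 _⟩ : S) = 0 := by
        apply Subtype.ext
        rw [AddSubmonoidClass.coe_finsetSum]
        exact h4
      have h6 := congrArg (fun z => bS.repr z r) h5
      simp only [map_sum, map_zero, Finsupp.coe_zero, Pi.zero_apply, Finsupp.coe_finsetSum,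
        Finset.sum_apply] at h6
      rw [← h6]
      refine Finset.sum_congr rfl fun j _ => ?_
      rw [MultilinearMap.compLinearMap_apply, ← hb]
      congr 1
      funext j'
      by_cases hj : j' = j
      · subst hj
        rw [Function.update_self, Function.update_self]
      · rw [Function.update_of_ne hj, Function.update_of_ne hj]
    have h4 := nz_pull h h₂ d.f₂ h3
    have h5 : ((b r).compLinearMap (fun _ => ml E₂)).compLinearMap (fun _ => ml F₂) = b r := by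
      refine MultilinearMap.ext fun y => ?_
      rw [MultilinearMap.compLinearMap_apply, MultilinearMap.compLinearMap_apply, hb, hb]
      congr 3
      refine MultilinearMap.ext fun x => ?_
      rw [hΦ, hΦ]
      congr 1
      funext k
      congr 1
      funext j
      rw [← hP₂F, hPP₂]
    rw [h5] at h4
    exact h4
  -- the conclusion
  have h3 : ψ s = ∑ r, (prd (bS r : MultilinearMap ℂ (fun _ : α => Fin G ⊕ Fin G → ℂ) ℂ)
      (b r)).domDomCongr ε.symm := by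
    refine MultilinearMap.ext fun v => ?_
    rw [hψΦ, hbΦ, _root_.sum_apply]
    refine Finset.sum_congr rfl fun r _ => ?_
    rw [MultilinearMap.domDomCongr_apply, prd_apply, mul_comm]
  rw [h3]
  refine Submodule.sum_mem _ fun r _ => ?_
  exact (clo_NZ Z).reindex ε.symm ((clo_NZ Z).prd_mem (bS r).2 (hbN r)) _ fun v => rfl

end kunneth

end

end Pool.Agent.H926
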