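import Mathlib
import Pool.Graph.R_seed8.Y91.JP.Jordan

/-!
# Two commuting triples on a small symplectic space
-/

set_option linter.unusedSectionVars false

namespace Pool.Agent.H926

open Module LinearMap Pool.Agent.W548.Odd Pool.Agent.Y91.JP

section alg

variable {R : Type*} [Ring R] [Algebra ℂ R]

theorem up_of_br {D N : R} (hD : D * D = 1) (h : D * N - N * D = (2 : ℂ) • N) :
    D * N = N ∧ N * D = -N := by
  have h1 : N - D * N * D = (2 : ℂ) • (D * N) := by
    have e1 : D * (D * N - N * D) = (D * D) * N - D * N * D := by noncomm_ring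
    rw [h, hD, one_mul] at e1
    rw [← e1, mul_smul_comm]
  have h2 : D * N * D - N = (2 : ℂ) • (N * D) := by
    have e1 : (D * N - N * D) * D = D * N * D - N * (D * D) := by noncomm_ring
    rw [h, hD, mul_one] at e1
    rw [← e1, smul_mul_assoc]
  have h3 : (2 : ℂ) • (D * N + N * D) = 0 := by
    rw [smul_add, ← h1, ← h2]
    abel
  have h4 := (smul_eq_zero.1 h3).resolve_left two_ne_zero
  have h5 : N * D = -(D * N) := eq_neg_of_add_eq_zero_right h4
  have h6 : (2 : ℂ) • (D * N) = (2 : ℂ) • N := by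
    rw [← h, h5, sub_neg_eq_add, two_smul]
  have h7 : D * N = N := smul_right_injective R (two_ne_zero (α := ℂ)) h6
  exact ⟨h7, by rw [h5, h7]⟩

theorem sq_of_up {D N : R} (h1 : D * N = N) (h2 : N * D = -N) : N * N = 0 := by
  have h3 : N * N = -(N * N) := by
    calc N * N = N * (D * N) := by rw [h1]
      _ = (N * D) * N := by rw [mul_assoc]
      _ = -(N * N) := by rw [h2, neg_mul]
  have h4 : (2 : ℂ) • (N * N) = 0 := by
    rw [two_smul]
    nth_rewrite 1 [h3]
    rw [neg_add_cancel]
  exact (smul_eq_zero.1 h4).resolve_left two_ne_zero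

/-- A triple. -/
structure Tri (n m : R) : Prop where
  nn : n * n = 0
  mm : m * m = 0
  nmn : n * m * n = n
  mnm : m * n * m = m

theorem Tri.of_br {n m : R} (hn : n * n = 0) (hm : m * m = 0)
    (h1 : (n * m - m * n) * n - n * (n * m - m * n) = (2 : ℂ) • n)
    (h2 : (n * m - m * n) * m - m * (n * m - m * n) = -((2 : ℂ) • m)) : Tri n m where
  nn := hn
  mm := hm
  nmn := by
    have e1 : (n * m - m * n) * n - n * (n * m - m * n) =
        (2 : ℂ) • (n * m * n) - m * (n * n) - (n * n) * m := by
      rw [two_smul]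
      noncomm_ring
    rw [h1, hn, mul_zero, zero_mul, sub_zero, sub_zero] at e1
    exact (smul_right_injective R (two_ne_zero (α := ℂ)) e1).symm
  mnm := by
    have e1 : (n * m - m * n) * m - m * (n * m - m * n) =
        n * (m * m) + (m * m) * n - (2 : ℂ) • (m * n * m) := by
      rw [two_smul]
      noncomm_ring
    rw [h2, hm, mul_zero, zero_mul, add_zero, zero_sub, neg_inj] at e1
    exact (smul_right_injective R (two_ne_zero (α := ℂ)) e1).symm

end alg

variable {W : Type*} [AddCommGroup W] [Module ℂ W] [FiniteDimensional ℂ W]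

/-- The first triple acts trivially on a symplectic space of dimension at most six if it commutes
with a conjugate triple, and the second triple commutes with a skew involution. -/
theorem no_small (hW : finrank ℂ W ≤ 6) {ω : W →ₗ[ℂ] W →ₗ[ℂ] ℂ} (anti : ∀ x y, ω x y = -ω y x)
    (nd : ∀ x, (∀ y, ω x y = 0) → x = 0) {D n m n' m' : End ℂ W} (hD : D * D = 1)
    (sD : ∀ x y, ω (D x) y = -ω x (D y)) (sn : ∀ x y, ω (n x) y = -ω x (n y))
    (sm : ∀ x y, ω (m x) y = -ω x (m y)) (sn' : ∀ x y, ω (n' x) y = -ω x (n' y))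
    (sm' : ∀ x y, ω (m' x) y = -ω x (m' y)) (t : Tri n m) (t' : Tri n' m')
    (cDn : D * n' = n' * D) (cDm : D * m' = m' * D) (c1 : n * n' = n' * n) (c2 : n * m' = m' * n)
    (c3 : m * n' = n' * m) (c4 : m * m' = m' * m)
    (htr : trace ℂ W (m * n) = trace ℂ W (m' * n')) : n = 0 := by
  by_contra hne
  -- the idempotents
  obtain ⟨p, hp⟩ : ∃ p, p = n * m := ⟨_, rfl⟩
  obtain ⟨q, hq⟩ : ∃ q, q = m * n := ⟨_, rfl⟩
  obtain ⟨p', hp'⟩ : ∃ p', p' = n' * m' := ⟨_, rfl⟩
  obtain ⟨q', hq'⟩ : ∃ q', q' = m' * n' := ⟨_, rfl⟩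
  have pp : p * p = p := by rw [hp, ← mul_assoc, t.nmn]
  have qq : q * q = q := by rw [hq, ← mul_assoc, t.mnm]
  have pp' : p' * p' = p' := by rw [hp', ← mul_assoc, t'.nmn]
  have qq' : q' * q' = q' := by rw [hq', ← mul_assoc, t'.mnm]
  have pq : p * q = 0 := by
    rw [hp, hq]
    calc n * m * (m * n) = n * (m * m) * n := by noncomm_ring
      _ = 0 := by rw [t.mm, mul_zero, zero_mul]
  have qp : q * p = 0 := by
    rw [hp, hq]
    calc m * n * (n * m) = m * (n * n) * m := by noncomm_ring
      _ = 0 := by rw [t.nn, mul_zero, zero_mul]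
  have pq' : p' * q' = 0 := by
    rw [hp', hq']
    calc n' * m' * (m' * n') = n' * (m' * m') * n' := by noncomm_ring
      _ = 0 := by rw [t'.mm, mul_zero, zero_mul]
  have qp' : q' * p' = 0 := by
    rw [hp', hq']
    calc m' * n' * (n' * m') = m' * (n' * n') * m' := by noncomm_ring
      _ = 0 := by rw [t'.nn, mul_zero, zero_mul]
  have nq : n * q = n := by rw [hq, ← mul_assoc, t.nmn]
  have nq' : n' * q' = n' := by rw [hq', ← mul_assoc, t'.nmn]
  have pn : p * n = n := by rw [hp, t.nmn]
  have pn' : p' * n' = n' := by rw [hp', t'.nmn]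
  -- commutation
  have cqn : q * n' = n' * q := by rw [hq, mul_assoc, c1, ← mul_assoc, c3, mul_assoc]
  have cqm : q * m' = m' * q := by rw [hq, mul_assoc, c2, ← mul_assoc, c4, mul_assoc]
  have cpn : p * n' = n' * p := by rw [hp, mul_assoc, c3, ← mul_assoc, c1, mul_assoc]
  have cpm : p * m' = m' * p := by rw [hp, mul_assoc, c4, ← mul_assoc, c2, mul_assoc]
  have cqq : q * q' = q' * q := by rw [hq', ← mul_assoc, cqm, mul_assoc, cqn, mul_assoc]
  have cqp : q * p' = p' * q := by rw [hp', ← mul_assoc, cqn, mul_assoc, cqm, mul_assoc]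
  have cpq : p * q' = q' * p := by rw [hq', ← mul_assoc, cpm, mul_assoc, cpn, mul_assoc]
  have cpp : p * p' = p' * p := by rw [hp', ← mul_assoc, cpn, mul_assoc, cpm, mul_assoc]
  have cnq : n * q' = q' * n := by rw [hq', ← mul_assoc, c2, mul_assoc, c1, mul_assoc]
  -- the two sums
  obtain ⟨e, he⟩ : ∃ e, e = p + q := ⟨_, rfl⟩
  obtain ⟨e', he'⟩ : ∃ e', e' = p' + q' := ⟨_, rfl⟩
  have ee : e * e = e := by
    rw [he, mul_add, add_mul, add_mul, pp, qq, pq, qp, add_zero, zero_add]
  have ee' : e' * e' = e' := by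
    rw [he', mul_add, add_mul, add_mul, pp', qq', pq', qp', add_zero, zero_add]
  have cee : e * e' = e' * e := by
    rw [he, he', mul_add, add_mul, add_mul, mul_add, add_mul, add_mul, cpp, cqp, cpq, cqq]
    abel
  -- the traces
  have trpq : trace ℂ W p = trace ℂ W q := by rw [hp, hq, LinearMap.trace_mul_comm]
  have trpq' : trace ℂ W p' = trace ℂ W q' := by rw [hp', hq', LinearMap.trace_mul_comm]
  have tr1 : trace ℂ W (p * q') = trace ℂ W (q * q') := by
    rw [hp, mul_assoc, LinearMap.trace_mul_comm, mul_assoc, ← cnq, ← mul_assoc, ← hq]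
  have tr2 : ∀ z : End ℂ W, z * n' = n' * z → z * m' = m' * z →
      trace ℂ W (z * p') = trace ℂ W (z * q') := by
    intro z z1 z2
    rw [hp', hq', ← mul_assoc, z1, mul_assoc, LinearMap.trace_mul_comm, mul_assoc]
  have tree : trace ℂ W (e * e') = 4 * trace ℂ W (q * q') := by
    rw [he, he', mul_add, add_mul, add_mul, map_add, map_add, map_add, tr2 p cpn cpm,
      tr2 q cqn cqm, tr1]
    ring
  have id1 : q * q' * (q * q') = q * q' := by
    rw [mul_assoc, ← mul_assoc q', ← cqq, mul_assoc q, qq', ← mul_assoc, qq]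
  have id2 : e * e' * (e * e') = e * e' := by
    rw [mul_assoc, ← mul_assoc e', ← cee, mul_assoc e, ee', ← mul_assoc, ee]
  have hrk : rk (e * e') = 4 * rk (q * q') := by
    have h1 := trace_idem id1
    have h2 := trace_idem id2
    rw [tree, h1] at h2
    exact_mod_cast h2.symm
  have hle : ∀ x : End ℂ W, rk x ≤ 6 := fun x => (Submodule.finrank_le _).trans hW
  -- the products vanish
  have hz : n * n' = 0 := by
    by_contra hnz
    obtain ⟨u, hu⟩ : ∃ u, n (n' u) ≠ 0 := by
      by_contra hcon
      push Not at hcon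
      exact hnz (LinearMap.ext hcon)
    obtain ⟨v, hv⟩ : ∃ v, ω (n (n' u)) v ≠ 0 := by
      by_contra hcon
      push Not at hcon
      exact hu (nd _ hcon)
    have alt : ∀ x, ω (n (n' x)) x = 0 := by
      intro x
      have h1 : ω (n (n' x)) x = -ω (n (n' x)) x := by
        have h2 : n' (n x) = n (n' x) := (LinearMap.congr_fun c1 x).symm
        calc ω (n (n' x)) x = ω x (n' (n x)) := by rw [sn, sn', neg_neg]
          _ = -ω (n (n' x)) x := by rw [h2, anti]
      have h3 : (2 : ℂ) * ω (n (n' x)) x = 0 := by linear_combination h1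
      exact (mul_eq_zero.1 h3).resolve_left two_ne_zero
    obtain ⟨B, hB⟩ : ∃ B : W → W → ℂ, ∀ x y, B x y = ω (n (n' x)) y := ⟨_, fun _ _ => rfl⟩
    have hnn : ∀ x, n (n' (q (q' x))) = n (n' x) := by
      intro x
      have h1 : n * n' * (q * q') = n * n' := by
        rw [← mul_assoc, mul_assoc n, ← cqn, ← mul_assoc, nq, mul_assoc, nq']
      exact LinearMap.congr_fun h1 x
    have hBq : ∀ x y, ω (n (n' x)) (q (q' y)) = ω (n (n' x)) y := by
      intro x y
      have h1 : ∀ y, ω (n (n' x)) y = ω x (n (n' y)) := by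
        intro y
        have h2 : n' (n y) = n (n' y) := (LinearMap.congr_fun c1 y).symm
        rw [sn, sn', neg_neg, h2]
      rw [h1, hnn, ← h1]
    have h2rk : 2 ≤ rk (q * q') := by
      have hli : LinearIndependent ℂ ![q (q' u), q (q' v)] := by
        rw [LinearIndependent.pair_iff]
        intro s r hsr
        have h1 : ∀ z, s * ω (n (n' u)) z + r * ω (n (n' v)) z = 0 := by
          intro z
          have h2 := congrArg (fun y => ω (n (n' y)) z) hsr
          simp only [map_add, map_smul, hnn, LinearMap.add_apply, LinearMap.smul_apply,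
            smul_eq_mul, map_zero, LinearMap.zero_apply] at h2
          exact h2
        have hvu : ω (n (n' v)) u = -ω (n (n' u)) v := by
          have h2 := alt (u + v)
          simp only [map_add, LinearMap.add_apply, alt] at h2
          linear_combination h2
        have h2 := h1 u
        have h3 := h1 v
        rw [alt, mul_zero, zero_add, hvu] at h2
        rw [alt, mul_zero, add_zero] at h3
        refine ⟨(mul_eq_zero.1 h3).resolve_right hv, ?_⟩
        rw [mul_neg, neg_eq_zero] at h2
        exact (mul_eq_zero.1 h2).resolve_right hv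
      have h1 : Set.range ![q (q' u), q (q' v)] ⊆ LinearMap.range (q * q') := by
        rintro _ ⟨i, rfl⟩
        fin_cases i
        · exact ⟨u, rfl⟩
        · exact ⟨v, rfl⟩
      have h2 : finrank ℂ (Submodule.span ℂ (Set.range ![q (q' u), q (q' v)])) = 2 := by
        rw [finrank_span_eq_card hli, Fintype.card_fin]
      unfold rk
      rw [← h2]
      exact Submodule.finrank_mono (Submodule.span_le.2 h1)
    have h3 := hle (e * e')
    omega
  have hqq0 : q * q' = 0 := by
    rw [hq, hq', mul_assoc, ← mul_assoc n, c2, mul_assoc m', hz, mul_zero, mul_zero]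
  have hee0 : e * e' = 0 := by
    apply rk_eq_zero
    rw [hrk, hqq0, rk_zero]
  have hee0' : e' * e = 0 := by rw [← cee, hee0]
  -- the rank of `q`
  have id3 : (e + e') * (e + e') = e + e' := by
    rw [mul_add, add_mul, add_mul, ee, ee', hee0, hee0', add_zero, zero_add]
  have hrk2 : rk (e + e') = 4 * rk q := by
    have h1 := trace_idem id3
    have h2 := trace_idem qq
    rw [map_add, he, he', map_add, map_add, trpq, trpq', ← he, ← he'] at h1
    have h3 : trace ℂ W q' = trace ℂ W q := by rw [hq, hq', htr]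
    rw [h3, h2] at h1
    have h4 : ((4 * rk q : ℕ) : ℂ) = (rk (e + e') : ℂ) := by
      rw [← h1]
      push_cast
      ring
    exact_mod_cast h4.symm
  have hq1 : rk q ≤ 1 := by
    have h1 := hle (e + e')
    omega
  have hq0 : rk q ≠ 0 := by
    intro h0
    apply hne
    rw [← nq, rk_eq_zero h0, mul_zero]
  have hq'1 : rk q' = 1 := by
    have h1 := trace_idem qq
    have h2 := trace_idem qq'
    have h3 : trace ℂ W q' = trace ℂ W q := by rw [hq, hq', htr]
    rw [h3, h1] at h2
    have h4 : rk q = rk q' := by exact_mod_cast h2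
    omega
  -- the line
  obtain ⟨x, hx0, hx⟩ : ∃ x, x ≠ 0 ∧ ∀ y, ∃ c : ℂ, q' y = c • x := by
    obtain ⟨x, hx0, hx⟩ := finrank_eq_one_iff'.1 (show finrank ℂ (LinearMap.range q') = 1 from hq'1)
    refine ⟨x, fun h0 => hx0 (Subtype.ext h0), fun y => ?_⟩
    obtain ⟨c, hc⟩ := hx ⟨q' y, ⟨y, rfl⟩⟩
    exact ⟨c, (congrArg Subtype.val hc).symm⟩
  have hqx : q' x = x := by
    obtain ⟨y, hy⟩ : ∃ y, q' y ≠ 0 := by
      by_contra hcon
      push Not at hcon
      have h1 : q' = 0 := LinearMap.ext hcon
      rw [h1, rk_zero] at hq'1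
      omega
    obtain ⟨c, hc⟩ := hx y
    have hc0 : c ≠ 0 := by
      rintro rfl
      rw [zero_smul] at hc
      exact hy hc
    have h1 : q' (q' y) = q' y := LinearMap.congr_fun qq' y
    rw [hc, map_smul] at h1
    exact smul_right_injective W hc0 h1
  have cDq : D * q' = q' * D := by
    rw [hq', ← mul_assoc, cDm, mul_assoc, cDn, mul_assoc]
  obtain ⟨c, hc⟩ := hx (D x)
  have hDx : D x = c • x := by
    rw [← hc]
    have h1 : D (q' x) = q' (D x) := LinearMap.congr_fun cDq x
    rw [← h1, hqx]
  have hc0 : c ≠ 0 := by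
    rintro rfl
    rw [zero_smul] at hDx
    have h1 : D (D x) = x := LinearMap.congr_fun hD x
    rw [hDx, map_zero] at h1
    exact hx0 h1.symm
  have hxy : ω x (n' x) = 0 := by
    have h1 : D (n' x) = c • n' x := by
      have h2 : D (n' x) = n' (D x) := LinearMap.congr_fun cDn x
      rw [h2, hDx, map_smul]
    have h2 := sD x (n' x)
    rw [hDx, h1, map_smul, map_smul, LinearMap.smul_apply, smul_eq_mul] at h2
    have h3 : (2 * c) * ω x (n' x) = 0 := by linear_combination h2
    exact (mul_eq_zero.1 h3).resolve_left (mul_ne_zero two_ne_zero hc0)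
  apply hx0
  refine nd x fun z => ?_
  have h1 : ω x z = ω x (p' z) := by
    conv_lhs => rw [← hqx, hq']
    change ω (m' (n' x)) z = _
    rw [sm', sn', neg_neg, hp']
    rfl
  have h2 : q' (m' z) = m' z := by
    have h3 : q' * m' = m' := by rw [hq', t'.mnm]
    exact LinearMap.congr_fun h3 z
  obtain ⟨s, hs⟩ := hx (m' z)
  rw [h1, hp']
  change ω x (n' (m' z)) = 0
  rw [← h2, hs, map_smul, map_smul, hxy, smul_zero]

end Pool.Agent.H926
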