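import Mathlib
import Pool.Agent.H926.Kun
import Pool.Agent.H926.Spl1
import Pool.Graph.R_seed8.TH131.GHC.Fin
import Pool.Graph.R_seed8.TH131.GHC.Ind2

/-!
# Splitting off the Hodge Lie algebra of a factor
-/

set_option linter.unusedSectionVars false

namespace Pool.Agent.H926

open Matrix Module Pool.Agent.Y90 Pool.Agent.W437.HC Pool.Agent.W437.HD
  Pool.Agent.TH504.CB Pool.Agent.TH131.GHC
open Pool.Agent.W548.Odd hiding cv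
open Pool.Agent.W437.HP (cK cK_mul cK_one)

noncomputable section

variable {G a₁ a₂ : ℕ} {Z : Matrix (Fin G) (Fin G) ℂ} {Z₁ : Matrix (Fin a₁) (Fin a₁) ℂ}
  {Z₂ : Matrix (Fin a₂) (Fin a₂) ℂ}
  {E₁ : Matrix (Fin G ⊕ Fin G) (Fin a₁ ⊕ Fin a₁) ℚ}
  {F₁ : Matrix (Fin a₁ ⊕ Fin a₁) (Fin G ⊕ Fin G) ℚ}
  {E₂ : Matrix (Fin G ⊕ Fin G) (Fin a₂ ⊕ Fin a₂) ℚ}
  {F₂ : Matrix (Fin a₂ ⊕ Fin a₂) (Fin G ⊕ Fin G) ℚ}

/-- The compression. -/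
abbrev cmp {G a : ℕ} (E : Matrix (Fin G ⊕ Fin G) (Fin a ⊕ Fin a) ℚ)
    (F : Matrix (Fin a ⊕ Fin a) (Fin G ⊕ Fin G) ℚ)
    (X : Matrix (Fin G ⊕ Fin G) (Fin G ⊕ Fin G) ℂ) :
    Matrix (Fin a ⊕ Fin a) (Fin a ⊕ Fin a) ℂ := cK ℂ F * X * cK ℂ E

section fac

variable {a : ℕ} {Z' : Matrix (Fin a) (Fin a) ℂ} {E : Matrix (Fin G ⊕ Fin G) (Fin a ⊕ Fin a) ℚ}
  {F : Matrix (Fin a ⊕ Fin a) (Fin G ⊕ Fin G) ℚ} (h : Fac Z Z' E F)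

include h

theorem cmp_mul (X : Matrix (Fin G ⊕ Fin G) (Fin G ⊕ Fin G) ℂ)
    {Y : Matrix (Fin G ⊕ Fin G) (Fin G ⊕ Fin G) ℂ} (hY : Y ∈ LZ Z) :
    cmp E F (X * Y) = cmp E F X * cmp E F Y := by
  unfold cmp
  calc cK ℂ F * (X * Y) * cK ℂ E = cK ℂ F * X * (Y * cK ℂ E) := by
        simp only [Matrix.mul_assoc]
    _ = cK ℂ F * X * (cK ℂ E * (cK ℂ F * Y * cK ℂ E)) := by rw [← (h.comp hY).2.1]
    _ = _ := by simp only [Matrix.mul_assoc]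

theorem cmp_DZ : cmp E F (DZ Z) = DZ Z' := by
  unfold cmp
  rw [h.fd, Matrix.mul_assoc, h.fe', Matrix.mul_one]

omit h in
theorem cmp_map (X : Matrix (Fin G ⊕ Fin G) (Fin G ⊕ Fin G) ℂ) (σ : ℂ ≃+* ℂ) :
    cmp E F (X.map σ) = (cmp E F X).map σ := by
  unfold cmp
  rw [Matrix.map_mul, Matrix.map_mul, cK_aut, cK_aut]

omit h in
theorem cmp_sub (X Y : Matrix (Fin G ⊕ Fin G) (Fin G ⊕ Fin G) ℂ) :
    cmp E F (X - Y) = cmp E F X - cmp E F Y := by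
  unfold cmp
  rw [Matrix.mul_sub, Matrix.sub_mul]

omit h in
theorem cmp_add (X Y : Matrix (Fin G ⊕ Fin G) (Fin G ⊕ Fin G) ℂ) :
    cmp E F (X + Y) = cmp E F X + cmp E F Y := by
  unfold cmp
  rw [Matrix.mul_add, Matrix.add_mul]

omit h in
theorem cmp_smul (c : ℂ) (X : Matrix (Fin G ⊕ Fin G) (Fin G ⊕ Fin G) ℂ) :
    cmp E F (c • X) = c • cmp E F X := by
  unfold cmp
  rw [Matrix.mul_smul, Matrix.smul_mul]

end fac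

theorem LZ_le_lieM : LZ Z ≤ lieM (DZ Z) ℂ := by
  refine LA_le_lieM fun d hd => ?_
  rw [Set.mem_singleton_iff.1 hd]
  exact D_mem _

/-- The kernel of the restriction to a factor. -/
def ker1 (Z : Matrix (Fin G) (Fin G) ℂ) {a : ℕ} (E : Matrix (Fin G ⊕ Fin G) (Fin a ⊕ Fin a) ℚ)
    (F : Matrix (Fin a ⊕ Fin a) (Fin G ⊕ Fin G) ℚ) :
    Submodule ℂ (Matrix (Fin G ⊕ Fin G) (Fin G ⊕ Fin G) ℂ) where
  carrier := {X | X ∈ LZ Z ∧ cmp E F X = 0}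
  add_mem' := by
    rintro X Y ⟨x1, x2⟩ ⟨y1, y2⟩
    exact ⟨Submodule.add_mem _ x1 y1, by rw [cmp_add, x2, y2, add_zero]⟩
  zero_mem' := ⟨Submodule.zero_mem _, by unfold cmp; rw [Matrix.mul_zero, Matrix.zero_mul]⟩
  smul_mem' := by
    rintro c X ⟨x1, x2⟩
    exact ⟨Submodule.smul_mem _ c x1, by rw [cmp_smul, x2, smul_zero]⟩

variable (d : Dec Z Z₁ Z₂ E₁ F₁ E₂ F₂)

theorem ker1_galD (h₁ : Fac Z Z₁ E₁ F₁) : GalD (DZ Z) (ker1 Z E₁ F₁) where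
  le := fun _ hX => LZ_le_lieM hX.1
  gal := fun σ X hX => ⟨gal_LZ σ X hX.1, by rw [cmp_map, hX.2, Matrix.map_zero _ (map_zero σ)]⟩
  dn := fun X hX => ⟨LZ_br DZ_mem hX.1, by
    rw [cmp_sub, cmp_mul h₁ _ hX.1, cmp_mul h₁ _ DZ_mem, hX.2, mul_zero, zero_mul, sub_zero]⟩

/-- The complement of the kernel. -/
def cpl (Z : Matrix (Fin G) (Fin G) ℂ) {a : ℕ} (E : Matrix (Fin G ⊕ Fin G) (Fin a ⊕ Fin a) ℚ)
    (F : Matrix (Fin a ⊕ Fin a) (Fin G ⊕ Fin G) ℚ) :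
    Submodule ℂ (Matrix (Fin G ⊕ Fin G) (Fin G ⊕ Fin G) ℂ) := cmpl (DZ Z) (ker1 Z E F) ⊓ LZ Z

section cpl

variable (h : PM Z) (h₁ : Fac Z Z₁ E₁ F₁)
include h h₁

theorem cpl_uniq {X : Matrix (Fin G ⊕ Fin G) (Fin G ⊕ Fin G) ℂ} (hX : X ∈ cpl Z E₁ F₁)
    (h0 : cmp E₁ F₁ X = 0) : X = 0 :=
  (polOf h.symm h.pos).cmpl_disj (ker1_galD h₁) ⟨hX.2, h0⟩ hX.1

theorem cpl_uniq' {X Y : Matrix (Fin G ⊕ Fin G) (Fin G ⊕ Fin G) ℂ} (hX : X ∈ cpl Z E₁ F₁)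
    (hY : Y ∈ cpl Z E₁ F₁) (h0 : cmp E₁ F₁ X = cmp E₁ F₁ Y) : X = Y := by
  have h2 := cpl_uniq h h₁ (Submodule.sub_mem _ hX hY) (by rw [cmp_sub, h0, sub_self])
  exact sub_eq_zero.1 h2

theorem cpl_br {X Y : Matrix (Fin G ⊕ Fin G) (Fin G ⊕ Fin G) ℂ} (hX : X ∈ cpl Z E₁ F₁)
    (hY : Y ∈ LZ Z) : X * Y - Y * X ∈ cpl Z E₁ F₁ :=
  ⟨(polOf h.symm h.pos).cmpl_ideal (ker1_galD h₁) hX.1 (LZ_le_lieM hY), LZ_br hX.2 hY⟩

theorem cpl_gal {X : Matrix (Fin G ⊕ Fin G) (Fin G ⊕ Fin G) ℂ} (hX : X ∈ cpl Z E₁ F₁)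
    (σ : ℂ ≃+* ℂ) : X.map σ ∈ cpl Z E₁ F₁ :=
  ⟨((polOf h.symm h.pos).cmpl_galD (ker1_galD h₁)).gal σ X hX.1, gal_LZ σ X hX.2⟩

theorem cpl_lift {Y : Matrix (Fin a₁ ⊕ Fin a₁) (Fin a₁ ⊕ Fin a₁) ℂ} (hY : Y ∈ LZ Z₁) :
    ∃ X ∈ cpl Z E₁ F₁, cmp E₁ F₁ X = Y := by
  obtain ⟨X, hX, rfl⟩ := h₁.lift hY
  obtain ⟨X1, hX1, hX2⟩ := (polOf h.symm h.pos).cmpl_sum (ker1_galD h₁) (LZ_le_lieM hX)
  refine ⟨X - X1, ⟨hX2, Submodule.sub_mem _ hX hX1.1⟩, ?_⟩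
  rw [cmp_sub, hX1.2, sub_zero]

end cpl

/-- The criterion for the independence of the Lie algebras. -/
theorem sp_of (h₁ : Fac Z Z₁ E₁ F₁) (hD : cK ℂ E₁ * DZ Z₁ * cK ℂ F₁ ∈ LZ Z) :
    ∀ X ∈ LZ Z₁, cK ℂ E₁ * X * cK ℂ F₁ ∈ LZ Z := by
  let C : Submodule ℂ (Matrix (Fin a₁ ⊕ Fin a₁) (Fin a₁ ⊕ Fin a₁) ℂ) :=
    { carrier := {X | cK ℂ E₁ * X * cK ℂ F₁ ∈ LZ Z}
      add_mem' := by
        intro X Y hX hY
        change cK ℂ E₁ * (X + Y) * cK ℂ F₁ ∈ LZ Z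
        rw [Matrix.mul_add, Matrix.add_mul]
        exact Submodule.add_mem _ hX hY
      zero_mem' := by
        change cK ℂ E₁ * 0 * cK ℂ F₁ ∈ LZ Z
        rw [Matrix.mul_zero, Matrix.zero_mul]
        exact Submodule.zero_mem _
      smul_mem' := by
        intro c X hX
        change cK ℂ E₁ * (c • X) * cK ℂ F₁ ∈ LZ Z
        rw [Matrix.mul_smul, Matrix.smul_mul]
        exact Submodule.smul_mem _ _ hX }
  have hC : LZ Z₁ ≤ C := by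
    refine LZ_le (fun σ => ?_) fun A hA B hB => ?_
    · change cK ℂ E₁ * DS Z₁ σ * cK ℂ F₁ ∈ LZ Z
      have h1 := gal_LZ σ _ hD
      rw [Matrix.map_mul, Matrix.map_mul, cK_aut, cK_aut] at h1
      exact h1
    · change cK ℂ E₁ * (A * B - B * A) * cK ℂ F₁ ∈ LZ Z
      have h1 := LZ_br hA hB
      have key : ∀ A B : Matrix (Fin a₁ ⊕ Fin a₁) (Fin a₁ ⊕ Fin a₁) ℂ,
          (cK ℂ E₁ * A * cK ℂ F₁) * (cK ℂ E₁ * B * cK ℂ F₁) = cK ℂ E₁ * (A * B) * cK ℂ F₁ := by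
        intro A B
        calc (cK ℂ E₁ * A * cK ℂ F₁) * (cK ℂ E₁ * B * cK ℂ F₁) =
            cK ℂ E₁ * A * (cK ℂ F₁ * cK ℂ E₁) * B * cK ℂ F₁ := by
              simp only [Matrix.mul_assoc]
          _ = _ := by
            rw [h₁.fe', Matrix.mul_one]
            simp only [Matrix.mul_assoc]
      rw [key, key, ← Matrix.sub_mul, ← Matrix.mul_sub] at h1
      exact h1
  exact fun X hX => hC hX

theorem map_sq_smul {B : Type*} (c : ℚ) (σ : ℂ ≃+* ℂ) (X : Matrix B B ℂ) :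
    ((c : ℂ) • X).map σ = (c : ℂ) • X.map σ := by
  ext i j
  simp

include d in
/-- **Splitting.** -/
theorem Dec.split4 (h : PM Z) (h₂ : PM Z₂) (ha : a₂ ≤ 3)
    {N M : Matrix (Fin a₁ ⊕ Fin a₁) (Fin a₁ ⊕ Fin a₁) ℂ} (hN : N ∈ LZ Z₁) (hM : M ∈ LZ Z₁)
    (e1 : DZ Z₁ * N = N) (e2 : N * DZ Z₁ = -N) (e3 : DZ Z₁ * M = -M) (e4 : M * DZ Z₁ = M)
    (e5 : N * M - M * N = DZ Z₁) (σ : ℂ ≃+* ℂ) (c1 : N * N.map σ = N.map σ * N)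
    (c2 : N * M.map σ = M.map σ * N) (c3 : M * N.map σ = N.map σ * M)
    (c4 : M * M.map σ = M.map σ * M) : ∀ X ∈ LZ Z₁, cK ℂ E₁ * X * cK ℂ F₁ ∈ LZ Z := by
  obtain ⟨n, hn, hnN⟩ := cpl_lift h d.f₁ hN
  obtain ⟨m, hm, hmM⟩ := cpl_lift h d.f₁ hM
  obtain ⟨D, hD⟩ : ∃ D, D = DZ Z := ⟨_, rfl⟩
  have hDL : D ∈ LZ Z := hD ▸ DZ_mem
  have hDD : D * D = 1 := by rw [hD, DZ_sq h.det]
  have hDc : cmp E₁ F₁ D = DZ Z₁ := hD ▸ cmp_DZ d.f₁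
  have hcn : ∀ {X : Matrix (Fin G ⊕ Fin G) (Fin G ⊕ Fin G) ℂ}, X ∈ cpl Z E₁ F₁ → X ∈ LZ Z :=
    fun hX => hX.2
  -- brackets with the complex structure
  have k1 : D * n - n * D = (2 : ℂ) • n := by
    refine cpl_uniq' h d.f₁ ?_ (Submodule.smul_mem _ _ hn) ?_
    · have h1 := (cpl Z E₁ F₁).neg_mem (cpl_br h d.f₁ hn hDL)
      rwa [neg_sub] at h1
    · rw [cmp_sub, cmp_mul d.f₁ _ hn.2, cmp_mul d.f₁ _ hDL, cmp_smul, hnN, hDc, e1, e2,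
        sub_neg_eq_add, two_smul]
  have k2 : (-D) * m - m * (-D) = (2 : ℂ) • m := by
    refine cpl_uniq' h d.f₁ ?_ (Submodule.smul_mem _ _ hm) ?_
    · have h1 := cpl_br h d.f₁ hm hDL
      rw [Matrix.neg_mul, Matrix.mul_neg, sub_neg_eq_add, neg_add_eq_sub]
      exact h1
    · rw [Matrix.neg_mul, Matrix.mul_neg, sub_neg_eq_add, neg_add_eq_sub, cmp_sub,
        cmp_mul d.f₁ _ hm.2, cmp_mul d.f₁ _ hDL, cmp_smul, hmM, hDc, e3, e4, sub_neg_eq_add,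
        two_smul]
  obtain ⟨n1, n2⟩ := up_of_br hDD k1
  obtain ⟨m1, m2⟩ := up_of_br (D := -D) (by rw [neg_mul_neg, hDD]) k2
  have nn := sq_of_up n1 n2
  have mm := sq_of_up m1 m2
  -- the element of the ideal
  have hg : n * m - m * n ∈ cpl Z E₁ F₁ := cpl_br h d.f₁ hn hm.2
  have hgc : cmp E₁ F₁ (n * m - m * n) = DZ Z₁ := by
    rw [cmp_sub, cmp_mul d.f₁ _ hm.2, cmp_mul d.f₁ _ hn.2, hnN, hmM, e5]
  have k3 : (n * m - m * n) * n - n * (n * m - m * n) = (2 : ℂ) • n := by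
    refine cpl_uniq' h d.f₁ (cpl_br h d.f₁ hg hn.2) (Submodule.smul_mem _ _ hn) ?_
    rw [cmp_sub, cmp_mul d.f₁ _ hn.2, cmp_mul d.f₁ _ hg.2, cmp_smul, hnN, hgc, e1, e2,
      sub_neg_eq_add, two_smul]
  have k4 : (n * m - m * n) * m - m * (n * m - m * n) = -((2 : ℂ) • m) := by
    refine cpl_uniq' h d.f₁ (cpl_br h d.f₁ hg hm.2)
      ((cpl Z E₁ F₁).neg_mem (Submodule.smul_mem _ _ hm)) ?_
    have h5 : cmp E₁ F₁ (-((2 : ℂ) • m)) = -((2 : ℂ) • M) := by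
      rw [← neg_smul, cmp_smul, hmM, neg_smul]
    rw [h5, cmp_sub, cmp_mul d.f₁ _ hm.2, cmp_mul d.f₁ _ hg.2, hmM, hgc, e3, e4, two_smul]
    abel
  have t : Tri n m := Tri.of_br nn mm k3 k4
  -- the conjugates
  have hn' := cpl_gal h d.f₁ hn σ
  have hm' := cpl_gal h d.f₁ hm σ
  have t' : Tri (n.map σ) (m.map σ) := by
    refine ⟨?_, ?_, ?_, ?_⟩
    · rw [← Matrix.map_mul, nn, Matrix.map_zero _ (map_zero σ)]
    · rw [← Matrix.map_mul, mm, Matrix.map_zero _ (map_zero σ)]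
    · rw [← Matrix.map_mul, ← Matrix.map_mul, t.nmn]
    · rw [← Matrix.map_mul, ← Matrix.map_mul, t.mnm]
  have hcc : ∀ {X Y : Matrix (Fin G ⊕ Fin G) (Fin G ⊕ Fin G) ℂ}, X ∈ cpl Z E₁ F₁ → Y ∈ LZ Z →
      cmp E₁ F₁ X * cmp E₁ F₁ Y = cmp E₁ F₁ Y * cmp E₁ F₁ X → X * Y = Y * X := by
    intro X Y hX hY hXY
    have h1 := cpl_uniq h d.f₁ (cpl_br h d.f₁ hX hY) (by
      rw [cmp_sub, cmp_mul d.f₁ _ hY, cmp_mul d.f₁ _ hX.2, hXY, sub_self])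
    exact sub_eq_zero.1 h1
  have hnN' : cmp E₁ F₁ (n.map σ) = N.map σ := by rw [cmp_map, hnN]
  have hmM' : cmp E₁ F₁ (m.map σ) = M.map σ := by rw [cmp_map, hmM]
  have g1 : n * n.map σ = n.map σ * n := hcc hn hn'.2 (by rw [hnN, hnN', c1])
  have g2 : n * m.map σ = m.map σ * n := hcc hn hm'.2 (by rw [hnN, hmM', c2])
  have g3 : m * n.map σ = n.map σ * m := hcc hm hn'.2 (by rw [hmM, hnN', c3])
  have g4 : m * m.map σ = m.map σ * m := hcc hm hm'.2 (by rw [hmM, hmM', c4])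
  have g5 : D * n.map σ = n.map σ * D := by
    refine (hcc hn' hDL ?_).symm
    rw [hnN', hDc, ← e5]
    calc N.map σ * (N * M - M * N) = (N.map σ * N) * M - (N.map σ * M) * N := by noncomm_ring
      _ = (N * N.map σ) * M - (M * N.map σ) * N := by rw [c1, c3]
      _ = N * (N.map σ * M) - M * (N.map σ * N) := by noncomm_ring
      _ = N * (M * N.map σ) - M * (N * N.map σ) := by rw [c1, c3]
      _ = (N * M - M * N) * N.map σ := by noncomm_ring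
  have g6 : D * m.map σ = m.map σ * D := by
    refine (hcc hm' hDL ?_).symm
    rw [hmM', hDc, ← e5]
    calc M.map σ * (N * M - M * N) = (M.map σ * N) * M - (M.map σ * M) * N := by noncomm_ring
      _ = (N * M.map σ) * M - (M * M.map σ) * N := by rw [c2, c4]
      _ = N * (M.map σ * M) - M * (M.map σ * N) := by noncomm_ring
      _ = N * (M * M.map σ) - M * (N * M.map σ) := by rw [c2, c4]
      _ = (N * M - M * N) * M.map σ := by noncomm_ring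
  -- compression to the second factor
  obtain ⟨τ, hτ⟩ : ∃ τ : Matrix (Fin G ⊕ Fin G) (Fin G ⊕ Fin G) ℂ →
      End ℂ (Fin a₂ ⊕ Fin a₂ → ℂ), τ = fun X => ph (Fin a₂ ⊕ Fin a₂) (cmp E₂ F₂ X) := ⟨_, rfl⟩
  have τmul : ∀ X, ∀ Y ∈ LZ Z, τ (X * Y) = τ X * τ Y := by
    intro X Y hY
    rw [hτ]
    change ph _ (cmp E₂ F₂ (X * Y)) = _
    rw [cmp_mul d.f₂ _ hY, map_mul]
  have τzero : τ 0 = 0 := by
    rw [hτ]
    change ph _ (cK ℂ F₂ * 0 * cK ℂ E₂) = 0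
    rw [Matrix.mul_zero, Matrix.zero_mul, map_zero]
  have τsk : ∀ X ∈ LZ Z, ∀ x y, Pool.Agent.Y90.om a₂ (τ X x) y = -Pool.Agent.Y90.om a₂ x (τ X y) := by
    intro X hX x y
    have h1 := h₂.om_sp (d.f₂.comp hX).1 x y
    rw [hτ]
    exact eq_neg_of_add_eq_zero_left h1
  have hτn : τ n = 0 := by
    refine no_small (W := Fin a₂ ⊕ Fin a₂ → ℂ) (ω := Pool.Agent.Y90.om a₂) (D := τ D) (n := τ n)
      (m := τ m) (n' := τ (n.map σ)) (m' := τ (m.map σ)) ?_ om_anti om_nd ?_ (τsk D hDL)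
      (τsk n hn.2) (τsk m hm.2) (τsk _ hn'.2) (τsk _ hm'.2) ?_ ?_ ?_ ?_ ?_ ?_ ?_ ?_ ?_
    · rw [Module.finrank_fintype_fun_eq_card, Fintype.card_sum, Fintype.card_fin]
      omega
    · rw [← τmul _ _ hDL, hDD, hτ]
      change ph _ (cK ℂ F₂ * 1 * cK ℂ E₂) = 1
      rw [Matrix.mul_one, d.f₂.fe', map_one]
    · refine ⟨?_, ?_, ?_, ?_⟩
      · rw [← τmul _ _ hn.2, nn, τzero]
      · rw [← τmul _ _ hm.2, mm, τzero]
      · rw [← τmul _ _ hm.2, ← τmul _ _ hn.2, t.nmn]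
      · rw [← τmul _ _ hn.2, ← τmul _ _ hm.2, t.mnm]
    · refine ⟨?_, ?_, ?_, ?_⟩
      · rw [← τmul _ _ hn'.2, t'.nn, τzero]
      · rw [← τmul _ _ hm'.2, t'.mm, τzero]
      · rw [← τmul _ _ hm'.2, ← τmul _ _ hn'.2, t'.nmn]
      · rw [← τmul _ _ hn'.2, ← τmul _ _ hm'.2, t'.mnm]
    · rw [← τmul _ _ hn'.2, ← τmul _ _ hDL, g5]
    · rw [← τmul _ _ hm'.2, ← τmul _ _ hDL, g6]
    · rw [← τmul _ _ hn'.2, ← τmul _ _ hn.2, g1]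
    · rw [← τmul _ _ hm'.2, ← τmul _ _ hn.2, g2]
    · rw [← τmul _ _ hn'.2, ← τmul _ _ hm.2, g3]
    · rw [← τmul _ _ hm'.2, ← τmul _ _ hm.2, g4]
    · have j1 : LinearMap.trace ℂ (Fin a₂ ⊕ Fin a₂ → ℂ) (τ m * τ n) = (cmp E₂ F₂ (m * n)).trace := by
        rw [← τmul _ _ hn.2, hτ]
        exact Matrix.trace_toLin'_eq _
      have j2 : LinearMap.trace ℂ (Fin a₂ ⊕ Fin a₂ → ℂ) (τ (m.map σ) * τ (n.map σ)) =
          σ (cmp E₂ F₂ (m * n)).trace := by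
        rw [← τmul _ _ hn'.2, hτ, ← Matrix.map_mul, ← aut_trace, ← cmp_map]
        exact Matrix.trace_toLin'_eq _
      have j3 : cmp E₂ F₂ (m * n) * cmp E₂ F₂ (m * n) = cmp E₂ F₂ (m * n) := by
        rw [cmp_mul d.f₂ _ hn.2]
        have h5 : cmp E₂ F₂ n * cmp E₂ F₂ m * cmp E₂ F₂ n = cmp E₂ F₂ n := by
          rw [← cmp_mul d.f₂ _ hm.2, ← cmp_mul d.f₂ _ hn.2, t.nmn]
        calc cmp E₂ F₂ m * cmp E₂ F₂ n * (cmp E₂ F₂ m * cmp E₂ F₂ n) =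
            cmp E₂ F₂ m * (cmp E₂ F₂ n * cmp E₂ F₂ m * cmp E₂ F₂ n) := by
              simp only [Matrix.mul_assoc]
          _ = _ := by rw [h5]
      obtain ⟨r, hr⟩ : ∃ r : ℕ, (cmp E₂ F₂ (m * n)).trace = r :=
        ⟨_, Pool.Agent.Y4.trace_idem j3⟩
      rw [j1, j2, hr, map_natCast]
  -- conclusion
  have hn0 : cmp E₂ F₂ n = 0 := by
    rw [hτ] at hτn
    exact (ph (Fin a₂ ⊕ Fin a₂)).map_eq_zero_iff.1 hτn
  have hg2 : cmp E₂ F₂ (n * m - m * n) = 0 := by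
    rw [cmp_sub, cmp_mul d.f₂ _ hm.2, cmp_mul d.f₂ _ hn.2, hn0, Matrix.zero_mul, Matrix.mul_zero,
      sub_zero]
  have hb := d.blocks hg.2
  have hg1 : cK ℂ F₁ * (n * m - m * n) * cK ℂ E₁ = DZ Z₁ := hgc
  have hg3 : cK ℂ F₂ * (n * m - m * n) * cK ℂ E₂ = 0 := hg2
  rw [hg1, hg3, Matrix.mul_zero, Matrix.zero_mul, add_zero] at hb
  refine sp_of d.f₁ ?_
  rw [← hb]
  exact hg.2

end

end Pool.Agent.H926
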