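import Mathlib
import Pool.Agent.H926.Spl
import Pool.Agent.H926.Cnj
import Pool.Graph.R_seed8.Y90.Pie2

/-!
# Faithful representations of the Hodge Lie algebra and the splitting
-/

set_option linter.unusedSectionVars false

namespace Pool.Agent.H926

open Matrix Module Pool.Agent.Y90 Pool.Agent.W437.HC Pool.Agent.W437.HD
  Pool.Agent.TH504.CB Pool.Agent.TH131.GHC
open Pool.Agent.W548.Odd hiding cv
open Pool.Agent.W437.HP (cK cK_mul cK_one)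
open Pool.Agent.Y91.JP (Scal cen cen_idl invol_dich central_zero idl_of_pos idl_of_neg Kp)

noncomputable section

variable {g : ℕ} {Z : Matrix (Fin g) (Fin g) ℂ}

/-- A faithful representation of an algebra which contains the Lie algebra. -/
structure Rep (Z : Matrix (Fin g) (Fin g) ℂ)
    (A : Subalgebra ℂ (Matrix (Fin g ⊕ Fin g) (Fin g ⊕ Fin g) ℂ)) {W : Type*} [AddCommGroup W]
    [Module ℂ W] (R : Matrix (Fin g ⊕ Fin g) (Fin g ⊕ Fin g) ℂ →ₗ[ℂ] End ℂ W) : Prop where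
  le : ∀ X ∈ LZ Z, X ∈ A
  mul : ∀ X Y, Y ∈ A → R (X * Y) = R X * R Y
  inj : ∀ X ∈ A, R X = 0 → X = 0
  one : R 1 = 1

section rep

variable {A : Subalgebra ℂ (Matrix (Fin g ⊕ Fin g) (Fin g ⊕ Fin g) ℂ)} {W : Type*}
  [AddCommGroup W] [Module ℂ W] {R : Matrix (Fin g ⊕ Fin g) (Fin g ⊕ Fin g) ℂ →ₗ[ℂ] End ℂ W}
  (hR : Rep Z A R)

include hR

theorem Rep.eq {X Y : Matrix (Fin g ⊕ Fin g) (Fin g ⊕ Fin g) ℂ} (hX : X ∈ A) (hY : Y ∈ A)
    (h : R X = R Y) : X = Y := by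
  have h1 := hR.inj (X - Y) (A.sub_mem hX hY) (by rw [map_sub, h, sub_self])
  exact sub_eq_zero.1 h1

theorem Rep.DA : DZ Z ∈ A := hR.le _ DZ_mem

theorem Rep.sq (h : PM Z) (σ : ℂ ≃+* ℂ) : R (DS Z σ) * R (DS Z σ) = 1 := by
  rw [← hR.mul _ _ (hR.le _ (DS_mem σ)), DS_sq h.det, hR.one]

theorem Rep.sqD (h : PM Z) : R (DZ Z) * R (DZ Z) = 1 := by
  rw [← hR.mul _ _ hR.DA, DZ_sq h.det, hR.one]

omit hR in
theorem mem_mapR {X : Matrix (Fin g ⊕ Fin g) (Fin g ⊕ Fin g) ℂ} (hX : X ∈ LZ Z) :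
    R X ∈ (LZ Z).map R := ⟨X, hX, rfl⟩

variable [FiniteDimensional ℂ W] {st : End ℂ W →ₗ[ℂ] End ℂ W} (hst : Setup ((LZ Z).map R) st)
  (hs : Scal ((LZ Z).map R))

include hst hs

theorem Rep.exists_sigma (h : PM Z) (hgn : ¬(LZ Z).map R ≤ gn ((LZ Z).map R) (R (DZ Z))) :
    ∃ σ : ℂ ≃+* ℂ, R (DS Z σ) ∈ cen ((LZ Z).map R) (gn ((LZ Z).map R) (R (DZ Z))) := by
  have hI := gn_idl hst (mem_mapR DZ_mem)
  by_contra hcon
  push Not at hcon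
  apply hgn
  have h1 : LZ Z ≤ LZ Z ⊓ (gn ((LZ Z).map R) (R (DZ Z))).comap R := by
    refine LZ_le (fun σ => ⟨DS_mem σ, ?_⟩) ?_
    · exact (invol_dich hst hs hI (mem_mapR (DS_mem σ)) (hR.sq h σ)).resolve_right (hcon σ)
    · rintro X ⟨hX, hX'⟩ Y ⟨hY, hY'⟩
      refine ⟨LZ_br hX hY, ?_⟩
      change R (X * Y - Y * X) ∈ gn ((LZ Z).map R) (R (DZ Z))
      rw [map_sub, hR.mul _ _ (hR.le _ hY), hR.mul _ _ (hR.le _ hX)]
      exact hI.br (R X) (mem_mapR hX) (R Y) hY'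
  rintro _ ⟨X, hX, rfl⟩
  exact (h1 hX).2

variable {G a₂ : ℕ} {Zb : Matrix (Fin G) (Fin G) ℂ} {Z₂ : Matrix (Fin a₂) (Fin a₂) ℂ}
  {E₁ : Matrix (Fin G ⊕ Fin G) (Fin g ⊕ Fin g) ℚ}
  {F₁ : Matrix (Fin g ⊕ Fin g) (Fin G ⊕ Fin G) ℚ}
  {E₂ : Matrix (Fin G ⊕ Fin G) (Fin a₂ ⊕ Fin a₂) ℚ}
  {F₂ : Matrix (Fin a₂ ⊕ Fin a₂) (Fin G ⊕ Fin G) ℚ}

/-- Splitting: dimension four. -/
theorem Rep.hsp4 (h : PM Z) (hgn : ¬(LZ Z).map R ≤ gn ((LZ Z).map R) (R (DZ Z)))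
    {N M : End ℂ W} (hN : N ∈ (LZ Z).map R) (hM : M ∈ (LZ Z).map R) (t : Trp (R (DZ Z)) N M)
    (d : Dec Zb Z Z₂ E₁ F₁ E₂ F₂) (hb : PM Zb) (h₂ : PM Z₂) (ha : a₂ ≤ 3) :
    ∀ X ∈ LZ Z, cK ℂ E₁ * X * cK ℂ F₁ ∈ LZ Zb := by
  obtain ⟨σ, hσ⟩ := hR.exists_sigma hst hs h hgn
  obtain ⟨N', hN', rfl⟩ := hN
  obtain ⟨M', hM', rfl⟩ := hM
  have hDG : R (DZ Z) ∈ (LZ Z).map R := mem_mapR DZ_mem
  have hI := gn_idl hst hDG
  have hC := cen_idl hst hI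
  have D1 := hR.DA
  have nA := hR.le _ hN'
  have mA := hR.le _ hM'
  have e1 : DZ Z * N' = N' := hR.eq (A.mul_mem D1 nA) nA (by rw [hR.mul _ _ nA, t.dn])
  have e2 : N' * DZ Z = -N' :=
    hR.eq (A.mul_mem nA D1) (A.neg_mem nA) (by rw [hR.mul _ _ D1, t.nd, map_neg])
  have e3 : DZ Z * M' = -M' :=
    hR.eq (A.mul_mem D1 mA) (A.neg_mem mA) (by rw [hR.mul _ _ mA, t.dm, map_neg])
  have e4 : M' * DZ Z = M' := hR.eq (A.mul_mem mA D1) mA (by rw [hR.mul _ _ D1, t.md])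
  have e5 : N' * M' - M' * N' = DZ Z :=
    hR.eq (A.sub_mem (A.mul_mem nA mA) (A.mul_mem mA nA)) D1 (by
      rw [map_sub, hR.mul _ _ mA, hR.mul _ _ nA, t.sub])
  have nσ : N'.map σ ∈ LZ Z := gal_LZ σ _ hN'
  have mσ : M'.map σ ∈ LZ Z := gal_LZ σ _ hM'
  have nσA := hR.le _ nσ
  have mσA := hR.le _ mσ
  have dσA := hR.le _ (DS_mem (Z := Z) σ)
  have neg' : ∀ X : Matrix (Fin g ⊕ Fin g) (Fin g ⊕ Fin g) ℂ, (-X).map σ = -X.map σ := by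
    intro X
    ext i j
    simp
  have f1 : R (DS Z σ) * R (N'.map σ) = R (N'.map σ) := by
    rw [← hR.mul _ _ nσA]
    congr 1
    have h1 := congrArg (fun M => M.map σ) e1
    simp only [Matrix.map_mul] at h1
    exact h1
  have f2 : R (N'.map σ) * R (DS Z σ) = -R (N'.map σ) := by
    rw [← hR.mul _ _ dσA, ← map_neg]
    congr 1
    have h1 := congrArg (fun M => M.map σ) e2
    simp only [Matrix.map_mul, neg'] at h1
    exact h1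
  have f3 : R (DS Z σ) * R (M'.map σ) = -R (M'.map σ) := by
    rw [← hR.mul _ _ mσA, ← map_neg]
    congr 1
    have h1 := congrArg (fun M => M.map σ) e3
    simp only [Matrix.map_mul, neg'] at h1
    exact h1
  have f4 : R (M'.map σ) * R (DS Z σ) = R (M'.map σ) := by
    rw [← hR.mul _ _ dσA]
    congr 1
    have h1 := congrArg (fun M => M.map σ) e4
    simp only [Matrix.map_mul] at h1
    exact h1
  have mN : R N' ∈ gn ((LZ Z).map R) (R (DZ Z)) :=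
    idl_of_pos hI mem_gn (mem_mapR hN') t.dn t.nd
  have mM : R M' ∈ gn ((LZ Z).map R) (R (DZ Z)) :=
    idl_of_neg hI mem_gn (mem_mapR hM') t.dm t.md
  have mN' := idl_of_pos hC hσ (mem_mapR nσ) f1 f2
  have mM' := idl_of_neg hC hσ (mem_mapR mσ) f3 f4
  have cc : ∀ {X Y : Matrix (Fin g ⊕ Fin g) (Fin g ⊕ Fin g) ℂ}, X ∈ LZ Z → Y ∈ LZ Z →
      R X ∈ gn ((LZ Z).map R) (R (DZ Z)) →
      R Y ∈ cen ((LZ Z).map R) (gn ((LZ Z).map R) (R (DZ Z))) → X * Y = Y * X := by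
    intro X Y hX hY h1 h2
    refine hR.eq (A.mul_mem (hR.le _ hX) (hR.le _ hY)) (A.mul_mem (hR.le _ hY) (hR.le _ hX)) ?_
    rw [hR.mul _ _ (hR.le _ hX), hR.mul _ _ (hR.le _ hY)]
    exact (h2.2 _ h1).symm
  exact d.split4 hb h₂ ha hN' hM' e1 e2 e3 e4 e5 σ (cc hN' nσ mN mN') (cc hN' mσ mN mM')
    (cc hM' nσ mM mN') (cc hM' mσ mM mM')

omit hR hst hs [FiniteDimensional ℂ W] in
/-- Upper operators in dimension two. -/
theorem two_dep [FiniteDimensional ℂ W] (hW : finrank ℂ W ≤ 2) {D a b : End ℂ W} (a1 : D * a = a)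
    (a2 : a * D = -a) (b1 : D * b = b) (b2 : b * D = -b) :
    ∃ c₁ c₂ : ℂ, (c₁ ≠ 0 ∨ c₂ ≠ 0) ∧ c₁ • a + c₂ • b = 0 := by
  by_cases ha : a = 0
  · exact ⟨1, 0, Or.inl one_ne_zero, by rw [ha, smul_zero, zero_smul, add_zero]⟩
  obtain ⟨y, hy⟩ : ∃ y, a y ≠ 0 := by
    by_contra hcon
    push Not at hcon
    exact ha (LinearMap.ext hcon)
  have hz : ∀ {x y : End ℂ W}, x * D = -x → D * y = y → x * y = 0 := by
    intro x y hx hy
    have h1 : x * y = -(x * y) := by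
      nth_rewrite 1 [← hy]
      rw [← mul_assoc, hx, neg_mul]
    have h2 : (2 : ℂ) • (x * y) = 0 := by
      rw [two_smul]
      nth_rewrite 1 [h1]
      exact neg_add_cancel _
    exact (smul_eq_zero.1 h2).resolve_left two_ne_zero
  have aa : ∀ x, a (a x) = 0 := fun x => LinearMap.congr_fun (hz a2 a1) x
  have ab : ∀ x, a (b x) = 0 := fun x => LinearMap.congr_fun (hz a2 b1) x
  have ba : ∀ x, b (a x) = 0 := fun x => LinearMap.congr_fun (hz b2 a1) x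
  have hli : LinearIndependent ℂ ![a y, y] := by
    rw [LinearIndependent.pair_iff]
    intro s t hst
    have h1 := congrArg a hst
    rw [map_add, map_smul, map_smul, aa, smul_zero, zero_add, map_zero] at h1
    have ht := (smul_eq_zero.1 h1).resolve_right hy
    rw [ht, zero_smul, add_zero] at hst
    exact ⟨(smul_eq_zero.1 hst).resolve_right hy, ht⟩
  have hcard : Fintype.card (Fin 2) = finrank ℂ W := by
    have h1 := hli.fintype_card_le_finrank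
    rw [Fintype.card_fin] at h1 ⊢
    omega
  have hsp := hli.span_eq_top_of_card_eq_finrank' hcard
  have hex : ∀ x, ∃ s t : ℂ, s • a y + t • y = x := by
    intro x
    have h1 : x ∈ Submodule.span ℂ (Set.range ![a y, y]) := by
      rw [hsp]
      trivial
    rw [Matrix.range_cons, Matrix.range_cons, Matrix.range_empty, Set.union_empty,
      Set.singleton_union, Submodule.mem_span_pair] at h1
    exact h1
  obtain ⟨s, t, hb⟩ := hex (b y)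
  have ht : t = 0 := by
    have h1 := congrArg a hb
    rw [map_add, map_smul, map_smul, aa, smul_zero, zero_add, ab] at h1
    exact (smul_eq_zero.1 h1).resolve_right hy
  rw [ht, zero_smul, add_zero] at hb
  refine ⟨-s, 1, Or.inr one_ne_zero, LinearMap.ext fun x => ?_⟩
  obtain ⟨p, q, rfl⟩ := hex x
  rw [LinearMap.add_apply, LinearMap.smul_apply, LinearMap.smul_apply, map_add, map_add, map_smul,
    map_smul, map_smul, map_smul, aa, ba, ← hb, LinearMap.zero_apply]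
  module

/-- Splitting: dimension six. -/
theorem Rep.hsp6 (hgn : (LZ Z).map R ≤ gn ((LZ Z).map R) (R (DZ Z))) (hr : PM Z)
    {N₁ N₂ : End ℂ W} (hN₁ : N₁ ∈ Kp ((LZ Z).map R) (R (DZ Z)))
    (hN₂ : N₂ ∈ Kp ((LZ Z).map R) (R (DZ Z)))
    (hind : ∀ c₁ c₂ : ℂ, c₁ • N₁ + c₂ • N₂ = 0 → c₁ = 0 ∧ c₂ = 0)
    (d : Dec Zb Z Z₂ E₁ F₁ E₂ F₂) (hb : PM Zb) (h₂ : PM Z₂) (ha : a₂ ≤ 1) :
    ∀ X ∈ LZ Z, cK ℂ E₁ * X * cK ℂ F₁ ∈ LZ Zb := by
  have hDG : R (DZ Z) ∈ (LZ Z).map R := mem_mapR DZ_mem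
  have D1 := hR.DA
  -- lifts
  have hlift : ∀ {N : End ℂ W}, N ∈ Kp ((LZ Z).map R) (R (DZ Z)) → ∃ n ∈ LZ Zb, DZ Zb * n = n ∧
      n * DZ Zb = -n ∧ R (cmp E₁ F₁ n) = N := by
    intro N hN
    obtain ⟨N', hN', hN'R⟩ := hN.1
    have nA := hR.le _ hN'
    have e1 : DZ Z * N' = N' := hR.eq (A.mul_mem D1 nA) nA (by rw [hR.mul _ _ nA, hN'R, hN.2.1])
    have e2 : N' * DZ Z = -N' :=
      hR.eq (A.mul_mem nA D1) (A.neg_mem nA) (by rw [hR.mul _ _ D1, map_neg, hN'R, hN.2.2])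
    obtain ⟨X, hX, hXN⟩ := d.f₁.lift hN'
    have hDD : DZ Zb * DZ Zb = 1 := DZ_sq hb.det
    refine ⟨_, up_mem hb hX, ?_, ?_, ?_⟩
    · rw [Matrix.mul_smul, ← Matrix.mul_assoc, ← Matrix.mul_assoc, Matrix.mul_add, hDD,
        Matrix.mul_one, add_comm (DZ Zb)]
    · rw [Matrix.smul_mul, Matrix.mul_assoc, Matrix.sub_mul, hDD, Matrix.one_mul, ← smul_neg,
        ← Matrix.mul_neg, neg_sub]
    · have h1 : cmp E₁ F₁ ((1 / 4 : ℂ) • ((1 + DZ Zb) * X * (1 - DZ Zb))) = N' := by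
        have h2 : (1 + DZ Zb) * X * (1 - DZ Zb) = X + DZ Zb * X - (X + DZ Zb * X) * DZ Zb := by
          noncomm_ring
        have h3 : cmp E₁ F₁ X = N' := hXN
        rw [cmp_smul, h2, cmp_sub, cmp_mul d.f₁ _ DZ_mem, cmp_add, cmp_mul d.f₁ _ hX, h3,
          cmp_DZ d.f₁, e1, add_mul, e2]
        module
      rw [h1, hN'R]
  obtain ⟨n₁, l1, u1, v1, w1⟩ := hlift hN₁
  obtain ⟨n₂, l2, u2, v2, w2⟩ := hlift hN₂
  have hDc : cmp E₂ F₂ (DZ Zb) = DZ Z₂ := cmp_DZ d.f₂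
  obtain ⟨c₁, c₂, hc, hcc⟩ := two_dep (W := Fin a₂ ⊕ Fin a₂ → ℂ)
    (D := ph (Fin a₂ ⊕ Fin a₂) (DZ Z₂)) (a := ph (Fin a₂ ⊕ Fin a₂) (cmp E₂ F₂ n₁))
    (b := ph (Fin a₂ ⊕ Fin a₂) (cmp E₂ F₂ n₂)) (by
      rw [Module.finrank_fintype_fun_eq_card, Fintype.card_sum, Fintype.card_fin]
      omega) (by rw [← map_mul, ← hDc, ← cmp_mul d.f₂ _ l1, u1])
    (by rw [← map_mul, ← map_neg, ← hDc, ← cmp_mul d.f₂ _ DZ_mem, v1]
        congr 1
        unfold cmp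
        rw [Matrix.mul_neg, Matrix.neg_mul])
    (by rw [← map_mul, ← hDc, ← cmp_mul d.f₂ _ l2, u2])
    (by rw [← map_mul, ← map_neg, ← hDc, ← cmp_mul d.f₂ _ DZ_mem, v2]
        congr 1
        unfold cmp
        rw [Matrix.mul_neg, Matrix.neg_mul])
  obtain ⟨x, hx⟩ : ∃ x, x = c₁ • n₁ + c₂ • n₂ := ⟨_, rfl⟩
  have hxL : x ∈ LZ Zb := by
    rw [hx]
    exact Submodule.add_mem _ (Submodule.smul_mem _ _ l1) (Submodule.smul_mem _ _ l2)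
  have hx2 : cmp E₂ F₂ x = 0 := by
    apply (ph (Fin a₂ ⊕ Fin a₂)).injective
    rw [hx, cmp_add, cmp_smul, cmp_smul, map_add, map_smul, map_smul, hcc, map_zero]
  have hx1 : R (cmp E₁ F₁ x) ≠ 0 := by
    intro h0
    rw [hx, cmp_add, cmp_smul, cmp_smul, map_add, map_smul, map_smul, w1, w2] at h0
    obtain ⟨k1, k2⟩ := hind _ _ h0
    rcases hc with h3 | h3
    · exact h3 k1
    · exact h3 k2
  have hx3 : cK ℂ E₁ * (cmp E₁ F₁ x) * cK ℂ F₁ ∈ LZ Zb := by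
    have h1 := d.blocks hxL
    have h2 : cK ℂ F₂ * x * cK ℂ E₂ = 0 := hx2
    rw [h2, Matrix.mul_zero, Matrix.zero_mul, add_zero] at h1
    have h3 : cK ℂ E₁ * (cmp E₁ F₁ x) * cK ℂ F₁ = x := h1.symm
    rw [h3]
    exact hxL
  -- the ideal
  obtain ⟨I, hI⟩ : ∃ I : Submodule ℂ (End ℂ W), ∀ y, y ∈ I ↔ ∃ X ∈ LZ Z,
      cK ℂ E₁ * X * cK ℂ F₁ ∈ LZ Zb ∧ R X = y := by
    refine ⟨{ carrier := {y | ∃ X ∈ LZ Z, cK ℂ E₁ * X * cK ℂ F₁ ∈ LZ Zb ∧ R X = y}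
              add_mem' := ?_
              zero_mem' := ?_
              smul_mem' := ?_ }, fun y => Iff.rfl⟩
    · rintro _ _ ⟨X, h1, h2, rfl⟩ ⟨Y, h3, h4, rfl⟩
      refine ⟨X + Y, Submodule.add_mem _ h1 h3, ?_, map_add _ _ _⟩
      rw [Matrix.mul_add, Matrix.add_mul]
      exact Submodule.add_mem _ h2 h4
    · refine ⟨0, Submodule.zero_mem _, ?_, map_zero _⟩
      rw [Matrix.mul_zero, Matrix.zero_mul]
      exact Submodule.zero_mem _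
    · rintro c _ ⟨X, h1, h2, rfl⟩
      refine ⟨c • X, Submodule.smul_mem _ _ h1, ?_, map_smul _ _ _⟩
      rw [Matrix.mul_smul, Matrix.smul_mul]
      exact Submodule.smul_mem _ _ h2
  have hIdl : IsIdl ((LZ Z).map R) I := by
    refine ⟨fun y hy => ?_, fun y hy z hz => ?_⟩
    · obtain ⟨X, h1, -, rfl⟩ := (hI y).1 hy
      exact mem_mapR h1
    · obtain ⟨Y, hY, rfl⟩ := hy
      obtain ⟨X, h1, h3, rfl⟩ := (hI z).1 hz
      obtain ⟨Y', hY', rfl⟩ := d.f₁.lift hY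
      rw [hI]
      refine ⟨_, LZ_br hY h1, ?_, by rw [map_sub, hR.mul _ _ (hR.le _ h1), hR.mul _ _ (hR.le _ hY)]⟩
      have h4 := LZ_br hY' h3
      have k1 : Y' * (cK ℂ E₁ * X * cK ℂ F₁) =
          cK ℂ E₁ * ((cK ℂ F₁ * Y' * cK ℂ E₁) * X) * cK ℂ F₁ := by
        calc Y' * (cK ℂ E₁ * X * cK ℂ F₁) = (Y' * cK ℂ E₁) * X * cK ℂ F₁ := by
              simp only [Matrix.mul_assoc]
          _ = (cK ℂ E₁ * (cK ℂ F₁ * Y' * cK ℂ E₁)) * X * cK ℂ F₁ := by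
              rw [← (d.f₁.comp hY').2.1]
          _ = _ := by simp only [Matrix.mul_assoc]
      have k2 : (cK ℂ E₁ * X * cK ℂ F₁) * Y' =
          cK ℂ E₁ * (X * (cK ℂ F₁ * Y' * cK ℂ E₁)) * cK ℂ F₁ := by
        calc (cK ℂ E₁ * X * cK ℂ F₁) * Y' = cK ℂ E₁ * X * (cK ℂ F₁ * Y') := by
              simp only [Matrix.mul_assoc]
          _ = cK ℂ E₁ * X * (cK ℂ F₁ * Y' * cK ℂ E₁ * cK ℂ F₁) := by
              rw [← (d.f₁.comp hY').2.2]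
          _ = _ := by simp only [Matrix.mul_assoc]
      rw [k1, k2, ← Matrix.sub_mul, ← Matrix.mul_sub] at h4
      exact h4
  have hxI : R (cmp E₁ F₁ x) ∈ I := (hI _).2 ⟨_, (d.f₁.comp hxL).1, hx3, rfl⟩
  rcases invol_dich hst hs hIdl hDG (hR.sqD hr) with h1 | h1
  · obtain ⟨X, hX, hX2, hX3⟩ := (hI _).1 h1
    have h3 : X = DZ Z := hR.eq (hR.le _ hX) D1 hX3
    rw [h3] at hX2
    exact sp_of d.f₁ hX2
  · exfalso
    have h3 := hgn.trans (gn_le (cen_idl hst hIdl) h1)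
    refine hx1 (central_zero hst hs hDG (hR.sqD hr) (hIdl.le hxI) fun z hz => ?_)
    exact ((h3 hz).2 _ hxI).symm

end rep

end

end Pool.Agent.H926
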