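import Mathlib
import Pool.Graph.R_pool_sql_team_seeded_1acbe0a2.Y4.P.Jobs5
import Pool.Graph.R_pool_sql_team_seeded_1acbe0a2.Y484.MC.CM

/-!
# Simple abelian varieties with a definite quaternion algebra over the rational numbers
-/

set_option linter.unusedSectionVars false

namespace Pool.Agent.H926

open Matrix Module Pool.Agent.Y90 Pool.Agent.W437.HC Pool.Agent.W437.HD
  Pool.Agent.TH504.CB
open Pool.Agent.W548.Odd hiding cv
open Pool.Agent.Y4.P (MaxM EigM)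
open Pool.Agent.Y4.Q (T3M)
open Pool.Agent.Y484.MC (ros ros_mul ros_ros ros_smul_one ros_neg ros_add ros_comm conj_of_ros EA)

noncomputable section

variable {g : ℕ} {Z : Matrix (Fin g) (Fin g) ℂ}

/-- Two anticommuting skew endomorphisms. -/
structure T3D (Z : Matrix (Fin g) (Fin g) ℂ) (b j : Matrix (Fin g ⊕ Fin g) (Fin g ⊕ Fin g) ℚ)
    (d e : ℚ) : Prop where
  rb : ros b = -b
  cj : qm j * DZ Z = DZ Z * qm j
  rj : ros j = -j
  bb : b * b = d • (1 : Matrix (Fin g ⊕ Fin g) (Fin g ⊕ Fin g) ℚ)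
  jj : j * j = e • (1 : Matrix (Fin g ⊕ Fin g) (Fin g ⊕ Fin g) ℚ)
  bj : b * j = -(j * b)
  d0 : d ≠ 0
  e0 : e ≠ 0
  ns : ∀ c : ℚ, b ≠ c • (1 : Matrix (Fin g ⊕ Fin g) (Fin g ⊕ Fin g) ℚ)
  mx : MaxM Z b

/-- Endomorphisms fixed by the involution are scalars. -/
theorem t3_scal (h : PM Z) (hT : T3M Z) {c : Matrix (Fin g ⊕ Fin g) (Fin g ⊕ Fin g) ℚ}
    (hc : qm c * DZ Z = DZ Z * qm c) (hr : ros c = c) :
    ∃ q : ℚ, c = q • (1 : Matrix (Fin g ⊕ Fin g) (Fin g ⊕ Fin g) ℚ) := by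
  refine hT.2.2 c hc fun z hz => ?_
  obtain ⟨v, hv, hv0⟩ := Submodule.exists_mem_ne_zero_of_ne_bot
    (Y261.P.EigM_ne (Y261.P.mem_Rt.2 hz))
  have hv' : qm c *ᵥ v = z • v := Y261.P.mem_EigM.1 hv
  have h1 := conj_of_ros h hc hv0 hv' (by rw [hr]; exact hv')
  exact Complex.conj_eq_iff_im.1 h1

theorem EA_mul {a b : Matrix (Fin g ⊕ Fin g) (Fin g ⊕ Fin g) ℚ}
    (ha : qm a * DZ Z = DZ Z * qm a) (hb : qm b * DZ Z = DZ Z * qm b) :
    qm (a * b) * DZ Z = DZ Z * qm (a * b) := (EA Z).mul_mem (x := a) (y := b) ha hb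

theorem EA_sub {a b : Matrix (Fin g ⊕ Fin g) (Fin g ⊕ Fin g) ℚ}
    (ha : qm a * DZ Z = DZ Z * qm a) (hb : qm b * DZ Z = DZ Z * qm b) :
    qm (a - b) * DZ Z = DZ Z * qm (a - b) := (EA Z).sub_mem (x := a) (y := b) ha hb

theorem EA_add {a b : Matrix (Fin g ⊕ Fin g) (Fin g ⊕ Fin g) ℚ}
    (ha : qm a * DZ Z = DZ Z * qm a) (hb : qm b * DZ Z = DZ Z * qm b) :
    qm (a + b) * DZ Z = DZ Z * qm (a + b) := (EA Z).add_mem (x := a) (y := b) ha hb

theorem ros_sub (c d : Matrix (Fin g ⊕ Fin g) (Fin g ⊕ Fin g) ℚ) :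
    ros (c - d) = ros c - ros d := by
  rw [sub_eq_add_neg, ros_add, ros_neg, ← sub_eq_add_neg]

/-- The square of a nonzero endomorphism is not zero. -/
theorem sq_ne_zero (h : PM Z) (hs : IsSimpleAV Z) {b : Matrix (Fin g ⊕ Fin g) (Fin g ⊕ Fin g) ℚ}
    (hb : qm b * DZ Z = DZ Z * qm b) (hb0 : b ≠ 0) : b * b ≠ 0 := by
  intro h0
  rcases Y261.P.div_of_comm h hs hb with h1 | h1
  · exact hb0 h1
  · have h3 : qm b * qm b = 0 := by rw [← qm_mul, h0, qm_zero]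
    exact hb0 (Y261.P.qm_inj ((h1.mul_right_eq_zero.1 h3).trans qm_zero.symm))

/-- The structure of the endomorphism algebra. -/
theorem exists_t3d (h : PM Z) (hs : IsSimpleAV Z) (hT : T3M Z) :
    ∃ b j d e, T3D Z b j d e := by
  obtain ⟨ψ, hψ, hne⟩ := hT.2.1
  have hrψ := ros_comm h hψ
  obtain ⟨b, hb⟩ : ∃ b, b = ψ - ros ψ := ⟨_, rfl⟩
  have cb : qm b * DZ Z = DZ Z * qm b := by
    rw [hb]
    exact EA_sub hψ hrψ
  have rb : ros b = -b := by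
    rw [hb, ros_sub, ros_ros, neg_sub]
  have b0 : b ≠ 0 := by
    intro h0
    rw [hb, sub_eq_zero] at h0
    obtain ⟨q, hq⟩ := t3_scal h hT hψ h0.symm
    exact hne q hq
  obtain ⟨d, bb⟩ := t3_scal h hT (EA_mul cb cb) (by rw [ros_mul, rb, neg_mul_neg])
  have d0 : d ≠ 0 := by
    intro h0
    rw [h0, zero_smul] at bb
    exact sq_ne_zero h hs cb b0 bb
  have nsc : ∀ (x : Matrix (Fin g ⊕ Fin g) (Fin g ⊕ Fin g) ℚ), ros x = -x → x ≠ 0 →
      ∀ c : ℚ, x ≠ c • (1 : Matrix (Fin g ⊕ Fin g) (Fin g ⊕ Fin g) ℚ) := by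
    intro x hx hx0 c hc
    apply hx0
    have h1 : ros x = x := by rw [hc, ros_smul_one]
    rw [h1] at hx
    have h2 : (2 : ℚ) • x = 0 := by
      rw [two_smul]
      nth_rewrite 1 [hx]
      exact neg_add_cancel _
    exact (smul_eq_zero.1 h2).resolve_left two_ne_zero
  obtain ⟨χ, hχ, hbχ⟩ : ∃ χ : Matrix (Fin g ⊕ Fin g) (Fin g ⊕ Fin g) ℚ,
      qm χ * DZ Z = DZ Z * qm χ ∧ b * χ ≠ χ * b := by
    by_contra hcon
    push Not at hcon
    obtain ⟨c, hc⟩ := hT.1 b cb hcon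
    exact nsc b rb b0 c hc
  have hrχ := ros_comm h hχ
  obtain ⟨c, hc⟩ := t3_scal h hT (EA_add hχ hrχ) (by rw [ros_add, ros_ros, add_comm])
  have hrχ' : ros χ = c • (1 : Matrix (Fin g ⊕ Fin g) (Fin g ⊕ Fin g) ℚ) - χ :=
    eq_sub_of_add_eq' hc
  obtain ⟨j, hj⟩ : ∃ j, j = b * χ - χ * b := ⟨_, rfl⟩
  have cj : qm j * DZ Z = DZ Z * qm j := by
    rw [hj]
    exact EA_sub (EA_mul cb hχ) (EA_mul hχ cb)
  have j0 : j ≠ 0 := by
    rw [hj]
    exact sub_ne_zero.2 hbχ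
  have bj : b * j = -(j * b) := by
    have e1 : b * (b * χ) = d • χ := by
      rw [← Matrix.mul_assoc, bb, Matrix.smul_mul, Matrix.one_mul]
    have e2 : χ * b * b = d • χ := by
      rw [Matrix.mul_assoc, bb, Matrix.mul_smul, Matrix.mul_one]
    rw [hj, Matrix.mul_sub, Matrix.sub_mul, e1, e2, Matrix.mul_assoc, neg_sub]
  have rj : ros j = -j := by
    rw [hj, ros_sub, ros_mul, ros_mul, rb, hrχ', Matrix.sub_mul, Matrix.mul_sub, Matrix.smul_mul,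
      Matrix.mul_smul, Matrix.one_mul, Matrix.mul_one, Matrix.mul_neg, Matrix.neg_mul]
    abel
  obtain ⟨e, jj⟩ := t3_scal h hT (EA_mul cj cj) (by rw [ros_mul, rj, neg_mul_neg])
  have e0 : e ≠ 0 := by
    intro h0
    rw [h0, zero_smul] at jj
    exact sq_ne_zero h hs cj j0 jj
  refine ⟨b, j, d, e, rb, cj, rj, bb, jj, bj, d0, e0, nsc b rb b0, cb, fun ξ hξ hξb => ?_⟩
  -- the centraliser of `b`
  have hrξ := ros_comm h hξ
  obtain ⟨s, hs'⟩ := t3_scal h hT (EA_add hξ hrξ) (by rw [ros_add, ros_ros, add_comm])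
  obtain ⟨a, ha⟩ : ∃ a, a = ξ - ros ξ := ⟨_, rfl⟩
  have ra : ros a = -a := by rw [ha, ros_sub, ros_ros, neg_sub]
  have ca : qm a * DZ Z = DZ Z * qm a := by
    rw [ha]
    exact EA_sub hξ hrξ
  have hrξb : ros ξ * b = b * ros ξ := by
    have h1 := congrArg ros hξb
    rw [ros_mul, ros_mul, rb, Matrix.neg_mul, Matrix.mul_neg, neg_inj] at h1
    exact h1.symm
  have hab : a * b = b * a := by
    rw [ha, Matrix.sub_mul, Matrix.mul_sub, hξb, hrξb]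
  obtain ⟨t, ht⟩ := t3_scal h hT (EA_mul ca cb) (by rw [ros_mul, rb, ra, neg_mul_neg, hab])
  have h1 : d • a = t • b := by
    have h2 : a * (b * b) = (a * b) * b := (Matrix.mul_assoc _ _ _).symm
    rw [bb, ht, Matrix.mul_smul, Matrix.mul_one, Matrix.smul_mul, Matrix.one_mul] at h2
    exact h2
  have h2 : a = (d⁻¹ * t) • b := by
    rw [mul_smul, ← h1, smul_smul, inv_mul_cancel₀ d0, one_smul]
  have h3 : ξ = (1 / 2 : ℚ) • (a + s • (1 : Matrix (Fin g ⊕ Fin g) (Fin g ⊕ Fin g) ℚ)) := by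
    rw [← hs', ha]
    have h4 : ξ - ros ξ + (ξ + ros ξ) = (2 : ℚ) • ξ := by
      rw [two_smul]
      abel
    rw [h4, smul_smul]
    norm_num
  rw [h3, h2]
  refine Subalgebra.smul_mem _ (Subalgebra.add_mem _ (Subalgebra.smul_mem _
    (Algebra.self_mem_adjoin_singleton ℚ b) _) (Subalgebra.smul_mem _ (Subalgebra.one_mem _) _)) _

end

end Pool.Agent.H926
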