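import Mathlib
import Pool.Agent.H926.T3a
import Pool.Agent.H926.Rep
import Pool.Agent.H926.Dbl
import Pool.Graph.R_pool_sql_team_seeded_1acbe0a2.Y91.P.JSymp
import Pool.Graph.R_pool_sql_team_seeded_1acbe0a2.Y4.P.Sml

/-!
# Simple abelian varieties with a definite quaternion algebra: the orthogonal Lie algebra
-/

set_option linter.unusedSectionVars false

namespace Pool.Agent.H926

open Matrix Module Pool.Agent.Y90 Pool.Agent.W437.HC Pool.Agent.W437.HD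
  Pool.Agent.TH504.CB
open Pool.Agent.W548.Odd hiding cv
open Pool.Agent.Y4.P (MaxM EigM)
open Pool.Agent.Y484.MC (ros qm_ros qm_smul' qm_add' qm_one')
open Pool.Agent.Y91.JP (Cor rs rs_mul rs_one pr pr_apply AltF altF st' Scal scal_irr)

noncomputable section

variable {g : ℕ} {Z : Matrix (Fin g) (Fin g) ℂ}

/-- The projector to the eigenspace. -/
def Pm (b : Matrix (Fin g ⊕ Fin g) (Fin g ⊕ Fin g) ℚ) (z : ℂ) :
    Matrix (Fin g ⊕ Fin g) (Fin g ⊕ Fin g) ℂ := (1 / 2 : ℂ) • (1 + z⁻¹ • qm b)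

section alg

variable {b j : Matrix (Fin g ⊕ Fin g) (Fin g ⊕ Fin g) ℚ} {d e : ℚ} (t : T3D Z b j d e) {z : ℂ}
  (hz : z * z = (d : ℂ))

include t

theorem T3D.qbb : qm b * qm b = (d : ℂ) • (1 : Matrix (Fin g ⊕ Fin g) (Fin g ⊕ Fin g) ℂ) := by
  rw [← qm_mul, t.bb, qm_smul', qm_one']

theorem T3D.qjj : qm j * qm j = (e : ℂ) • (1 : Matrix (Fin g ⊕ Fin g) (Fin g ⊕ Fin g) ℂ) := by
  rw [← qm_mul, t.jj, qm_smul', qm_one']

theorem T3D.qjb : qm j * qm b = -(qm b * qm j) := by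
  rw [← qm_mul, ← qm_mul, t.bj, qm_neg, neg_neg]

include hz

theorem T3D.z0 : z ≠ 0 := by
  intro h0
  rw [h0, mul_zero] at hz
  exact t.d0 (by exact_mod_cast hz.symm)

theorem T3D.Pm_b : qm b * Pm b z = z • Pm b z := by
  have hz0 := t.z0 hz
  unfold Pm
  rw [Matrix.mul_smul, Matrix.mul_add, Matrix.mul_one, Matrix.mul_smul, t.qbb, ← hz,
    smul_comm z (1 / 2 : ℂ)]
  congr 1
  rw [smul_add, smul_smul, smul_smul, mul_inv_cancel₀ hz0, one_smul, ← mul_assoc,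
    inv_mul_cancel₀ hz0, one_mul, add_comm]

theorem T3D.Pm_b' : Pm b z * qm b = z • Pm b z := by
  rw [← t.Pm_b hz]
  unfold Pm
  rw [Matrix.mul_smul, Matrix.smul_mul, Matrix.mul_add, Matrix.add_mul, Matrix.mul_one,
    Matrix.one_mul, Matrix.mul_smul, Matrix.smul_mul]

theorem T3D.Pm_sq : Pm b z * Pm b z = Pm b z := by
  have h1 := t.Pm_b hz
  conv_lhs => arg 1; unfold Pm
  rw [Matrix.smul_mul, Matrix.add_mul, Matrix.one_mul, Matrix.smul_mul, h1, smul_smul,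
    inv_mul_cancel₀ (t.z0 hz), one_smul, ← two_smul ℂ (Pm b z), smul_smul]
  norm_num

theorem T3D.mem {v : Fin g ⊕ Fin g → ℂ} : v ∈ EigM b z ↔ Pm b z *ᵥ v = v := by
  rw [Y261.P.mem_EigM]
  constructor
  · intro hv
    unfold Pm
    rw [smul_mulVec, add_mulVec, one_mulVec, smul_mulVec, hv, smul_smul,
      inv_mul_cancel₀ (t.z0 hz), one_smul]
    module
  · intro hv
    rw [← hv, mulVec_mulVec, t.Pm_b hz, smul_mulVec]

omit hz in
theorem T3D.Pm_j (z : ℂ) : qm j * Pm b z = (1 - Pm b z) * qm j := by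
  unfold Pm
  rw [Matrix.mul_smul, Matrix.mul_add, Matrix.mul_one, Matrix.mul_smul, t.qjb, Matrix.sub_mul,
    Matrix.one_mul, Matrix.smul_mul, Matrix.add_mul, Matrix.one_mul, Matrix.smul_mul, smul_neg]
  module

omit hz in
theorem T3D.Pm_comm (z : ℂ) {X : Matrix (Fin g ⊕ Fin g) (Fin g ⊕ Fin g) ℂ}
    (hX : qm b * X = X * qm b) : Pm b z * X = X * Pm b z := by
  unfold Pm
  rw [Matrix.smul_mul, Matrix.add_mul, Matrix.one_mul, Matrix.smul_mul, hX, Matrix.mul_smul,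
    Matrix.mul_add, Matrix.mul_one, Matrix.mul_smul]

/-- The eigenvalue and the degree. -/
theorem T3D.root : (minpoly ℚ b).natDegree = 2 ∧ z ∈ (minpoly ℚ b).aroots ℂ := by
  have hint : IsIntegral ℚ b := Matrix.isIntegral b
  have hm : (minpoly ℚ b).Monic := minpoly.monic hint
  have h2 : (Polynomial.X ^ 2 - Polynomial.C d : Polynomial ℚ).natDegree = 2 :=
    Polynomial.natDegree_X_pow_sub_C
  have hmon : (Polynomial.X ^ 2 - Polynomial.C d : Polynomial ℚ).Monic :=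
    Polynomial.monic_X_pow_sub_C d two_ne_zero
  have hdvd : minpoly ℚ b ∣ Polynomial.X ^ 2 - Polynomial.C d := by
    apply minpoly.dvd
    rw [map_sub, map_pow, Polynomial.aeval_X, Polynomial.aeval_C, sq, t.bb,
      Algebra.algebraMap_eq_smul_one, sub_self]
  have hle : (minpoly ℚ b).natDegree ≤ 2 := by
    rw [← h2]
    exact Polynomial.natDegree_le_of_dvd hdvd hmon.ne_zero
  have h0 : (minpoly ℚ b).natDegree ≠ 0 := by
    intro h0
    rw [hm.natDegree_eq_zero] at h0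
    have h3 := minpoly.aeval ℚ b
    rw [h0, map_one] at h3
    apply t.ns 0
    rw [zero_smul]
    calc b = b * 1 := (Matrix.mul_one b).symm
      _ = 0 := by rw [h3, Matrix.mul_zero]
  have h1 : (minpoly ℚ b).natDegree ≠ 1 := by
    intro h1
    obtain ⟨c, hc⟩ := Pool.Agent.Y4.Q.scal_of_deg (Algebra.self_mem_adjoin_singleton ℚ b) h1
    exact t.ns c hc
  have hd : (minpoly ℚ b).natDegree = 2 := by omega
  have heq : minpoly ℚ b = Polynomial.X ^ 2 - Polynomial.C d :=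
    (Polynomial.eq_of_monic_of_dvd_of_natDegree_le hm hmon hdvd (by rw [h2, hd])).symm
  refine ⟨hd, ?_⟩
  rw [Polynomial.mem_aroots]
  refine ⟨minpoly.ne_zero hint, ?_⟩
  rw [heq, map_sub, map_pow, Polynomial.aeval_X, Polynomial.aeval_C, sq, hz]
  exact sub_self _

theorem T3D.irr (h : PM Z) (hs : IsSimpleAV Z) (hg : 0 < g) :
    IrS (LZ Z) (EigM b z) ∧ finrank ℂ (EigM b z) = g := by
  obtain ⟨h1, h2⟩ := t.root hz
  obtain ⟨h3, -, -⟩ := Y261.P.jspec g Z h hs hg b t.mx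
  obtain ⟨h4, h5⟩ := h3 z h2
  rw [h1] at h5
  exact ⟨h4, by omega⟩

end alg

section ops

variable {b j : Matrix (Fin g ⊕ Fin g) (Fin g ⊕ Fin g) ℚ} {d e : ℚ} {z : ℂ}

/-- The projector. -/
abbrev oP (b : Matrix (Fin g ⊕ Fin g) (Fin g ⊕ Fin g) ℚ) (z : ℂ) :
    End ℂ (Fin g ⊕ Fin g → ℂ) := ph (Fin g ⊕ Fin g) (Pm b z)

/-- The second generator. -/
abbrev oJ (j : Matrix (Fin g ⊕ Fin g) (Fin g ⊕ Fin g) ℚ) : End ℂ (Fin g ⊕ Fin g → ℂ) :=
  ph (Fin g ⊕ Fin g) (qm j)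

/-- The inverse of the second generator. -/
abbrev oI (j : Matrix (Fin g ⊕ Fin g) (Fin g ⊕ Fin g) ℚ) (e : ℚ) :
    End ℂ (Fin g ⊕ Fin g → ℂ) := (e : ℂ)⁻¹ • ph (Fin g ⊕ Fin g) (qm j)

variable (t : T3D Z b j d e)

include t

theorem T3D.JI : oJ j * oI j e = 1 := by
  have h1 : (e : ℂ) ≠ 0 := by exact_mod_cast t.e0
  change ph _ (qm j) * ((e : ℂ)⁻¹ • ph _ (qm j)) = 1
  rw [mul_smul_comm, ← map_mul, t.qjj, map_smul, smul_smul, inv_mul_cancel₀ h1, one_smul, map_one]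

theorem T3D.IJ : oI j e * oJ j = 1 := by
  have h1 : (e : ℂ) ≠ 0 := by exact_mod_cast t.e0
  change ((e : ℂ)⁻¹ • ph _ (qm j)) * ph _ (qm j) = 1
  rw [smul_mul_assoc, ← map_mul, t.qjj, map_smul, smul_smul, inv_mul_cancel₀ h1, one_smul, map_one]

theorem T3D.JP (z : ℂ) : oJ j * oP b z = (1 - oP b z) * oJ j := by
  change ph _ (qm j) * ph _ (Pm b z) = (1 - ph _ (Pm b z)) * ph _ (qm j)
  rw [← map_mul, t.Pm_j, map_mul, map_sub, map_one]

theorem T3D.PJ (z : ℂ) : oP b z * oJ j = oJ j * (1 - oP b z) := by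
  rw [mul_sub, t.JP z, mul_one, sub_mul, one_mul, sub_sub_cancel]

theorem T3D.PI (z : ℂ) : oP b z * oI j e = oI j e * (1 - oP b z) := by
  change oP b z * ((e : ℂ)⁻¹ • oJ j) = ((e : ℂ)⁻¹ • oJ j) * (1 - oP b z)
  rw [mul_smul_comm, t.PJ z, smul_mul_assoc]

theorem T3D.stJ' : stE (Om g ℂ) (oJ j) = -oJ j := by
  rw [stE_ph, ← qm_ros, t.rj, qm_neg, map_neg]

theorem T3D.stI' : stE (Om g ℂ) (oI j e) = -oI j e := by
  change stE (Om g ℂ) ((e : ℂ)⁻¹ • oJ j) = -((e : ℂ)⁻¹ • oJ j)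
  rw [map_smul, t.stJ', smul_neg]

theorem T3D.stP (z : ℂ) : stE (Om g ℂ) (oP b z) = 1 - oP b z := by
  have h1 : stE (Om g ℂ) 1 = 1 := by
    have h2 : (1 : End ℂ (Fin g ⊕ Fin g → ℂ)) = ph (Fin g ⊕ Fin g) 1 := (map_one _).symm
    rw [h2, stE_ph, Matrix.transpose_one, Matrix.mul_one, Om_sq ℂ, neg_neg]
  have h3 : oP b z = (1 / 2 : ℂ) • (1 + z⁻¹ • ph (Fin g ⊕ Fin g) (qm b)) := by
    change ph _ (Pm b z) = _
    unfold Pm
    rw [map_smul, map_add, map_one, map_smul]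
  rw [h3, map_smul, map_add, h1, map_smul, stE_ph, ← qm_ros, t.rb, qm_neg, map_neg, smul_neg]
  module

variable (hz : z * z = (d : ℂ))
include hz

theorem T3D.PP : oP b z * oP b z = oP b z := by
  change ph _ (Pm b z) * ph _ (Pm b z) = ph _ (Pm b z)
  rw [← map_mul, t.Pm_sq hz]

/-- The double. -/
theorem T3D.dbl : Dbl (Pool.Agent.Y90.om g) (oP b z) (oJ j * oP b z)
    (oI j e * (1 - oP b z)) := by
  have hω : AltF (stE (Om g ℂ)) (Pool.Agent.Y90.om g) := altF (Om_transpose ℂ) (Om_sq ℂ)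
  have hPP := t.PP hz
  have hPQ : oP b z * (1 - oP b z) = 0 := by rw [mul_sub, mul_one, hPP, sub_self]
  have hQP : (1 - oP b z) * oP b z = 0 := by rw [sub_mul, one_mul, hPP, sub_self]
  have hQQ : (1 - oP b z) * (1 - oP b z) = 1 - oP b z := by
    rw [mul_sub, mul_one, hQP, sub_zero]
  have h1 : stE (Om g ℂ) 1 = 1 := by
    have h2 : (1 : End ℂ (Fin g ⊕ Fin g → ℂ)) = ph (Fin g ⊕ Fin g) 1 := (map_one _).symm
    rw [h2, stE_ph, Matrix.transpose_one, Matrix.mul_one, Om_sq ℂ, neg_neg]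
  refine ⟨hPP, ?_, ?_, ?_, ?_, ?_, ?_, om_anti, om_nd, fun x y => ?_, fun x y => ?_,
    fun x y => ?_⟩
  · rw [← mul_assoc, t.PJ z, mul_assoc, hQP, mul_zero]
  · rw [mul_assoc, hPP]
  · rw [← mul_assoc, t.PI z, mul_assoc, hQQ]
  · rw [mul_assoc, hQP, mul_zero]
  · rw [mul_assoc, ← mul_assoc (1 - oP b z), ← t.JP z, mul_assoc (oJ j), hPP, ← mul_assoc, t.IJ,
      one_mul]
  · rw [mul_assoc, ← mul_assoc (oP b z), t.PI z, mul_assoc (oI j e), hQQ, ← mul_assoc, t.JI,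
      one_mul]
  · rw [hω.adj, t.stP z, ← Module.End.mul_apply, hQP, LinearMap.zero_apply, map_zero]
  · have e1 : x - oP b z x = (1 - oP b z) x := rfl
    have e2 : y - oP b z y = (1 - oP b z) y := rfl
    rw [e1, e2, hω.adj, map_sub, h1, t.stP z, sub_sub_cancel, ← Module.End.mul_apply, hPQ,
      LinearMap.zero_apply, map_zero]
  · rw [Module.End.mul_apply, Module.End.mul_apply, hω.adj, t.stJ', LinearMap.neg_apply, map_neg,
      hω.anti, neg_neg]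

/-- The projection to the eigenspace. -/
def T3D.pW (t : T3D Z b j d e) (hz : z * z = (d : ℂ)) :
    (Fin g ⊕ Fin g → ℂ) →ₗ[ℂ] EigM b z :=
  LinearMap.codRestrict (EigM b z) (oP b z) fun v => by
    rw [t.mem hz]
    change Pm b z *ᵥ (Pm b z *ᵥ v) = Pm b z *ᵥ v
    rw [mulVec_mulVec, t.Pm_sq hz]

omit hz in
theorem T3D.pW_apply (t : T3D Z b j d e) (hz : z * z = (d : ℂ)) (v : Fin g ⊕ Fin g → ℂ) :
    ((t.pW hz v : EigM b z) : Fin g ⊕ Fin g → ℂ) = oP b z v := rfl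

theorem T3D.P_self {v : Fin g ⊕ Fin g → ℂ} (hv : v ∈ EigM b z) : oP b z v = v :=
  (t.mem hz).1 hv

theorem T3D.pr_eq : pr (EigM b z) (t.pW hz) = oP b z := rfl

theorem T3D.cor : Cor (GG (LZ Z)) (stJ (stE (Om g ℂ)) (oJ j) (oI j e)) (EigM b z)
    (t.pW hz) := by
  refine ⟨fun x => ?_, fun y hy => ?_, ?_⟩
  · apply Subtype.ext
    rw [t.pW_apply]
    exact t.P_self hz x.2
  · obtain ⟨X, hX, rfl⟩ := exists_GG hy
    rw [t.pr_eq]
    change ph _ (Pm b z) * ph _ X = ph _ X * ph _ (Pm b z)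
    rw [← map_mul, ← map_mul, t.Pm_comm z (Y261.P.qm_comm t.mx.1 X hX)]
  · rw [t.pr_eq, stJ_apply, t.stP z, mul_assoc, ← t.JP z, ← mul_assoc, t.IJ, one_mul]

end ops

end

end Pool.Agent.H926
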