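import Mathlib
import Pool.Agent.H926.T3b

/-!
# Simple abelian varieties with a definite quaternion algebra: the representation
-/

set_option linter.unusedSectionVars false

namespace Pool.Agent.H926

open Matrix Module Pool.Agent.Y90 Pool.Agent.W437.HC Pool.Agent.W437.HD
  Pool.Agent.TH504.CB
open Pool.Agent.W548.Odd hiding cv
open Pool.Agent.Y4.P (MaxM EigM)
open Pool.Agent.Y91.JP (Cor rs rs_mul rs_one rs_apply pr pr_apply pr_of_mem AltF altF st' Scal
  scal_irr)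
open Pool.Agent.Y91.P (irrS_of_irS)
open Pool.Agent.W437.HP (cK cK_mul cK_one)

noncomputable section

variable {g : ℕ} {Z : Matrix (Fin g) (Fin g) ℂ}
  {b j : Matrix (Fin g ⊕ Fin g) (Fin g ⊕ Fin g) ℚ} {d e : ℚ} {z : ℂ} (t : T3D Z b j d e)
  (hz : z * z = (d : ℂ))

/-- The restriction to the eigenspace. -/
def T3D.R (t : T3D Z b j d e) (hz : z * z = (d : ℂ)) :
    Matrix (Fin g ⊕ Fin g) (Fin g ⊕ Fin g) ℂ →ₗ[ℂ] End ℂ (EigM b z) :=
  (rs (EigM b z) (t.pW hz)) ∘ₗ (ph (Fin g ⊕ Fin g)).toLinearMap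

theorem T3D.R_apply (X : Matrix (Fin g ⊕ Fin g) (Fin g ⊕ Fin g) ℂ) :
    t.R hz X = rs (EigM b z) (t.pW hz) (ph (Fin g ⊕ Fin g) X) := rfl

/-- The algebra of the matrices which commute with the two endomorphisms. -/
def cA (b j : Matrix (Fin g ⊕ Fin g) (Fin g ⊕ Fin g) ℚ) :
    Subalgebra ℂ (Matrix (Fin g ⊕ Fin g) (Fin g ⊕ Fin g) ℂ) :=
  Subalgebra.centralizer ℂ {qm b, qm j}

theorem mem_cA {X : Matrix (Fin g ⊕ Fin g) (Fin g ⊕ Fin g) ℂ} :
    X ∈ cA b j ↔ qm b * X = X * qm b ∧ qm j * X = X * qm j := by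
  unfold cA
  rw [Subalgebra.mem_centralizer_iff]
  constructor
  · intro h
    exact ⟨h _ (Set.mem_insert _ _), h _ (Set.mem_insert_of_mem _ rfl)⟩
  · rintro ⟨h1, h2⟩ y hy
    rw [Set.mem_insert_iff, Set.mem_singleton_iff] at hy
    rcases hy with rfl | rfl
    · exact h1
    · exact h2

theorem T3D.coe_R {X : Matrix (Fin g ⊕ Fin g) (Fin g ⊕ Fin g) ℂ} (hX : X ∈ cA b j)
    (v : EigM b z) : ((t.R hz X v : EigM b z) : Fin g ⊕ Fin g → ℂ) = ph _ X v := by
  rw [t.R_apply, rs_apply, t.pW_apply]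
  have h1 : oP b z * ph _ X = ph _ X * oP b z := by
    change ph _ (Pm b z) * ph _ X = ph _ X * ph _ (Pm b z)
    rw [← map_mul, ← map_mul, t.Pm_comm z (mem_cA.1 hX).1]
  have h2 := LinearMap.congr_fun h1 (v : Fin g ⊕ Fin g → ℂ)
  rw [Module.End.mul_apply, Module.End.mul_apply, t.P_self hz v.2] at h2
  exact h2

/-- The representation is faithful. -/
theorem T3D.rep : Rep Z (cA b j) (t.R hz) where
  le X hX := mem_cA.2 ⟨Y261.P.qm_comm t.mx.1 X hX, Y261.P.qm_comm t.cj X hX⟩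
  mul X Y hY := by
    rw [t.R_apply, t.R_apply, t.R_apply, map_mul]
    refine rs_mul (t.cor hz).hp ?_
    rw [t.pr_eq hz]
    change ph _ (Pm b z) * ph _ Y = ph _ Y * ph _ (Pm b z)
    rw [← map_mul, ← map_mul, t.Pm_comm z (mem_cA.1 hY).1]
  inj X hX h0 := by
    apply (ph (Fin g ⊕ Fin g)).injective
    rw [map_zero]
    have h1 : ∀ v ∈ EigM b z, ph _ X v = 0 := by
      intro v hv
      have h2 := t.coe_R hz hX ⟨v, hv⟩
      rw [h0] at h2
      exact h2.symm
    have h2 : ∀ v, oP b z v ∈ EigM b z := fun v => (t.pW hz v).2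
    refine LinearMap.ext fun v => ?_
    have h3 : v = oP b z v + oJ j (oP b z (oI j e v)) := by
      have h4 : oJ j * (oP b z * oI j e) = 1 - oP b z := by
        rw [t.PI z, ← mul_assoc, t.JI, one_mul]
      have h5 := LinearMap.congr_fun h4 v
      rw [Module.End.mul_apply, Module.End.mul_apply, LinearMap.sub_apply,
        Module.End.one_apply] at h5
      rw [h5]
      abel
    have h6 : ph _ X * oJ j = oJ j * ph _ X := by
      change ph _ X * ph _ (qm j) = ph _ (qm j) * ph _ X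
      rw [← map_mul, ← map_mul, (mem_cA.1 hX).2]
    have h7 := LinearMap.congr_fun h6 (oP b z (oI j e v))
    rw [Module.End.mul_apply, Module.End.mul_apply, h1 _ (h2 _), map_zero] at h7
    rw [h3, map_add, h1 _ (h2 _), h7, add_zero, LinearMap.zero_apply]
  one := by
    rw [t.R_apply, map_one]
    exact rs_one (t.cor hz).hp

theorem T3D.map_eq : (LZ Z).map (t.R hz) = (GG (LZ Z)).map (rs (EigM b z) (t.pW hz)) := by
  unfold T3D.R GG
  rw [Submodule.map_comp]

/-- The anti-involution of the eigenspace. -/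
def T3D.sW (t : T3D Z b j d e) (hz : z * z = (d : ℂ)) :
    End ℂ (EigM b z) →ₗ[ℂ] End ℂ (EigM b z) :=
  st' (stJ (stE (Om g ℂ)) (oJ j) (oI j e)) (EigM b z) (t.pW hz)

/-- The symmetric form of the eigenspace. -/
def T3D.S (_t : T3D Z b j d e) (_hz : z * z = (d : ℂ)) : EigM b z →ₗ[ℂ] EigM b z →ₗ[ℂ] ℂ :=
  ((Pool.Agent.Y90.om g).comp (oJ j)).domRestrict₁₂ (EigM b z) (EigM b z)

theorem T3D.S_apply (u v : EigM b z) :
    t.S hz u v = Pool.Agent.Y90.om g (oJ j (u : Fin g ⊕ Fin g → ℂ)) v := rfl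

include t in
theorem T3D.setV (h : PM Z) :
    Setup (GG (LZ Z)) (stJ (stE (Om g ℂ)) (oJ j) (oI j e)) := by
  refine setupJ h.setup t.JI t.IJ fun y hy => ?_
  obtain ⟨X, hX, rfl⟩ := exists_GG hy
  change ph _ (qm j) * ph _ X = ph _ X * ph _ (qm j)
  rw [← map_mul, ← map_mul, Y261.P.qm_comm t.cj X hX]

include t in
theorem T3D.syfV (h : PM Z) :
    SyF (stJ (stE (Om g ℂ)) (oJ j) (oI j e)) ((Pool.Agent.Y90.om g).comp (oJ j)) :=
  syfJ (altF (Om_transpose ℂ) (Om_sq ℂ)) h.setup.st_mul t.JI t.IJ t.stJ' t.stI'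

section irr

variable (h : PM Z) (hs : IsSimpleAV Z) (hg : 0 < g)
include h hs hg

theorem T3D.scal : Scal ((LZ Z).map (t.R hz)) := by
  rw [t.map_eq hz]
  exact scal_irr (t.cor hz) (irrS_of_irS (t.irr hz h hs hg).1)

theorem T3D.set : Setup ((LZ Z).map (t.R hz)) (t.sW hz) := by
  have h1 := t.scal hz h hs hg
  rw [t.map_eq hz] at h1 ⊢
  exact (t.cor hz).setup (t.setV h) h1

theorem T3D.syf : SyF (t.sW hz) (t.S hz) := corSyF (t.cor hz) (t.setV h) (t.syfV h)

end irr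

/-- The elements of the Lie algebra from those of its restriction. -/
theorem T3D.wed_mem (hwd : ∀ x y : EigM b z, wd (t.S hz) x y ∈ (LZ Z).map (t.R hz))
    (u v : Fin g ⊕ Fin g → ℂ) : ∃ X ∈ LZ Z, ph (Fin g ⊕ Fin g) X =
      wed (Pool.Agent.Y90.om g) (oP b z) (oJ j * oP b z) (oI j e * (1 - oP b z)) u v := by
  obtain ⟨X, hX, hXR⟩ := hwd (t.pW hz u) (t.pW hz v)
  refine ⟨X, hX, LinearMap.ext fun x => ?_⟩
  have hXA := (t.rep hz).le X hX
  have key : ∀ w ∈ EigM b z, ph _ X w =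
      Pool.Agent.Y90.om g (oJ j (oP b z u)) w • oP b z v -
        Pool.Agent.Y90.om g (oJ j (oP b z v)) w • oP b z u := by
    intro w hw
    have h1 := t.coe_R hz hXA ⟨w, hw⟩
    rw [hXR] at h1
    rw [← h1, wd_apply]
    rfl
  have hPm : ∀ v, oP b z v ∈ EigM b z := fun v => (t.pW hz v).2
  have hTm : ∀ v, (oI j e * (1 - oP b z)) v ∈ EigM b z := by
    intro v
    rw [← t.PI z, Module.End.mul_apply]
    exact hPm _
  have h3 : x = oP b z x + oJ j ((oI j e * (1 - oP b z)) x) := by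
    have h4 : oJ j * (oI j e * (1 - oP b z)) = 1 - oP b z := by
      rw [← mul_assoc, t.JI, one_mul]
    have h5 := LinearMap.congr_fun h4 x
    rw [Module.End.mul_apply, LinearMap.sub_apply, Module.End.one_apply] at h5
    rw [h5]
    abel
  have h6 : ph _ X * oJ j = oJ j * ph _ X := by
    change ph _ X * ph _ (qm j) = ph _ (qm j) * ph _ X
    rw [← map_mul, ← map_mul, (mem_cA.1 hXA).2]
  obtain ⟨y, hy⟩ : ∃ y, y = (oI j e * (1 - oP b z)) x := ⟨_, rfl⟩
  have hyW : y ∈ EigM b z := hy ▸ hTm x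
  rw [← hy] at h3
  have h7 := LinearMap.congr_fun h6 y
  rw [Module.End.mul_apply, Module.End.mul_apply, key _ hyW, map_sub, map_smul, map_smul] at h7
  conv_lhs => rw [h3]
  rw [map_add, key _ (hPm x), h7, wed_apply, ← hy]
  rfl

end

end Pool.Agent.H926
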