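import Mathlib
import Pool.Agent.H926.T3c
import Pool.Agent.H926.Kun

/-!
# Simple abelian varieties with a definite quaternion algebra: the determinants
-/

set_option linter.unusedSectionVars false

namespace Pool.Agent.H926

open Matrix Module Pool.Agent.Y90 Pool.Agent.W437.HC Pool.Agent.W437.HD
  Pool.Agent.TH504.CB
open Pool.Agent.W548.Odd hiding cv
open Pool.Agent.H204R3.SP (Kills bil2)
open Pool.Agent.Y4.P (MaxM EigM NZ clo_NZ WeilRing cx cx_mul cx_one exists_PQ pair_mem)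
open Pool.Agent.W437.HP (cK cK_mul cK_one)

noncomputable section

variable {g : ℕ} {Z : Matrix (Fin g) (Fin g) ℂ}

/-- Determinants belong to the ring: one idempotent. -/
theorem det_one (h : PM Z) {K : IntermediateField ℚ ℂ} [NumberField K] [NumberField.IsCMField K]
    {n : ℕ} (P : Matrix (Fin g ⊕ Fin g) (Fin n) K) (Q : Matrix (Fin n) (Fin g ⊕ Fin g) K)
    (hQP : Q * P = 1) (hc : ∀ X ∈ LZ Z, X * cx (P * Q) = cx (P * Q) * X)
    (htr : ∀ X ∈ LZ Z, Matrix.trace (X * cx (P * Q)) = 0)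
    (R : Fin n → Matrix (Fin n) (Fin g ⊕ Fin g) ℂ)
    (hR : ∀ k, ∀ X ∈ LZ Z, R k * X = (cx Q * X * cx P) * R k)
    (ψ : MultilinearMap ℂ (fun _ : Fin n => Fin g ⊕ Fin g → ℂ) ℂ)
    (hψ : ∀ v, ψ v = Matrix.det (Matrix.of fun y l : Fin n => (R y *ᵥ v y) l)) :
    ψ ∈ NZ Z (Fin n) := by
  let e : Fin n ≃ (Σ _ : Unit, Fin n) := (Equiv.uniqueSigma fun _ : Unit => Fin n).symm
  have he : ∀ k, e k = ⟨(), k⟩ := fun k => rfl
  have he' : ∀ k, e.symm ⟨(), k⟩ = k := fun k => rfl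
  have h1 := Pool.Agent.Y4.P.jweil' g Z h K Unit (fun _ => n) (fun _ => P) (fun _ => Q)
    (fun _ => hQP) (fun _ => hc) (fun X hX => by
      rw [Fintype.sum_unique]
      exact htr X hX) (fun k => R k.2) (fun k X hX => hR k.2 X hX) (ψ.domDomCongr e) (fun v => by
      rw [MultilinearMap.domDomCongr_apply, hψ, Fintype.prod_unique]
      rfl)
  refine (clo_NZ Z).reindex e.symm h1 ψ fun v => ?_
  rw [MultilinearMap.domDomCongr_apply]
  congr 1

variable {b j : Matrix (Fin g ⊕ Fin g) (Fin g ⊕ Fin g) ℚ} {d e : ℚ} {z : ℂ} (t : T3D Z b j d e)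
  (hz : z * z = (d : ℂ))

include t in
theorem T3D.trace_zero (h : PM Z) (z : ℂ) {X : Matrix (Fin g ⊕ Fin g) (Fin g ⊕ Fin g) ℂ}
    (hX : X ∈ LZ Z) : Matrix.trace (X * Pm b z) = 0 := by
  have h1 : Matrix.trace X = 0 := by
    have h2 := h.sp hX
    have hOO : Om g ℂ * Om g ℂ = -1 := Om_sq ℂ
    have h3 : X = Om g ℂ * Xᵀ * Om g ℂ := by
      have h4 : Xᵀ * Om g ℂ = -(Om g ℂ * X) := eq_neg_of_add_eq_zero_left h2
      rw [Matrix.mul_assoc, h4, Matrix.mul_neg, ← Matrix.mul_assoc, hOO, Matrix.neg_mul,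
        Matrix.one_mul, neg_neg]
    have h5 : Matrix.trace X = -Matrix.trace X := by
      conv_lhs => rw [h3]
      rw [Matrix.trace_mul_comm, ← Matrix.mul_assoc, hOO, Matrix.neg_mul, Matrix.one_mul,
        Matrix.trace_neg, Matrix.trace_transpose]
    have h6 : (2 : ℂ) * Matrix.trace X = 0 := by linear_combination h5
    exact (mul_eq_zero.1 h6).resolve_left two_ne_zero
  have h2 : Matrix.trace (X * qm b) = 0 := by
    have he : (e : ℂ) ≠ 0 := by exact_mod_cast t.e0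
    have hXj := Y261.P.qm_comm t.cj X hX
    have h3 : (e : ℂ) * Matrix.trace (X * qm b) = -((e : ℂ) * Matrix.trace (X * qm b)) := by
      calc (e : ℂ) * Matrix.trace (X * qm b) = Matrix.trace (X * qm b * ((e : ℂ) • 1)) := by
            rw [Matrix.mul_smul, Matrix.mul_one, Matrix.trace_smul, smul_eq_mul]
        _ = Matrix.trace (X * qm b * (qm j * qm j)) := by rw [t.qjj]
        _ = Matrix.trace ((qm j * X) * (qm b * qm j)) := by
            rw [← Matrix.mul_assoc, Matrix.trace_mul_comm (X * qm b * qm j) (qm j)]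
            congr 1
            simp only [Matrix.mul_assoc]
        _ = Matrix.trace (X * (qm j * (qm b * qm j))) := by
            rw [hXj, Matrix.mul_assoc]
        _ = Matrix.trace (X * (-(qm b * (qm j * qm j)))) := by
            rw [← Matrix.mul_assoc (qm j), t.qjb, Matrix.neg_mul, Matrix.mul_assoc (qm b)]
        _ = -((e : ℂ) * Matrix.trace (X * qm b)) := by
            rw [t.qjj, Matrix.mul_smul, Matrix.mul_one, Matrix.mul_neg, Matrix.mul_smul,
              Matrix.trace_neg, Matrix.trace_smul, smul_eq_mul]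
    have h4 : (2 * (e : ℂ)) * Matrix.trace (X * qm b) = 0 := by linear_combination h3
    exact (mul_eq_zero.1 h4).resolve_left (mul_ne_zero two_ne_zero he)
  unfold Pm
  rw [Matrix.mul_smul, Matrix.mul_add, Matrix.mul_one, Matrix.mul_smul, Matrix.trace_smul,
    Matrix.trace_add, Matrix.trace_smul, h1, h2, smul_zero, add_zero, smul_zero]

include t hz in
/-- The determinants belong to the ring. -/
theorem T3D.det_mem (h : PM Z) (n : ℕ) (hn : n = finrank ℂ (LinearMap.range (oP b z)))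
    (w : Fin n → Fin g ⊕ Fin g → ℂ) (c : Fin n → Bool)
    (B : MultilinearMap ℂ (fun _ : Fin n => Fin g ⊕ Fin g → ℂ) ℂ)
    (hB : ∀ v, B v = Matrix.det (Matrix.of fun k l : Fin n =>
      Pool.Agent.Y90.om g ((oJ j * oP b z) (w l))
        (if c k then (oI j e * (1 - oP b z)) (v k) else oP b z (v k)))) :
    B ∈ NZ Z (Fin n) := by
  -- the field
  have hsq : ∀ w : ℂ, w * w = (d : ℂ) → w = z ∨ w = -z := by
    intro w hw
    rw [← hz] at hw
    exact mul_self_eq_mul_self_iff.1 hw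
  obtain ⟨K, hK1, hK2, hK3⟩ := Y317.P.Fld.x {w : ℂ | w * w = (d : ℂ)}
    (Set.Finite.subset (Set.toFinite {z, -z}) fun w hw => by
      rcases hsq w hw with rfl | rfl
      · exact Set.mem_insert _ _
      · exact Set.mem_insert_of_mem _ rfl)
    (fun σ w hw => by
      have hw' : w * w = (d : ℂ) := hw
      change σ w * σ w = (d : ℂ)
      rw [← map_mul, hw', map_ratCast])
    (fun σ w hw => by
      have hw' : w * w = (d : ℂ) := hw
      have h1 : cc w = w ∨ cc w = -w := by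
        apply mul_self_eq_mul_self_iff.1
        rw [← map_mul, hw', map_ratCast]
      have h2 : σ w = w ∨ σ w = -w := by
        apply mul_self_eq_mul_self_iff.1
        rw [← map_mul, hw', map_ratCast]
      rcases h1 with h1 | h1 <;> rcases h2 with h2 | h2 <;> simp only [h1, h2, map_neg, neg_neg])
  have hzK : z ∈ K := hK3 hz
  obtain ⟨m, P, Q, hPQ, hQP⟩ := exists_PQ (K := K) Y317.P.Idem.x (Pm b z) (t.Pm_sq hz) (by
    intro i l
    have h1 : Pm b z i l = ((1 / 2 : ℚ) : ℂ) * ((((1 : Matrix (Fin g ⊕ Fin g) (Fin g ⊕ Fin g) ℚ)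
        i l : ℚ) : ℂ) + z⁻¹ * ((b i l : ℚ) : ℂ)) := by
      unfold Pm
      by_cases hil : i = l <;> simp [qm, hil, Matrix.one_apply]
    rw [h1]
    exact K.mul_mem (K.algebraMap_mem _) (K.add_mem (K.algebraMap_mem _)
      (K.mul_mem (K.inv_mem hzK) (K.algebraMap_mem _))))
  obtain ⟨cP, hcP⟩ : ∃ cP, cP = cx P := ⟨_, rfl⟩
  obtain ⟨cQ, hcQ⟩ : ∃ cQ, cQ = cx Q := ⟨_, rfl⟩
  have e1 : cP * cQ = Pm b z := by rw [hcP, hcQ, ← cx_mul, hPQ]
  have e2 : cQ * cP = 1 := by rw [hcP, hcQ, ← cx_mul, hQP, cx_one]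
  have e3 : cQ * Pm b z = cQ := by rw [← e1, ← Matrix.mul_assoc, e2, Matrix.one_mul]
  have hmn : m = n := by
    have h1 : Matrix.trace (Pm b z) = m := by
      rw [← e1, Matrix.trace_mul_comm, e2, Matrix.trace_one, Fintype.card_fin]
    have h2 := Pool.Agent.Y4.trace_idem (t.Pm_sq hz)
    rw [h1] at h2
    have h3 : m = finrank ℂ (LinearMap.range (mulVecLin (Pm b z))) := by exact_mod_cast h2
    rw [h3, hn]
    rfl
  subst hmn
  have hXP : ∀ X ∈ LZ Z, X * Pm b z = Pm b z * X := fun X hX =>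
    (t.Pm_comm z (Y261.P.qm_comm t.mx.1 X hX)).symm
  obtain ⟨R, hR⟩ : ∃ R : Fin m → Matrix (Fin m) (Fin g ⊕ Fin g) ℂ,
      ∀ k, R k = if c k then cQ * ((e : ℂ)⁻¹ • qm j) else cQ := ⟨_, fun _ => rfl⟩
  obtain ⟨ψ, hψ⟩ : ∃ ψ : MultilinearMap ℂ (fun _ : Fin m => Fin g ⊕ Fin g → ℂ) ℂ,
      ∀ v, ψ v = Matrix.det (Matrix.of fun y l : Fin m => (R y *ᵥ v y) l) :=
    ⟨(Matrix.detRowAlternating (R := ℂ) (n := Fin m)).toMultilinearMap.compLinearMap
      (fun k => mulVecLin (R k)), fun v => rfl⟩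
  have hψN : ψ ∈ NZ Z (Fin m) := by
    refine det_one h P Q hQP (fun X hX => by rw [hPQ, hXP X hX])
      (fun X hX => by rw [hPQ]; exact t.trace_zero h z hX) R (fun k X hX => ?_) ψ hψ
    have h1 : cQ * X = cQ * X * cP * cQ := by
      rw [Matrix.mul_assoc (cQ * X), e1, Matrix.mul_assoc, hXP X hX, ← Matrix.mul_assoc, e3]
    rw [← hcP, ← hcQ, hR]
    split_ifs
    · have h2 : qm j * X = X * qm j := Y261.P.qm_comm t.cj X hX
      rw [Matrix.mul_assoc, Matrix.smul_mul, h2, ← Matrix.mul_assoc (cQ * X * cP), ← h1,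
        Matrix.mul_assoc cQ X, Matrix.mul_smul X]
    · exact h1
  obtain ⟨A, hA⟩ : ∃ A : Matrix (Fin m) (Fin m) ℂ, ∀ l i, A l i =
      Pool.Agent.Y90.om g ((oJ j * oP b z) (w l)) (cP *ᵥ Pi.single i 1) := ⟨_, fun _ _ => rfl⟩
  have hrow : ∀ l (x : Fin m → ℂ),
      Pool.Agent.Y90.om g ((oJ j * oP b z) (w l)) (cP *ᵥ x) = ∑ i, x i * A l i := by
    intro l x
    have h1 : x = ∑ i, x i • (Pi.single i 1 : Fin m → ℂ) := by
      funext k
      rw [Finset.sum_apply]
      simp [Pi.single_apply]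
    conv_lhs => rw [h1]
    rw [← mulVecLin_apply, map_sum, map_sum]
    refine Finset.sum_congr rfl fun i _ => ?_
    rw [map_smul, map_smul, smul_eq_mul, hA]
    rfl
  have hBψ : B = A.det • ψ := by
    refine MultilinearMap.ext fun v => ?_
    rw [_root_.smul_apply, hB, hψ, smul_eq_mul, mul_comm, ← Matrix.det_transpose A,
      ← Matrix.det_mul]
    congr 1
    ext k l
    rw [Matrix.of_apply, Matrix.mul_apply]
    have h2 : (if c k then (oI j e * (1 - oP b z)) (v k) else oP b z (v k)) =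
        cP *ᵥ (R k *ᵥ v k) := by
      rw [hR]
      split_ifs
      · rw [← t.PI z, mulVec_mulVec, ← Matrix.mul_assoc, e1]
        change ((ph _ (Pm b z)) * ((e : ℂ)⁻¹ • ph _ (qm j))) (v k) = _
        rw [← map_smul, ← map_mul]
        rfl
      · rw [mulVec_mulVec, e1]
        rfl
    rw [h2, hrow]
    rfl
  rw [hBψ]
  exact Submodule.smul_mem _ _ hψN

/-- Invariant bilinear forms. -/
theorem bil_mem (h : PM Z) (f : (Fin g ⊕ Fin g → ℂ) →ₗ[ℂ] (Fin g ⊕ Fin g → ℂ) →ₗ[ℂ] ℂ)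
    (hf : ∀ X ∈ LZ Z, ∀ u v, f (X *ᵥ u) v + f u (X *ᵥ v) = 0) : bil2 f ∈ NZ Z (Fin 2) := by
  intro i1 i2
  obtain rfl : i1 = Fin.fintype 2 := Subsingleton.elim _ _
  obtain rfl : i2 = instDecidableEqFin 2 := Subsingleton.elim _ _
  refine Pool.Agent.Y4.P.altQ_mem h (fun X hX => act_of_kills fun v => ?_) fun r hr =>
    WeilRing.divisor (κ := Fin 2) (Nat.card_fin 2) r hr
  rw [Fin.sum_univ_two]
  exact hf X hX (v 0) (v 1)

/-- Half of the polarization. -/
theorem half_mem (h : PM Z) (f : (Fin g ⊕ Fin g → ℂ) →ₗ[ℂ] (Fin g ⊕ Fin g → ℂ) →ₗ[ℂ] ℂ)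
    (hf : ∀ x y, f x y - f y x = -Pool.Agent.Y90.om g x y) : bil2 f ∈ NZ Z (Fin 2) := by
  have h1 : bil2 (Pool.Agent.Y90.om g) ∈ NZ Z (Fin 2) := bil_mem h _ fun X hX u v =>
    h.om_sp hX u v
  intro i1 i2
  have h2 := h1 i1 i2
  obtain rfl : i1 = Fin.fintype 2 := Subsingleton.elim _ _
  obtain rfl : i2 = instDecidableEqFin 2 := Subsingleton.elim _ _
  have h3 : altQ (bil2 f) = (-(1 / 2) : ℂ) • altQ (bil2 (Pool.Agent.Y90.om g)) := by
    funext v
    have hex : ∀ F : MultilinearMap ℂ (fun _ : Fin 2 => Fin g ⊕ Fin g → ℂ) ℂ,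
        altQ F v = F (fun k => cv (v k)) -
          F (fun k => cv (v (Equiv.swap (0 : Fin 2) 1 k))) := by
      intro F
      unfold altQ
      have h4 : (Finset.univ : Finset (Equiv.Perm (Fin 2))) = {1, Equiv.swap 0 1} := by decide
      rw [h4, Finset.sum_pair (by decide), Equiv.Perm.sign_one,
        Equiv.Perm.sign_swap (by decide)]
      simp only [Equiv.Perm.coe_one, id_eq]
      push_cast
      ring
    rw [hex, Pi.smul_apply, hex, smul_eq_mul]
    have h5 : ∀ F : (Fin g ⊕ Fin g → ℂ) →ₗ[ℂ] (Fin g ⊕ Fin g → ℂ) →ₗ[ℂ] ℂ,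
        bil2 F (fun k => cv (v k)) - bil2 F (fun k => cv (v (Equiv.swap (0 : Fin 2) 1 k))) =
          F (cv (v 0)) (cv (v 1)) - F (cv (v 1)) (cv (v 0)) := by
      intro F
      have e1 : Equiv.swap (0 : Fin 2) 1 0 = 1 := by decide
      have e2 : Equiv.swap (0 : Fin 2) 1 1 = 0 := by decide
      change F (cv (v 0)) (cv (v 1)) - F (cv (v (Equiv.swap (0 : Fin 2) 1 0)))
        (cv (v (Equiv.swap (0 : Fin 2) 1 1))) = _
      rw [e1, e2]
    rw [h5, h5, hf, om_anti (cv (v 1))]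
    ring
  rw [h3]
  exact Submodule.smul_mem _ _ h2

end

end Pool.Agent.H926
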