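import Mathlib
import Pool.Agent.H926.T3d

/-!
# Simple abelian varieties with a definite quaternion algebra: conclusions
-/

set_option linter.unusedSectionVars false

namespace Pool.Agent.H926

open Matrix Module Pool.Agent.Y90 Pool.Agent.W437.HC Pool.Agent.W437.HD
  Pool.Agent.TH504.CB
open Pool.Agent.W548.Odd hiding cv
open Pool.Agent.H204R3.SP (Kills bil2)
open Pool.Agent.Y4.P (MaxM EigM NZ clo_NZ)
open Pool.Agent.Y4.Q (T3M)
open Pool.Agent.Y91.JP (Scal Kp)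
open Pool.Agent.W437.HP (cK cK_mul cK_one)

noncomputable section

section two

variable {W : Type*} [AddCommGroup W] [Module ℂ W] [FiniteDimensional ℂ W]
  {G : Submodule ℂ (End ℂ W)} {S : W →ₗ[ℂ] W →ₗ[ℂ] ℂ} {st : End ℂ W →ₗ[ℂ] End ℂ W}

/-- Two independent upper operators. -/
theorem wl6_two (h : Setup G st) (hs : Scal G) (hS : SyF st S) (hW : finrank ℂ W = 6)
    {D : End ℂ W} (hD : D ∈ G) (hD2 : D * D = 1) : ∃ N₁ ∈ Kp G D, ∃ N₂ ∈ Kp G D,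
      ∀ c₁ c₂ : ℂ, c₁ • N₁ + c₂ • N₂ = 0 → c₁ = 0 ∧ c₂ = 0 := by
  obtain ⟨e, f, hb⟩ := exists_hb (m := 3) hW hS.nd hD2 (hS.skw h hD)
  have ef := hb.ef
  have hk : ∀ i j, wd S (e i) (e j) ∈ Kp G D := by
    intro i j
    refine ⟨wl6 h hs hS hW hD hD2 _ _, LinearMap.ext fun x => ?_, LinearMap.ext fun x => ?_⟩
    · rw [Module.End.mul_apply, wd_apply, map_sub, map_smul, map_smul, hb.De, hb.De]
    · have h1 : ∀ i, S (e i) (D x) = -S (e i) x := by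
        intro i
        have h2 := hS.skw h hD (e i) x
        rw [hb.De] at h2
        rw [h2, neg_neg]
      rw [Module.End.mul_apply, wd_apply, LinearMap.neg_apply, wd_apply, h1, h1]
      module
  refine ⟨_, hk 0 1, _, hk 1 2, fun c₁ c₂ hc => ?_⟩
  have h1 := LinearMap.congr_fun hc (f 0)
  have h2 := LinearMap.congr_fun hc (f 2)
  rw [LinearMap.add_apply, LinearMap.smul_apply, LinearMap.smul_apply, wd_apply, wd_apply, ef, ef,
    ef, LinearMap.zero_apply] at h1 h2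
  simp at h1 h2
  have e1 : e 1 ≠ 0 := by
    intro h0
    have h3 := ef 1 1
    rw [h0, map_zero, LinearMap.zero_apply, if_pos rfl] at h3
    exact zero_ne_one h3
  exact ⟨h1.resolve_right e1, h2.resolve_right e1⟩

end two

variable {g : ℕ} {Z : Matrix (Fin g) (Fin g) ℂ}

/-- **All invariant alternating forms belong to the system.** -/
theorem t3_altFo (h : PM Z) (hs : IsSimpleAV Z) (hT : T3M Z) (hg : g = 4 ∨ g = 6) : AltFo Z := by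
  obtain ⟨b, j, d, e, t⟩ := exists_t3d h hs hT
  obtain ⟨z, hz⟩ : ∃ z : ℂ, z * z = (d : ℂ) := by
    obtain ⟨z, hz⟩ := IsAlgClosed.exists_eq_mul_self (d : ℂ)
    exact ⟨z, hz.symm⟩
  have hg0 : 0 < g := by omega
  have hfr := (t.irr hz h hs hg0).2
  have hsc := t.scal hz h hs hg0
  have hset := t.set hz h hs hg0
  have hsyf := t.syf hz h hs hg0
  have hDG : t.R hz (DZ Z) ∈ (LZ Z).map (t.R hz) := mem_mapR DZ_mem
  have hD2 := (t.rep hz).sqD h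
  have hwd : ∀ x y : EigM b z, wd (t.S hz) x y ∈ (LZ Z).map (t.R hz) := by
    intro x y
    rcases hg with h4 | h6
    · exact wl4 hset hsc hsyf (by rw [hfr, h4]) hDG hD2 x y
    · exact wl6 hset hsc hsyf (by rw [hfr, h6]) hDG hD2 x y
  intro κ _ _ ψ hψ
  refine (t.dbl hz).mem (clo_NZ Z) (half_mem h) (fun u v => ?_) (Or.inl (t.det_mem hz h))
  obtain ⟨X, hX, hXw⟩ := t.wed_mem hz hwd u v
  rw [← hXw]
  exact hψ X hX

variable {G a₂ : ℕ} {Zb : Matrix (Fin G) (Fin G) ℂ} {Z₂ : Matrix (Fin a₂) (Fin a₂) ℂ}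
  {E₁ : Matrix (Fin G ⊕ Fin G) (Fin g ⊕ Fin g) ℚ}
  {F₁ : Matrix (Fin g ⊕ Fin g) (Fin G ⊕ Fin G) ℚ}
  {E₂ : Matrix (Fin G ⊕ Fin G) (Fin a₂ ⊕ Fin a₂) ℚ}
  {F₂ : Matrix (Fin a₂ ⊕ Fin a₂) (Fin G ⊕ Fin G) ℚ}

/-- **Splitting.** -/
theorem t3_hsp (h : PM Z) (hs : IsSimpleAV Z) (hT : T3M Z)
    (hg : (g = 4 ∧ a₂ ≤ 3) ∨ (g = 6 ∧ a₂ ≤ 1)) (D : Dec Zb Z Z₂ E₁ F₁ E₂ F₂) (hb : PM Zb)
    (h₂ : PM Z₂) : ∀ X ∈ LZ Z, cK ℂ E₁ * X * cK ℂ F₁ ∈ LZ Zb := by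
  obtain ⟨b, j, d, e, t⟩ := exists_t3d h hs hT
  obtain ⟨z, hz⟩ : ∃ z : ℂ, z * z = (d : ℂ) := by
    obtain ⟨z, hz⟩ := IsAlgClosed.exists_eq_mul_self (d : ℂ)
    exact ⟨z, hz.symm⟩
  have hg0 : 0 < g := by omega
  have hfr := (t.irr hz h hs hg0).2
  have hsc := t.scal hz h hs hg0
  have hset := t.set hz h hs hg0
  have hsyf := t.syf hz h hs hg0
  have hDG : t.R hz (DZ Z) ∈ (LZ Z).map (t.R hz) := mem_mapR DZ_mem
  have hD2 := (t.rep hz).sqD h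
  rcases hg with ⟨h4, ha⟩ | ⟨h6, ha⟩
  · have hW : finrank ℂ (EigM b z) = 4 := by rw [hfr, h4]
    obtain ⟨N, hN, M, hM, tr, -, -⟩ := wl4_trp hset hsc hsyf hW hDG hD2
    exact (t.rep hz).hsp4 hset hsc h (wl4_gn hset hsc hsyf hW hDG hD2) hN hM tr D hb h₂ ha
  · have hW : finrank ℂ (EigM b z) = 6 := by rw [hfr, h6]
    obtain ⟨N₁, hN₁, N₂, hN₂, hi⟩ := wl6_two hset hsc hsyf hW hDG hD2
    exact (t.rep hz).hsp6 hset hsc (wl6_gn hset hsc hsyf hW hDG hD2) h hN₁ hN₂ hi D hb h₂ ha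

end

end Pool.Agent.H926
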