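import Mathlib
import Pool.Agent.H926.Mum2
import Pool.Agent.H926.T3e
import Pool.Graph.R_pool_sql_team_seeded_1acbe0a2.Y474.P.JMum

/-!
# Fourfolds of Mumford's type
-/

set_option linter.unusedSectionVars false

namespace Pool.Agent.H926

open Matrix Module Pool.Agent.Y90 Pool.Agent.W437.HC Pool.Agent.W437.HD
  Pool.Agent.TH504.CB
open Pool.Agent.W548.Odd hiding cv
open Pool.Agent.H204R3.SP (Kills bil2)
open Pool.Agent.Y4.P (NZ clo_NZ)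
open Pool.Agent.Y91.JP (Scal Kp AltF altF TrSt trSt trace_inv exists_kp_ne)
open Pool.Agent.Y91.P (Tr tr_ph cjE cjE_ph)
open Pool.Agent.W437.HP (cK cK_mul cK_one)

noncomputable section

variable {g : ℕ} {Z : Matrix (Fin g) (Fin g) ℂ}

/-- Irreducible fourfolds without elements of rank one. -/
structure MumM {g : ℕ} (Z : Matrix (Fin g) (Fin g) ℂ) : Prop where
  four : g = 4
  irr : IrS (LZ Z) (⊤ : Submodule ℂ (Fin g ⊕ Fin g → ℂ))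
  nrk : ¬Rk1 Z (⊤ : Submodule ℂ (Fin g ⊕ Fin g → ℂ))

theorem scal_top (hU : IrS (LZ Z) (⊤ : Submodule ℂ (Fin g ⊕ Fin g → ℂ))) :
    Scal (GG (LZ Z)) := by
  intro f hf
  have hnt : Nontrivial (Fin g ⊕ Fin g → ℂ) := by
    by_contra hcon
    rw [not_nontrivial_iff_subsingleton] at hcon
    exact hU.1 (Subsingleton.elim _ _)
  obtain ⟨s, hs⟩ := Module.End.exists_eigenvalue f
  refine ⟨s, ?_⟩
  have h1 : Module.End.eigenspace f s = ⊤ := by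
    rcases hU.2.2 (Module.End.eigenspace f s) le_top (stab_GG.1 fun y hy x hx => by
      rw [Module.End.mem_eigenspace_iff] at hx ⊢
      have h2 := LinearMap.congr_fun (hf y hy) x
      rw [Module.End.mul_apply, Module.End.mul_apply, hx, map_smul] at h2
      exact h2) with h2 | h2
    · exact absurd h2 hs
    · exact h2
  refine LinearMap.ext fun x => ?_
  have h2 : x ∈ Module.End.eigenspace f s := by
    rw [h1]
    trivial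
  exact Module.End.mem_eigenspace_iff.1 h2

theorem rep_top : Rep Z ⊤ (ph (Fin g ⊕ Fin g)).toLinearMap where
  le _ _ := trivial
  mul X Y _ := map_mul (ph (Fin g ⊕ Fin g)) X Y
  inj X _ hX := (ph (Fin g ⊕ Fin g)).injective (by
    rw [map_zero]
    exact hX)
  one := map_one (ph (Fin g ⊕ Fin g))

section mum

variable (h : PM Z) (hM : MumM Z)
include h hM

theorem MumM.fr : finrank ℂ (Fin g ⊕ Fin g → ℂ) = 8 := by
  rw [Module.finrank_fintype_fun_eq_card, Fintype.card_sum, Fintype.card_fin, hM.four]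

theorem MumM.ngn : ¬GG (LZ Z) ≤ gn (GG (LZ Z)) (ph (Fin g ⊕ Fin g) (DZ Z)) := by
  intro hgn
  have hOm2 : Om g ℂ * Om g ℂ = -1 := Om_sq ℂ
  have hDG : ph (Fin g ⊕ Fin g) (DZ Z) ∈ GG (LZ Z) := mem_GG.2 DZ_mem
  have hD2 : ph (Fin g ⊕ Fin g) (DZ Z) * ph (Fin g ⊕ Fin g) (DZ Z) = 1 := by
    rw [← map_mul, DZ_sq h.det, map_one]
  have hnt : Nontrivial (Fin g ⊕ Fin g → ℂ) :=
    Module.nontrivial_of_finrank_pos (R := ℂ) (by rw [hM.fr h]; omega)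
  have hne : ph (Fin g ⊕ Fin g) (DZ Z) ≠ 0 := by
    intro h0
    rw [h0, mul_zero] at hD2
    exact zero_ne_one hD2
  obtain ⟨c, hc, hr⟩ := Y474.P.rank_one_gen8 h.setup (scal_top hM.irr)
    (altF (Om_transpose ℂ) hOm2) (trSt hOm2) (hM.fr h) hDG hD2 hgn hne
  obtain ⟨A, hA, rfl⟩ := exists_GG hc.1
  apply hM.nrk
  refine ⟨DZ Z, Or.inl rfl, A, hA, ?_, ?_, ?_⟩
  · apply (ph (Fin g ⊕ Fin g)).injective
    rw [map_mul]
    exact hc.2.1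
  · apply (ph (Fin g ⊕ Fin g)).injective
    rw [map_mul, map_neg]
    exact hc.2.2
  · rw [← hr]
    unfold rk
    rw [Submodule.map_top]
    rfl

/-- The three triples. -/
theorem MumM.three : ∃ N ∈ GG (LZ Z), ∃ M ∈ GG (LZ Z),
    Trp (ph (Fin g ⊕ Fin g) (DZ Z)) N M ∧
      ∃ D₁ ∈ GG (LZ Z), ∃ N₁ ∈ GG (LZ Z), ∃ M₁ ∈ GG (LZ Z), Trp D₁ N₁ M₁ ∧
      ∃ D₂ ∈ GG (LZ Z), ∃ N₂ ∈ GG (LZ Z), ∃ M₂ ∈ GG (LZ Z), Trp D₂ N₂ M₂ ∧
        (N * N₁ = N₁ * N ∧ N * M₁ = M₁ * N ∧ M * N₁ = N₁ * M ∧ M * M₁ = M₁ * M) ∧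
        (N * N₂ = N₂ * N ∧ N * M₂ = M₂ * N ∧ M * N₂ = N₂ * M ∧ M * M₂ = M₂ * M) ∧
        (N₁ * N₂ = N₂ * N₁ ∧ N₁ * M₂ = M₂ * N₁ ∧ M₁ * N₂ = N₂ * M₁ ∧ M₁ * M₂ = M₂ * M₁) := by
  have hOm2 : Om g ℂ * Om g ℂ = -1 := Om_sq ℂ
  have hDZ : DS Z (RingEquiv.refl ℂ) = DZ Z := by
    ext i j
    rfl
  refine three_trp h.setup (scal_top hM.irr) (altF (Om_transpose ℂ) hOm2) (trSt hOm2)
    (hM.fr h) (S := {D | ∃ σ : ℂ ≃+* ℂ, D = ph (Fin g ⊕ Fin g) (DS Z σ)}) ?_ ?_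
    ⟨RingEquiv.refl ℂ, by rw [hDZ]⟩ ?_ (hM.ngn h)
  · rintro _ ⟨σ, rfl⟩
    exact ⟨mem_GG.2 (DS_mem σ), by rw [← map_mul, DS_sq h.det, map_one]⟩
  · intro L hL hbr
    have h1 : LZ Z ≤ LZ Z ⊓ L.comap (ph (Fin g ⊕ Fin g)).toLinearMap := by
      refine LZ_le (fun σ => ⟨DS_mem σ, hL ⟨σ, rfl⟩⟩) ?_
      rintro A ⟨hA, hA'⟩ C ⟨hC, hC'⟩
      refine ⟨LZ_br hA hC, ?_⟩
      have h2 := hbr _ hA' _ hC'
      change ph (Fin g ⊕ Fin g) (A * C - C * A) ∈ L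
      rw [map_sub, map_mul, map_mul]
      exact h2
    intro y hy
    obtain ⟨A, hA, rfl⟩ := exists_GG hy
    exact (h1 hA).2
  · rintro _ ⟨σ, rfl⟩
    refine ⟨_, σ, tr_ph σ, fun x => ?_⟩
    obtain ⟨A, rfl⟩ := (ph (Fin g ⊕ Fin g)).surjective x
    rw [cjE_ph, rk_ph, rk_ph]
    exact Pool.Agent.TH125.rank_map_hom (σ : ℂ →+* ℂ) A

/-- **All invariant alternating forms belong to the system.** -/
theorem mum_altFo : AltFo Z := by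
  obtain ⟨N, hN, M, hM', t, D₁, hD₁, N₁, hN₁, M₁, hM₁, t₁, D₂, hD₂, N₂, hN₂, M₂, hM₂, t₂, c1, c2,
    c3⟩ := hM.three h
  have hOm2 : Om g ℂ * Om g ℂ = -1 := Om_sq ℂ
  have hsk : ∀ y ∈ GG (LZ Z), Skw (Pool.Agent.Y90.om g) y := by
    intro y hy x x'
    obtain ⟨X, hX, rfl⟩ := exists_GG hy
    exact eq_neg_of_add_eq_zero_left (h.om_sp hX x x')
  have htr : LinearMap.trace ℂ (Fin g ⊕ Fin g → ℂ) D₂ = 0 :=
    trace_inv h.setup (trSt hOm2) hD₂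
  have d := dbl_of_trp (E := Pool.Agent.Y90.om g) om_anti om_nd t₂ (hsk _ hN₂) (hsk _ hM₂)
  have hw := three_wed (E := Pool.Agent.Y90.om g) om_anti om_nd hsk (hM.fr h) t t₁ t₂ htr
    (mem_GG.2 DZ_mem) hN hM' hD₁ hN₁ hM₁ hN₂ hM₂ c1 c2 c3
  intro κ _ _ ψ hψ
  have hk : ∀ y ∈ GG (LZ Z), Kills y ψ.toMultilinearMap := by
    intro y hy
    obtain ⟨X, hX, rfl⟩ := exists_GG hy
    exact hψ X hX
  refine d.mem (clo_NZ Z) (half_mem h) (fun u v => hk _ (hw u v)) (Or.inr ⟨?_, ?_, hk _ hM₂⟩)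
  · have h1 := rk_half t₂.dd htr (m := 4) (by rw [hM.fr h])
    change 0 < rk ((1 / 2 : ℂ) • (1 + D₂))
    rw [h1]
    norm_num
  · have h1 : (2 : ℂ) • ((1 / 2 : ℂ) • (1 + D₂)) - 1 = D₂ := by
      rw [smul_smul]
      norm_num
    rw [h1]
    exact hk _ hD₂

variable {G a₂ : ℕ} {Zb : Matrix (Fin G) (Fin G) ℂ} {Z₂ : Matrix (Fin a₂) (Fin a₂) ℂ}
  {E₁ : Matrix (Fin G ⊕ Fin G) (Fin g ⊕ Fin g) ℚ}
  {F₁ : Matrix (Fin g ⊕ Fin g) (Fin G ⊕ Fin G) ℚ}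
  {E₂ : Matrix (Fin G ⊕ Fin G) (Fin a₂ ⊕ Fin a₂) ℚ}
  {F₂ : Matrix (Fin a₂ ⊕ Fin a₂) (Fin G ⊕ Fin G) ℚ}

/-- **Splitting.** -/
theorem mum_hsp (ha : a₂ ≤ 3) (D : Dec Zb Z Z₂ E₁ F₁ E₂ F₂) (hb : PM Zb) (h₂ : PM Z₂) :
    ∀ X ∈ LZ Z, cK ℂ E₁ * X * cK ℂ F₁ ∈ LZ Zb := by
  obtain ⟨N, hN, M, hM', t, -⟩ := hM.three h
  exact rep_top.hsp4 (st := stE (Om g ℂ)) h.setup (scal_top hM.irr) h (hM.ngn h) hN hM' t D hb h₂
    ha

end mum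

end

end Pool.Agent.H926
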