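import Mathlib
import Pool.Agent.H926.Kun
import Pool.Graph.R_pool_sql_team_seeded_1acbe0a2.Y4.P.Fin4

/-!
# All invariant forms belong to the system, for good period matrices
-/

set_option linter.unusedSectionVars false

namespace Pool.Agent.H926

open Matrix Module Pool.Agent.Y90 Pool.Agent.W437.HC Pool.Agent.W437.HD
  Pool.Agent.TH504.CB
open Pool.Agent.W548.Odd hiding cv
open Pool.Agent.H204R3.SP (Kills bil2)
open Pool.Agent.Y4.P (NZ clo_NZ)
open Pool.Agent.Y4.Q (GoodF4 GoodQ inv_mem goodQ_of jforms2 jTwoTwo2 jCen)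

noncomputable section

variable {G : ℕ} {Z : Matrix (Fin G) (Fin G) ℂ}

theorem inv_of_kills {κ : Type} [Fintype κ] [DecidableEq κ]
    {ψ : MultilinearMap ℂ (fun _ : κ => Fin G ⊕ Fin G → ℂ) ℂ}
    (hψ : ∀ X ∈ LZ Z, Kills (ph (Fin G ⊕ Fin G) X) ψ) (g : Gam (GG (LZ Z)))
    (v : κ → Fin G ⊕ Fin G → ℂ) : ψ (fun k => RZ Z g (v k)) = ψ v := by
  refine inv_gam _ (fun D hD _ => ?_) g v
  obtain ⟨X, hX, rfl⟩ := exists_GG hD
  exact hψ X hX

/-- Good period matrices. -/
theorem allF_good (h : PM Z) (hg : GoodF4 Z) : AllF Z := by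
  classical
  intro κ _ _ ψ hψ
  have hq : GoodQ Z := goodQ_of Pool.Agent.Y4.P.jclass' Pool.Agent.Y261.P.jspec
    Pool.Agent.Y4.P.jsympG2 Pool.Agent.Y4.P.jcop2 jTwoTwo2 jCen Pool.Agent.Y91.G.jUni hg
  have hinv := inv_of_kills hψ
  rcases Nat.even_or_odd (Fintype.card κ) with he | ho
  · obtain ⟨m, hm⟩ := he
    have e : κ ≃ Fin m × Fin 2 := Fintype.equivOfCardEq (by
      rw [Fintype.card_prod, Fintype.card_fin, Fintype.card_fin, hm]
      ring)
    have h1 := inv_mem jforms2 Pool.Agent.Y4.P.jweil' Pool.Agent.Y317.P.Fld.x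
      Pool.Agent.Y317.P.Idem.x Pool.Agent.Y977.P.jtransfer Pool.Agent.Y4.P.jtransfer2
      Pool.Agent.Y977.P.jtrace h hg hq (ψ.domDomCongr e) (fun g v => by
        rw [MultilinearMap.domDomCongr_apply, MultilinearMap.domDomCongr_apply]
        exact hinv g _)
    exact (clo_NZ Z).reindex e.symm h1 ψ fun v => by
      rw [MultilinearMap.domDomCongr_apply]
      congr 1
      funext k
      simp
  · have h0 : ψ = 0 := by
      refine MultilinearMap.ext fun v => ?_
      have h1 := hinv (gt (D := ph _ (DZ Z)) (by rw [← map_mul, DZ_sq h.det, map_one])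
        (mem_GG.2 DZ_mem) (-1)) v
      have h2 : (fun k => RZ Z (gt (D := ph _ (DZ Z)) (by rw [← map_mul, DZ_sq h.det, map_one])
        (mem_GG.2 DZ_mem) (-1)) (v k)) = fun k => (-1 : ℂ) • v k := by
        funext k
        change torE (ph _ (DZ Z)) (-1) (v k) = _
        rw [torE_apply]
        simp only [Units.val_neg, Units.val_one, inv_neg, inv_one]
        module
      rw [h2, MultilinearMap.map_smul_univ, Finset.prod_const, Finset.card_univ,
        Odd.neg_one_pow ho, neg_one_smul] at h1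
      have h3 : ψ v = 0 := by linear_combination (-1 / 2 : ℂ) * h1
      rw [h3]
      rfl
    rw [h0]
    exact Submodule.zero_mem _

end

end Pool.Agent.H926
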