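import Mathlib
import Pool.Agent.H926.Al

/-!
# The separation property in dimension at most seven
-/

set_option linter.unusedSectionVars false

namespace Pool.Agent.H926

open Matrix Module Pool.Agent.Y90 Pool.Agent.W437.HC Pool.Agent.W437.HD
  Pool.Agent.TH504.CB
open Pool.Agent.W548.Odd hiding cv
open Pool.Agent.W437.HP (cK cK_mul cK_one)
open Pool.Agent.Y4.P (MaxM EigM mem_eigM cjS_eigM root_aut)
open Pool.Agent.Y4.Q (GoodF4 CMM SepM finrank_one_of_scalar root_cc pd_root_cc qd_root_cc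
  act_of_pd exists_aut_root pd_fac_cj pd_cj_map)
open Pool.Agent.Y261.P (Rt mem_Rt card_Rt minpoly_irr)

noncomputable section

variable {g : ℕ} {Z : Matrix (Fin g) (Fin g) ℂ}

/-- There is an indefinite place. -/
theorem exists_indef (h : PM Z) (hs : IsSimpleAV Z) (hg : 0 < g)
    {φ : Matrix (Fin g ⊕ Fin g) (Fin g ⊕ Fin g) ℚ} (hφ : MaxM Z φ) {z : ℂ}
    (hz : z ∈ (minpoly ℚ φ).aroots ℂ) (hn : 2 ≤ finrank ℂ (EigM φ z)) :
    ∃ τ : ℂ ≃+* ℂ, 0 < pd Z (EigM φ (τ z)) ∧ 0 < qd Z (EigM φ (τ z)) := by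
  obtain ⟨s1, -, -⟩ := Pool.Agent.Y261.P.jspec g Z h hs hg φ hφ
  have hU := (s1 z hz).1
  by_contra hcon
  push Not at hcon
  have hone := finrank_one_of_scalar hU fun σ => by
    have hw := root_aut hz σ.symm
    have hst := (s1 _ hw).1.2.1
    have hact : ∃ c : ℂ, ∀ u ∈ EigM φ (σ.symm z), DZ Z *ᵥ u = c • u := by
      rcases Nat.eq_zero_or_pos (pd Z (EigM φ (σ.symm z))) with h0 | h0
      · exact ⟨-1, (act_of_pd h hst).1 h0⟩
      · have h1 := hcon σ.symm h0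
        exact ⟨1, (act_of_pd h hst).2 (by omega)⟩
    obtain ⟨c, hc⟩ := hact
    refine ⟨σ c, fun u hu => ?_⟩
    have h1 : (fun i => σ.symm (u i)) ∈ EigM φ (σ.symm z) := by
      rw [← cjS_eigM, mem_cjS]
      have h2 : (fun i => σ.symm.symm (σ.symm (u i))) = u := by
        funext i
        simp
      rw [h2]
      exact hu
    have h2 := hc _ h1
    have h3 : (fun i => σ ((DZ Z *ᵥ fun i => σ.symm (u i)) i)) =
        fun i => σ ((c • fun i => σ.symm (u i)) i) := by rw [h2]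
    rw [map_mulVec_aut] at h3
    have h4 : (fun i => σ (σ.symm (u i))) = u := by
      funext i
      simp
    rw [h4] at h3
    have h5 : DS Z σ *ᵥ u = (DZ Z).map σ *ᵥ u := rfl
    rw [h5, h3]
    funext i
    simp
  omega

theorem four_le {s : Finset ℂ} {a b : ℂ} (ha : a ∈ s) (ha' : cc a ∈ s) (hb : b ∈ s)
    (hb' : cc b ∈ s) (h1 : a ≠ cc a) (h2 : b ≠ cc b) (h3 : a ≠ b) (h4 : a ≠ cc b) :
    4 ≤ s.card := by
  have hcc : ∀ x : ℂ, cc (cc x) = x := Complex.conj_conj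
  have h5 : ({a, cc a, b, cc b} : Finset ℂ) ⊆ s := by
    intro x hx
    simp only [Finset.mem_insert, Finset.mem_singleton] at hx
    rcases hx with rfl | rfl | rfl | rfl
    · exact ha
    · exact ha'
    · exact hb
    · exact hb'
  have h6 : ({a, cc a, b, cc b} : Finset ℂ).card = 4 := by
    rw [Finset.card_insert_of_notMem, Finset.card_insert_of_notMem, Finset.card_pair h2]
    · simp only [Finset.mem_insert, Finset.mem_singleton, not_or]
      constructor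
      · intro h0
        apply h4
        rw [← h0, hcc]
      · intro h0
        exact h3 (cc.injective h0)
    · simp only [Finset.mem_insert, Finset.mem_singleton, not_or]
      exact ⟨h1, h3, h4⟩
  rw [← h6]
  exact Finset.card_le_card h5

theorem two_le {s : Finset ℂ} {a : ℂ} (ha : a ∈ s) (ha' : cc a ∈ s) (h1 : a ≠ cc a) :
    2 ≤ s.card := by
  rw [← Finset.card_pair h1]
  refine Finset.card_le_card fun x hx => ?_
  rw [Finset.mem_insert, Finset.mem_singleton] at hx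
  rcases hx with rfl | rfl
  · exact ha
  · exact ha'

/-- The indefinite eigenvalues. -/
def Ind (Z : Matrix (Fin g) (Fin g) ℂ) (φ : Matrix (Fin g ⊕ Fin g) (Fin g ⊕ Fin g) ℚ) :
    Finset ℂ := by
  classical
  exact (Rt φ).filter fun x => 0 < pd Z (EigM φ x) ∧ 0 < qd Z (EigM φ x)

/-- The definite eigenvalues. -/
def Def (Z : Matrix (Fin g) (Fin g) ℂ) (φ : Matrix (Fin g ⊕ Fin g) (Fin g ⊕ Fin g) ℚ) :
    Finset ℂ := by
  classical
  exact (Rt φ).filter fun x => ¬(0 < pd Z (EigM φ x) ∧ 0 < qd Z (EigM φ x))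

variable {φ : Matrix (Fin g ⊕ Fin g) (Fin g ⊕ Fin g) ℚ}

theorem mem_Ind {x : ℂ} : x ∈ Ind Z φ ↔ x ∈ (minpoly ℚ φ).aroots ℂ ∧
    (0 < pd Z (EigM φ x) ∧ 0 < qd Z (EigM φ x)) := by
  classical
  unfold Ind
  rw [Finset.mem_filter, mem_Rt]

theorem mem_Def {x : ℂ} : x ∈ Def Z φ ↔ x ∈ (minpoly ℚ φ).aroots ℂ ∧
    ¬(0 < pd Z (EigM φ x) ∧ 0 < qd Z (EigM φ x)) := by
  classical
  unfold Def
  rw [Finset.mem_filter, mem_Rt]

theorem cc_Ind {x : ℂ} (hx : x ∈ Ind Z φ) : cc x ∈ Ind Z φ := by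
  rw [mem_Ind] at hx ⊢
  rw [pd_root_cc, qd_root_cc]
  exact ⟨root_cc hx.1, hx.2.2, hx.2.1⟩

theorem cc_Def {x : ℂ} (hx : x ∈ Def Z φ) : cc x ∈ Def Z φ := by
  rw [mem_Def] at hx ⊢
  rw [pd_root_cc, qd_root_cc]
  exact ⟨root_cc hx.1, fun h => hx.2 ⟨h.2, h.1⟩⟩

theorem card_Ind_Def (h : PM Z) (hs : IsSimpleAV Z) (hg : 0 < g)
    (hφ : MaxM Z φ) : (Ind Z φ).card + (Def Z φ).card = (minpoly ℚ φ).natDegree := by
  classical
  rw [← card_Rt (minpoly_irr h hs hg hφ.1).separable]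
  unfold Ind Def
  exact Finset.card_filter_add_card_filter_not _

end

end Pool.Agent.H926
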