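import Mathlib
import Pool.Agent.H926.Sep

/-!
# The separation property in dimension at most seven, second part
-/

set_option linter.unusedSectionVars false

namespace Pool.Agent.H926

open Matrix Module Pool.Agent.Y90 Pool.Agent.W437.HC Pool.Agent.W437.HD
  Pool.Agent.TH504.CB
open Pool.Agent.W548.Odd hiding cv
open Pool.Agent.W437.HP (cK cK_mul cK_one)
open Pool.Agent.Y4.P (MaxM EigM mem_eigM cjS_eigM root_aut)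
open Pool.Agent.Y4.Q (GoodF4 CMM SepM finrank_one_of_scalar root_cc pd_root_cc qd_root_cc
  act_of_pd exists_aut_root pd_fac_cj pd_cj_map)
open Pool.Agent.Y261.P (Rt mem_Rt card_Rt minpoly_irr)

noncomputable section

section isog

variable {a₁ a₂ : ℕ} {Z₁ : Matrix (Fin a₁) (Fin a₁) ℂ} {Z₂ : Matrix (Fin a₂) (Fin a₂) ℂ}

theorem ml_aut (M : Matrix (Fin a₂ ⊕ Fin a₂) (Fin a₁ ⊕ Fin a₁) ℚ) (σ : ℂ ≃+* ℂ)
    (v : Fin a₁ ⊕ Fin a₁ → ℂ) : ml M (fun i => σ (v i)) = fun i => σ (ml M v i) := by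
  rw [ml_apply, ml_apply, map_mulVec_aut, cK_aut]

/-- Nonzero homomorphisms between simple abelian varieties. -/
theorem isog (h₁ : PM Z₁) (h₂ : PM Z₂) (s₁ : IsSimpleAV Z₁) (s₂ : IsSimpleAV Z₂)
    {M : Matrix (Fin a₂ ⊕ Fin a₂) (Fin a₁ ⊕ Fin a₁) ℚ}
    (hM : cK ℂ M * DZ Z₁ = DZ Z₂ * cK ℂ M) (h0 : M ≠ 0) :
    a₁ = a₂ ∧ ∃ N, Fac Z₂ Z₁ M N ∧ ∀ v, ml N v = 0 → v = 0 := by
  have hker : LinearMap.ker (ml M) = ⊥ := by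
    by_contra hcon
    have h3 := stable_eq_top h₁.det s₁ (LinearMap.ker (ml M)) (fun σ v hv => by
      rw [LinearMap.mem_ker] at hv ⊢
      rw [ml_aut, hv]
      funext i
      simp) (fun v hv => by
      rw [LinearMap.mem_ker] at hv ⊢
      rw [ml_apply] at hv ⊢
      rw [mulVec_mulVec, hM, ← mulVec_mulVec, hv, mulVec_zero]) hcon
    apply h0
    ext i j
    have h4 : (Pi.single j 1 : Fin a₁ ⊕ Fin a₁ → ℂ) ∈ LinearMap.ker (ml M) := by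
      rw [h3]
      trivial
    rw [LinearMap.mem_ker, ml_apply, mulVec_single_one] at h4
    have h5 := congrFun h4 i
    have h6 : ((M i j : ℚ) : ℂ) = 0 := h5
    simpa using h6
  have hran : LinearMap.range (ml M) = ⊤ := by
    refine stable_eq_top h₂.det s₂ (LinearMap.range (ml M)) (fun σ v hv => ?_) (fun v hv => ?_)
      fun hcon => ?_
    · obtain ⟨u, rfl⟩ := hv
      exact ⟨fun i => σ (u i), ml_aut M σ u⟩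
    · obtain ⟨u, rfl⟩ := hv
      refine ⟨DZ Z₁ *ᵥ u, ?_⟩
      rw [ml_apply, ml_apply, mulVec_mulVec, hM, mulVec_mulVec]
    · rw [LinearMap.range_eq_bot] at hcon
      apply h0
      ext i j
      have h4 : ml M (Pi.single j 1) = 0 := by rw [hcon, LinearMap.zero_apply]
      rw [ml_apply, mulVec_single_one] at h4
      have h6 : ((M i j : ℚ) : ℂ) = 0 := congrFun h4 i
      simpa using h6
  have ha : a₁ = a₂ := by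
    have h3 := LinearMap.finrank_range_add_finrank_ker (ml M)
    rw [hker, hran, finrank_top, finrank_bot, Module.finrank_fintype_fun_eq_card,
      Module.finrank_fintype_fun_eq_card, Fintype.card_sum, Fintype.card_sum, Fintype.card_fin,
      Fintype.card_fin] at h3
    omega
  refine ⟨ha, ?_⟩
  subst ha
  have hu : IsUnit (cK ℂ M) := by
    rw [← Matrix.mulVec_injective_iff_isUnit]
    rw [LinearMap.ker_eq_bot] at hker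
    exact hker
  have hdet : M.det ≠ 0 := by
    intro h3
    rw [Matrix.isUnit_iff_isUnit_det] at hu
    have h4 : (cK ℂ M).det = ((M.det : ℚ) : ℂ) := by
      have h5 := RingHom.map_det (algebraMap ℚ ℂ) M
      rw [RingHom.mapMatrix_apply] at h5
      exact h5.symm
    rw [h4, h3, Rat.cast_zero] at hu
    exact not_isUnit_zero hu
  have hu' : IsUnit M.det := isUnit_iff_ne_zero.2 hdet
  have hNM : M⁻¹ * M = 1 := Matrix.nonsing_inv_mul M hu'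
  have hMN : M * M⁻¹ = 1 := Matrix.mul_nonsing_inv M hu'
  have hNMc : cK ℂ M⁻¹ * cK ℂ M = 1 := by rw [← cK_mul, hNM, cK_one]
  have hMNc : cK ℂ M * cK ℂ M⁻¹ = 1 := by rw [← cK_mul, hMN, cK_one]
  refine ⟨M⁻¹, ⟨hNM, hM.symm, ?_⟩, fun v hv => ?_⟩
  · calc cK ℂ M⁻¹ * DZ Z₂ = cK ℂ M⁻¹ * DZ Z₂ * (cK ℂ M * cK ℂ M⁻¹) := by
          rw [hMNc, Matrix.mul_one]
      _ = cK ℂ M⁻¹ * (DZ Z₂ * cK ℂ M) * cK ℂ M⁻¹ := by simp only [Matrix.mul_assoc]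
      _ = (cK ℂ M⁻¹ * cK ℂ M) * DZ Z₁ * cK ℂ M⁻¹ := by
          rw [← hM]
          simp only [Matrix.mul_assoc]
      _ = DZ Z₁ * cK ℂ M⁻¹ := by rw [hNMc, Matrix.one_mul]
  · rw [ml_apply] at hv
    have h3 : cK ℂ M *ᵥ (cK ℂ M⁻¹ *ᵥ v) = 0 := by rw [hv, mulVec_zero]
    rwa [mulVec_mulVec, hMNc, one_mulVec] at h3

/-- The dimensions of independent factors. -/
theorem dim_add {G : ℕ} {E₁ : Matrix (Fin G ⊕ Fin G) (Fin a₁ ⊕ Fin a₁) ℚ}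
    {F₁ : Matrix (Fin a₁ ⊕ Fin a₁) (Fin G ⊕ Fin G) ℚ}
    {E₂ : Matrix (Fin G ⊕ Fin G) (Fin a₂ ⊕ Fin a₂) ℚ}
    {F₂ : Matrix (Fin a₂ ⊕ Fin a₂) (Fin G ⊕ Fin G) ℚ} (h1 : F₁ * E₁ = 1) (h2 : F₂ * E₂ = 1)
    (h3 : F₂ * E₁ = 0) : a₁ + a₂ ≤ G := by
  let L : (Fin a₁ ⊕ Fin a₁ → ℚ) × (Fin a₂ ⊕ Fin a₂ → ℚ) →ₗ[ℚ] (Fin G ⊕ Fin G → ℚ) :=
    LinearMap.coprod (Matrix.mulVecLin E₁) (Matrix.mulVecLin E₂)
  have hinj : Function.Injective L := by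
    rw [injective_iff_map_eq_zero]
    rintro ⟨x, y⟩ hxy
    have h4 : E₁ *ᵥ x + E₂ *ᵥ y = 0 := hxy
    have h5 : y = 0 := by
      have h6 := congrArg (fun w => F₂ *ᵥ w) h4
      simp only [mulVec_add, mulVec_mulVec, h2, h3, zero_mulVec, one_mulVec, zero_add,
        mulVec_zero] at h6
      exact h6
    have h7 : x = 0 := by
      rw [h5, mulVec_zero, add_zero] at h4
      have h6 := congrArg (fun w => F₁ *ᵥ w) h4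
      simp only [mulVec_mulVec, h1, one_mulVec, mulVec_zero] at h6
      exact h6
    rw [h5, h7]
    rfl
  have h4 := LinearMap.finrank_le_finrank_of_injective hinj
  rw [Module.finrank_prod, Module.finrank_fintype_fun_eq_card, Module.finrank_fintype_fun_eq_card,
    Module.finrank_fintype_fun_eq_card, Fintype.card_sum, Fintype.card_sum, Fintype.card_sum,
    Fintype.card_fin, Fintype.card_fin, Fintype.card_fin] at h4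
  omega

end isog

section sep

variable {G a₁ a₂ : ℕ} {Z : Matrix (Fin G) (Fin G) ℂ} {Z₁ : Matrix (Fin a₁) (Fin a₁) ℂ}
  {Z₂ : Matrix (Fin a₂) (Fin a₂) ℂ}
  {φ₁ : Matrix (Fin a₁ ⊕ Fin a₁) (Fin a₁ ⊕ Fin a₁) ℚ}
  {φ₂ : Matrix (Fin a₂ ⊕ Fin a₂) (Fin a₂ ⊕ Fin a₂) ℚ}

/-- Definite and indefinite places. -/
theorem deg_ge (h : PM Z₁) (hs : IsSimpleAV Z₁) (hg : 0 < a₁) (hφ : MaxM Z₁ φ₁) (hcm : CMM φ₁)
    {z : ℂ} (hz : z ∈ (minpoly ℚ φ₁).aroots ℂ) {n : ℕ} (hn : 2 ≤ n)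
    (hpq : ∀ σ : ℂ ≃+* ℂ, pd Z₁ (EigM φ₁ (σ z)) + qd Z₁ (EigM φ₁ (σ z)) = n) {σ : ℂ ≃+* ℂ}
    (hd : pd Z₁ (EigM φ₁ (σ z)) = 0 ∨ pd Z₁ (EigM φ₁ (σ z)) = n) {τ : ℂ ≃+* ℂ}
    (hi : 0 < pd Z₁ (EigM φ₁ (τ z)) ∧ 0 < qd Z₁ (EigM φ₁ (τ z))) :
    z ≠ cc z ∧ 4 ≤ (minpoly ℚ φ₁).natDegree := by
  have hzz : z ≠ cc z := by
    intro h0
    have h1 := hcm z hz σ
    rw [← h0] at h1
    have h2 := pd_root_cc (Z := Z₁) φ₁ (σ z)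
    rw [h1] at h2
    have h3 := hpq σ
    omega
  have hne : ∀ ρ : ℂ ≃+* ℂ, ρ z ≠ cc (ρ z) := by
    intro ρ h0
    rw [hcm z hz ρ] at h0
    exact hzz (ρ.injective h0)
  refine ⟨hzz, ?_⟩
  have h1 : 2 ≤ (Ind Z₁ φ₁).card := by
    have h2 : τ z ∈ Ind Z₁ φ₁ := mem_Ind.2 ⟨root_aut hz τ, hi⟩
    exact two_le h2 (cc_Ind h2) (hne τ)
  have h2 : 2 ≤ (Def Z₁ φ₁).card := by
    have h2 : σ z ∈ Def Z₁ φ₁ := mem_Def.2 ⟨root_aut hz σ, by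
      have h3 := hpq σ
      omega⟩
    exact two_le h2 (cc_Def h2) (hne σ)
  rw [← card_Ind_Def h hs hg hφ]
  omega

/-- **The separation property.** -/
theorem sepM_of {E₁ : Matrix (Fin G ⊕ Fin G) (Fin a₁ ⊕ Fin a₁) ℚ}
    {F₁ : Matrix (Fin a₁ ⊕ Fin a₁) (Fin G ⊕ Fin G) ℚ}
    {E₂ : Matrix (Fin G ⊕ Fin G) (Fin a₂ ⊕ Fin a₂) ℚ}
    {F₂ : Matrix (Fin a₂ ⊕ Fin a₂) (Fin G ⊕ Fin G) ℚ} (hG : G ≤ 7) (hf₁ : Fac Z Z₁ E₁ F₁)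
    (hf₂ : Fac Z Z₂ E₂ F₂) (h₁ : PM Z₁) (h₂ : PM Z₂) (s₁ : IsSimpleAV Z₁) (s₂ : IsSimpleAV Z₂)
    (g₁ : 0 < a₁) (g₂ : 0 < a₂) (m₁ : MaxM Z₁ φ₁) (m₂ : MaxM Z₂ φ₂) (c₁ : CMM φ₁)
    (c₂ : CMM φ₂) : SepM Z₁ Z₂ φ₁ φ₂ := by
  intro z₁ r₁ z₂ r₂ n hn hn₁ hn₂ hyp
  by_contra hcon
  rw [not_or] at hcon
  obtain ⟨hcon1, hcon2⟩ := hcon
  push Not at hcon1
  obtain ⟨σ, hσ⟩ := hcon1
  obtain ⟨⟨p₁, p₂, -⟩⟩ : Nonempty (_ ∧ _ ∧ True) :=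
    ⟨Pool.Agent.Y261.P.jspec a₁ Z₁ h₁ s₁ g₁ φ₁ m₁, Pool.Agent.Y261.P.jspec a₂ Z₂ h₂ s₂ g₂ φ₂ m₂,
      trivial⟩
  obtain ⟨p₁, q₁, -⟩ := p₁
  obtain ⟨p₂, -, -⟩ := p₂
  have hfr₁ : finrank ℂ (EigM φ₁ z₁) = n := by rw [← pd_add_qd h₁ (p₁ z₁ r₁).1.2.1, hn₁]
  have hfr₂ : finrank ℂ (EigM φ₂ z₂) = n := by rw [← pd_add_qd h₂ (p₂ z₂ r₂).1.2.1, hn₂]
  have hpq₁ : ∀ ρ : ℂ ≃+* ℂ, pd Z₁ (EigM φ₁ (ρ z₁)) + qd Z₁ (EigM φ₁ (ρ z₁)) = n := by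
    intro ρ
    rw [pd_add_qd h₁ (p₁ _ (root_aut r₁ ρ)).1.2.1, ← cjS_eigM, finrank_cjS, hfr₁]
  have hpq₂ : ∀ ρ : ℂ ≃+* ℂ, pd Z₂ (EigM φ₂ (ρ z₂)) + qd Z₂ (EigM φ₂ (ρ z₂)) = n := by
    intro ρ
    rw [pd_add_qd h₂ (p₂ _ (root_aut r₂ ρ)).1.2.1, ← cjS_eigM, finrank_cjS, hfr₂]
  obtain ⟨hd₁, hd₂⟩ : (pd Z₁ (EigM φ₁ (σ z₁)) = 0 ∨ pd Z₁ (EigM φ₁ (σ z₁)) = n) ∧
      (pd Z₂ (EigM φ₂ (σ z₂)) = 0 ∨ pd Z₂ (EigM φ₂ (σ z₂)) = n) := by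
    rcases hyp σ with h0 | h0
    · exact absurd h0 hσ
    · exact h0
  obtain ⟨τ, hi₁⟩ := exists_indef h₁ s₁ g₁ m₁ r₁ (by rw [hfr₁]; exact hn)
  have heq : pd Z₁ (EigM φ₁ (τ z₁)) = pd Z₂ (EigM φ₂ (τ z₂)) := by
    rcases hyp τ with h0 | ⟨h0, -⟩
    · exact h0
    · have h3 := hpq₁ τ
      omega
  have hi₂ : 0 < pd Z₂ (EigM φ₂ (τ z₂)) ∧ 0 < qd Z₂ (EigM φ₂ (τ z₂)) := by
    have h3 := hpq₁ τ
    have h4 := hpq₂ τ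
    omega
  obtain ⟨hz₁, hdeg₁⟩ := deg_ge h₁ s₁ g₁ m₁ c₁ r₁ hn hpq₁ hd₁ hi₁
  obtain ⟨hz₂, hdeg₂⟩ := deg_ge h₂ s₂ g₂ m₂ c₂ r₂ hn hpq₂ hd₂ hi₂
  have ha₁ : n * (minpoly ℚ φ₁).natDegree = 2 * a₁ := by rw [← hfr₁]; exact (p₁ z₁ r₁).2
  have ha₂ : n * (minpoly ℚ φ₂).natDegree = 2 * a₂ := by rw [← hfr₂]; exact (p₂ z₂ r₂).2
  have hb₁ : 4 ≤ a₁ := by
    have h3 : 2 * 4 ≤ n * (minpoly ℚ φ₁).natDegree := Nat.mul_le_mul hn hdeg₁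
    omega
  have hb₂ : 4 ≤ a₂ := by
    have h3 : 2 * 4 ≤ n * (minpoly ℚ φ₂).natDegree := Nat.mul_le_mul hn hdeg₂
    omega
  have hM0 : F₂ * E₁ ≠ 0 := by
    intro h0
    have h3 := dim_add hf₁.fe hf₂.fe h0
    omega
  have hM : cK ℂ (F₂ * E₁) * DZ Z₁ = DZ Z₂ * cK ℂ (F₂ * E₁) := by
    rw [cK_mul, Matrix.mul_assoc, ← hf₁.de, ← Matrix.mul_assoc, hf₂.fd, Matrix.mul_assoc]
  obtain ⟨haa, N, hN, hNi⟩ := isog h₁ h₂ s₁ s₂ hM hM0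
  -- transport
  have hinj : ∀ u ∈ EigM φ₂ z₂, ml N u = 0 → u = 0 := fun u _ => hNi u
  have hne : ∃ u ∈ EigM φ₂ z₂, ml N u ≠ 0 := by
    obtain ⟨u, hu, hu0⟩ := Submodule.exists_mem_ne_zero_of_ne_bot (p₂ z₂ r₂).1.1
    exact ⟨u, hu, fun h0 => hu0 (hNi u h0)⟩
  have hU := hN.irr (p₂ z₂ r₂).1 hne
  obtain ⟨w, rw', T, hT, hTi, hTm⟩ := q₁ _ hU
  have hw : ∀ ρ : ℂ ≃+* ℂ, pd Z₂ (EigM φ₂ (ρ z₂)) = pd Z₁ (EigM φ₁ (ρ w)) := by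
    intro ρ
    rw [← cjS_eigM, ← cjS_eigM, ← hTm, pd_cj_map hT hTi hU.2.1,
      (pd_fac_cj hN hinj (p₂ z₂ r₂).1.2.1 ρ).1]
  have hccc : ∀ x : ℂ, cc (cc x) = x := Complex.conj_conj
  have hw1 : z₁ ≠ w := by
    rintro rfl
    exact hσ (hw σ).symm
  have hw2 : z₁ ≠ cc w := by
    intro h0
    have h1 : w = cc z₁ := by rw [h0, hccc]
    have h2 : ∀ ρ : ℂ ≃+* ℂ, pd Z₂ (EigM φ₂ (ρ z₂)) = qd Z₁ (EigM φ₁ (ρ z₁)) := by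
      intro ρ
      rw [hw, h1, ← c₁ z₁ r₁ ρ, pd_root_cc]
    -- the relative dimension is two
    have h3 := h2 τ
    have h4 := hpq₁ τ
    have h5 : (minpoly ℚ φ₁).natDegree * n ≤ 14 := by
      rw [Nat.mul_comm, ha₁]
      have h6 := dim_add (a₁ := a₁) (a₂ := 0) (E₂ := Matrix.of fun _ i => Sum.elim Fin.elim0
        Fin.elim0 i) (F₂ := Matrix.of fun i _ => Sum.elim Fin.elim0 Fin.elim0 i) hf₁.fe
        (by ext i; rcases i with i | i <;> exact i.elim0)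
        (by ext i; rcases i with i | i <;> exact i.elim0)
      omega
    have h6 : n ≤ 3 := by
      by_contra hcon
      have h7 : 4 * 4 ≤ (minpoly ℚ φ₁).natDegree * n := Nat.mul_le_mul hdeg₁ (by omega)
      omega
    have h7 : n = 2 := by omega
    refine hcon2 ⟨h7, fun ρ => ?_⟩
    rw [h2, hpq₁, h7]
  -- eight eigenvalues
  have hwne : ∀ ρ : ℂ ≃+* ℂ, ρ z₁ ≠ ρ w := fun ρ h0 => hw1 (ρ.injective h0)
  have hwne' : ∀ ρ : ℂ ≃+* ℂ, ρ z₁ ≠ cc (ρ w) := fun ρ h0 => by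
    rw [c₁ w rw' ρ] at h0
    exact hw2 (ρ.injective h0)
  have hzne : ∀ ρ : ℂ ≃+* ℂ, ρ z₁ ≠ cc (ρ z₁) := fun ρ h0 => by
    rw [c₁ z₁ r₁ ρ] at h0
    exact hz₁ (ρ.injective h0)
  have hpqw : ∀ ρ : ℂ ≃+* ℂ, pd Z₁ (EigM φ₁ (ρ w)) + qd Z₁ (EigM φ₁ (ρ w)) = n := by
    intro ρ
    rw [pd_add_qd h₁ (p₁ _ (root_aut rw' ρ)).1.2.1]
    obtain ⟨κ, hκ⟩ := exists_aut_root (minpoly_irr h₁ s₁ g₁ m₁.1) r₁ (root_aut rw' ρ)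
    rw [← hκ, ← cjS_eigM, finrank_cjS, hfr₁]
  have hww : w ≠ cc w := by
    intro h0
    obtain ⟨κ, hκ⟩ := exists_aut_root (minpoly_irr h₁ s₁ g₁ m₁.1) r₁ rw'
    rw [← hκ] at h0
    exact hzne κ h0
  have hwwn : ∀ ρ : ℂ ≃+* ℂ, ρ w ≠ cc (ρ w) := fun ρ h0 => by
    rw [c₁ w rw' ρ] at h0
    exact hww (ρ.injective h0)
  have hI : 4 ≤ (Ind Z₁ φ₁).card := by
    have e1 : τ z₁ ∈ Ind Z₁ φ₁ := mem_Ind.2 ⟨root_aut r₁ τ, hi₁⟩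
    have e2 : τ w ∈ Ind Z₁ φ₁ := mem_Ind.2 ⟨root_aut rw' τ, by
      have e3 := hw τ
      have e4 := hpqw τ
      have e5 := hpq₂ τ
      omega⟩
    exact four_le e1 (cc_Ind e1) e2 (cc_Ind e2) (hzne τ) (hwwn τ) (hwne τ) (hwne' τ)
  have hD : 4 ≤ (Def Z₁ φ₁).card := by
    have e1 : σ z₁ ∈ Def Z₁ φ₁ := mem_Def.2 ⟨root_aut r₁ σ, by
      have h3 := hpq₁ σ
      omega⟩
    have e2 : σ w ∈ Def Z₁ φ₁ := mem_Def.2 ⟨root_aut rw' σ, by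
      have e3 := hw σ
      have e4 := hpqw σ
      have e5 := hpq₂ σ
      omega⟩
    exact four_le e1 (cc_Def e1) e2 (cc_Def e2) (hzne σ) (hwwn σ) (hwne σ) (hwne' σ)
  have hdeg := card_Ind_Def h₁ s₁ g₁ m₁
  have h8 : 2 * 8 ≤ n * (minpoly ℚ φ₁).natDegree := Nat.mul_le_mul hn (by omega)
  have h6 := dim_add (a₁ := a₁) (a₂ := 0) (E₂ := Matrix.of fun _ i => Sum.elim Fin.elim0
    Fin.elim0 i) (F₂ := Matrix.of fun i _ => Sum.elim Fin.elim0 Fin.elim0 i) hf₁.fe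
    (by ext i; rcases i with i | i <;> exact i.elim0)
    (by ext i; rcases i with i | i <;> exact i.elim0)
  omega

end sep

end

end Pool.Agent.H926
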