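import Mathlib
import Pool.Agent.H926.Sep2
import Pool.Agent.H926.Mum3

/-!
# The classification of the simple factors in dimension at most seven
-/

set_option linter.unusedSectionVars false

namespace Pool.Agent.H926

open Matrix Module Pool.Agent.Y90 Pool.Agent.W437.HC Pool.Agent.W437.HD
  Pool.Agent.TH504.CB
open Pool.Agent.W548.Odd hiding cv
open Pool.Agent.W437.HP (cK cK_mul cK_one)
open Pool.Agent.Y4.P (MaxM EigM mem_eigM cjS_eigM root_aut RealOddM TwoTwoM)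
open Pool.Agent.Y4.Q (GoodF4 CMM SepM T3M GenM CopM4 BigM small_class jUni2)
open Pool.Agent.Y261.P (Rt mem_Rt card_Rt minpoly_irr)

noncomputable section

/-- The exceptional simple factors. -/
def Bad {g : ℕ} (Z : Matrix (Fin g) (Fin g) ℂ) : Prop :=
  (T3M Z ∧ (g = 4 ∨ g = 6)) ∨ MumM Z

variable {g : ℕ} {Z : Matrix (Fin g) (Fin g) ℂ}

/-- Fourfolds without endomorphisms. -/
theorem four_scalar (h : PM Z) (hs : IsSimpleAV Z) (hg : g = 4)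
    (hsc : ∀ ψ : Matrix (Fin g ⊕ Fin g) (Fin g ⊕ Fin g) ℚ, qm ψ * DZ Z = DZ Z * qm ψ →
      ∃ c : ℚ, ψ = c • (1 : Matrix (Fin g ⊕ Fin g) (Fin g ⊕ Fin g) ℚ)) :
    BigM Z ∨ MumM Z := by
  have hg0 : 0 < g := by omega
  have hne : Nonempty (Fin g) := ⟨⟨0, hg0⟩⟩
  obtain ⟨φ, hφ, hcm⟩ := Pool.Agent.Y484.MC.maxcm g Z h hs hg0
  obtain ⟨s1, s2, s3⟩ := Pool.Agent.Y261.P.jspec g Z h hs hg0 φ hφ
  have hirr := minpoly_irr h hs hg0 hφ.1
  have hcard := card_Rt hirr.separable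
  have hm1 : (minpoly ℚ φ).natDegree = 1 := by
    obtain ⟨c, hc⟩ := hsc φ hφ.1
    rw [hc, ← Algebra.algebraMap_eq_smul_one, minpoly.eq_X_sub_C,
      Polynomial.natDegree_X_sub_C]
  obtain ⟨z, hz⟩ : ∃ z, z ∈ (minpoly ℚ φ).aroots ℂ := by
    have h1 : 0 < (Rt φ).card := by omega
    obtain ⟨z, hz⟩ := Finset.card_pos.1 h1
    exact ⟨z, mem_Rt.1 hz⟩
  obtain ⟨hU, hn⟩ := s1 z hz
  have htop : EigM φ z = ⊤ := by
    apply Pool.Agent.Y4.P.eq_top_of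
    rw [hm1, mul_one] at hn
    exact hn
  by_cases hr : Rk1 Z (⊤ : Submodule ℂ (Fin g ⊕ Fin g → ℂ))
  · left
    exact ⟨φ, hφ, hcm, z, hz, by rw [htop]; exact hr⟩
  · right
    exact ⟨hg, by rw [← htop]; exact hU, hr⟩

/-- The simple factors which are not exceptional. -/
theorem good_simple (h : PM Z) (hs : IsSimpleAV Z) (hg : 0 < g) (hg7 : g ≤ 7)
    (hb : ¬Bad Z) :
    HasCM Z ∨ RealOddM Z ∨ GenM Z ∨ CopM4 Z ∨ TwoTwoM Z ∨ BigM Z := by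
  unfold Bad at hb
  rw [not_or] at hb
  by_cases h4 : g = 4 ∧ ∀ ψ : Matrix (Fin g ⊕ Fin g) (Fin g ⊕ Fin g) ℚ,
      qm ψ * DZ Z = DZ Z * qm ψ →
        ∃ c : ℚ, ψ = c • (1 : Matrix (Fin g ⊕ Fin g) (Fin g ⊕ Fin g) ℚ)
  · rcases four_scalar h hs h4.1 h4.2 with h5 | h5
    · exact Or.inr (Or.inr (Or.inr (Or.inr (Or.inr h5))))
    · exact absurd h5 hb.2
  · refine small_class Pool.Agent.Y261.P.jspec Pool.Agent.Y484.MC.maxcm Pool.Agent.Y349.P.jquat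
      jUni2 Pool.Agent.Y474.P.jMum h hs hg hg7 (fun h5 => Or.inl ?_) fun h5 h6 => hb.1 ⟨h6, h5⟩
    by_contra hcon
    push Not at hcon
    exact h4 ⟨h5, hcon⟩

variable {G : ℕ} {Z : Matrix (Fin G) (Fin G) ℂ}

theorem fac_le {a : ℕ} {Z' : Matrix (Fin a) (Fin a) ℂ}
    {E : Matrix (Fin G ⊕ Fin G) (Fin a ⊕ Fin a) ℚ} {F : Matrix (Fin a ⊕ Fin a) (Fin G ⊕ Fin G) ℚ}
    (hf : Fac Z Z' E F) : a ≤ G := by
  have h6 := dim_add (a₁ := a) (a₂ := 0) (E₂ := Matrix.of fun _ i => Sum.elim Fin.elim0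
    Fin.elim0 i) (F₂ := Matrix.of fun i _ => Sum.elim Fin.elim0 Fin.elim0 i) hf.fe
    (by ext i; rcases i with i | i <;> exact i.elim0)
    (by ext i; rcases i with i | i <;> exact i.elim0)
  omega

/-- Period matrices without exceptional simple factors. -/
theorem good_of (hG : G ≤ 7)
    (hb : ∀ (a : ℕ) (Z' : Matrix (Fin a) (Fin a) ℂ)
      (E : Matrix (Fin G ⊕ Fin G) (Fin a ⊕ Fin a) ℚ)
      (F : Matrix (Fin a ⊕ Fin a) (Fin G ⊕ Fin G) ℚ), Fac Z Z' E F → PM Z' → IsSimpleAV Z' →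
        ¬Bad Z') : GoodF4 Z := by
  refine ⟨fun a Z' E F hf h' hs ha => ?_, ?_⟩
  · rcases good_simple h' hs ha ((fac_le hf).trans hG) (hb a Z' E F hf h' hs) with
      h1 | h1 | h1 | h1 | h1 | h1
    · exact Or.inl h1
    · exact Or.inr (Or.inr (Or.inr (Or.inl h1)))
    · exact Or.inr (Or.inr (Or.inr (Or.inr (Or.inl h1))))
    · exact Or.inr (Or.inr (Or.inr (Or.inr (Or.inr (Or.inl h1)))))
    · exact Or.inr (Or.inr (Or.inr (Or.inr (Or.inr (Or.inr (Or.inr (Or.inl h1)))))))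
    · exact Or.inr (Or.inr (Or.inr (Or.inr (Or.inr (Or.inr (Or.inr (Or.inr h1)))))))
  · intro a₁ a₂ Z₁ Z₂ E₁ F₁ E₂ F₂ hf₁ hf₂ h₁ h₂ hs₁ hs₂ ha₁ ha₂ φ₁ φ₂ m₁ m₂ c₁ c₂
    exact sepM_of hG hf₁ hf₂ h₁ h₂ hs₁ hs₂ ha₁ ha₂ m₁ m₂ c₁ c₂

/-- Small period matrices. -/
theorem good_three (hG : G ≤ 3) : GoodF4 Z := by
  refine good_of (by omega) fun a Z' E F hf _ _ hb => ?_
  have h1 := fac_le hf
  rcases hb with ⟨-, hb⟩ | hb
  · omega
  · have h2 := hb.four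
    omega

theorem allF_three (h : PM Z) (hG : G ≤ 3) : AllF Z := allF_good h (good_three hG)

end

end Pool.Agent.H926
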