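import Mathlib
import Pool.Agent.H926.Good

/-!
# Complements of simple factors
-/

set_option linter.unusedSectionVars false

namespace Pool.Agent.H926

open Matrix Module Pool.Agent.Y90 Pool.Agent.W437.HC Pool.Agent.W437.HD
  Pool.Agent.TH504.CB
open Pool.Agent.W548.Odd hiding cv
open Pool.Agent.W437.HP (cK cK_mul cK_one)

noncomputable section

variable {G a : ℕ} {Z : Matrix (Fin G) (Fin G) ℂ} {Z₁ : Matrix (Fin a) (Fin a) ℂ}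
  {E₁ : Matrix (Fin G ⊕ Fin G) (Fin a ⊕ Fin a) ℚ} {F₁ : Matrix (Fin a ⊕ Fin a) (Fin G ⊕ Fin G) ℚ}

theorem JR_of_fd (h : cK ℂ F₁ * DZ Z = DZ Z₁ * cK ℂ F₁) :
    cK ℝ F₁ * JR Z = JR Z₁ * cK ℝ F₁ := by
  have h1 : (cK ℝ F₁ * JR Z).map (fun x : ℝ => (x : ℂ)) =
      cK ℂ F₁ * (JR Z).map (fun x : ℝ => (x : ℂ)) := by
    rw [← cK_R F₁]
    exact Matrix.map_mul (f := Complex.ofRealHom)
  have h2 : (JR Z₁ * cK ℝ F₁).map (fun x : ℝ => (x : ℂ)) =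
      (JR Z₁).map (fun x : ℝ => (x : ℂ)) * cK ℂ F₁ := by
    rw [← cK_R F₁]
    exact Matrix.map_mul (f := Complex.ofRealHom)
  have h3 : (cK ℝ F₁ * JR Z).map (fun x : ℝ => (x : ℂ)) =
      (JR Z₁ * cK ℝ F₁).map (fun x : ℝ => (x : ℂ)) := by
    rw [h1, h2]
    unfold DZ at h
    rw [Matrix.mul_smul, Matrix.smul_mul] at h
    have h4 : (-Complex.I) ≠ 0 := neg_ne_zero.2 Complex.I_ne_zero
    exact smul_right_injective _ h4 h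
  ext i j
  have h4 := congrFun (congrFun h3 i) j
  simpa [Matrix.map_apply] using h4

/-- Complements. -/
theorem exists_compl (h : PM Z) (hf : Fac Z Z₁ E₁ F₁) :
    ∃ (b : ℕ) (Z₂ : Matrix (Fin b) (Fin b) ℂ) (E₂ : Matrix (Fin G ⊕ Fin G) (Fin b ⊕ Fin b) ℚ)
      (F₂ : Matrix (Fin b ⊕ Fin b) (Fin G ⊕ Fin G) ℚ), PM Z₂ ∧ Dec Z Z₁ Z₂ E₁ F₁ E₂ F₂ ∧
        a + b ≤ G := by
  have hF := JR_of_fd hf.fd
  obtain ⟨b, E₂, Z₂, hZ₂, hpos₂, hE₂, hEU, hJ₂, hd₂⟩ := exists_sub h.symm h.pos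
    (LinearMap.ker (Matrix.mulVecLin F₁)) (jstable_ker hf.fe hF)
  have hFE₂ := symF_mul hE₂
  have hFJ₂ := fd_of_JR (symF_JR h.symm hZ₂ hJ₂)
  have h12 : F₁ * E₂ = 0 := by
    ext i q
    have h1 : E₂ *ᵥ Pi.single q 1 ∈ LinearMap.ker (Matrix.mulVecLin F₁) := (hEU _).2 ⟨_, rfl⟩
    rw [LinearMap.mem_ker, mulVecLin_apply, mulVec_mulVec, mulVec_single_one] at h1
    exact congrFun h1 i
  obtain ⟨F₂, hF₂⟩ : ∃ F₂, F₂ = symF E₂ * (1 - E₁ * F₁) := ⟨_, rfl⟩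
  have hfe : F₂ * E₂ = 1 := by
    rw [hF₂, Matrix.mul_assoc, Matrix.sub_mul, Matrix.one_mul, Matrix.mul_assoc E₁, h12,
      Matrix.mul_zero, sub_zero, hFE₂]
  have h21 : F₂ * E₁ = 0 := by
    rw [hF₂, Matrix.mul_assoc, Matrix.sub_mul, Matrix.one_mul, Matrix.mul_assoc E₁, hf.fe,
      Matrix.mul_one, sub_self, Matrix.mul_zero]
  have hsum : E₁ * F₁ + E₂ * F₂ = 1 := by
    refine Matrix.ext_of_mulVec_single fun q => ?_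
    obtain ⟨x, hxq⟩ : ∃ x : Fin G ⊕ Fin G → ℚ, x = Pi.single q 1 := ⟨_, rfl⟩
    rw [← hxq]
    obtain ⟨y, hy⟩ := (hEU (x - E₁ *ᵥ (F₁ *ᵥ x))).1 (by
      rw [LinearMap.mem_ker, mulVecLin_apply, mulVec_sub, mulVec_mulVec, mulVec_mulVec,
        hf.fe, Matrix.one_mul, sub_self])
    have h1 : F₂ *ᵥ x = y := by
      have h2 : (1 - E₁ * F₁) *ᵥ x = E₂ *ᵥ y := by
        rw [hy, sub_mulVec, one_mulVec, mulVec_mulVec]
      rw [hF₂, ← mulVec_mulVec, h2, mulVec_mulVec, hFE₂, one_mulVec]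
    rw [add_mulVec, one_mulVec, ← mulVec_mulVec, ← mulVec_mulVec, h1, hy]
    abel
  have hfd : cK ℂ F₂ * DZ Z = DZ Z₂ * cK ℂ F₂ := by
    have h1 : cK ℂ F₂ = cK ℂ (symF E₂) * (1 - cK ℂ E₁ * cK ℂ F₁) := by
      have h2 : cK ℂ (1 - E₁ * F₁) = 1 - cK ℂ E₁ * cK ℂ F₁ := by
        rw [← cK_mul]
        ext i j
        by_cases hij : i = j <;> simp [cK, hij]
      rw [hF₂, cK_mul, h2]
    have h3 : (1 - cK ℂ E₁ * cK ℂ F₁) * DZ Z = DZ Z * (1 - cK ℂ E₁ * cK ℂ F₁) := by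
      rw [Matrix.sub_mul, Matrix.mul_sub, Matrix.one_mul, Matrix.mul_one, Matrix.mul_assoc, hf.fd,
        ← Matrix.mul_assoc, ← Matrix.mul_assoc, hf.de]
    rw [h1, Matrix.mul_assoc, h3, ← Matrix.mul_assoc, hFJ₂, Matrix.mul_assoc]
  exact ⟨b, Z₂, E₂, F₂, ⟨hZ₂, hpos₂⟩, ⟨hf, ⟨hfe, de_of_JR hJ₂, hfd⟩, h12, h21, hsum⟩,
    dim_add hf.fe hfe h21⟩

end

end Pool.Agent.H926
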