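import Mathlib
import Pool.Agent.H926.Cmp

/-!
# Hodge classes on abelian varieties of dimension at most seven
-/

set_option linter.unusedSectionVars false

namespace Pool.Agent.H926

open Matrix Module Pool.Agent.Y90 Pool.Agent.W437.HC Pool.Agent.W437.HD
  Pool.Agent.TH504.CB
open Pool.Agent.W548.Odd hiding cv
open Pool.Agent.W437.HP (cK cK_mul cK_one)
open Pool.Agent.H204R3.CM (IsHodge)
open Pool.Agent.H204R3.SP (Kills bil2)
open Pool.Agent.Y4.P (NZ WeilRing altQ_alt)

noncomputable section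

variable {G : ℕ} {Z : Matrix (Fin G) (Fin G) ℂ}

/-- **All alternating forms killed by the Lie algebra belong to the system** in dimension at most
seven. -/
theorem altFo_seven (h : PM Z) (hG : G ≤ 7) : AltFo Z := by
  by_cases hb : ∃ (a : ℕ) (Z' : Matrix (Fin a) (Fin a) ℂ)
      (E : Matrix (Fin G ⊕ Fin G) (Fin a ⊕ Fin a) ℚ)
      (F : Matrix (Fin a ⊕ Fin a) (Fin G ⊕ Fin G) ℚ), Fac Z Z' E F ∧ PM Z' ∧ IsSimpleAV Z' ∧
        Bad Z'
  · obtain ⟨a, Z₁, E₁, F₁, hf, h₁, hs, hbad⟩ := hb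
    obtain ⟨b, Z₂, E₂, F₂, h₂, D, hab⟩ := exists_compl h hf
    rcases hbad with ⟨hT, ha⟩ | hM
    · exact D.kunneth h h₁ h₂ (t3_hsp h₁ hs hT (by omega) D h h₂) (t3_altFo h₁ hs hT ha)
        (allF_three h₂ (by omega))
    · have ha := hM.four
      exact D.kunneth h h₁ h₂ (mum_hsp h₁ hM (by omega) D h h₂) (mum_altFo h₁ hM)
        (allF_three h₂ (by omega))
  · intro κ _ _ ψ hψ
    refine allF_good h (good_of hG fun a Z' E F hf h' hs' hb' => hb
      ⟨a, Z', E, F, hf, h', hs', hb'⟩) κ ψ.toMultilinearMap hψ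

/-- Hodge classes are killed by the Lie algebra. -/
theorem hodge_kills (h : PM Z) {κ : Type} [Fintype κ] [DecidableEq κ]
    {f : (Fin G ⊕ Fin G → ℚ) [⋀^κ]→ₗ[ℚ] ℚ} (hf : IsHodge (perOne Z) f) :
    ∀ X ∈ LZ Z, Kills (ph (Fin G ⊕ Fin G) X) (evalM (cst ℂ (CF f.toMultilinearMap))) := by
  have h1 : act (DZ Z) (cst ℂ (CF f.toMultilinearMap)) = 0 := h.cht.isH hf
  let C : Submodule ℂ (Matrix (Fin G ⊕ Fin G) (Fin G ⊕ Fin G) ℂ) :=
    { carrier := {X | act X (cst ℂ (CF f.toMultilinearMap)) = 0}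
      add_mem' := fun {X Y} hX hY => by
        change act (X + Y) _ = 0
        rw [act_add_left, show act X (cst ℂ (CF f.toMultilinearMap)) = 0 from hX,
          show act Y (cst ℂ (CF f.toMultilinearMap)) = 0 from hY, add_zero]
      zero_mem' := act_zero_left _
      smul_mem' := fun c X hX => by
        change act (c • X) _ = 0
        rw [act_smul_left, show act X (cst ℂ (CF f.toMultilinearMap)) = 0 from hX, smul_zero] }
  have hC : LZ Z ≤ C := by
    refine LZ_le (fun σ => ?_) (fun A hA B hB => act_bracket hA hB)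
    change act (DS Z σ) (cst ℂ (CF f.toMultilinearMap)) = 0
    funext I
    have h2 := congrArg σ (congrFun h1 I)
    rw [Pi.zero_apply, map_zero] at h2
    rw [Pi.zero_apply, ← h2]
    simp only [act, map_sum, map_mul, cst, map_ratCast]
    rfl
  intro X hX
  refine kills_of_act ?_
  have h3 : CF (evalM (cst ℂ (CF f.toMultilinearMap))) = cst ℂ (CF f.toMultilinearMap) := by
    funext I
    unfold CF
    rw [evalM_apply, evalF_single]
  rw [h3]
  exact hC hX

/-- Extensions of alternating forms. -/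
theorem ext_perm {κ : Type} [Fintype κ] [DecidableEq κ]
    (f : (Fin G ⊕ Fin G → ℚ) [⋀^κ]→ₗ[ℚ] ℚ) (σ : Equiv.Perm κ) (v : κ → Fin G ⊕ Fin G → ℂ) :
    evalM (cst ℂ (CF f.toMultilinearMap)) (fun k => v (σ k)) =
      ((Equiv.Perm.sign σ : ℤ) : ℂ) * evalM (cst ℂ (CF f.toMultilinearMap)) v := by
  have h1 : (evalM (cst ℂ (CF f.toMultilinearMap))).domDomCongr σ =
      (((Equiv.Perm.sign σ : ℤ) : ℂ)) • evalM (cst ℂ (CF f.toMultilinearMap)) := by
    refine Basis.ext_multilinear (fun _ => Pi.basisFun ℂ (Fin G ⊕ Fin G)) fun I => ?_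
    simp only [Pi.basisFun_apply]
    rw [MultilinearMap.domDomCongr_apply, _root_.smul_apply, evalM_apply, evalM_apply,
      evalF_single, evalF_single]
    have h3 : f.toMultilinearMap (fun k => Pi.single (I (σ k)) 1) =
        ((Equiv.Perm.sign σ : ℤ) : ℚ) * f.toMultilinearMap (fun k => Pi.single (I k) 1) := by
      have h4 := f.map_perm (fun k => (Pi.single (I k) 1 : Fin G ⊕ Fin G → ℚ)) σ
      rw [Units.smul_def, zsmul_eq_mul] at h4
      exact h4
    have h5 : cst ℂ (CF f.toMultilinearMap) (fun k => I (σ k)) =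
        ((f.toMultilinearMap (fun k => Pi.single (I (σ k)) 1) : ℚ) : ℂ) := rfl
    have h6 : cst ℂ (CF f.toMultilinearMap) I =
        ((f.toMultilinearMap (fun k => Pi.single (I k) 1) : ℚ) : ℂ) := rfl
    rw [h5, h6, h3, smul_eq_mul]
    push_cast
    rfl
  have h2 := congrArg (fun F => F v) h1
  simp only [MultilinearMap.domDomCongr_apply, _root_.smul_apply, smul_eq_mul] at h2
  exact h2

/-- The complexification of an alternating form. -/
def extA {κ : Type} [Fintype κ] [DecidableEq κ]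
    (f : (Fin G ⊕ Fin G → ℚ) [⋀^κ]→ₗ[ℚ] ℚ) : (Fin G ⊕ Fin G → ℂ) [⋀^κ]→ₗ[ℂ] ℂ :=
  { evalM (cst ℂ (CF f.toMultilinearMap)) with
    map_eq_zero_of_eq' := by
      intro v i j hv hij
      have h1 := ext_perm f (Equiv.swap i j) v
      have h2 : (fun k => v (Equiv.swap i j k)) = v := by
        funext k
        by_cases hi : k = i
        · rw [hi, Equiv.swap_apply_left, hv]
        · by_cases hj : k = j
          · rw [hj, Equiv.swap_apply_right, hv]
          · rw [Equiv.swap_apply_of_ne_of_ne hi hj]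
      rw [h2, Equiv.Perm.sign_swap hij] at h1
      change evalM (cst ℂ (CF f.toMultilinearMap)) v = 0
      push_cast at h1
      linear_combination (1 / 2 : ℂ) * h1 }

/-- **The theorem for period matrices.** -/
theorem main_pm (h : PM Z) (hG : G ≤ 7) {κ : Type} [Finite κ]
    (f : (Fin G ⊕ Fin G → ℚ) [⋀^κ]→ₗ[ℚ] ℚ) (hf : IsHodge (perOne Z) f) :
    WeilRing (perOne Z) κ f := by
  classical
  let _ : Fintype κ := Fintype.ofFinite κ
  refine altQ_alt h f ?_
  have h1 : (extA f).toMultilinearMap ∈ NZ Z κ :=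
    altFo_seven h hG κ (extA f) (hodge_kills h hf)
  have h2 : evalM (cst ℂ (CF f.toMultilinearMap)) ∈ NZ Z κ := h1
  exact h2 _ _

/-- **The theorem for abstract abelian varieties.** -/
theorem main_av (H T : Type) [AddCommGroup H] [Module ℚ H] [AddCommGroup T] [Module ℂ T]
    (per : H →+ T) (hX : St.IsAV per) (h7 : finrank ℚ H ≤ 14) (κ : Type) [Finite κ]
    (f : H [⋀^κ]→ₗ[ℚ] ℚ) : IsHodge per f ↔ WeilRing per κ f := by
  refine ⟨fun hf => ?_, Pool.Agent.Y275.P.wr_isHodge⟩
  obtain ⟨a, Z, h, A, hC⟩ := exists_ppav hX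
  have ha : a ≤ 7 := by
    have h1 := A.finrank_eq
    rw [Module.finrank_fintype_fun_eq_card, Fintype.card_sum, Fintype.card_fin] at h1
    omega
  obtain ⟨Ψ₁, h₁⟩ := h.cht.hom hC (R := 1) (by rw [cK_one, Matrix.one_mul, Matrix.mul_one])
  obtain ⟨Ψ₂, h₂⟩ := hC.hom h.cht (R := 1) (by rw [cK_one, Matrix.one_mul, Matrix.mul_one])
  have e₁ : ∀ w, Ψ₁ (perOne Z w) = per (A.symm w) := fun w => by
    rw [h₁, one_mulVec]
    rfl
  have e₂ : ∀ v, Ψ₂ (per v) = perOne Z (A v) := fun v => by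
    have h3 := h₂ (A v)
    have h4 : (per.comp A.symm.toLinearMap.toAddMonoidHom) (A v) = per v := by
      change per (A.symm (A v)) = per v
      rw [LinearEquiv.symm_apply_apply]
    rwa [h4, one_mulVec] at h3
  have h5 : IsHodge (perOne Z) (f.compLinearMap A.symm.toLinearMap) :=
    Pool.Agent.TH504.CB.isHodge_comp A.symm.toLinearMap Ψ₁ e₁ hf
  have h6 := main_pm h ha _ h5
  have h7 := Pool.Agent.Y275.P.pull (per := per) h6 A.toLinearMap Ψ₂ e₂
  have h8 : (f.compLinearMap A.symm.toLinearMap).compLinearMap A.toLinearMap = f := by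
    ext v
    rw [AlternatingMap.compLinearMap_apply, AlternatingMap.compLinearMap_apply]
    congr 1
    funext k
    exact A.symm_apply_apply (v k)
  rwa [h8] at h7

end

end Pool.Agent.H926
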